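import Pool.Agent.H63.Sey.Conn

/-!
# Good matroids: every `2`-separation is small (Seymour project, MP_dbe88a_co)
-/

set_option autoImplicit false

namespace Pool.Agent.H87.Sey

open Pool.Agent.H63.Sey

universe u

variable {α : Type u} [DecidableEq α]

/-- every `2`-separation has a side with at most two elements -/
def Good {K : Type} [Field K] (M : LM K α) : Prop :=
  ∀ X ⊆ M.E, M.lam X ≤ 1 → X.card ≤ 2 ∨ (M.E \ X).card ≤ 2

lemma Good.dual {K : Type} [Field K] {M : LM K α} (h : Good M) : Good M.dual := by
  intro X hX hl
  rw [M.lam_dual X hX] at hl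
  exact h X hX hl

end Pool.Agent.H87.Sey
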