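import Pool.Agent.H87.Sey.Parts2
import Pool.Agent.H63.Sey.PtE

/-!
# Parts are minors, linking (Seymour project, MP_dbe88a_co; helper63)
-/

set_option autoImplicit false

namespace Pool.Agent.H87.Sey

open Pool.Agent.H63.Sey

universe u

variable {α : Type u} [DecidableEq α]

/-- the part for a `2`-separation is a minor: `S 0` may be taken minimal with its sum; contract all
but one element of it, delete the rest -/
theorem parts1 {M : BM α} {A : Finset α} (hA : A ⊆ M.E) {R S : Fin 1 → Finset α}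
    (h : Guts M A R S) : ∃ (P : BM α) (z : Fin 1 → α), IsPart M P A z R ∧ P.IsMinor M ∧
      ∀ i, z i ∈ M.E \ A :=
  exists_part1 hA h

/-- the part for a `3`-separation of a `3`-connected matroid is a minor -/
theorem parts3 {M : BM α} (hM : M.Conn3) {A : Finset α} (hA : A ⊆ M.E)
    {R S : Fin 3 → Finset α} (h : Guts M A R S) (ht : Tri M R) (h4 : 4 ≤ (M.E \ A).card) :
    ∃ (P : BM α) (z : Fin 3 → α), IsPart M P A z R ∧ P.IsMinor M ∧ ∀ i, z i ∈ M.E \ A :=
  exists_part3 hM hA h ht h4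

/-- linking theorem for two disjoint `3`-separating sets -/
theorem link2 {M : BM α} {A B : Finset α} (hA : A ⊆ M.E) (hB : B ⊆ M.E) (hAB : Disjoint A B)
    (hlA : M.lam A = 2) (hlB : M.lam B = 2)
    (hk : ∀ X, A ⊆ X → X ⊆ M.E → Disjoint X B → 2 ≤ M.lam X) :
    ∃ N : BM α, N.IsMinor M ∧ N.E = A ∪ B ∧ N.lam A = 2 ∧ N.rk A = M.rk A ∧ N.rk B = M.rk B := by
  obtain ⟨N, h1, h2, h3, h4, h5⟩ := exists_link2 hA hB hAB hlA hlB fun X a b c => hk X a c b
  refine ⟨N, h1, h2, h3, ?_, ?_⟩
  · show Module.finrank _ _ = Module.finrank _ _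
    rw [h4]
  · show Module.finrank _ _ = Module.finrank _ _
    rw [h5]

end Pool.Agent.H87.Sey
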