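import Pool.Agent.H87.Sey.SumClosed
import Pool.Agent.H87.Sey.PartsMinor
import Pool.Agent.H87.Sey.GoodDef

/-!
# Deletion/contraction lemma (Pl) (Seymour project, MP_dbe88a_co, job S87-16)
-/

set_option autoImplicit false

namespace Pool.Agent.H87.Sey

open Pool.Agent.H63.Sey

universe u

variable {α : Type u} [DecidableEq α]

/-! ### auxiliary lemmas -/

namespace PlAux

lemma z01 (c : ZMod 2) : c = 0 ∨ c = 1 := by
  revert c
  decide

/-- contraction of an element preserves minors -/
lemma con_isMinor {M N : BM α} (h : N.IsMinor M) {f : α} (hf : f ∈ N.E) :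
    (N.con {f}).IsMinor (M.con {f}) := by
  obtain ⟨C, D, hCD, rfl⟩ := h
  rw [LM.del_E, LM.con_E, Finset.mem_sdiff, Finset.mem_sdiff] at hf
  have h1 : Disjoint ({f} : Finset α) D := Finset.disjoint_singleton_left.2 hf.2
  have h2 : ((M.con C).del D).con {f} = ((M.con {f}).con C).del D := by
    rw [← LM.con_del _ h1, LM.con_con, LM.con_con, Finset.union_comm]
  rw [h2]
  exact ⟨C, D, hCD, rfl⟩

/-- a nonzero cocycle lowers the rank of the complement of its support -/
lemma rk_compl_lt {M : BM α} {x : α → ZMod 2} (hx : x ∈ M.D) {X : Finset α}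
    (hX : ∀ a ∈ M.E, a ∉ X → x a = 0) {a : α} (ha : a ∈ M.E) (hxa : x a ≠ 0) :
    M.rk (M.E \ X) < M.rk M.E := by
  by_contra hcon
  push Not at hcon
  have h1 := M.inCl_of_rk_le (X := M.E \ X) (Y := M.E) Finset.sdiff_subset hcon ha
  refine hxa (h1 x hx fun b hb => ?_)
  rw [Finset.mem_sdiff] at hb
  exact hX b hb.1 hb.2

/-- cocycles of a `3`-connected matroid have at least three elements -/
lemma three_le_cocycle {M : BM α} (hM : M.Conn3) (h4 : 4 ≤ M.E.card) {x : α → ZMod 2}
    (hx : x ∈ M.D) {X : Finset α} (hXE : X ⊆ M.E) (hX : ∀ a ∈ M.E, a ∉ X → x a = 0)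
    {a : α} (ha : a ∈ M.E) (hxa : x a ≠ 0) : 3 ≤ X.card := by
  have h1 := rk_compl_lt hx hX ha hxa
  have h2 := M.lam_add X
  have h3 := M.rk_le_card X
  have haX : a ∈ X := by
    by_contra h
    exact hxa (hX a ha h)
  have hpos : 1 ≤ X.card := Finset.card_pos.2 ⟨a, haX⟩
  have hcard : (M.E \ X).card + X.card = M.E.card := Finset.card_sdiff_add_card_eq_card hXE
  by_contra hcon
  push Not at hcon
  rcases Nat.lt_or_ge X.card 2 with h5 | h5
  · have h6 := hM.1 X hXE ⟨a, haX⟩ (Finset.card_pos.1 (by omega))
    omega
  · have h6 := hM.2 X hXE h5 (by omega)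
    omega

/-- an element outside the closure of `X` is seen by a cocycle vanishing on `X` -/
lemma exists_of_not_inCl {M : BM α} {X : Finset α} {a : α} (h : ¬ M.InCl X a) :
    ∃ y ∈ M.D, (∀ b ∈ X, y b = 0) ∧ y a = 1 := by
  unfold LM.InCl at h
  push Not at h
  obtain ⟨y, hy, h1, h2⟩ := h
  exact ⟨y, hy, h1, (z01 (y a)).resolve_left h2⟩

/-- if a cocycle of `M` is not constant... : cocycles of `M.del {f}` are restrictions -/
lemma part_of_minor {K : BM α} {f : α} {P C₀ D₀ : Finset α} {R : Fin 1 → Finset α} {z : α}
    (hR : ∀ i, R i ⊆ P) (hfP : f ∉ P) (hzP : z ∉ P) (hfC : f ∈ C₀) (hCD : Disjoint C₀ D₀)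
    (hE : (K.E \ C₀) \ D₀ = insert z P)
    (h1 : ∀ y ∈ K.D, (∀ a ∈ C₀, y a = 0) → y z = ∑ a ∈ R 0, y a)
    (h2 : ∀ y ∈ K.D, ∃ v ∈ K.D, (∀ a ∈ P, v a = y a) ∧ ∀ a ∈ C₀, v a = 0) :
    ∃ (P' : BM α) (z : Fin 1 → α), IsPart (K.del {f}) P' P z R ∧ P'.IsMinor (K.con {f}) := by
  have hmin : ((K.con C₀).del D₀).IsMinor (K.con {f}) := by
    have e : K.con C₀ = (K.con {f}).con (C₀ \ {f}) := by
      rw [LM.con_con, Finset.union_sdiff_of_subset (Finset.singleton_subset_iff.2 hfC)]
    rw [e]
    exact ⟨C₀ \ {f}, D₀, Finset.disjoint_of_subset_left Finset.sdiff_subset hCD, rfl⟩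
  refine ⟨(K.con C₀).del D₀, fun _ => z, ⟨?_, fun _ => hzP, ?_, ?_⟩, hmin⟩
  · intro i j _
    exact Subsingleton.elim i j
  · rw [LM.del_E, LM.con_E, hE]
    ext a
    simp
  · intro w
    have hsum : ∀ y v : α → ZMod 2, (∀ a ∈ P, v a = y a) → ∑ a ∈ R 0, v a = ∑ a ∈ R 0, y a :=
      fun y v h => Finset.sum_congr rfl fun a ha => h a (hR 0 ha)
    have hzE : z ∈ (K.E \ C₀) \ D₀ := by
      rw [hE]
      exact Finset.mem_insert_self _ _
    have hPE : ∀ a ∈ P, a ∈ (K.E \ C₀) \ D₀ := by
      intro a ha
      rw [hE]
      exact Finset.mem_insert_of_mem ha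
    constructor
    · intro hw
      refine ⟨fun a ha => ((K.con C₀).del D₀).supp w hw a ha, ?_⟩
      obtain ⟨h3, v, hv, h4⟩ := (LM.mem_del _).1 hw
      obtain ⟨hvK, hv0⟩ := (LM.mem_con _).1 hv
      refine ⟨fun a => if a ∈ ({f} : Finset α) then 0 else v a,
        (LM.mem_del _).2 ⟨fun a ha => if_pos ha, v, hvK, fun a ha => if_neg ha⟩, ?_, ?_⟩
      · intro a ha
        have ha' := hPE a ha
        rw [Finset.mem_sdiff] at ha'
        have haf : a ∉ ({f} : Finset α) := by
          rw [Finset.mem_singleton]
          rintro rfl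
          exact hfP ha
        change w a = if a ∈ ({f} : Finset α) then 0 else v a
        rw [if_neg haf, h4 a ha'.2]
      · intro i
        rw [Finset.mem_sdiff] at hzE
        rw [h4 z hzE.2, h1 v hvK hv0, Subsingleton.elim i 0]
        refine Finset.sum_congr rfl fun a ha => ?_
        have haf : a ∉ ({f} : Finset α) := by
          rw [Finset.mem_singleton]
          rintro rfl
          exact hfP (hR 0 ha)
        change v a = if a ∈ ({f} : Finset α) then 0 else v a
        rw [if_neg haf]
    · rintro ⟨h3, y, hy, h4, h5⟩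
      obtain ⟨_, y', hy', h6⟩ := (LM.mem_del _).1 hy
      obtain ⟨v, hv, h7, h8⟩ := h2 y' hy'
      have h9 : ∀ a ∈ P, v a = y a := by
        intro a ha
        rw [h7 a ha, h6 a]
        rw [Finset.mem_singleton]
        rintro rfl
        exact hfP ha
      refine (LM.mem_del _).2 ⟨fun a ha => ?_, v, (LM.mem_con _).2 ⟨hv, h8⟩, ?_⟩
      · apply h3
        rw [LM.del_E, Finset.mem_sdiff]
        exact fun h => h.2 ha
      · intro a ha
        by_cases haE : a ∈ (K.E \ C₀) \ D₀
        · rw [hE, Finset.mem_insert] at haE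
          rcases haE with rfl | haP
          · rw [h5 0, h1 v hv h8]
            exact (hsum y v h9).symm
          · rw [h4 a haP, h9 a haP]
        · rw [h3 a haE]
          by_cases haC : a ∈ C₀
          · exact (h8 a haC).symm
          · symm
            apply K.supp v hv
            intro haK
            exact haE (Finset.mem_sdiff.2 ⟨Finset.mem_sdiff.2 ⟨haK, haC⟩, ha⟩)

end PlAux

open PlAux

/-- Let `(P, Q)` be a `2`-separation of `K.del {f}` with `|Q| ≥ 3`, guts point `u`. Then the part
of `K.del {f}` on `P` is a minor of `K.con {f}`.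
`X = P ∪ {f}` has `K.lam X = 2` (`≥` by `Conn3`, `≤` by `lam_del_single`); `f` is not in the closure
of `P` in `K` (otherwise `K.lam X ≤ 1`), so every cocycle of `K` agrees on `P` with one vanishing
at `f`; `u` is one of the three guts points of `X` (`exists_guts3`, `Guts.full`), say `R₃ i`.
If `|Q| ≥ 4`: `parts3` for `X` gives a minor `P₃` of `K` on `X ∪ {z 0, z 1, z 2}`; contract `f`,
delete `z j`, `z k`.
If `|Q| = 3` and `K.rk Q = 2`: `Q` is a triangle and `u` is an element `q` of `Q` (the sum of a
subset of `Q` is `0` or an element of `Q`): delete the two others.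
If `|Q| = 3` and `K.rk Q = 3`: then `K.rk X = K.rk K.E - 1`, so there is a cocycle vanishing on
`X` and equal to `1` on `Q`(no element of `Q` is in the closure of `X`, otherwise ... `Conn3`), so
`u` is a sum of two elements `q, q'` of `Q`: contract `q'` (and `f`), delete the third. -/
theorem pl_half {K : BM α} (hc : K.Conn3) {f : α} (hf : f ∈ K.E) {P : Finset α}
    (hP : P ⊆ K.E \ {f}) (hl : (K.del {f}).lam P = 1) (h2 : 2 ≤ P.card)
    (h3 : 3 ≤ ((K.E \ {f}) \ P).card) {R S : Fin 1 → Finset α} (h : Guts (K.del {f}) P R S) :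
    ∃ (P' : BM α) (z : Fin 1 → α), IsPart (K.del {f}) P' P z R ∧ P'.IsMinor (K.con {f}) := by
  classical
  have hfP : f ∉ P := fun h' => (Finset.mem_sdiff.1 (hP h')).2 (Finset.mem_singleton_self f)
  have hPE : P ⊆ K.E := hP.trans Finset.sdiff_subset
  set Q : Finset α := (K.E \ {f}) \ P with hQ
  have hQE : Q ⊆ K.E := Finset.sdiff_subset.trans Finset.sdiff_subset
  have hfQ : f ∉ Q := by
    intro h'
    rw [hQ, Finset.mem_sdiff, Finset.mem_sdiff] at h'
    exact h'.1.2 (Finset.mem_singleton_self f)
  have hPQ : ∀ a ∈ P, a ∉ Q := by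
    intro a ha h'
    rw [hQ, Finset.mem_sdiff] at h'
    exact h'.2 ha
  have hEc : ∀ a ∈ K.E, a = f ∨ a ∈ P ∨ a ∈ Q := by
    intro a ha
    by_cases h1 : a = f
    · exact Or.inl h1
    · by_cases h2' : a ∈ P
      · exact Or.inr (Or.inl h2')
      · refine Or.inr (Or.inr ?_)
        rw [hQ, Finset.mem_sdiff, Finset.mem_sdiff, Finset.mem_singleton]
        exact ⟨⟨ha, h1⟩, h2'⟩
  -- `X = P ∪ {f}`
  set X : Finset α := insert f P with hX
  have hXE : X ⊆ K.E := Finset.insert_subset hf hPE
  have hXc : K.E \ X = Q := by
    rw [hX, hQ]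
    ext a
    simp only [Finset.mem_sdiff, Finset.mem_insert, Finset.mem_singleton]
    tauto
  have hXcard : X.card = P.card + 1 := Finset.card_insert_of_notMem hfP
  have hlQ : K.lam Q ≤ 2 := by
    have h1 := K.lam_del_single hQE hfQ hf
    have h3' : (K.del {f}).lam Q = (K.del {f}).lam P := by
      have := (K.del {f}).lam_compl P hP
      rw [LM.del_E] at this
      exact this
    omega
  have hlX : K.lam X = 2 := by
    have h1 : K.lam Q = K.lam X := by rw [← hXc, K.lam_compl X hXE]
    have h3' := hc.2 X hXE (by omega) (by rw [hXc]; omega)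
    omega
  -- `f` is not in the closure of `P`
  have hdE : K.E \ {f} = P ∪ Q := by
    rw [hQ, Finset.union_sdiff_of_subset hP]
  have hfcl : ¬ K.InCl P f := by
    intro hcl
    have e1 : K.rk X = K.rk P := by
      rw [hX]
      exact K.inCl_iff_rk.1 hcl
    have e2 : K.rk K.E = K.rk (K.E \ {f}) := by
      have h1 : K.InCl (K.E \ {f}) f := hcl.mono hP
      have h3' := K.inCl_iff_rk.1 h1
      rw [← Finset.erase_eq, Finset.insert_erase hf] at h3'
      rw [h3', Finset.erase_eq]
    have e3 := K.lam_add X
    rw [hXc] at e3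
    have e4 := (K.del {f}).lam_add P
    rw [K.rk_del, K.rk_del, K.rk_del, LM.del_E] at e4
    have e5 : P \ {f} = P := Finset.sdiff_eq_self_of_disjoint (Finset.disjoint_singleton_right.2 hfP)
    have e6 : ((K.E \ {f}) \ P) \ {f} = Q := by
      rw [← hQ]
      exact Finset.sdiff_eq_self_of_disjoint (Finset.disjoint_singleton_right.2 hfQ)
    have e7 : (K.E \ {f}) \ {f} = K.E \ {f} := by
      ext a
      simp only [Finset.mem_sdiff]
      tauto
    rw [e5, e6, e7] at e4
    omega
  obtain ⟨c, hcD, hcP, hcf⟩ := exists_of_not_inCl hfcl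
  -- the relation in `K`
  have hR : ∀ i, R i ⊆ P := h.R_sub
  have hS : ∀ i, S i ⊆ Q := h.S_sub
  have hrel : ∀ y ∈ K.D, ∑ a ∈ R 0, y a = ∑ a ∈ S 0, y a := by
    intro y hy
    have hmem : (fun a => if a ∈ ({f} : Finset α) then 0 else y a) ∈ (K.del {f}).D :=
      (LM.mem_del _).2 ⟨fun a ha => if_pos ha, y, hy, fun a ha => if_neg ha⟩
    have h1 := h.eq 0 _ hmem
    have h4 : ∀ Z : Finset α, f ∉ Z →
        ∑ a ∈ Z, (if a ∈ ({f} : Finset α) then 0 else y a) = ∑ a ∈ Z, y a := by
      intro Z hZ
      refine Finset.sum_congr rfl fun a ha => if_neg ?_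
      rw [Finset.mem_singleton]
      rintro rfl
      exact hZ ha
    rw [h4 _ fun h' => hfP (hR 0 h'), h4 _ fun h' => hfQ (hS 0 h')] at h1
    exact h1
  have hnz : ∃ y ∈ K.D, ∑ a ∈ R 0, y a ≠ 0 := by
    obtain ⟨y, hy, h1⟩ := h.nz 0
    obtain ⟨_, y', hy', h4⟩ := (LM.mem_del _).1 hy
    refine ⟨y', hy', ?_⟩
    have h5 : ∑ a ∈ R 0, y' a = ∑ a ∈ R 0, y a := by
      refine Finset.sum_congr rfl fun a ha => (h4 a ?_).symm
      rw [Finset.mem_singleton]
      rintro rfl
      exact hfP (hR 0 ha)
    rwa [h5]
  rcases Nat.lt_or_ge Q.card 4 with hQ4 | hQ4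
  · -- `|Q| = 3`
    have hQ3 : Q.card = 3 := by omega
    obtain ⟨q0, q1, q2, h01, h02, h12, hQq⟩ := Finset.card_eq_three.1 hQ3
    have hKcard : 4 ≤ K.E.card := by
      have := Finset.card_le_card hXE
      have h5 : (K.E \ X).card + X.card = K.E.card := Finset.card_sdiff_add_card_eq_card hXE
      rw [hXc] at h5
      omega
    -- one element of `Q` is at `u`, or a sum of two elements is, together with `1_Q ∈ D`
    by_cases hone : ∃ q ∈ Q, ∀ y ∈ K.D, y q = ∑ a ∈ R 0, y a
    · obtain ⟨q, hqQ, hq⟩ := hone
      refine part_of_minor (K := K) (f := f) (P := P) (C₀ := {f}) (D₀ := Q.erase q) (z := q) hR hfP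
        (fun h' => hPQ q h' hqQ) (Finset.mem_singleton_self f) ?_ ?_ ?_ ?_
      · rw [Finset.disjoint_singleton_left]
        exact fun h' => hfQ (Finset.mem_of_mem_erase h')
      · ext a
        simp only [Finset.mem_sdiff, Finset.mem_singleton, Finset.mem_erase, Finset.mem_insert]
        constructor
        · rintro ⟨⟨h1, h4⟩, h5⟩
          rcases hEc a h1 with h6 | h6 | h6
          · exact absurd h6 h4
          · exact Or.inr h6
          · left
            by_contra h7
            exact h5 ⟨h7, h6⟩
        · rintro (rfl | h1)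
          · refine ⟨⟨hQE hqQ, ?_⟩, fun h' => h'.1 rfl⟩
            rintro rfl
            exact hfQ hqQ
          · refine ⟨⟨hPE h1, ?_⟩, fun h' => hPQ a h1 h'.2⟩
            rintro rfl
            exact hfP h1
      · intro y hy _
        exact hq y hy
      · intro y hy
        rcases z01 (y f) with h1 | h1
        · exact ⟨y, hy, fun _ _ => rfl, fun a ha => by rw [Finset.mem_singleton.1 ha, h1]⟩
        · refine ⟨y + c, K.D.add_mem hy hcD, fun a ha => ?_, fun a ha => ?_⟩
          · rw [Pi.add_apply, hcP a ha, add_zero]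
          · rw [Finset.mem_singleton.1 ha, Pi.add_apply, h1, hcf]
            decide
    · push Not at hone
      -- `Q` has rank three
      have hS0 : S 0 ⊆ {q0, q1, q2} := hQq ▸ hS 0
      have hSne : S 0 ≠ ∅ := by
        intro h'
        obtain ⟨y, hy, h1⟩ := hnz
        rw [hrel y hy, h', Finset.sum_empty] at h1
        exact h1 rfl
      have hS1 : ∀ q ∈ Q, S 0 ≠ {q} := by
        intro q hq h'
        obtain ⟨y, hy, h1⟩ := hone q hq
        rw [hrel y hy, h', Finset.sum_singleton] at h1
        exact h1 rfl
      have hrkQ : K.rk Q = 3 := by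
        by_contra hr
        have hr2 : K.rk Q ≤ 2 := by
          have := K.rk_le_card Q
          omega
        -- dependent: `1_Q` is a cycle
        have hdep : ∃ T ⊆ Q, T.Nonempty ∧ ∀ y ∈ K.D, ∑ a ∈ T, y a = 0 := by
          obtain ⟨B, hBQ, hBc, hBr⟩ := K.exists_basis Q
          have hlt : B.card < Q.card := by omega
          obtain ⟨q, hqQ, hqB⟩ := Finset.exists_mem_notMem_of_card_lt_card hlt
          have hcl : K.InCl B q := K.inCl_of_rk_le hBQ hBr.ge hqQ
          obtain ⟨T, hTB, hT⟩ := exists_sum_of_inCl K hcl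
          refine ⟨insert q T, Finset.insert_subset hqQ (hTB.trans hBQ),
            ⟨q, Finset.mem_insert_self _ _⟩, fun y hy => ?_⟩
          rw [Finset.sum_insert fun h' => hqB (hTB h'), hT y hy]
          exact CharTwo.add_self_eq_zero _
        obtain ⟨T, hTQ, hTne, hT⟩ := hdep
        -- cycles have at least three elements
        have hT3 : 3 ≤ T.card := by
          have hmem : (fun a => if a ∈ T then (1 : ZMod 2) else 0) ∈ K.dual.D := by
            rw [LM.mem_dual]
            refine ⟨fun a ha => if_neg fun h' => ha (hQE (hTQ h')), fun x hx => ?_⟩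
            have e : ∑ a ∈ K.E, x a * (if a ∈ T then (1 : ZMod 2) else 0) = ∑ a ∈ T, x a := by
              rw [← Finset.sum_subset (hTQ.trans hQE)]
              · refine Finset.sum_congr rfl fun a ha => ?_
                rw [if_pos ha, mul_one]
              · intro a _ ha
                rw [if_neg ha, mul_zero]
            exact e.trans (hT x hx)
          obtain ⟨a, ha⟩ := hTne
          refine three_le_cocycle hc.dual (by rw [LM.dual_E]; exact hKcard) hmem
            (hTQ.trans hQE) (fun b _ hb => if_neg hb) (a := a) (hQE (hTQ ha)) ?_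
          change (if a ∈ T then (1 : ZMod 2) else 0) ≠ 0
          rw [if_pos ha]
          exact one_ne_zero
        have hTeq : T = Q := Finset.eq_of_subset_of_card_le hTQ (by omega)
        rw [hTeq, hQq] at hT
        have hQsum : ∀ y ∈ K.D, y q0 + y q1 + y q2 = 0 := by
          intro y hy
          have := hT y hy
          rw [Finset.sum_insert (by simp [h01, h02]), Finset.sum_insert (by simp [h12]),
            Finset.sum_singleton, ← add_assoc] at this
          exact this
        have hz : ∀ a b d : ZMod 2, a + b + d = 0 → a + b = d ∧ a + d = b ∧ b + d = a := by decide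
        have hq0 : q0 ∈ Q := by rw [hQq]; simp
        have hq1 : q1 ∈ Q := by rw [hQq]; simp
        have hq2 : q2 ∈ Q := by rw [hQq]; simp
        -- the subsets of `Q`
        have hcases : S 0 = {q0, q1} ∨ S 0 = {q0, q2} ∨ S 0 = {q1, q2} ∨ S 0 = {q0, q1, q2} := by
          have hm : S 0 ∈ ({q0, q1, q2} : Finset α).powerset := Finset.mem_powerset.2 hS0
          by_cases m0 : q0 ∈ S 0 <;> by_cases m1 : q1 ∈ S 0 <;> by_cases m2 : q2 ∈ S 0
          · right; right; right
            apply Finset.Subset.antisymm hS0
            intro a ha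
            simp only [Finset.mem_insert, Finset.mem_singleton] at ha
            rcases ha with rfl | rfl | rfl <;> assumption
          · left
            ext a
            constructor
            · intro ha
              have := hS0 ha
              simp only [Finset.mem_insert, Finset.mem_singleton] at this ⊢
              rcases this with rfl | rfl | rfl
              · exact Or.inl rfl
              · exact Or.inr rfl
              · exact absurd ha m2
            · intro ha
              simp only [Finset.mem_insert, Finset.mem_singleton] at ha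
              rcases ha with rfl | rfl <;> assumption
          · right; left
            ext a
            constructor
            · intro ha
              have := hS0 ha
              simp only [Finset.mem_insert, Finset.mem_singleton] at this ⊢
              rcases this with rfl | rfl | rfl
              · exact Or.inl rfl
              · exact absurd ha m1
              · exact Or.inr rfl
            · intro ha
              simp only [Finset.mem_insert, Finset.mem_singleton] at ha
              rcases ha with rfl | rfl <;> assumption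
          · exfalso
            apply hS1 q0 hq0
            ext a
            constructor
            · intro ha
              have := hS0 ha
              simp only [Finset.mem_insert, Finset.mem_singleton] at this ⊢
              rcases this with rfl | rfl | rfl
              · rfl
              · exact absurd ha m1
              · exact absurd ha m2
            · intro ha
              rw [Finset.mem_singleton] at ha
              rw [ha]
              exact m0
          · right; right; left
            ext a
            constructor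
            · intro ha
              have := hS0 ha
              simp only [Finset.mem_insert, Finset.mem_singleton] at this ⊢
              rcases this with rfl | rfl | rfl
              · exact absurd ha m0
              · exact Or.inl rfl
              · exact Or.inr rfl
            · intro ha
              simp only [Finset.mem_insert, Finset.mem_singleton] at ha
              rcases ha with rfl | rfl <;> assumption
          · exfalso
            apply hS1 q1 hq1
            ext a
            constructor
            · intro ha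
              have := hS0 ha
              simp only [Finset.mem_insert, Finset.mem_singleton] at this ⊢
              rcases this with rfl | rfl | rfl
              · exact absurd ha m0
              · rfl
              · exact absurd ha m2
            · intro ha
              rw [Finset.mem_singleton] at ha
              rw [ha]
              exact m1
          · exfalso
            apply hS1 q2 hq2
            ext a
            constructor
            · intro ha
              have := hS0 ha
              simp only [Finset.mem_insert, Finset.mem_singleton] at this ⊢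
              rcases this with rfl | rfl | rfl
              · exact absurd ha m0
              · exact absurd ha m1
              · rfl
            · intro ha
              rw [Finset.mem_singleton] at ha
              rw [ha]
              exact m2
          · exfalso
            apply hSne
            apply Finset.eq_empty_of_forall_notMem
            intro a ha
            have := hS0 ha
            simp only [Finset.mem_insert, Finset.mem_singleton] at this
            rcases this with rfl | rfl | rfl
            · exact m0 ha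
            · exact m1 ha
            · exact m2 ha
        rcases hcases with e | e | e | e
        · obtain ⟨y, hy, h1⟩ := hone q2 hq2
          apply h1
          rw [hrel y hy, e, Finset.sum_pair h01]
          exact (hz _ _ _ (hQsum y hy)).1.symm
        · obtain ⟨y, hy, h1⟩ := hone q1 hq1
          apply h1
          rw [hrel y hy, e, Finset.sum_pair h02]
          exact (hz _ _ _ (hQsum y hy)).2.1.symm
        · obtain ⟨y, hy, h1⟩ := hone q0 hq0
          apply h1
          rw [hrel y hy, e, Finset.sum_pair h12]
          exact (hz _ _ _ (hQsum y hy)).2.2.symm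
        · obtain ⟨y, hy, h1⟩ := hnz
          apply h1
          rw [hrel y hy, e]
          exact hT y hy
      -- the cocycle `1_Q`
      obtain ⟨d, hdD, hdX, hdQ⟩ : ∃ d ∈ K.D, (∀ a ∈ X, d a = 0) ∧ ∀ a ∈ Q, d a = 1 := by
        have e3 := K.lam_add X
        rw [hXc, hlX, hrkQ] at e3
        have hncl : ∃ q ∈ K.E, ¬ K.InCl X q := by
          by_contra hcon
          push Not at hcon
          have := K.rk_union_eq_of_inCl (X := X) (Y := K.E) hcon
          rw [Finset.union_eq_right.2 hXE] at this
          omega
        obtain ⟨q, hqE, hq⟩ := hncl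
        obtain ⟨d, hdD, hdX, hdq⟩ := exists_of_not_inCl hq
        refine ⟨d, hdD, hdX, ?_⟩
        have hsup : 3 ≤ (Q.filter fun a => d a ≠ 0).card := by
          refine three_le_cocycle hc hKcard hdD ((Finset.filter_subset _ _).trans hQE) ?_ hqE
            (by rw [hdq]; exact one_ne_zero)
          intro a ha haf
          by_contra hda
          apply haf
          rw [Finset.mem_filter]
          refine ⟨?_, hda⟩
          rw [← hXc, Finset.mem_sdiff]
          exact ⟨ha, fun h' => hda (hdX a h')⟩
        have heq : (Q.filter fun a => d a ≠ 0) = Q :=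
          Finset.eq_of_subset_of_card_le (Finset.filter_subset _ _) (by omega)
        intro a ha
        rw [← heq, Finset.mem_filter] at ha
        exact (z01 (d a)).resolve_left ha.2
      -- `S 0` has two elements
      have hS2 : (S 0).card = 2 := by
        have h1 := hrel d hdD
        have h4 : ∑ a ∈ R 0, d a = 0 :=
          Finset.sum_eq_zero fun a ha => hdX a (Finset.mem_insert_of_mem (hR 0 ha))
        have h5 : ∑ a ∈ S 0, d a = ((S 0).card : ZMod 2) := by
          rw [Finset.sum_congr rfl fun a ha => hdQ a (hS 0 ha), Finset.sum_const, nsmul_one]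
        rw [h4, h5] at h1
        have h6 : Even (S 0).card := (ZMod.natCast_eq_zero_iff_even).1 h1.symm
        have h7 := Finset.card_le_card (hS 0)
        have h8 : (S 0).card ≠ 0 := fun h' => hSne (Finset.card_eq_zero.1 h')
        obtain ⟨r, hr⟩ := h6
        omega
      obtain ⟨q, q', hqq, hSq⟩ := Finset.card_eq_two.1 hS2
      have hqQ : q ∈ Q := hS 0 (by rw [hSq]; simp)
      have hqQ' : q' ∈ Q := hS 0 (by rw [hSq]; simp)
      refine part_of_minor (K := K) (f := f) (P := P) (C₀ := {f, q'}) (D₀ := (Q.erase q).erase q')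
        (z := q) hR hfP (fun h' => hPQ q h' hqQ) (by simp) ?_ ?_ ?_ ?_
      · rw [Finset.disjoint_left]
        intro a ha ha'
        rw [Finset.mem_insert, Finset.mem_singleton] at ha
        rcases ha with rfl | rfl
        · exact hfQ (Finset.mem_of_mem_erase (Finset.mem_of_mem_erase ha'))
        · exact (Finset.mem_erase.1 ha').1 rfl
      · ext a
        simp only [Finset.mem_sdiff, Finset.mem_singleton, Finset.mem_erase, Finset.mem_insert]
        constructor
        · rintro ⟨⟨h1, h4⟩, h5⟩
          rcases hEc a h1 with h6 | h6 | h6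
          · exact absurd (Or.inl h6) h4
          · exact Or.inr h6
          · left
            by_contra h7
            exact h5 ⟨fun h8 => h4 (Or.inr h8), h7, h6⟩
        · rintro (rfl | h1)
          · refine ⟨⟨hQE hqQ, ?_⟩, fun h' => h'.2.1 rfl⟩
            rintro (rfl | rfl)
            · exact hfQ hqQ
            · exact hqq rfl
          · refine ⟨⟨hPE h1, ?_⟩, fun h' => hPQ a h1 h'.2.2⟩
            rintro (rfl | rfl)
            · exact hfP h1
            · exact hPQ _ h1 hqQ'
      · intro y hy h0
        rw [hrel y hy, hSq, Finset.sum_pair hqq, h0 q' (by simp), add_zero]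
      · intro y hy
        -- first kill `f`, then `q'`
        obtain ⟨v, hv, hvP, hvf⟩ : ∃ v ∈ K.D, (∀ a ∈ P, v a = y a) ∧ v f = 0 := by
          rcases z01 (y f) with h1 | h1
          · exact ⟨y, hy, fun _ _ => rfl, h1⟩
          · refine ⟨y + c, K.D.add_mem hy hcD, fun a ha => ?_, ?_⟩
            · rw [Pi.add_apply, hcP a ha, add_zero]
            · rw [Pi.add_apply, h1, hcf]
              decide
        have hfX : d f = 0 := hdX f (Finset.mem_insert_self _ _)
        rcases z01 (v q') with h1 | h1
        · refine ⟨v, hv, hvP, fun a ha => ?_⟩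
          rw [Finset.mem_insert, Finset.mem_singleton] at ha
          rcases ha with rfl | rfl
          · exact hvf
          · exact h1
        · refine ⟨v + d, K.D.add_mem hv hdD, fun a ha => ?_, fun a ha => ?_⟩
          · rw [Pi.add_apply, hdX a (Finset.mem_insert_of_mem ha), add_zero, hvP a ha]
          · rw [Finset.mem_insert, Finset.mem_singleton] at ha
            rcases ha with rfl | rfl
            · rw [Pi.add_apply, hvf, hfX, add_zero]
            · rw [Pi.add_apply, h1, hdQ _ hqQ']
              decide
  · -- `|Q| ≥ 4`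
    obtain ⟨R₃, S₃, hg, ht⟩ := exists_guts3 K hXE hlX
    obtain ⟨i, hi⟩ : ∃ i, ∀ y ∈ K.D, ∑ a ∈ R 0, y a = ∑ a ∈ R₃ i, y a := by
      rcases hg.full (R 0) ((hR 0).trans (Finset.subset_insert f P)) (S 0)
        (by rw [hXc]; exact hS 0) hrel with h1 | h1
      · obtain ⟨y, hy, h4⟩ := hnz
        exact absurd (h1 y hy) h4
      · exact h1
    obtain ⟨P₃, z₃, hP₃, hP₃m, hz₃⟩ := parts3 hc hXE hg ht (by rw [hXc]; exact hQ4)
    have hfP₃ : f ∈ P₃.E := by
      rw [hP₃.E_eq]
      exact Finset.mem_union_left _ (Finset.mem_insert_self _ _)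
    set Dz : Finset α := (Finset.univ.image z₃).erase (z₃ i) with hDz
    have hziX : z₃ i ∉ X := hP₃.z_nmem i
    have hziP : z₃ i ∉ P := fun h' => hziX (Finset.mem_insert_of_mem h')
    have hEP : (P₃.E \ {f}) \ Dz = insert (z₃ i) P := by
      rw [hP₃.E_eq, hDz]
      ext a
      simp only [Finset.mem_sdiff, Finset.mem_union, Finset.mem_singleton, Finset.mem_erase,
        Finset.mem_insert, hX]
      constructor
      · rintro ⟨⟨(h1 | h1) | h1, h4⟩, h5⟩
        · exact absurd h1 h4
        · exact Or.inr h1
        · left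
          by_contra h6
          exact h5 ⟨h6, h1⟩
      · rintro (rfl | h1)
        · refine ⟨⟨Or.inr (Finset.mem_image.2 ⟨i, Finset.mem_univ _, rfl⟩), ?_⟩, fun h' => h'.1 rfl⟩
          intro h'
          exact hziX (h' ▸ Finset.mem_insert_self f P)
        · refine ⟨⟨Or.inl (Or.inr h1), ?_⟩, ?_⟩
          · rintro rfl
            exact hfP h1
          · rintro ⟨_, h4⟩
            obtain ⟨j, -, rfl⟩ := Finset.mem_image.1 h4
            exact hP₃.z_nmem j (Finset.mem_insert_of_mem h1)
    refine ⟨(P₃.con {f}).del Dz, fun _ => z₃ i, ⟨?_, fun _ => hziP, ?_, ?_⟩, ?_⟩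
    · intro a b _
      exact Subsingleton.elim a b
    · rw [LM.del_E, LM.con_E, hEP]
      ext a
      simp
    · intro w
      constructor
      · intro hw
        refine ⟨fun a ha => ((P₃.con {f}).del Dz).supp w hw a ha, ?_⟩
        obtain ⟨h1, v, hv, h4⟩ := (LM.mem_del _).1 hw
        obtain ⟨hv', hvf⟩ := (LM.mem_con _).1 hv
        obtain ⟨_, y, hy, h5, h6⟩ := (hP₃.mem v).1 hv'
        have hDzP : ∀ a ∈ P, a ∉ Dz := by
          intro a ha h'
          obtain ⟨j, -, hj⟩ := Finset.mem_image.1 (Finset.mem_of_mem_erase h')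
          exact hP₃.z_nmem j (hj ▸ Finset.mem_insert_of_mem ha)
        refine ⟨fun a => if a ∈ ({f} : Finset α) then 0 else y a,
          (LM.mem_del _).2 ⟨fun a ha => if_pos ha, y, hy, fun a ha => if_neg ha⟩, ?_, ?_⟩
        · intro a ha
          have haf : a ∉ ({f} : Finset α) := by
            rw [Finset.mem_singleton]
            rintro rfl
            exact hfP ha
          change w a = if a ∈ ({f} : Finset α) then 0 else y a
          rw [if_neg haf, h4 a (hDzP a ha), h5 a (Finset.mem_insert_of_mem ha)]
        · intro l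
          rw [h4 (z₃ i) (by simp [hDz]), h6 i, ← hi y hy, Subsingleton.elim l 0]
          refine Finset.sum_congr rfl fun a ha => ?_
          have haf : a ∉ ({f} : Finset α) := by
            rw [Finset.mem_singleton]
            rintro rfl
            exact hfP (hR 0 ha)
          change y a = if a ∈ ({f} : Finset α) then 0 else y a
          rw [if_neg haf]
      · rintro ⟨h1, y, hy, h4, h5⟩
        obtain ⟨_, y', hy', h6⟩ := (LM.mem_del _).1 hy
        -- make the value at `f` zero
        obtain ⟨y'', hy'', hyP, hyf⟩ : ∃ v ∈ K.D, (∀ a ∈ P, v a = y a) ∧ v f = 0 := by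
          have h7 : ∀ a ∈ P, y' a = y a := by
            intro a ha
            rw [h6 a]
            rw [Finset.mem_singleton]
            rintro rfl
            exact hfP ha
          rcases z01 (y' f) with h8 | h8
          · exact ⟨y', hy', h7, h8⟩
          · refine ⟨y' + c, K.D.add_mem hy' hcD, fun a ha => ?_, ?_⟩
            · rw [Pi.add_apply, hcP a ha, add_zero, h7 a ha]
            · rw [Pi.add_apply, h8, hcf]
              decide
        obtain ⟨v, hv1, hv2, hv3⟩ : ∃ v ∈ P₃.D, (∀ a ∈ X, v a = y'' a) ∧
            ∀ j, v (z₃ j) = ∑ a ∈ R₃ j, y'' a := by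
          refine ⟨Parts2Aux.toP X z₃ R₃ y'', ?_, fun a ha => Parts2Aux.toP_A y'' ha, fun j =>
            Parts2Aux.toP_z hP₃.inj hP₃.z_nmem y'' j⟩
          rw [Parts2Aux.IsPart_D hP₃]
          exact ⟨y'', hy'', rfl⟩
        have hvf : v f = 0 := by
          rw [hv2 f (Finset.mem_insert_self _ _), hyf]
        have hR0 : ∑ a ∈ R 0, y'' a = ∑ a ∈ R 0, y a :=
          Finset.sum_congr rfl fun a ha => hyP a (hR 0 ha)
        refine (LM.mem_del _).2 ⟨fun a ha => ?_, v, (LM.mem_con _).2 ⟨hv1, fun a ha => ?_⟩, ?_⟩
        · apply h1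
          rw [LM.del_E, Finset.mem_sdiff]
          exact fun h' => h'.2 ha
        · rw [Finset.mem_singleton.1 ha, hvf]
        · intro a ha
          by_cases haE : a ∈ (P₃.E \ {f}) \ Dz
          · rw [hEP, Finset.mem_insert] at haE
            rcases haE with rfl | haP
            · rw [h5 0, hv3 i, ← hi y'' hy'', hR0]
            · rw [h4 a haP, hv2 a (Finset.mem_insert_of_mem haP), hyP a haP]
          · rw [h1 a haE]
            by_cases haf : a = f
            · rw [haf, hvf]
            · symm
              apply P₃.supp v hv1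
              intro haP
              exact haE (Finset.mem_sdiff.2 ⟨Finset.mem_sdiff.2
                ⟨haP, by rw [Finset.mem_singleton]; exact haf⟩, ha⟩)
    · exact (LM.isMinor_del _ Dz).trans (con_isMinor hP₃m hfP₃)

/-- (Pl) -/
theorem pl_del {𝒳 : BM α → Prop} (h𝒳 : SumClosed 𝒳) {K : BM α} (hc : K.Conn3) {f : α}
    (hf : f ∈ K.E) (h1 : 𝒳 (K.con {f})) (h2 : ¬ 𝒳 (K.del {f})) : Good (K.del {f}) := by
  intro X hX hl
  by_contra hcon
  rw [not_or, not_le, not_le] at hcon
  obtain ⟨h3, h4⟩ := hcon
  have hfX : f ∉ X := fun h' => (Finset.mem_sdiff.1 (hX h')).2 (Finset.mem_singleton_self f)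
  have hXE : X ⊆ K.E := hX.trans Finset.sdiff_subset
  have h5 := K.lam_del_single hXE hfX hf
  have h4' : 3 ≤ ((K.E \ {f}) \ X).card := h4
  have h6 := hc.2 X hXE (by omega) (by
    refine le_trans (by omega) (Finset.card_le_card
      (Finset.sdiff_subset_sdiff (Finset.sdiff_subset (s := K.E) (t := {f}))
        (Finset.Subset.refl X))))
  have hl1 : (K.del {f}).lam X = 1 := by omega
  obtain ⟨R, S, hg⟩ := exists_guts1 (K.del {f}) hX hl1
  obtain ⟨P₁, z₁, hP₁, hm₁⟩ := pl_half hc hf hX hl1 (by omega) h4' hg
  have hY : (K.E \ {f}) \ X ⊆ K.E \ {f} := Finset.sdiff_subset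
  have hYc : (K.E \ {f}) \ ((K.E \ {f}) \ X) = X := Finset.sdiff_sdiff_eq_self hX
  obtain ⟨P₂, z₂, hP₂, hm₂⟩ := pl_half hc hf hY (by
    have := (K.del {f}).lam_compl X hX
    rw [LM.del_E] at this
    rw [this, hl1]) (by omega) (by rw [hYc]; omega) (hg.symm hX)
  exact h2 (h𝒳.2 (K.del {f}) P₁ P₂ X R S z₁ z₂ hX hg hP₁ hP₂ (h𝒳.1 _ _ hm₁ h1)
    (h𝒳.1 _ _ hm₂ h1))

/-- the dual class -/
lemma SumClosed.dual {𝒳 : BM α → Prop} (h𝒳 : SumClosed 𝒳) :
    SumClosed (fun M : BM α => 𝒳 M.dual) := by
  refine ⟨fun M N hN hM => h𝒳.1 _ _ hN.dual hM, ?_⟩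
  intro M P Q A R S z z' hA h hP hQ hXP hXQ
  have hl : M.dual.lam A = 1 := by rw [M.lam_dual A hA, h.lam1 hA]
  obtain ⟨R', S', h'⟩ := exists_guts1 M.dual (A := A) hA hl
  exact h𝒳.2 M.dual P.dual Q.dual A R' S' z z' hA h' (isPart1_dual hA h h' hP)
    (isPart1_dual Finset.sdiff_subset (h.symm hA) (h'.symm hA) hQ) hXP hXQ

theorem pl_con {𝒳 : BM α → Prop} (h𝒳 : SumClosed 𝒳) {K : BM α} (hc : K.Conn3) {f : α}
    (hf : f ∈ K.E) (h1 : 𝒳 (K.del {f})) (h2 : ¬ 𝒳 (K.con {f})) : Good (K.con {f}) := by
  have h := pl_del (SumClosed.dual h𝒳) (K := K.dual) hc.dual (f := f) hf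
    (by rw [LM.dual_con, LM.dual_dual]; exact h1) (by rw [LM.dual_del, LM.dual_dual]; exact h2)
  rw [← LM.dual_con] at h
  have h' := h.dual
  rwa [LM.dual_dual] at h'

end Pool.Agent.H87.Sey
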