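import Pool.Agent.H53.Sey.Gr

/-!
# Tutte's theorem, part D1: recognising `M*(K33)` (Seymour project, MP_dbe88a_co, job S87-33a)
-/

set_option autoImplicit false

namespace Pool.Agent.H87.Sey.TutD1

open Pool.Agent.H63.Sey Pool.Agent.H53.Sey

universe u v

variable {α : Type u} [DecidableEq α] {V : Type v} [DecidableEq V]

lemma vec_edge {G : Gr α V} {E : Finset α} {e a : α} {T : Finset V} {φ : V → ZMod 2} {x y : V}
    (h : G.Jn a x y) (hae : a ≠ e) (ha : a ∈ E) : G.vec E e T φ a = φ x + φ y := by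
  rw [Gr.vec, if_neg hae, if_pos ha]
  rcases h with ⟨h1, h2⟩ | ⟨h1, h2⟩
  · rw [h1, h2]
  · rw [h1, h2, add_comm]

lemma z2 : ∀ p o a b c d : ZMod 2, (p = a + b + c + d →
    c + d = p + (a + b) ∧ o + c = (b + c) + (o + b) ∧ d + a = p + (b + c) ∧
    o + a = (a + b) + (o + b) ∧ o + d = p + (a + b) + (b + c) + (o + b)) := by
  decide

/-- Recognising `M*(K33)`: the graph of `M \ e` is the wheel with hub `o` and rim `t₀ t₁ t₂ t₃`,
`T` is the rim. In the 3 x 3 grid: row 0: `e, t₀t₁, t₂t₃`; row 1: `t₁t₂, ot₁, ot₂`; row 2: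
`t₃t₀, ot₀, ot₃`. -/
theorem k33s_of_wheel {M : BM α} {e : α} {G : Gr α V} {T : Finset V} (h : GRep M e G T)
    {o t₀ t₁ t₂ t₃ : V} {s₀ s₁ s₂ s₃ r₀ r₁ r₂ r₃ : α} (hU : G.U = {o, t₀, t₁, t₂, t₃})
    (hcard : G.U.card = 5) (hE : M.E = {e, s₀, s₁, s₂, s₃, r₀, r₁, r₂, r₃})
    (hE9 : M.E.card = 9) (js₀ : G.Jn s₀ o t₀) (js₁ : G.Jn s₁ o t₁) (js₂ : G.Jn s₂ o t₂)
    (js₃ : G.Jn s₃ o t₃) (jr₀ : G.Jn r₀ t₀ t₁) (jr₁ : G.Jn r₁ t₁ t₂) (jr₂ : G.Jn r₂ t₂ t₃)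
    (jr₃ : G.Jn r₃ t₃ t₀) (hT : T = {t₀, t₁, t₂, t₃}) :
    ∃ ι : Fin 9 → α, Function.Injective ι ∧ M = conc k33s ι := by
  set ι : Fin 9 → α := ![e, r₀, r₂, r₁, s₁, s₂, r₃, s₀, s₃] with hι
  have himg : M.E = Finset.univ.image ι := by
    rw [hE]
    ext a
    simp only [Finset.mem_insert, Finset.mem_singleton, Finset.mem_image, Finset.mem_univ,
      true_and, hι, Fin.exists_fin_succ, Matrix.cons_val_zero, Matrix.cons_val_succ,
      IsEmpty.exists_iff, or_false]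
    tauto
  have hinj : Function.Injective ι := by
    have h1 : (Finset.univ.image ι).card = (Finset.univ : Finset (Fin 9)).card := by
      rw [← himg, hE9]
      rfl
    exact fun a b hab => Finset.card_image_iff.1 h1 (Finset.mem_coe.2 (Finset.mem_univ a))
      (Finset.mem_coe.2 (Finset.mem_univ b)) hab
  have hmem : ∀ i, ι i ∈ M.E := fun i => himg ▸ Finset.mem_image.2 ⟨i, Finset.mem_univ _, rfl⟩
  have hne : ∀ i, i ≠ 0 → ι i ≠ e := fun i hi h1 => hi (hinj h1)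
  -- the vertices are different
  have hd : t₀ ≠ t₁ ∧ t₀ ≠ t₂ ∧ t₀ ≠ t₃ ∧ t₁ ≠ t₂ ∧ t₁ ≠ t₃ ∧ t₂ ≠ t₃ ∧ o ≠ t₀ ∧ o ≠ t₁ ∧
      o ≠ t₂ ∧ o ≠ t₃ := by
    have h5 : ({o, t₀, t₁, t₂, t₃} : Finset V) = Finset.univ.image ![o, t₀, t₁, t₂, t₃] := by
      ext a
      simp only [Finset.mem_insert, Finset.mem_singleton, Finset.mem_image, Finset.mem_univ,
        true_and, Fin.exists_fin_succ, Matrix.cons_val_zero, Matrix.cons_val_succ,
        IsEmpty.exists_iff, or_false]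
      tauto
    have h6 : (Finset.univ.image ![o, t₀, t₁, t₂, t₃]).card =
        (Finset.univ : Finset (Fin 5)).card := by
      rw [← h5, ← hU, hcard]
      rfl
    have h7 : Function.Injective ![o, t₀, t₁, t₂, t₃] := fun a b hab =>
      Finset.card_image_iff.1 h6 (Finset.mem_coe.2 (Finset.mem_univ a))
        (Finset.mem_coe.2 (Finset.mem_univ b)) hab
    refine ⟨fun h => ?_, fun h => ?_, fun h => ?_, fun h => ?_, fun h => ?_, fun h => ?_,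
      fun h => ?_, fun h => ?_, fun h => ?_, fun h => ?_⟩
    · exact absurd (@h7 1 2 h) (by decide)
    · exact absurd (@h7 1 3 h) (by decide)
    · exact absurd (@h7 1 4 h) (by decide)
    · exact absurd (@h7 2 3 h) (by decide)
    · exact absurd (@h7 2 4 h) (by decide)
    · exact absurd (@h7 3 4 h) (by decide)
    · exact absurd (@h7 0 1 h) (by decide)
    · exact absurd (@h7 0 2 h) (by decide)
    · exact absurd (@h7 0 3 h) (by decide)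
    · exact absurd (@h7 0 4 h) (by decide)
  obtain ⟨d01, d02, d03, d12, d13, d23, do0, do1, do2, do3⟩ := hd
  have hsum : ∀ φ : V → ZMod 2, ∑ t ∈ T, φ t = φ t₀ + φ t₁ + φ t₂ + φ t₃ := by
    intro φ
    rw [hT, Finset.sum_insert (by simp [d01, d02, d03]), Finset.sum_insert (by simp [d12, d13]),
      Finset.sum_insert (by simp [d23]), Finset.sum_singleton]
    ring
  -- the values of a cocycle
  have hv0 : ∀ φ, G.vec M.E e T φ (ι 0) = φ t₀ + φ t₁ + φ t₂ + φ t₃ := by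
    intro φ
    have : ι 0 = e := rfl
    rw [this, Gr.vec, if_pos rfl, hsum]
  have hv1 : ∀ φ, G.vec M.E e T φ (ι 1) = φ t₀ + φ t₁ := fun φ =>
    vec_edge jr₀ (hne 1 (by decide)) (hmem 1)
  have hv2 : ∀ φ, G.vec M.E e T φ (ι 2) = φ t₂ + φ t₃ := fun φ =>
    vec_edge jr₂ (hne 2 (by decide)) (hmem 2)
  have hv3 : ∀ φ, G.vec M.E e T φ (ι 3) = φ t₁ + φ t₂ := fun φ =>
    vec_edge jr₁ (hne 3 (by decide)) (hmem 3)
  have hv4 : ∀ φ, G.vec M.E e T φ (ι 4) = φ o + φ t₁ := fun φ =>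
    vec_edge js₁ (hne 4 (by decide)) (hmem 4)
  have hv5 : ∀ φ, G.vec M.E e T φ (ι 5) = φ o + φ t₂ := fun φ =>
    vec_edge js₂ (hne 5 (by decide)) (hmem 5)
  have hv6 : ∀ φ, G.vec M.E e T φ (ι 6) = φ t₃ + φ t₀ := fun φ =>
    vec_edge jr₃ (hne 6 (by decide)) (hmem 6)
  have hv7 : ∀ φ, G.vec M.E e T φ (ι 7) = φ o + φ t₀ := fun φ =>
    vec_edge js₀ (hne 7 (by decide)) (hmem 7)
  have hv8 : ∀ φ, G.vec M.E e T φ (ι 8) = φ o + φ t₃ := fun φ =>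
    vec_edge js₃ (hne 8 (by decide)) (hmem 8)
  -- the values in `conc`
  have hk : ∀ (ψ : Fin 4 → ZMod 2) (x : α → ZMod 2), (∀ i, x (ι i) = ∑ j, ψ j * k33s i j) ↔
      (x (ι 0) = ψ 0 ∧ x (ι 1) = ψ 1 ∧ x (ι 2) = ψ 0 + ψ 1 ∧ x (ι 3) = ψ 2 ∧ x (ι 4) = ψ 3 ∧
        x (ι 5) = ψ 2 + ψ 3 ∧ x (ι 6) = ψ 0 + ψ 2 ∧ x (ι 7) = ψ 1 + ψ 3 ∧
        x (ι 8) = ψ 0 + ψ 1 + ψ 2 + ψ 3) := by
    intro ψ x
    constructor
    · intro hx
      refine ⟨?_, ?_, ?_, ?_, ?_, ?_, ?_, ?_, ?_⟩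
      · rw [hx 0]; simp [k33s, Fin.sum_univ_four]
      · rw [hx 1]; simp [k33s, Fin.sum_univ_four]
      · rw [hx 2]; simp [k33s, Fin.sum_univ_four]
      · rw [hx 3]; simp [k33s, Fin.sum_univ_four]
      · rw [hx 4]; simp [k33s, Fin.sum_univ_four]
      · rw [hx 5]; simp [k33s, Fin.sum_univ_four]
      · rw [hx 6]; simp [k33s, Fin.sum_univ_four]
      · rw [hx 7]; simp [k33s, Fin.sum_univ_four]
      · rw [hx 8]; simp [k33s, Fin.sum_univ_four]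
    · rintro ⟨h0, h1, h2, h3, h4, h5, h6, h7, h8⟩ i
      fin_cases i
      · exact h0.trans (by simp [k33s, Fin.sum_univ_four])
      · exact h1.trans (by simp [k33s, Fin.sum_univ_four])
      · exact h2.trans (by simp [k33s, Fin.sum_univ_four])
      · exact h3.trans (by simp [k33s, Fin.sum_univ_four])
      · exact h4.trans (by simp [k33s, Fin.sum_univ_four])
      · exact h5.trans (by simp [k33s, Fin.sum_univ_four])
      · exact h6.trans (by simp [k33s, Fin.sum_univ_four])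
      · exact h7.trans (by simp [k33s, Fin.sum_univ_four])
      · exact h8.trans (by simp [k33s, Fin.sum_univ_four])
  refine ⟨ι, hinj, LM.D_ext _ himg fun x => ?_⟩
  rw [h.mem, mem_conc hinj]
  constructor
  · rintro ⟨φ, rfl⟩
    refine ⟨fun a ha => ?_, ![φ t₀ + φ t₁ + φ t₂ + φ t₃, φ t₀ + φ t₁, φ t₁ + φ t₂, φ o + φ t₁], ?_⟩
    · rw [← himg] at ha
      have hae : a ≠ e := fun h2 => ha (h2 ▸ h.he)
      rw [Gr.vec, if_neg hae, if_neg ha]
    · rw [hk, hv0, hv1, hv2, hv3, hv4, hv5, hv6, hv7, hv8]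
      obtain ⟨e1, e2, e3, e4, e5⟩ := z2 _ (φ o) (φ t₀) (φ t₁) (φ t₂) (φ t₃) rfl
      exact ⟨rfl, rfl, e1, rfl, rfl, e2, e3, e4, e5⟩
  · rintro ⟨h1, ψ, hψ⟩
    rw [hk] at hψ
    obtain ⟨k0, k1, k2, k3, k4, k5, k6, k7, k8⟩ := hψ
    obtain ⟨φ, φo, φ0, φ1, φ2, φ3⟩ : ∃ φ : V → ZMod 2, φ o = 0 ∧ φ t₀ = ψ 1 + ψ 3 ∧
        φ t₁ = ψ 3 ∧ φ t₂ = ψ 2 + ψ 3 ∧ φ t₃ = ψ 0 + ψ 1 + ψ 2 + ψ 3 := by
      refine ⟨fun v => if v = t₀ then ψ 1 + ψ 3 else if v = t₁ then ψ 3 else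
        if v = t₂ then ψ 2 + ψ 3 else if v = t₃ then ψ 0 + ψ 1 + ψ 2 + ψ 3 else 0, ?_, ?_, ?_, ?_,
        ?_⟩
      · simp [do0, do1, do2, do3]
      · simp
      · simp [d01.symm]
      · simp [d02.symm, d12.symm]
      · simp [d03.symm, d13.symm, d23.symm]
    have z : ∀ a b c d : ZMod 2, (a = (b + d) + d + (c + d) + (a + b + c + d)) ∧
        b = (b + d) + d ∧ a + b = (c + d) + (a + b + c + d) ∧ c = d + (c + d) ∧ d = 0 + d ∧
        c + d = 0 + (c + d) ∧ a + c = (a + b + c + d) + (b + d) ∧ b + d = 0 + (b + d) ∧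
        a + b + c + d = 0 + (a + b + c + d) := by decide
    obtain ⟨y0, y1, y2, y3, y4, y5, y6, y7, y8⟩ := z (ψ 0) (ψ 1) (ψ 2) (ψ 3)
    refine ⟨φ, ?_⟩
    funext a
    by_cases ha : a ∈ M.E
    · rw [himg] at ha
      obtain ⟨i, -, rfl⟩ := Finset.mem_image.1 ha
      have k0' : x (ι 0) = G.vec M.E e T φ (ι 0) := by rw [k0, hv0, φ0, φ1, φ2, φ3]; exact y0
      have k1' : x (ι 1) = G.vec M.E e T φ (ι 1) := by rw [k1, hv1, φ0, φ1]; exact y1
      have k2' : x (ι 2) = G.vec M.E e T φ (ι 2) := by rw [k2, hv2, φ2, φ3]; exact y2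
      have k3' : x (ι 3) = G.vec M.E e T φ (ι 3) := by rw [k3, hv3, φ1, φ2]; exact y3
      have k4' : x (ι 4) = G.vec M.E e T φ (ι 4) := by rw [k4, hv4, φo, φ1]; exact y4
      have k5' : x (ι 5) = G.vec M.E e T φ (ι 5) := by rw [k5, hv5, φo, φ2]; exact y5
      have k6' : x (ι 6) = G.vec M.E e T φ (ι 6) := by rw [k6, hv6, φ3, φ0]; exact y6
      have k7' : x (ι 7) = G.vec M.E e T φ (ι 7) := by rw [k7, hv7, φo, φ0]; exact y7
      have k8' : x (ι 8) = G.vec M.E e T φ (ι 8) := by rw [k8, hv8, φo, φ3]; exact y8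
      fin_cases i
      exacts [k0', k1', k2', k3', k4', k5', k6', k7', k8']
    · have hae : a ≠ e := fun h2 => ha (h2 ▸ h.he)
      rw [h1 a (by rwa [← himg]), Gr.vec, if_neg hae, if_neg ha]

end Pool.Agent.H87.Sey.TutD1
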