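import Pool.Agent.H87.Sey.TutC3
import Pool.Agent.H87.Sey.TutD1
import Pool.Agent.H53.Sey.PatB
import Pool.Agent.H53.Sey.KurA

/-!
# Tutte's theorem, part D: the wheel (Seymour project, MP_dbe88a_co, job S87-33)
-/

set_option autoImplicit false

namespace Pool.Agent.H87.Sey

open Pool.Agent.H63.Sey Pool.Agent.H53.Sey
open scoped symmDiff

universe u v

variable {α : Type u} [DecidableEq α] {V : Type v} [DecidableEq V]

/-- Recognising `M*(K33)`: the graph of `M \ e` is the wheel with hub `o` and rim `t₀ t₁ t₂ t₃`,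
`T` is the rim. In the 3 x 3 grid: row 0: `e, t₀t₁, t₂t₃`; row 1: `t₁t₂, ot₁, ot₂`; row 2:
`t₃t₀, ot₀, ot₃`. -/
theorem k33s_of_wheel {M : BM α} {e : α} {G : Gr α V} {T : Finset V} (h : GRep M e G T)
    {o t₀ t₁ t₂ t₃ : V} {s₀ s₁ s₂ s₃ r₀ r₁ r₂ r₃ : α} (hU : G.U = {o, t₀, t₁, t₂, t₃})
    (hcard : G.U.card = 5) (hE : M.E = {e, s₀, s₁, s₂, s₃, r₀, r₁, r₂, r₃})
    (hE9 : M.E.card = 9) (js₀ : G.Jn s₀ o t₀) (js₁ : G.Jn s₁ o t₁) (js₂ : G.Jn s₂ o t₂)
    (js₃ : G.Jn s₃ o t₃) (jr₀ : G.Jn r₀ t₀ t₁) (jr₁ : G.Jn r₁ t₁ t₂) (jr₂ : G.Jn r₂ t₂ t₃)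
    (jr₃ : G.Jn r₃ t₃ t₀) (hT : T = {t₀, t₁, t₂, t₃}) :
    ∃ ι : Fin 9 → α, Function.Injective ι ∧ M = conc k33s ι := by
  exact TutD1.k33s_of_wheel h hU hcard hE hE9 js₀ js₁ js₂ js₃ jr₀ jr₁ jr₂ jr₃ hT

section aux

variable {G : Gr α V} {E : Finset α}

/-- a vertex of degree at least three with all its neighbours in a set of size three -/
lemma nb_all (hon : G.On E) (hs : G.Simple E) {x : V} {S : Finset V}
    (hd : 3 ≤ (G.star E x).card) (hn : ∀ z, G.Adj E x z → z ∈ S) (hS : S.card ≤ 3) :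
    ∀ z ∈ S, G.Adj E x z := by
  have h1 := star_card_eq (x := x) hon hs
  set F := G.U.filter fun y => ∃ a ∈ E, (G.f a = x ∧ G.g a = y) ∨ (G.f a = y ∧ G.g a = x) with hF
  have h2 : F ⊆ S := by
    intro z hz
    rw [hF, Finset.mem_filter] at hz
    exact hn z hz.2
  have h4 : F = S := Finset.eq_of_subset_of_card_le h2 (by omega)
  intro z hz
  rw [← h4, hF, Finset.mem_filter] at hz
  exact hz.2

/-- a vertex of degree at least three has a neighbour outside a set of size two -/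
lemma nb_ne (hon : G.On E) (hs : G.Simple E) {x : V} {S : Finset V}
    (hd : 3 ≤ (G.star E x).card) (hS : S.card ≤ 2) : ∃ z, G.Adj E x z ∧ z ∉ S := by
  have h1 := star_card_eq (x := x) hon hs
  set F := G.U.filter fun y => ∃ a ∈ E, (G.f a = x ∧ G.g a = y) ∨ (G.f a = y ∧ G.g a = x) with hF
  by_contra hcon
  push Not at hcon
  have h2 : F ⊆ S := by
    intro z hz
    rw [hF, Finset.mem_filter] at hz
    exact hcon z hz.2
  have := Finset.card_le_card h2
  omega

/-- the degree from the set of neighbours -/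
lemma star_card_of_nb (hon : G.On E) (hs : G.Simple E) {x : V} {S : Finset V}
    (hn : ∀ z, G.Adj E x z ↔ z ∈ S) : (G.star E x).card = S.card := by
  rw [star_card_eq (x := x) hon hs]
  congr 1
  ext z
  rw [Finset.mem_filter]
  constructor
  · rintro ⟨_, hz⟩
    exact (hn z).1 hz
  · intro hz
    have ha := (hn z).2 hz
    exact ⟨(hon.adj_mem ha).2.1, ha⟩

end aux

/-- the patterns at an edge `f` of a minimal nongraphic matroid: both ends in `T`, or `f` joins a
cubic vertex `w ∈ T`, whose two other neighbours are in `T`, to a vertex outside `T`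
(`bixby` for `M.del {e}`, `pat_con`, `pat_del`, `C1.regular`; disjoint `C2` contradicts
`C2.not_graphic_con`; in the other `C2` both ends are in `T` and `T.card = 4`) -/
theorem Min0.pat {M : BM α} (h : Min0 M) {e : α} (he : e ∈ M.E) (h3 : (M.del {e}).Conn3)
    {G : Gr α V} {T : Finset V} (hG : G3 M e G T) (hT : 4 ≤ T.card) {f : α}
    (hf : f ∈ M.E \ {e}) : T.card = 4 ∧ ((G.f f ∈ T ∧ G.g f ∈ T) ∨
      ∃ w p u v, w ∈ T ∧ p ∉ T ∧ u ∈ T ∧ v ∈ T ∧ u ≠ v ∧ G.Jn f w p ∧
        (∀ x, G.Adj (M.E \ {e}) w x ↔ x = p ∨ x = u ∨ x = v)) := by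
  have hfE : f ∈ (M.del {e}).E := hf
  rcases Pool.Agent.H53.Sey.bixby h3 hfE with hg | hg
  · -- deletion
    have hfM : f ∈ M.E := (Finset.mem_sdiff.1 hf).1
    rcases pat_del hG hf hg (h.del f hfM) hT with ⟨a, b, w, p, u, v, q, hc⟩ | ⟨a, b, c, d, w, p, u, v, s, t, hc⟩
    · have hb := C1.basic hG hc
      have hr := C1.regular h.reg hG hc
      obtain ⟨e1, e2, e3, e4, e5, e6, e7, e8, e9, e10, e11, e12, e13, e14, e15, e16, e17, e18,
        e19, e20⟩ := hb
      refine ⟨hc.T_card, Or.inr ⟨w, p, u, v, ?_, hr.1, ?_, ?_, e18, hc.jf, ?_⟩⟩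
      · rw [hc.T_eq]; simp
      · rw [hc.T_eq]; simp
      · rw [hc.T_eq]; simp
      · intro x
        constructor
        · rintro ⟨r, hr1, hr2⟩
          have hrs : r ∈ G.star (M.E \ {e}) w := Gr.mem_star_iff_jn.2 ⟨hr1, x, hr2⟩
          rw [hc.star] at hrs
          simp only [Finset.mem_insert, Finset.mem_singleton] at hrs
          rcases hrs with rfl | rfl | rfl
          · rcases Gr.Jn.ends hr2 hc.jf with ⟨-, h2⟩ | ⟨h1, -⟩
            · exact Or.inl h2
            · exact absurd h1 e12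
          · rcases Gr.Jn.ends hr2 hc.ja with ⟨-, h2⟩ | ⟨h1, -⟩
            · exact Or.inr (Or.inl h2)
            · exact absurd h1 e13
          · rcases Gr.Jn.ends hr2 hc.jb with ⟨-, h2⟩ | ⟨h1, -⟩
            · exact Or.inr (Or.inr h2)
            · exact absurd h1 e14
        · rintro (rfl | rfl | rfl)
          · exact ⟨f, e1, hc.jf⟩
          · exact ⟨a, e2, hc.ja⟩
          · exact ⟨b, e3, hc.jb⟩
    · have hb := C2.basic hG hc
      obtain ⟨⟨m1, m2, m3, m4, m5⟩, -, ⟨u1, u2, u3, u4, u5, u6⟩, -⟩ := hb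
      by_cases hd : Disjoint ({u, v} : Finset V) {s, t}
      · exact absurd (h.con c (Finset.mem_sdiff.1 m4).1) (hc.not_graphic_con hG hd hg)
      · have hT4 : T.card ≤ 4 := by
          have i1 : T.card ≤ ({w, p} : Finset V).card +
              ((({u, v} : Finset V) \ {s, t}) ∪ ({s, t} \ {u, v})).card := by
            rw [hc.T_eq]
            exact Finset.card_union_le _ _
          have i2 := Finset.card_union_le (({u, v} : Finset V) \ {s, t}) ({s, t} \ {u, v})
          have i3 : ({w, p} : Finset V).card ≤ 2 := Finset.card_le_two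
          have i4 : ({u, v} : Finset V).card ≤ 2 := Finset.card_le_two
          have i5 : ({s, t} : Finset V).card ≤ 2 := Finset.card_le_two
          have i6 := Finset.card_sdiff_add_card_inter ({u, v} : Finset V) {s, t}
          have i7 := Finset.card_sdiff_add_card_inter ({s, t} : Finset V) {u, v}
          have i8 : 0 < (({u, v} : Finset V) ∩ {s, t}).card := by
            rw [Finset.card_pos]
            rwa [Finset.disjoint_iff_inter_eq_empty, ← Ne, ← Finset.nonempty_iff_ne_empty] at hd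
          have i9 : 0 < (({s, t} : Finset V) ∩ {u, v}).card := by
            rw [Finset.inter_comm]; exact i8
          omega
        have hwT : w ∈ T := by rw [hc.T_eq]; simp
        have hpT : p ∈ T := by rw [hc.T_eq]; simp
        refine ⟨by omega, Or.inl ?_⟩
        rcases hc.jf with ⟨h1, h2⟩ | ⟨h1, h2⟩
        · rw [h1, h2]; exact ⟨hwT, hpT⟩
        · rw [h1, h2]; exact ⟨hpT, hwT⟩
  · -- contraction
    have hfM : f ∈ M.E := (Finset.mem_sdiff.1 hf).1
    obtain ⟨h1, h2, h3'⟩ := pat_con hG hf (Gr.jn_self f) hg (h.con f hfM) hT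
    exact ⟨h1, Or.inl ⟨h2, h3'⟩⟩

/-- Final analysis. Let `O = U \ T`. No edge has both ends in `O`; a vertex `t ∈ T` with a
neighbour in `O` has exactly one and exactly two neighbours in `T`. `O = ∅`: `G` is `K4` on `T`,
contradiction to `nr` (`Lk.of_adj`). `o ∈ O` has at least three neighbours (`deg`, `simple`), all
in `T`. If `t₀ ∈ T` is not a neighbour of `o`, the neighbours of `o` are `t₁, t₂, t₃`; `t₀` has no
neighbour `o'` in `O` (`o'` has three neighbours in `T`, but `t₁, t₂, t₃` have only the neighbour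
`o` in `O`), so `t₀` is adjacent to `t₁, t₂, t₃`, and all three pairings of `T` are linked
(`t₀ t_i` is an edge, `t_j o t_k` a path): contradiction to `nr`. So `o` is adjacent to all of `T`,
the four vertices of `T` have exactly two neighbours in `T`, they form a 4-cycle, `O = {o}`:
`k33s_of_wheel`. -/
theorem Min0.wheel {M : BM α} (h : Min0 M) {e : α} (he : e ∈ M.E) (h3 : (M.del {e}).Conn3)
    {G : Gr α V} {T : Finset V} (hG : G3 M e G T) (hT : 4 ≤ T.card) :
    ∃ ι : Fin 9 → α, Function.Injective ι ∧ M = conc k33s ι := by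
  have hon := hG.rep.on
  have hsim := hG.simple
  have hTU := hG.rep.TU
  have hdeg := hG.deg
  have hne : ∀ x ∈ G.U, (G.star (M.E \ {e}) x).Nonempty := fun x hx =>
    Finset.card_pos.1 (by have := hdeg x hx; omega)
  have hp : ∀ f ∈ M.E \ {e}, _ := fun f hf => h.pat he h3 hG hT hf
  have hT4 : T.card = 4 := by
    obtain ⟨t, ht⟩ := Finset.card_pos.1 (show 0 < T.card by omega)
    obtain ⟨f, hf⟩ := hne t (hTU ht)
    exact (hp f (Gr.mem_star.1 hf).1).1
  -- no edge outside `T`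
  have hO : ∀ o, o ∉ T → ∀ z, G.Adj (M.E \ {e}) o z → z ∈ T := by
    rintro o ho z ⟨f, hf, hj⟩
    rcases (hp f hf).2 with ⟨h1, h2⟩ | ⟨w, p, u, v, hw, -, -, -, -, hjn, -⟩
    · rcases hj with ⟨j1, j2⟩ | ⟨j1, j2⟩
      · rw [← j2]; exact h2
      · rw [← j1]; exact h1
    · rcases hj.ends hjn with ⟨j1, j2⟩ | ⟨j1, j2⟩
      · exact absurd (j1 ▸ hw) ho
      · rw [j2]; exact hw
  -- vertices of `T` with a neighbour outside `T`
  have ht : ∀ t ∈ T, ∀ o, o ∉ T → G.Adj (M.E \ {e}) t o → ∃ u v, u ∈ T ∧ v ∈ T ∧ u ≠ v ∧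
      ∀ x, G.Adj (M.E \ {e}) t x ↔ x = o ∨ x = u ∨ x = v := by
    rintro t htT o ho ⟨f, hf, hj⟩
    rcases (hp f hf).2 with ⟨h1, h2⟩ | ⟨w, p, u, v, hw, hpT, hu, hv, huv, hjn, hadj⟩
    · exfalso
      rcases hj with ⟨j1, j2⟩ | ⟨j1, j2⟩
      · exact ho (j2 ▸ h2)
      · exact ho (j1 ▸ h1)
    · rcases hj.ends hjn with ⟨j1, j2⟩ | ⟨j1, j2⟩
      · subst j1; subst j2
        exact ⟨u, v, hu, hv, huv, hadj⟩
      · subst j1; subst j2
        exact absurd hw ho
  -- a vertex of `T` is not adjacent to the three others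
  have hK : ∀ t₀ ∈ T, ¬ ∀ z ∈ T.erase t₀, G.Adj (M.E \ {e}) t₀ z := by
    intro t₀ ht₀ hall
    have hc3 : (T.erase t₀).card = 3 := by
      rw [Finset.card_erase_of_mem ht₀]; omega
    obtain ⟨a, b, c, hab, hac, hbc, hTe⟩ := Finset.card_eq_three.1 hc3
    have hTeq : T = {t₀, a, b, c} := by
      rw [← Finset.insert_erase ht₀, hTe]
    have ma : a ∈ T.erase t₀ := by rw [hTe]; simp
    have mb : b ∈ T.erase t₀ := by rw [hTe]; simp
    have mc : c ∈ T.erase t₀ := by rw [hTe]; simp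
    have ua := hTU (Finset.mem_of_mem_erase ma)
    have ub := hTU (Finset.mem_of_mem_erase mb)
    have uc := hTU (Finset.mem_of_mem_erase mc)
    have na := Finset.ne_of_mem_erase ma
    have nb := Finset.ne_of_mem_erase mb
    have nc := Finset.ne_of_mem_erase mc
    exact nr h.reg hG.rep hG.vc hne hTeq hT4
      (Lk.of_adj hG.vc hon (hall a ma) ub uc nb hab.symm nc hac.symm)
      (Lk.of_adj hG.vc hon (hall b mb) ua uc na hab nc hbc.symm)
      (Lk.of_adj hG.vc hon (hall c mc) ua ub na hac nb hbc)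
  -- there is a vertex outside `T`
  have hex : ∃ o ∈ G.U, o ∉ T := by
    by_contra hcon
    push Not at hcon
    obtain ⟨t, ht⟩ := Finset.card_pos.1 (show 0 < T.card by omega)
    refine hK t ht (nb_all hon hsim (hdeg t (hTU ht)) ?_ ?_)
    · intro z hz
      have := hon.adj_mem hz
      exact Finset.mem_erase.2 ⟨this.2.2.symm, hcon z this.2.1⟩
    · rw [Finset.card_erase_of_mem ht]; omega
  obtain ⟨o, hoU, hoT⟩ := hex
  -- `o` is adjacent to all vertices of `T`
  have hadj : ∀ t ∈ T, G.Adj (M.E \ {e}) o t := by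
    intro t₀ ht₀
    by_contra hcon
    have hc3 : (T.erase t₀).card ≤ 3 := by
      rw [Finset.card_erase_of_mem ht₀]; omega
    have h1 : ∀ z ∈ T.erase t₀, G.Adj (M.E \ {e}) o z := by
      refine nb_all hon hsim (hdeg o hoU) ?_ hc3
      intro z hz
      refine Finset.mem_erase.2 ⟨?_, hO o hoT z hz⟩
      rintro rfl
      exact hcon hz
    refine hK t₀ ht₀ (nb_all hon hsim (hdeg t₀ (hTU ht₀)) ?_ hc3)
    intro z hz
    have hz2 := hon.adj_mem hz
    refine Finset.mem_erase.2 ⟨hz2.2.2.symm, ?_⟩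
    by_contra hzT
    -- another neighbour of `z`
    obtain ⟨y, hy, hyt⟩ := nb_ne hon hsim (hdeg z hz2.2.1) (S := {t₀}) (by simp)
    have hyt' : y ≠ t₀ := by simpa using hyt
    have hyT : y ∈ T := hO z hzT y hy
    have hoy := h1 y (Finset.mem_erase.2 ⟨hyt', hyT⟩)
    obtain ⟨u, v, hu, hv, huv, hyn⟩ := ht y hyT o hoT hoy.symm
    rcases (hyn z).1 hy.symm with h2 | h2 | h2
    · rw [h2] at hz
      exact hcon hz.symm
    · exact hzT (h2 ▸ hu)
    · exact hzT (h2 ▸ hv)
  -- the neighbours of the vertices of `T`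
  have hnb : ∀ t ∈ T, ∃ u v, u ∈ T ∧ v ∈ T ∧ u ≠ v ∧
      ∀ x, G.Adj (M.E \ {e}) t x ↔ x = o ∨ x = u ∨ x = v :=
    fun t htT => ht t htT o hoT (hadj t htT).symm
  -- the vertex set
  have hUT : ∀ x ∈ G.U, x = o ∨ x ∈ T := by
    intro x hx
    by_contra hcon
    push Not at hcon
    obtain ⟨t, ht', -⟩ := nb_ne hon hsim (hdeg x hx) (S := ∅) (by simp)
    have htT : t ∈ T := hO x hcon.2 t ht'
    obtain ⟨u, v, hu, hv, huv, hyn⟩ := hnb t htT
    rcases (hyn x).1 ht'.symm with h2 | h2 | h2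
    · exact hcon.1 h2
    · exact hcon.2 (h2 ▸ hu)
    · exact hcon.2 (h2 ▸ hv)
  obtain ⟨t₀, ht₀⟩ := Finset.card_pos.1 (show 0 < T.card by omega)
  obtain ⟨t₁, t₃, ht₁, ht₃, h13, hn₀⟩ := hnb t₀ ht₀
  have h01 : t₀ ≠ t₁ := (hon.adj_mem ((hn₀ t₁).2 (by simp))).2.2
  have h03 : t₀ ≠ t₃ := (hon.adj_mem ((hn₀ t₃).2 (by simp))).2.2
  have hsub : ({t₀, t₁, t₃} : Finset V) ⊆ T := by
    intro z hz
    simp only [Finset.mem_insert, Finset.mem_singleton] at hz
    rcases hz with rfl | rfl | rfl <;> assumption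
  obtain ⟨t₂, ht₂, ht₂'⟩ : ∃ t₂ ∈ T, t₂ ∉ ({t₀, t₁, t₃} : Finset V) := by
    by_contra hcon
    push Not at hcon
    have := Finset.card_le_card (show T ⊆ {t₀, t₁, t₃} from hcon)
    have h3 : ({t₀, t₁, t₃} : Finset V).card ≤ 3 := Finset.card_le_three
    omega
  simp only [Finset.mem_insert, Finset.mem_singleton, not_or] at ht₂'
  obtain ⟨h20, h21, h23⟩ := ht₂'
  have hTeq : T = {t₀, t₁, t₂, t₃} := by
    symm
    apply Finset.eq_of_subset_of_card_le
    · intro z hz
      simp only [Finset.mem_insert, Finset.mem_singleton] at hz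
      rcases hz with rfl | rfl | rfl | rfl <;> assumption
    · rw [hT4, Finset.card_insert_of_notMem, Finset.card_insert_of_notMem,
        Finset.card_insert_of_notMem, Finset.card_singleton]
      · simpa using h23
      · simp only [Finset.mem_insert, Finset.mem_singleton, not_or]
        exact ⟨Ne.symm h21, h13⟩
      · simp only [Finset.mem_insert, Finset.mem_singleton, not_or]
        exact ⟨h01, Ne.symm h20, h03⟩
  have ne_o : ∀ t ∈ T, t ≠ o := by
    rintro t htT rfl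
    exact hoT htT
  have o0 := ne_o t₀ ht₀
  have o1 := ne_o t₁ ht₁
  have o2 := ne_o t₂ ht₂
  have o3 := ne_o t₃ ht₃
  have n02 : ¬ G.Adj (M.E \ {e}) t₀ t₂ := by
    rw [hn₀]
    simp only [not_or]
    exact ⟨o2, h21, h23⟩
  have mT : ∀ z, z ∈ T → z = t₀ ∨ z = t₁ ∨ z = t₂ ∨ z = t₃ := by
    intro z hz
    rw [hTeq] at hz
    simpa using hz
  -- neighbours of `t₂`
  have hn₂ : ∀ x, G.Adj (M.E \ {e}) t₂ x ↔ x = o ∨ x = t₁ ∨ x = t₃ := by
    obtain ⟨u, v, hu, hv, huv, hyn⟩ := hnb t₂ ht₂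
    have au := (hyn u).2 (by simp)
    have av := (hyn v).2 (by simp)
    have nu0 : u ≠ t₀ := by rintro rfl; exact n02 au.symm
    have nv0 : v ≠ t₀ := by rintro rfl; exact n02 av.symm
    have nu2 : u ≠ t₂ := (hon.adj_mem au).2.2.symm
    have nv2 : v ≠ t₂ := (hon.adj_mem av).2.2.symm
    intro x
    rw [hyn]
    rcases mT u hu with h1 | h1 | h1 | h1
    · exact absurd h1 nu0
    · rcases mT v hv with h2 | h2 | h2 | h2
      · exact absurd h2 nv0
      · exact absurd (h1.trans h2.symm) huv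
      · exact absurd h2 nv2
      · rw [h1, h2]
    · exact absurd h1 nu2
    · rcases mT v hv with h2 | h2 | h2 | h2
      · exact absurd h2 nv0
      · rw [h1, h2]; tauto
      · exact absurd h2 nv2
      · exact absurd (h1.trans h2.symm) huv
  have a01 : G.Adj (M.E \ {e}) t₀ t₁ := (hn₀ t₁).2 (by simp)
  have a03 : G.Adj (M.E \ {e}) t₀ t₃ := (hn₀ t₃).2 (by simp)
  have a21 : G.Adj (M.E \ {e}) t₂ t₁ := (hn₂ t₁).2 (by simp)
  have a23 : G.Adj (M.E \ {e}) t₂ t₃ := (hn₂ t₃).2 (by simp)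
  have hnn : ∀ t, t ∈ T → G.Adj (M.E \ {e}) t t₀ → G.Adj (M.E \ {e}) t t₂ →
      ∀ x, G.Adj (M.E \ {e}) t x ↔ x = o ∨ x = t₀ ∨ x = t₂ := by
    intro t htT b1 b2
    obtain ⟨u, v, hu, hv, huv, hyn⟩ := hnb t htT
    rw [hyn] at b1 b2
    intro x
    rw [hyn]
    rcases b1 with b1 | b1 | b1
    · exact absurd b1 o0
    · rcases b2 with b2 | b2 | b2
      · exact absurd b2 o2
      · exact absurd (b2.trans b1.symm) h20
      · rw [b1, b2]
    · rcases b2 with b2 | b2 | b2
      · exact absurd b2 o2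
      · rw [b1, b2]; tauto
      · exact absurd (b2.trans b1.symm) h20
  have hn₁ := hnn t₁ ht₁ a01.symm a21.symm
  have hn₃ := hnn t₃ ht₃ a03.symm a23.symm
  have n13 : ¬ G.Adj (M.E \ {e}) t₁ t₃ := by
    rw [hn₁]
    simp only [not_or]
    exact ⟨o3, Ne.symm h03, Ne.symm h23⟩
  have hU : G.U = {o, t₀, t₁, t₂, t₃} := by
    ext z
    constructor
    · intro hz
      rcases hUT z hz with h1 | h1
      · rw [h1]; simp
      · rcases mT z h1 with h1 | h1 | h1 | h1 <;> rw [h1] <;> simp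
    · intro hz
      simp only [Finset.mem_insert, Finset.mem_singleton] at hz
      rcases hz with rfl | rfl | rfl | rfl | rfl
      · exact hoU
      all_goals exact hTU (by assumption)
  have hUo : G.U = insert o T := by rw [hU, hTeq]
  have hUc : G.U.card = 5 := by
    rw [hUo, Finset.card_insert_of_notMem hoT, hT4]
  obtain ⟨s₀, es₀, js₀⟩ := hadj t₀ ht₀
  obtain ⟨s₁, es₁, js₁⟩ := hadj t₁ ht₁
  obtain ⟨s₂, es₂, js₂⟩ := hadj t₂ ht₂
  obtain ⟨s₃, es₃, js₃⟩ := hadj t₃ ht₃
  obtain ⟨r₀, er₀, jr₀⟩ := a01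
  obtain ⟨r₁, er₁, jr₁⟩ := a21.symm
  obtain ⟨r₂, er₂, jr₂⟩ := a23
  obtain ⟨r₃, er₃, jr₃⟩ := a03.symm
  have heM := hG.rep.he
  have hE : M.E = {e, s₀, s₁, s₂, s₃, r₀, r₁, r₂, r₃} := by
    ext a
    constructor
    · intro ha
      by_cases hae : a = e
      · rw [hae]; simp
      have haE : a ∈ M.E \ {e} := by simp [ha, hae]
      obtain ⟨i1, i2, i3⟩ := hon a haE
      rw [hU] at i1 i2
      simp only [Finset.mem_insert, Finset.mem_singleton] at i1 i2 ⊢
      have key : ∀ x y, G.f a = x → G.g a = y → ∀ b ∈ M.E \ {e}, (G.Jn b x y ∨ G.Jn b y x) →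
          a = b := by
        intro x y hx hy b hb hj
        rcases hj with hj | hj
        · exact hsim a haE b hb x y (Or.inl ⟨hx, hy⟩) hj
        · exact hsim a haE b hb x y (Or.inl ⟨hx, hy⟩) hj.symm
      rcases i1 with i1 | i1 | i1 | i1 | i1 <;> rcases i2 with i2 | i2 | i2 | i2 | i2 <;>
        first
        | (exact absurd (i1.trans i2.symm) i3)
        | (rw [key _ _ i1 i2 s₀ es₀ (by first | exact Or.inl js₀ | exact Or.inr js₀)]; simp; done)
        | (rw [key _ _ i1 i2 s₁ es₁ (by first | exact Or.inl js₁ | exact Or.inr js₁)]; simp; done)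
        | (rw [key _ _ i1 i2 s₂ es₂ (by first | exact Or.inl js₂ | exact Or.inr js₂)]; simp; done)
        | (rw [key _ _ i1 i2 s₃ es₃ (by first | exact Or.inl js₃ | exact Or.inr js₃)]; simp; done)
        | (rw [key _ _ i1 i2 r₀ er₀ (by first | exact Or.inl jr₀ | exact Or.inr jr₀)]; simp; done)
        | (rw [key _ _ i1 i2 r₁ er₁ (by first | exact Or.inl jr₁ | exact Or.inr jr₁)]; simp; done)
        | (rw [key _ _ i1 i2 r₂ er₂ (by first | exact Or.inl jr₂ | exact Or.inr jr₂)]; simp; done)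
        | (rw [key _ _ i1 i2 r₃ er₃ (by first | exact Or.inl jr₃ | exact Or.inr jr₃)]; simp; done)
        | (exact absurd (⟨a, haE, Or.inl ⟨i1, i2⟩⟩ : G.Adj (M.E \ {e}) t₀ t₂) n02)
        | (exact absurd (⟨a, haE, Or.inr ⟨i1, i2⟩⟩ : G.Adj (M.E \ {e}) t₀ t₂) n02)
        | (exact absurd (⟨a, haE, Or.inl ⟨i1, i2⟩⟩ : G.Adj (M.E \ {e}) t₁ t₃) n13)
        | (exact absurd (⟨a, haE, Or.inr ⟨i1, i2⟩⟩ : G.Adj (M.E \ {e}) t₁ t₃) n13)
    · intro ha
      simp only [Finset.mem_insert, Finset.mem_singleton] at ha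
      rcases ha with rfl | rfl | rfl | rfl | rfl | rfl | rfl | rfl | rfl
      · exact heM
      all_goals exact (Finset.mem_sdiff.1 (by assumption)).1
  have hE9 : M.E.card = 9 := by
    have hsum := sum_star_card hon
    have c0 : (G.star (M.E \ {e}) t₀).card = 3 := by
      rw [star_card_of_nb hon hsim (S := {o, t₁, t₃}) (by intro z; rw [hn₀]; simp),
        Finset.card_eq_three]
      exact ⟨o, t₁, t₃, o1.symm, o3.symm, h13, rfl⟩
    have c1 : (G.star (M.E \ {e}) t₁).card = 3 := by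
      rw [star_card_of_nb hon hsim (S := {o, t₀, t₂}) (by intro z; rw [hn₁]; simp),
        Finset.card_eq_three]
      exact ⟨o, t₀, t₂, o0.symm, o2.symm, Ne.symm h20, rfl⟩
    have c2 : (G.star (M.E \ {e}) t₂).card = 3 := by
      rw [star_card_of_nb hon hsim (S := {o, t₁, t₃}) (by intro z; rw [hn₂]; simp),
        Finset.card_eq_three]
      exact ⟨o, t₁, t₃, o1.symm, o3.symm, h13, rfl⟩
    have c3 : (G.star (M.E \ {e}) t₃).card = 3 := by
      rw [star_card_of_nb hon hsim (S := {o, t₀, t₂}) (by intro z; rw [hn₃]; simp),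
        Finset.card_eq_three]
      exact ⟨o, t₀, t₂, o0.symm, o2.symm, Ne.symm h20, rfl⟩
    have co : (G.star (M.E \ {e}) o).card = 4 := by
      rw [star_card_of_nb hon hsim (S := T) (fun z => ⟨hO o hoT z, hadj z⟩), hT4]
    rw [hUo, Finset.sum_insert hoT, hTeq, Finset.sum_insert (by
        simp only [Finset.mem_insert, Finset.mem_singleton, not_or]
        exact ⟨h01, Ne.symm h20, h03⟩),
      Finset.sum_insert (by
        simp only [Finset.mem_insert, Finset.mem_singleton, not_or]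
        exact ⟨Ne.symm h21, h13⟩),
      Finset.sum_insert (by simpa using h23), Finset.sum_singleton, co, c0, c1, c2, c3] at hsum
    have h8 : (M.E \ {e}).card = 8 := by omega
    rw [Finset.card_sdiff_of_subset (by simpa using heM), Finset.card_singleton] at h8
    omega
  exact k33s_of_wheel hG.rep hU hUc hE hE9 js₀ js₁ js₂ js₃ jr₀ jr₁ jr₂ jr₃ hTeq

/-- Tutte's theorem: induction on `|M.E|`; if a single deletion or contraction is not graphic use
the induction hypothesis (`IsMinor.trans`), otherwise `Min0 M` -/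
theorem tutte' {M : BM α} (hM : Regular M) (h : ¬ Graphic M) : HasK33s M ∨ HasK5s M := by
  induction hn : M.E.card using Nat.strong_induction_on generalizing M with
  | _ n ih =>
    subst hn
    by_cases hdel : ∃ x ∈ M.E, ¬ Graphic (M.del {x})
    · obtain ⟨x, hx, hg⟩ := hdel
      have hlt : (M.del {x}).E.card < M.E.card := by
        have e1 : (M.del {x}).E = M.E \ {x} := rfl
        rw [e1]
        exact Finset.card_lt_card (by
          rw [Finset.ssubset_iff_of_subset Finset.sdiff_subset]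
          exact ⟨x, hx, by simp⟩)
      rcases ih _ hlt (hM.minor (LM.isMinor_del M {x})) hg rfl with ⟨ι, h1, h2⟩ | ⟨ι, h1, h2⟩
      · exact Or.inl ⟨ι, h1, h2.trans (LM.isMinor_del M {x})⟩
      · exact Or.inr ⟨ι, h1, h2.trans (LM.isMinor_del M {x})⟩
    by_cases hcon : ∃ x ∈ M.E, ¬ Graphic (M.con {x})
    · obtain ⟨x, hx, hg⟩ := hcon
      have hlt : (M.con {x}).E.card < M.E.card := by
        have e1 : (M.con {x}).E = M.E \ {x} := rfl
        rw [e1]
        exact Finset.card_lt_card (by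
          rw [Finset.ssubset_iff_of_subset Finset.sdiff_subset]
          exact ⟨x, hx, by simp⟩)
      rcases ih _ hlt (hM.minor (LM.isMinor_con M {x})) hg rfl with ⟨ι, h1, h2⟩ | ⟨ι, h1, h2⟩
      · exact Or.inl ⟨ι, h1, h2.trans (LM.isMinor_con M {x})⟩
      · exact Or.inr ⟨ι, h1, h2.trans (LM.isMinor_con M {x})⟩
    push Not at hdel hcon
    have h0 : Min0 M := ⟨hM, h, hdel, hcon⟩
    by_cases hk : HasK5s M
    · exact Or.inr hk
    left
    have h8 := h0.card
    obtain ⟨e, he⟩ := Finset.card_pos.1 (show 0 < M.E.card by omega)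
    obtain ⟨h3, n, G, T, hG, hT⟩ := TutC3.exists_g3 h0 he hk
    obtain ⟨ι, hι, hMι⟩ := h0.wheel he h3 hG hT
    exact ⟨ι, hι, by rw [← hMι]; exact LM.IsMinor.refl M⟩

end Pool.Agent.H87.Sey
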