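import Pool.Agent.H63.Sey.Conn

/-!
# Graphic matroids: basic facts, minors (Seymour project, MP_dbe88a_co, job S87-3)

`Graphic M` means `∃ n (f g : α → Fin n), M = cyc M.E f g`; `x ∈ (cyc E f g).D` iff there is a
potential `φ : Fin n → ZMod 2` with `x a = φ (f a) + φ (g a)` for `a ∈ E` and `x a = 0` otherwise.
-/

set_option autoImplicit false

namespace Pool.Agent.H87.Sey

open Pool.Agent.H63.Sey

universe u

variable {α : Type u} [DecidableEq α]

lemma mem_cyc {V : Type*} {E : Finset α} {f g : α → V} {x : α → ZMod 2} :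
    x ∈ (cyc E f g).D ↔ ∃ φ : V → ZMod 2, ∀ a, x a = if a ∈ E then φ (f a) + φ (g a) else 0 := by
  constructor
  · rintro ⟨φ, rfl⟩
    exact ⟨φ, fun a => by simp⟩
  · rintro ⟨φ, h⟩
    exact ⟨φ, by ext a; simp [h a]⟩

lemma LM_ext' {M N : BM α} (hE : M.E = N.E) (hD : ∀ x, x ∈ M.D ↔ x ∈ N.D) : M = N :=
  LM.D_ext M hE hD

/-- any finite vertex type will do -/
lemma graphic_of_fintype {M : BM α} {V : Type*} [Fintype V] {f g : α → V}
    (h : ∀ x : α → ZMod 2, x ∈ M.D ↔
      ∃ φ : V → ZMod 2, ∀ a, x a = if a ∈ M.E then φ (f a) + φ (g a) else 0) : Graphic M := by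
  let e := Fintype.equivFin V
  refine ⟨Fintype.card V, fun a => e (f a), fun a => e (g a), ?_⟩
  refine LM_ext' rfl fun x => ?_
  rw [h, mem_cyc]
  constructor
  · rintro ⟨φ, hφ⟩
    exact ⟨fun i => φ (e.symm i), fun a => by simp [hφ a]⟩
  · rintro ⟨φ, hφ⟩
    exact ⟨fun v => φ (e v), hφ⟩

/-- the members of the cocycle space of a graphic matroid come from potentials -/
lemma graphic_exists_mem {M : BM α} (h : Graphic M) : ∃ (n : ℕ) (f g : α → Fin n),
    ∀ x : α → ZMod 2, x ∈ M.D ↔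
      ∃ φ : Fin n → ZMod 2, ∀ a, x a = if a ∈ M.E then φ (f a) + φ (g a) else 0 := by
  obtain ⟨n, f, g, hM⟩ := h
  refine ⟨n, f, g, fun x => ?_⟩
  conv_lhs => rw [hM]
  exact mem_cyc

/-- deletion: keep the graph -/
lemma graphic_del {M : BM α} (h : Graphic M) (X : Finset α) : Graphic (M.del X) := by
  obtain ⟨n, f, g, hM⟩ := graphic_exists_mem h
  refine graphic_of_fintype (f := f) (g := g) fun x => ?_
  rw [LM.mem_del]
  constructor
  · rintro ⟨h0, y, hy, hxy⟩
    obtain ⟨φ, hφ⟩ := (hM y).1 hy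
    refine ⟨φ, fun a => ?_⟩
    by_cases ha : a ∈ X
    · simp [ha, h0 a ha]
    · rw [hxy a ha, hφ a]
      simp [ha]
  · rintro ⟨φ, hφ⟩
    refine ⟨fun a ha => ?_, fun a => if a ∈ M.E then φ (f a) + φ (g a) else 0,
      (hM _).2 ⟨φ, fun a => rfl⟩, fun a ha => ?_⟩
    · rw [hφ a]
      simp [ha]
    · rw [hφ a]
      simp [ha]

/-- contraction: identify the ends of the edges of `X` (quotient of the vertex set by the
equivalence relation generated by the edges in `X ∩ M.E`) -/
lemma graphic_con {M : BM α} (h : Graphic M) (X : Finset α) : Graphic (M.con X) := by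
  obtain ⟨n, f, g, hM⟩ := graphic_exists_mem h
  let r : Fin n → Fin n → Prop := fun u v => ∃ a ∈ X, a ∈ M.E ∧ f a = u ∧ g a = v
  let _ : Fintype (Quot r) := Fintype.ofFinite _
  refine graphic_of_fintype (f := fun a => Quot.mk r (f a)) (g := fun a => Quot.mk r (g a))
    fun x => ?_
  rw [LM.mem_con]
  constructor
  · rintro ⟨hx, h0⟩
    obtain ⟨φ, hφ⟩ := (hM x).1 hx
    have hr : ∀ u v, r u v → φ u = φ v := by
      rintro u v ⟨a, haX, haE, rfl, rfl⟩
      have := hφ a
      rw [h0 a haX, if_pos haE] at this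
      exact CharTwo.add_eq_zero.1 this.symm
    refine ⟨Quot.lift φ hr, fun a => ?_⟩
    by_cases ha : a ∈ X
    · simp [ha, h0 a ha]
    · rw [hφ a]
      simp [ha]
  · rintro ⟨φ, hφ⟩
    have h0 : ∀ a ∈ X, x a = 0 := fun a ha => by
      rw [hφ a]
      simp [ha]
    refine ⟨(hM x).2 ⟨fun v => φ (Quot.mk r v), fun a => ?_⟩, h0⟩
    by_cases ha : a ∈ X
    · rw [h0 a ha]
      by_cases haE : a ∈ M.E
      · rw [if_pos haE]
        have : Quot.mk r (f a) = Quot.mk r (g a) := Quot.sound ⟨a, ha, haE, rfl, rfl⟩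
        show 0 = φ (Quot.mk r (f a)) + φ (Quot.mk r (g a))
        rw [this]
        exact (CharTwo.add_self_eq_zero _).symm
      · rw [if_neg haE]
    · rw [hφ a]
      simp [ha]

lemma graphic_minor {M N : BM α} (h : Graphic M) (hN : N.IsMinor M) : Graphic N := by
  obtain ⟨C, D, _, rfl⟩ := hN
  exact graphic_del (graphic_con h C) D

lemma cographic_minor {M N : BM α} (h : Cographic M) (hN : N.IsMinor M) : Cographic N :=
  graphic_minor (M := M.dual) (N := N.dual) h hN.dual

lemma graphic_dual_iff {M : BM α} : Graphic M.dual ↔ Cographic M := Iff.rfl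

lemma cographic_dual_iff {M : BM α} : Cographic M.dual ↔ Graphic M := by
  unfold Cographic
  rw [LM.dual_dual]

end Pool.Agent.H87.Sey
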