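import Pool.Agent.H87.Sey.GraphBasic

/-!
# Star families, parallel and series extensions (Seymour project, MP_dbe88a_co, job S87-6)
-/

set_option autoImplicit false

namespace Pool.Agent.H87.Sey

open Pool.Agent.H63.Sey

universe u

variable {α : Type u} [DecidableEq α]

/-- star families: the cocycles `s i` (`i : Fin n`) span `M.D` and every element is in exactly
two of them -/
theorem graphic_of_stars {M : BM α} {n : ℕ} (s : Fin n → α → ZMod 2) (hs : ∀ i, s i ∈ M.D)
    (hspan : M.D ≤ Submodule.span (ZMod 2) (Set.range s))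
    (h2 : ∀ a ∈ M.E, ∃ i j, i ≠ j ∧ ∀ k, s k a = if k = i ∨ k = j then 1 else 0) :
    Graphic M := by
  have h2' : ∀ a, ∃ p q : Option (Fin n), a ∈ M.E → ∃ i j, p = some i ∧ q = some j ∧ i ≠ j ∧
      ∀ k, s k a = if k = i ∨ k = j then 1 else 0 := by
    intro a
    by_cases ha : a ∈ M.E
    · obtain ⟨i, j, h⟩ := h2 a ha
      exact ⟨some i, some j, fun _ => ⟨i, j, rfl, rfl, h⟩⟩
    · exact ⟨none, none, fun h => absurd h ha⟩
  choose f g hfg using h2'
  have key : ∀ (c : Fin n → ZMod 2) (φ : Option (Fin n) → ZMod 2), (∀ i, φ (some i) = c i) →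
      ∀ a, (∑ k, c k • s k) a = if a ∈ M.E then φ (f a) + φ (g a) else 0 := by
    intro c φ hc a
    rw [Finset.sum_apply]
    by_cases ha : a ∈ M.E
    · obtain ⟨i, j, hi, hj, hij, hk⟩ := hfg a ha
      rw [if_pos ha, hi, hj, hc, hc]
      simp only [Pi.smul_apply, smul_eq_mul, hk]
      have : ∀ k, c k * (if k = i ∨ k = j then 1 else 0) =
          (if k = i then c i else 0) + (if k = j then c j else 0) := by
        intro k
        by_cases h1 : k = i
        · subst h1
          simp [hij]
        · by_cases h3 : k = j
          · subst h3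
            simp [h1]
          · simp [h1, h3]
      simp only [this, Finset.sum_add_distrib, Finset.sum_ite_eq', Finset.mem_univ, if_true]
    · rw [if_neg ha]
      refine Finset.sum_eq_zero fun k _ => ?_
      simp [M.supp _ (hs k) a ha]
  refine graphic_of_fintype (f := f) (g := g) fun x => ⟨fun hx => ?_, ?_⟩
  · obtain ⟨c, hc⟩ := (Submodule.mem_span_range_iff_exists_fun (ZMod 2)).1 (hspan hx)
    refine ⟨fun o => o.elim 0 c, fun a => ?_⟩
    rw [← hc]
    exact key c (fun o => o.elim 0 c) (fun i => rfl) a
  · rintro ⟨φ, hφ⟩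
    have : x = ∑ k, φ (some k) • s k := by
      ext a
      rw [hφ a]
      exact (key (fun k => φ (some k)) φ (fun i => rfl) a).symm
    rw [this]
    exact Submodule.sum_mem _ fun k _ => Submodule.smul_mem _ _ (hs k)

/-- parallel extension: `a` parallel to `b` -/
theorem graphic_of_parallel {M : BM α} {a b : α} (hab : a ≠ b) (hb : b ∈ M.E)
    (h : ∀ y ∈ M.D, y a = y b) (hG : Graphic (M.del {a})) : Graphic M := by
  obtain ⟨n, f, g, hM⟩ := graphic_exists_mem hG
  refine graphic_of_fintype (f := Function.update f a (f b)) (g := Function.update g a (g b))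
    fun x => ⟨fun hx => ?_, ?_⟩
  · have hz : (fun c => if c = a then 0 else x c) ∈ (M.del {a}).D := by
      rw [LM.mem_del]
      refine ⟨fun c hc => ?_, x, hx, fun c hc => ?_⟩
      · simp [Finset.mem_singleton.1 hc]
      · exact if_neg (by simpa using hc)
    obtain ⟨φ, hφ⟩ := (hM _).1 hz
    have hb' := hφ b
    simp only [LM.del_E, Finset.mem_sdiff, Finset.mem_singleton, hb, hab.symm, not_false_eq_true,
      and_true, if_true, if_false] at hb'
    refine ⟨φ, fun c => ?_⟩
    by_cases hc : c = a
    · subst hc
      by_cases hcE : c ∈ M.E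
      · simp [hcE, h x hx, hb']
      · simp [hcE, M.supp x hx c hcE]
    · have := hφ c
      simp only [hc, if_false, LM.del_E, Finset.mem_sdiff, Finset.mem_singleton,
        not_false_eq_true, and_true] at this
      simp [hc, this]
  · rintro ⟨φ, hφ⟩
    obtain ⟨-, y, hy, hyz⟩ := (LM.mem_del M).1 ((hM _).2 ⟨φ, fun c => rfl⟩)
    have : x = y := by
      ext c
      by_cases hc : c = a
      · subst hc
        by_cases hcE : c ∈ M.E
        · have h1 := hyz b (by simpa using hab.symm)
          rw [h y hy, ← h1, hφ c]
          simp [hcE, hb, hab.symm]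
        · rw [M.supp y hy c hcE, hφ c, if_neg hcE]
      · rw [← hyz c (by simpa using hc), hφ c]
        simp [hc]
    rw [this]
    exact hy

/-- `y + (y a) • s` is in the contraction if `s` is a cocycle with `s a = 1` -/
lemma add_smul_mem_con {M : BM α} {a : α} {s y : α → ZMod 2} (hs : s ∈ M.D) (hsa : s a = 1) :
    y ∈ M.D ↔ (fun c => y c + y a * s c) ∈ (M.con {a}).D := by
  have e : (fun c => y c + y a * s c) = y + y a • s := by
    ext c
    simp
  rw [LM.mem_con]
  constructor
  · intro hy
    refine ⟨?_, fun c hc => ?_⟩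
    · rw [e]
      exact M.D.add_mem hy (M.D.smul_mem _ hs)
    · rw [Finset.mem_singleton.1 hc, hsa, mul_one]
      exact CharTwo.add_self_eq_zero _
  · rintro ⟨h1, -⟩
    have h2 : y = (fun c => y c + y a * s c) + y a • s := by
      ext c
      simp only [Pi.add_apply, Pi.smul_apply, smul_eq_mul, add_assoc, CharTwo.add_self_eq_zero,
        add_zero]
    rw [h2]
    exact M.D.add_mem h1 (M.D.smul_mem _ hs)

/-- series extension: `{a, b}` is a cocycle; subdivide the edge `b` of the graph of `M / a` -/
theorem graphic_of_series {M : BM α} {a b : α} (hab : a ≠ b) (ha : a ∈ M.E) (hb : b ∈ M.E)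
    (h : (fun c => if c = a ∨ c = b then 1 else 0) ∈ M.D) (hG : Graphic (M.con {a})) :
    Graphic M := by
  obtain ⟨n, f, g, hM⟩ := graphic_exists_mem hG
  refine graphic_of_fintype (V := Option (Fin n))
    (f := fun c => if c = a then none else some (f c))
    (g := fun c => if c = a then some (g b) else if c = b then none else some (g c))
    fun x => ?_
  rw [add_smul_mem_con (a := a) h (by simp), hM]
  constructor
  · rintro ⟨φ, hφ⟩
    refine ⟨fun o => o.elim (φ (g b) + x a) φ, fun c => ?_⟩
    by_cases hc : c = a
    · subst hc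
      simp only [ha, if_true, Option.elim]
      rw [add_comm, ← add_assoc, CharTwo.add_self_eq_zero, zero_add]
    · have h1 := hφ c
      by_cases hcb : c = b
      · subst hcb
        simp only [or_true, if_true, mul_one, LM.con_E, Finset.mem_sdiff, hb,
          Finset.mem_singleton, hc, not_false_eq_true, and_self] at h1
        simp only [hb, hc, if_true, if_false, Option.elim]
        rw [← add_assoc, ← h1, add_assoc, CharTwo.add_self_eq_zero, add_zero]
      · simp only [hc, hcb, or_self, if_false, mul_zero, add_zero, LM.con_E, Finset.mem_sdiff,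
          Finset.mem_singleton, not_false_eq_true, and_true] at h1
        simp only [hc, hcb, if_false, Option.elim, h1]
  · rintro ⟨φ, hφ⟩
    refine ⟨fun v => φ (some v), fun c => ?_⟩
    by_cases hc : c = a
    · subst hc
      simp [CharTwo.add_self_eq_zero]
    · by_cases hcb : c = b
      · subst hcb
        have h1 := hφ c
        have h2 := hφ a
        simp only [hb, hc, if_true, if_false] at h1
        simp only [ha, if_true] at h2
        simp only [or_true, if_true, mul_one, LM.con_E, Finset.mem_sdiff, hb,
          Finset.mem_singleton, hc, not_false_eq_true, and_self, h1, h2]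
        rw [add_assoc, ← add_assoc (φ none) (φ none), CharTwo.add_self_eq_zero, zero_add]
      · rw [hφ c]
        simp [hc, hcb]

/-- adding a loop or a coloop -/
theorem graphic_of_loop {M : BM α} {a : α} (h : ∀ y ∈ M.D, y a = 0) (hG : Graphic (M.del {a})) :
    Graphic M := by
  obtain ⟨n, f, g, hM⟩ := graphic_exists_mem hG
  refine graphic_of_fintype (f := f) (g := Function.update g a (f a))
    fun x => ⟨fun hx => ?_, ?_⟩
  · have hz : x ∈ (M.del {a}).D := by
      rw [LM.mem_del]
      exact ⟨fun c hc => by rw [Finset.mem_singleton.1 hc, h x hx], x, hx, fun c hc => rfl⟩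
    obtain ⟨φ, hφ⟩ := (hM _).1 hz
    refine ⟨φ, fun c => ?_⟩
    by_cases hc : c = a
    · subst hc
      simp [h x hx, CharTwo.add_self_eq_zero]
    · rw [hφ c]
      simp [hc]
  · rintro ⟨φ, hφ⟩
    obtain ⟨-, y, hy, hyz⟩ := (LM.mem_del M).1 ((hM _).2 ⟨φ, fun c => rfl⟩)
    have : x = y := by
      ext c
      by_cases hc : c = a
      · subst hc
        rw [h y hy, hφ c]
        simp [CharTwo.add_self_eq_zero]
      · rw [← hyz c (by simpa using hc), hφ c]
        simp [hc]
    rw [this]
    exact hy

theorem graphic_of_coloop {M : BM α} {a : α} (ha : a ∈ M.E)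
    (h : (fun c => if c = a then 1 else 0) ∈ M.D) (hG : Graphic (M.con {a})) : Graphic M := by
  obtain ⟨n, f, g, hM⟩ := graphic_exists_mem hG
  refine graphic_of_fintype (V := Option (Fin n))
    (f := fun c => if c = a then none else some (f c)) (g := fun c => some (g c))
    fun x => ?_
  rw [add_smul_mem_con (a := a) h (by simp), hM]
  constructor
  · rintro ⟨φ, hφ⟩
    refine ⟨fun o => o.elim (φ (g a) + x a) φ, fun c => ?_⟩
    by_cases hc : c = a
    · subst hc
      simp only [ha, if_true, Option.elim]
      rw [add_comm, ← add_assoc, CharTwo.add_self_eq_zero, zero_add]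
    · have h1 := hφ c
      simp only [hc, if_false, mul_zero, add_zero, LM.con_E, Finset.mem_sdiff,
          Finset.mem_singleton, not_false_eq_true, and_true] at h1
      simp only [hc, if_false, Option.elim, h1]
  · rintro ⟨φ, hφ⟩
    refine ⟨fun v => φ (some v), fun c => ?_⟩
    by_cases hc : c = a
    · subst hc
      simp [CharTwo.add_self_eq_zero]
    · rw [hφ c]
      simp [hc]

end Pool.Agent.H87.Sey
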