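import Pool.Agent.H63.Sey.Conc

/-!
# Definitions for part (II) (Seymour project, MP_dbe88a_co)
-/

set_option autoImplicit false

namespace Pool.Agent.H87.Sey

open Pool.Agent.H63.Sey

universe u

variable {α : Type u} [DecidableEq α]

/-- the first row of the 3 x 3 grid; in `M(K33)` the star of `a_0` -/
def row0 : Fin 3 → Fin 9 := ![0, 1, 2]

/-- all proper `3`-connected minors are graphic, cographic or `R10` -/
def MinOK (N : BM α) : Prop :=
  ∀ N' : BM α, N'.IsMinor N → N'.E.card < N.E.card → N'.Conn3 →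
    Graphic N' ∨ Cographic N' ∨ IsR10 N'

/-- rooted `M(K33)`-minor: the star of `a_0` is `y 0, y 1, y 2` -/
def Rooted33 (K : BM α) (y : Fin 3 → α) : Prop :=
  ∃ C D : Finset α, C ⊆ K.E \ Finset.univ.image y ∧ D ⊆ K.E \ Finset.univ.image y ∧
    Disjoint C D ∧ ∃ ι : Fin 9 → α, Function.Injective ι ∧ (K.con C).del D = conc k33 ι ∧
      ∀ i, ι (row0 i) = y i

end Pool.Agent.H87.Sey
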