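import Pool.Agent.H87.Sey.DualPart
import Pool.Agent.H87.Sey.P4Defs

/-!
# Recognising R12 (Seymour project, MP_dbe88a_co, job S87-12)
-/

set_option autoImplicit false

namespace Pool.Agent.H87.Sey

open Pool.Agent.H63.Sey

universe u

variable {α : Type u} [DecidableEq α]

namespace RecAux

/-! ### explicit sums -/

lemma s0 (φ : Fin 4 → ZMod 2) : ∑ j, φ j * k33s 0 j = φ 0 := by simp [k33s, Fin.sum_univ_four]
lemma s1 (φ : Fin 4 → ZMod 2) : ∑ j, φ j * k33s 1 j = φ 1 := by simp [k33s, Fin.sum_univ_four]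
lemma s2 (φ : Fin 4 → ZMod 2) : ∑ j, φ j * k33s 2 j = φ 0 + φ 1 := by
  simp [k33s, Fin.sum_univ_four]
lemma s3 (φ : Fin 4 → ZMod 2) : ∑ j, φ j * k33s 3 j = φ 2 := by simp [k33s, Fin.sum_univ_four]
lemma s4 (φ : Fin 4 → ZMod 2) : ∑ j, φ j * k33s 4 j = φ 3 := by simp [k33s, Fin.sum_univ_four]
lemma s5 (φ : Fin 4 → ZMod 2) : ∑ j, φ j * k33s 5 j = φ 2 + φ 3 := by
  simp [k33s, Fin.sum_univ_four]
lemma s6 (φ : Fin 4 → ZMod 2) : ∑ j, φ j * k33s 6 j = φ 0 + φ 2 := by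
  simp [k33s, Fin.sum_univ_four]
lemma s7 (φ : Fin 4 → ZMod 2) : ∑ j, φ j * k33s 7 j = φ 1 + φ 3 := by
  simp [k33s, Fin.sum_univ_four]
lemma s8 (φ : Fin 4 → ZMod 2) : ∑ j, φ j * k33s 8 j = φ 0 + φ 1 + φ 2 + φ 3 := by
  simp [k33s, Fin.sum_univ_four]

lemma t0 (ψ : Fin 5 → ZMod 2) : ∑ j, ψ j * k33 0 j = ψ 0 + ψ 3 := by
  simp [k33, Fin.sum_univ_five]
lemma t1 (ψ : Fin 5 → ZMod 2) : ∑ j, ψ j * k33 1 j = ψ 0 + ψ 4 := by
  simp [k33, Fin.sum_univ_five]
lemma t2 (ψ : Fin 5 → ZMod 2) : ∑ j, ψ j * k33 2 j = ψ 0 := by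
  simp [k33, Fin.sum_univ_five]
lemma t3 (ψ : Fin 5 → ZMod 2) : ∑ j, ψ j * k33 3 j = ψ 1 + ψ 3 := by
  simp [k33, Fin.sum_univ_five]
lemma t4 (ψ : Fin 5 → ZMod 2) : ∑ j, ψ j * k33 4 j = ψ 1 + ψ 4 := by
  simp [k33, Fin.sum_univ_five]
lemma t5 (ψ : Fin 5 → ZMod 2) : ∑ j, ψ j * k33 5 j = ψ 1 := by
  simp [k33, Fin.sum_univ_five]
lemma t6 (ψ : Fin 5 → ZMod 2) : ∑ j, ψ j * k33 6 j = ψ 2 + ψ 3 := by
  simp [k33, Fin.sum_univ_five]
lemma t7 (ψ : Fin 5 → ZMod 2) : ∑ j, ψ j * k33 7 j = ψ 2 + ψ 4 := by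
  simp [k33, Fin.sum_univ_five]
lemma t8 (ψ : Fin 5 → ZMod 2) : ∑ j, ψ j * k33 8 j = ψ 2 := by
  simp [k33, Fin.sum_univ_five]

lemma r0 (χ : Fin 6 → ZMod 2) : ∑ j, χ j * r12 0 j = χ 0 := by simp [r12, Fin.sum_univ_six]
lemma r1 (χ : Fin 6 → ZMod 2) : ∑ j, χ j * r12 1 j = χ 1 := by simp [r12, Fin.sum_univ_six]
lemma r2 (χ : Fin 6 → ZMod 2) : ∑ j, χ j * r12 2 j = χ 0 + χ 1 := by
  simp [r12, Fin.sum_univ_six]
lemma r3 (χ : Fin 6 → ZMod 2) : ∑ j, χ j * r12 3 j = χ 2 := by simp [r12, Fin.sum_univ_six]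
lemma r4 (χ : Fin 6 → ZMod 2) : ∑ j, χ j * r12 4 j = χ 3 := by simp [r12, Fin.sum_univ_six]
lemma r5 (χ : Fin 6 → ZMod 2) : ∑ j, χ j * r12 5 j = χ 2 + χ 3 := by
  simp [r12, Fin.sum_univ_six]
lemma r6 (χ : Fin 6 → ZMod 2) : ∑ j, χ j * r12 6 j = χ 4 := by simp [r12, Fin.sum_univ_six]
lemma r7 (χ : Fin 6 → ZMod 2) : ∑ j, χ j * r12 7 j = χ 0 + χ 1 + χ 2 + χ 3 + χ 4 := by
  simp [r12, Fin.sum_univ_six]
lemma r8 (χ : Fin 6 → ZMod 2) : ∑ j, χ j * r12 8 j = χ 1 + χ 3 + χ 4 := by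
  simp [r12, Fin.sum_univ_six]
lemma r9 (χ : Fin 6 → ZMod 2) : ∑ j, χ j * r12 9 j = χ 5 := by simp [r12, Fin.sum_univ_six]
lemma r10' (χ : Fin 6 → ZMod 2) : ∑ j, χ j * r12 10 j = χ 0 + χ 1 + χ 2 + χ 3 + χ 5 := by
  simp [r12, Fin.sum_univ_six]
lemma r11 (χ : Fin 6 → ZMod 2) : ∑ j, χ j * r12 11 j = χ 1 + χ 3 + χ 5 := by
  simp [r12, Fin.sum_univ_six]

/-- the other rows of the grid -/
def row1 : Fin 3 → Fin 9 := ![3, 4, 5]
def row2 : Fin 3 → Fin 9 := ![6, 7, 8]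

lemma rows (i : Fin 9) : (∃ j, i = row0 j) ∨ (∃ j, i = row1 j) ∨ ∃ j, i = row2 j := by
  revert i
  decide

lemma row1_ne (i j : Fin 3) : row1 i ≠ row0 j := by
  revert i j
  decide

lemma row2_ne (i j : Fin 3) : row2 i ≠ row0 j := by
  revert i j
  decide

/-- a vector with prescribed values -/
lemma exists_vec {k : ℕ} {A : Finset α} {z : Fin k → α} (hz : Function.Injective z)
    (hzA : ∀ i, z i ∉ A) (x : α → ZMod 2) (v : Fin k → ZMod 2) :
    ∃ w : α → ZMod 2, (∀ a ∈ A, w a = x a) ∧ (∀ i, w (z i) = v i) ∧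
      ∀ a, a ∉ A ∪ Finset.univ.image z → w a = 0 := by
  refine ⟨fun a => if a ∈ A then x a else ∑ i, if z i = a then v i else 0, ?_, ?_, ?_⟩
  · intro a ha
    exact if_pos ha
  · intro i
    show (if z i ∈ A then x (z i) else ∑ j, if z j = z i then v j else 0) = v i
    rw [if_neg (hzA i), Finset.sum_eq_single i]
    · exact if_pos rfl
    · intro j _ hj
      exact if_neg fun h => hj (hz h)
    · intro h
      exact absurd (Finset.mem_univ _) h
  · intro a ha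
    rw [Finset.mem_union, not_or] at ha
    show (if a ∈ A then x a else ∑ j, if z j = a then v j else 0) = 0
    rw [if_neg ha.1]
    refine Finset.sum_eq_zero fun j _ => if_neg fun h => ha.2 ?_
    exact Finset.mem_image.2 ⟨j, Finset.mem_univ _, h⟩

lemma part_vec {k : ℕ} {M P : BM α} {A : Finset α} {z : Fin k → α} {R : Fin k → Finset α}
    (hP : IsPart M P A z R) {y : α → ZMod 2} (hy : y ∈ M.D) :
    ∃ w ∈ P.D, (∀ a ∈ A, w a = y a) ∧ ∀ i, w (z i) = ∑ a ∈ R i, y a := by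
  obtain ⟨w, h1, h2, h3⟩ := exists_vec hP.inj hP.z_nmem y (fun i => ∑ a ∈ R i, y a)
  refine ⟨w, (hP.mem w).2 ⟨?_, y, hy, h1, h2⟩, h1, h2⟩
  intro a ha
  rw [hP.E_eq] at ha
  exact h3 a ha

/-- membership in the side -/
lemma side {M P : BM α} {A : Finset α} {z : Fin 3 → α} {R : Fin 3 → Finset α}
    (hP : IsPart M P A z R) {ι : Fin 9 → α} (hι : Function.Injective ι) (hPι : P = conc k33s ι)
    (hz : ∀ i, z i = ι (row0 i)) :
    (∀ i, ι (row1 i) ∈ A) ∧ (∀ i, ι (row2 i) ∈ A) ∧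
      (∀ a ∈ A, (∃ j, a = ι (row1 j)) ∨ ∃ j, a = ι (row2 j)) ∧ A.card = 6 := by
  have hE : Finset.univ.image ι = A ∪ Finset.univ.image z := by
    rw [← hP.E_eq, hPι]
    rfl
  have h1 : ∀ k : Fin 9, (∀ j, k ≠ row0 j) → ι k ∈ A := by
    intro k hk
    have h2 : ι k ∈ A ∪ Finset.univ.image z := by
      rw [← hE]
      exact Finset.mem_image.2 ⟨k, Finset.mem_univ _, rfl⟩
    rcases Finset.mem_union.1 h2 with h3 | h3
    · exact h3
    · obtain ⟨j, -, hj⟩ := Finset.mem_image.1 h3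
      rw [hz] at hj
      exact absurd (hι hj).symm (hk j)
  refine ⟨fun i => h1 _ (row1_ne i), fun i => h1 _ (row2_ne i), ?_, ?_⟩
  · intro a ha
    have h2 : a ∈ Finset.univ.image ι := by
      rw [hE]
      exact Finset.mem_union_left _ ha
    obtain ⟨k, -, rfl⟩ := Finset.mem_image.1 h2
    rcases rows k with ⟨j, rfl⟩ | ⟨j, rfl⟩ | ⟨j, rfl⟩
    · rw [← hz] at ha
      exact absurd ha (hP.z_nmem j)
    · exact Or.inl ⟨j, rfl⟩
    · exact Or.inr ⟨j, rfl⟩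
  · have h2 : (Finset.univ.image ι).card = 9 := by
      rw [Finset.card_image_of_injective _ hι, Finset.card_univ, Fintype.card_fin]
    have h3 : (Finset.univ.image z).card = 3 := by
      rw [Finset.card_image_of_injective _ hP.inj, Finset.card_univ, Fintype.card_fin]
    rw [hE, Finset.card_union_of_disjoint, h3] at h2
    · omega
    · rw [Finset.disjoint_left]
      intro a ha ha'
      obtain ⟨j, -, rfl⟩ := Finset.mem_image.1 ha'
      exact hP.z_nmem j ha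

/-- the values on the side `A` -/
lemma sideA {M P : BM α} {A : Finset α} {z : Fin 3 → α} {R : Fin 3 → Finset α}
    (hP : IsPart M P A z R) {ι : Fin 9 → α} (hι : Function.Injective ι) (hPι : P = conc k33s ι)
    (hz : ∀ i, z i = ι (row0 i)) :
    (∀ y ∈ M.D, ∃ φ : Fin 4 → ZMod 2, (∀ k, (∀ j, k ≠ row0 j) →
      y (ι k) = ∑ j, φ j * k33s k j) ∧ ∀ i, ∑ a ∈ R i, y a = ∑ j, φ j * k33s (row0 i) j) ∧
    (∀ φ : Fin 4 → ZMod 2, ∃ y ∈ M.D, (∀ k, (∀ j, k ≠ row0 j) →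
      y (ι k) = ∑ j, φ j * k33s k j) ∧ ∀ i, ∑ a ∈ R i, y a = ∑ j, φ j * k33s (row0 i) j) := by
  obtain ⟨m1, m2, -, -⟩ := side hP hι hPι hz
  have hm : ∀ k, (∀ j, k ≠ row0 j) → ι k ∈ A := by
    intro k hk
    rcases rows k with ⟨j, hj⟩ | ⟨j, rfl⟩ | ⟨j, rfl⟩
    · exact absurd hj (hk j)
    · exact m1 j
    · exact m2 j
  constructor
  · intro y hy
    obtain ⟨w, hw, h1, h2⟩ := part_vec hP hy
    rw [hPι, mem_conc hι] at hw
    obtain ⟨-, φ, hφ⟩ := hw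
    refine ⟨φ, ?_, ?_⟩
    · intro k hk
      rw [← h1 _ (hm k hk), hφ]
    · intro i
      rw [← h2, hz, hφ]
  · intro φ
    have hw : concMap k33s ι φ ∈ P.D := by
      rw [hPι]
      exact ⟨φ, rfl⟩
    obtain ⟨-, y, hy, h1, h2⟩ := (hP.mem _).1 hw
    refine ⟨y, hy, ?_, ?_⟩
    · intro k hk
      rw [← h1 _ (hm k hk), concMap_mem k33s hι]
    · intro i
      rw [← h2, hz, concMap_mem k33s hι]

/-- the values on the side `B`, from the dual part -/
lemma sideB {N : BM α} {B : Finset α} (hB : B ⊆ N.E) {R' S' : Fin 3 → Finset α}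
    {Q : BM α} {z' : Fin 3 → α} (h' : Guts N.dual B R' S') (ht' : Tri N.dual R')
    (hQ : IsPart N.dual Q B z' R') {κ : Fin 9 → α}
    (hκ : Function.Injective κ) (hQκ : Q = conc k33s κ) (hz' : ∀ i, z' i = κ (row0 i)) :
    ∃ R'' S'' : Fin 3 → Finset α, Guts N B R'' S'' ∧ Tri N R'' ∧
    (∀ y ∈ N.D, ∃ c₁ c₂ : ZMod 2, ∃ b : Fin 3 → ZMod 2,
      (∀ j, y (κ (row1 j)) = c₁ + b j) ∧ (∀ j, y (κ (row2 j)) = c₂ + b j) ∧
      ∀ j, ∑ a ∈ R'' j, y a = (b 0 + b 1 + b 2) + b j) ∧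
    (∀ (c₁ c₂ : ZMod 2) (b : Fin 3 → ZMod 2), ∃ y ∈ N.D,
      (∀ j, y (κ (row1 j)) = c₁ + b j) ∧ (∀ j, y (κ (row2 j)) = c₂ + b j) ∧
      ∀ j, ∑ a ∈ R'' j, y a = (b 0 + b 1 + b 2) + b j) := by
  obtain ⟨m1, m2, -, -⟩ := side hQ hκ hQκ hz'
  have hB' : B ⊆ N.dual.E := hB
  obtain ⟨R'', S'', hg, htg, hpair⟩ := guts_dual hB' h' ht'
  obtain ⟨P', hP'⟩ := exists_isPart N.dual.dual B R'' hQ.inj hQ.z_nmem
  have hpart := part_dual hB' h' ht' hg htg hpair hQ hP'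
  have hQd : Q.dual = conc k33 κ := by
    rw [hQκ, ← k33_dual hκ, LM.dual_dual]
  rw [hQd] at hpart
  have hdd : N.dual.dual = N := N.dual_dual
  rw [hdd] at hg htg hP'
  have e0 : z' 0 = κ 0 := hz' 0
  have e1 : z' 1 = κ 1 := hz' 1
  have e2 : z' 2 = κ 2 := hz' 2
  refine ⟨R'', S'', hg, htg, ?_, ?_⟩
  · intro y hy
    obtain ⟨w, hw, h1, h2⟩ := part_vec hP' hy
    obtain ⟨-, x, hx, h3, h4, h5, h6⟩ := (hpart w).1 hw
    obtain ⟨-, ψ, hψ⟩ := (mem_conc hκ).1 hx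
    refine ⟨ψ 1, ψ 2, ![ψ 3, ψ 4, 0], ?_, ?_, ?_⟩
    · intro j
      rw [← h1 _ (m1 j), h3 _ (m1 j), hψ]
      fin_cases j
      · exact t3 ψ
      · exact t4 ψ
      · exact (t5 ψ).trans (add_zero _).symm
    · intro j
      rw [← h1 _ (m2 j), h3 _ (m2 j), hψ]
      fin_cases j
      · exact t6 ψ
      · exact t7 ψ
      · exact (t8 ψ).trans (add_zero _).symm
    · intro j
      have k0 : ∀ a b c : ZMod 2, (a + c) + a = (b + c + 0) + b := by decide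
      have k1 : ∀ a b c : ZMod 2, (a + b) + a = (b + c + 0) + c := by decide
      have k2 : ∀ a b c : ZMod 2, (a + b) + (a + c) = (b + c + 0) + 0 := by decide
      fin_cases j
      · show ∑ a ∈ R'' 0, y a = (ψ 3 + ψ 4 + 0) + ψ 3
        rw [← h2, h4, e1, e2, hψ, hψ, t1, t2]
        exact k0 _ _ _
      · show ∑ a ∈ R'' 1, y a = (ψ 3 + ψ 4 + 0) + ψ 4
        rw [← h2, h5, e0, e2, hψ, hψ, t0, t2]
        exact k1 _ _ _
      · show ∑ a ∈ R'' 2, y a = (ψ 3 + ψ 4 + 0) + 0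
        rw [← h2, h6, e0, e1, hψ, hψ, t0, t1]
        exact k2 _ _ _
  · intro c₁ c₂ b
    set ψ : Fin 5 → ZMod 2 := ![0, c₁ + b 2, c₂ + b 2, b 0 + b 2, b 1 + b 2] with hψdef
    set x : α → ZMod 2 := concMap k33 κ ψ with hxdef
    have hx : x ∈ (conc k33 κ).D := ⟨ψ, rfl⟩
    have hxv : ∀ i, x (κ i) = ∑ j, ψ j * k33 i j := fun i => concMap_mem k33 hκ ψ i
    obtain ⟨w, h1, h2, h3⟩ := exists_vec hQ.inj hQ.z_nmem x
      (![x (z' 1) + x (z' 2), x (z' 0) + x (z' 2), x (z' 0) + x (z' 1)])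
    have hw : w ∈ P'.D := by
      rw [hpart]
      refine ⟨?_, x, hx, h1, h2 0, h2 1, h2 2⟩
      intro a ha
      rw [hP'.E_eq] at ha
      exact h3 a ha
    obtain ⟨-, y, hy, h4, h5⟩ := (hP'.mem w).1 hw
    have k1 : ∀ a b c : ZMod 2, (a + b) + (c + b) = a + c := by decide
    refine ⟨y, hy, ?_, ?_, ?_⟩
    · intro j
      rw [← h4 _ (m1 j), h1 _ (m1 j), hxv]
      fin_cases j
      · exact (t3 ψ).trans (k1 _ _ _)
      · exact (t4 ψ).trans (k1 _ _ _)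
      · exact t5 ψ
    · intro j
      rw [← h4 _ (m2 j), h1 _ (m2 j), hxv]
      fin_cases j
      · exact (t6 ψ).trans (k1 _ _ _)
      · exact (t7 ψ).trans (k1 _ _ _)
      · exact t8 ψ
    · intro j
      have k2 : ∀ a b c : ZMod 2, 0 + (b + c) + 0 = (a + b + c) + a := by decide
      have k3 : ∀ a b c : ZMod 2, 0 + (a + c) + 0 = (a + b + c) + b := by decide
      have k4 : ∀ a b c : ZMod 2, 0 + (a + c) + (0 + (b + c)) = (a + b + c) + c := by decide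
      fin_cases j
      · show ∑ a ∈ R'' 0, y a = (b 0 + b 1 + b 2) + b 0
        rw [← h5, h2]
        show x (z' 1) + x (z' 2) = _
        rw [e1, e2, hxv, hxv, t1, t2]
        exact k2 _ _ _
      · show ∑ a ∈ R'' 1, y a = (b 0 + b 1 + b 2) + b 1
        rw [← h5, h2]
        show x (z' 0) + x (z' 2) = _
        rw [e0, e2, hxv, hxv, t0, t2]
        exact k3 _ _ _
      · show ∑ a ∈ R'' 2, y a = (b 0 + b 1 + b 2) + b 2
        rw [← h5, h2]
        show x (z' 0) + x (z' 1) = _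
        rw [e0, e1, hxv, hxv, t0, t1]
        exact k4 _ _ _

end RecAux

open RecAux

/-- If the part of `N` on `A` is `M*(K33)` and the part of `N.dual` on `B = N.E \ A` is
`M*(K33)`, the guts being the first row in both cases, then `N` is `R12`. By `part_dual` (applied
to `N.dual`, whose dual is `N`; permute with `guts3_perm`) the part of `N` on `B` is obtained from
`M(K33)` by a Y-Delta exchange. By the symmetry of `M*(K33)` (permutation of the columns) one can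
match the guts points of the two sides. By `Guts.mem_iff` the cocycles of `N` are then known
explicitly: compare with `conc r12 θ` (`mem_conc`). In `r12` the elements `0,...,5` are the part
`A` (rows 1 and 2 of the grid), elements `6,...,11` the part `B`. -/
theorem r12_of_parts {N : BM α} {A : Finset α} (hA : A ⊆ N.E) {R S R' S' : Fin 3 → Finset α}
    {P Q : BM α} {z z' : Fin 3 → α} (h : Guts N A R S) (ht : Tri N R) (hP : IsPart N P A z R)
    (h' : Guts N.dual (N.E \ A) R' S') (ht' : Tri N.dual R')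
    (hQ : IsPart N.dual Q (N.E \ A) z' R') {ι κ : Fin 9 → α} (hι : Function.Injective ι)
    (hκ : Function.Injective κ) (hPι : P = conc k33s ι) (hQκ : Q = conc k33s κ)
    (hz : ∀ i, z i = ι (row0 i)) (hz' : ∀ i, z' i = κ (row0 i)) :
    ∃ θ : Fin 12 → α, Function.Injective θ ∧ N = conc r12 θ := by
  have hB : N.E \ A ⊆ N.E := Finset.sdiff_subset
  obtain ⟨R'', S'', hg, htg, l1, l2⟩ := sideB hB h' ht' hQ hκ hQκ hz'
  obtain ⟨mA1, mA2, mA, cA⟩ := side hP hι hPι hz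
  obtain ⟨mB1, mB2, mB, cB⟩ := side hQ hκ hQκ hz'
  obtain ⟨k1, k2⟩ := sideA hP hι hPι hz
  -- match the guts points
  have hS := h.symm hA
  have htS : Tri N S := by
    intro y hy
    rw [← h.eq 0 y hy, ← h.eq 1 y hy, ← h.eq 2 y hy]
    exact ht y hy
  obtain ⟨σ, hσ⟩ := guts3_perm hS htS hg htg
  set τ : Equiv.Perm (Fin 3) := σ.symm with hτ
  have hSR : ∀ j, ∀ y ∈ N.D, ∑ a ∈ S j, y a = ∑ a ∈ R'' (τ j), y a := by
    intro j y hy
    rw [hσ (τ j) y hy, hτ, Equiv.apply_symm_apply]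
  set θ : Fin 12 → α := ![ι 3, ι 4, ι 5, ι 6, ι 7, ι 8, κ (row1 (τ 0)), κ (row1 (τ 1)),
    κ (row1 (τ 2)), κ (row2 (τ 0)), κ (row2 (τ 1)), κ (row2 (τ 2))] with hθ
  have hcard : N.E.card = 12 := by
    rw [← Finset.card_sdiff_add_card_eq_card hA, cA, cB]
  have himg : Finset.univ.image θ = N.E := by
    ext a
    rw [Finset.mem_image]
    constructor
    · rintro ⟨i, -, rfl⟩
      fin_cases i
      · exact hA (mA1 0)
      · exact hA (mA1 1)
      · exact hA (mA1 2)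
      · exact hA (mA2 0)
      · exact hA (mA2 1)
      · exact hA (mA2 2)
      · exact hB (mB1 (τ 0))
      · exact hB (mB1 (τ 1))
      · exact hB (mB1 (τ 2))
      · exact hB (mB2 (τ 0))
      · exact hB (mB2 (τ 1))
      · exact hB (mB2 (τ 2))
    · intro ha
      by_cases haA : a ∈ A
      · rcases mA a haA with ⟨j, rfl⟩ | ⟨j, rfl⟩
        · fin_cases j
          · exact ⟨0, Finset.mem_univ _, rfl⟩
          · exact ⟨1, Finset.mem_univ _, rfl⟩
          · exact ⟨2, Finset.mem_univ _, rfl⟩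
        · fin_cases j
          · exact ⟨3, Finset.mem_univ _, rfl⟩
          · exact ⟨4, Finset.mem_univ _, rfl⟩
          · exact ⟨5, Finset.mem_univ _, rfl⟩
      · rcases mB a (Finset.mem_sdiff.2 ⟨ha, haA⟩) with ⟨j, rfl⟩ | ⟨j, rfl⟩
        · obtain ⟨i, rfl⟩ := τ.surjective j
          fin_cases i
          · exact ⟨6, Finset.mem_univ _, rfl⟩
          · exact ⟨7, Finset.mem_univ _, rfl⟩
          · exact ⟨8, Finset.mem_univ _, rfl⟩
        · obtain ⟨i, rfl⟩ := τ.surjective j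
          fin_cases i
          · exact ⟨9, Finset.mem_univ _, rfl⟩
          · exact ⟨10, Finset.mem_univ _, rfl⟩
          · exact ⟨11, Finset.mem_univ _, rfl⟩
  have hinj : Function.Injective θ := by
    have h1 : (Finset.univ.image θ).card = (Finset.univ : Finset (Fin 12)).card := by
      rw [himg, hcard, Finset.card_univ, Fintype.card_fin]
    intro i j hij
    exact Finset.card_image_iff.1 h1 (Finset.mem_coe.2 (Finset.mem_univ i))
      (Finset.mem_coe.2 (Finset.mem_univ j)) hij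
  refine ⟨θ, hinj, ?_⟩
  refine LM.D_ext _ himg.symm fun y => ?_
  rw [mem_conc hinj]
  constructor
  · intro hy
    refine ⟨fun a ha => N.supp y hy a (by rwa [← himg]), ?_⟩
    obtain ⟨φ, p1, p2⟩ := k1 y hy
    obtain ⟨c₁, c₂, b, q1, q2, q3⟩ := l1 y hy
    -- the guts sums
    have hb : b (τ 0) + b (τ 1) + b (τ 2) = b 0 + b 1 + b 2 := by
      have := Equiv.sum_comp τ b
      rwa [Fin.sum_univ_three, Fin.sum_univ_three] at this
    have g : ∀ j, ∑ i, φ i * k33s (row0 j) i = (b (τ 0) + b (τ 1) + b (τ 2)) + b (τ j) := by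
      intro j
      rw [← p2 j, h.eq j y hy, hSR j y hy, q3, hb]
    have g0 : φ 0 = (b (τ 0) + b (τ 1) + b (τ 2)) + b (τ 0) := by rw [← g 0]; exact (s0 φ).symm
    have g1 : φ 1 = (b (τ 0) + b (τ 1) + b (τ 2)) + b (τ 1) := by rw [← g 1]; exact (s1 φ).symm
    set χ : Fin 6 → ZMod 2 :=
      ![φ 2, φ 3, φ 0 + φ 2, φ 1 + φ 3, c₁ + b (τ 0), c₂ + b (τ 0)] with hχd
    refine ⟨χ, ?_⟩
    have n3 : ∀ j, (3 : Fin 9) ≠ row0 j := by decide
    have n4 : ∀ j, (4 : Fin 9) ≠ row0 j := by decide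
    have n5 : ∀ j, (5 : Fin 9) ≠ row0 j := by decide
    have n6 : ∀ j, (6 : Fin 9) ≠ row0 j := by decide
    have n7 : ∀ j, (7 : Fin 9) ≠ row0 j := by decide
    have n8 : ∀ j, (8 : Fin 9) ≠ row0 j := by decide
    have d5 : ∀ a b c d : ZMod 2, a + b + c + d = a + c + (b + d) := by decide
    have e7 : ∀ a b c x y z : ZMod 2, x + b = y + z + ((a + b + c) + a + y) +
        ((a + b + c) + b + z) + (x + a) := by decide
    have e8 : ∀ a b c x z : ZMod 2, x + c = z + ((a + b + c) + b + z) + (x + a) := by decide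
    intro i
    fin_cases i
    · exact ((p1 3 n3).trans (s3 φ)).trans (r0 χ).symm
    · exact ((p1 4 n4).trans (s4 φ)).trans (r1 χ).symm
    · exact ((p1 5 n5).trans (s5 φ)).trans (r2 χ).symm
    · exact ((p1 6 n6).trans (s6 φ)).trans (r3 χ).symm
    · exact ((p1 7 n7).trans (s7 φ)).trans (r4 χ).symm
    · exact (((p1 8 n8).trans (s8 φ)).trans (d5 _ _ _ _)).trans (r5 χ).symm
    · exact (q1 (τ 0)).trans (r6 χ).symm
    · refine ((q1 (τ 1)).trans ?_).trans (r7 χ).symm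
      show c₁ + b (τ 1) = φ 2 + φ 3 + (φ 0 + φ 2) + (φ 1 + φ 3) + (c₁ + b (τ 0))
      rw [g0, g1]
      exact e7 _ _ _ _ _ _
    · refine ((q1 (τ 2)).trans ?_).trans (r8 χ).symm
      show c₁ + b (τ 2) = φ 3 + (φ 1 + φ 3) + (c₁ + b (τ 0))
      rw [g1]
      exact e8 _ _ _ _ _
    · exact (q2 (τ 0)).trans (r9 χ).symm
    · refine ((q2 (τ 1)).trans ?_).trans (r10' χ).symm
      show c₂ + b (τ 1) = φ 2 + φ 3 + (φ 0 + φ 2) + (φ 1 + φ 3) + (c₂ + b (τ 0))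
      rw [g0, g1]
      exact e7 _ _ _ _ _ _
    · refine ((q2 (τ 2)).trans ?_).trans (r11 χ).symm
      show c₂ + b (τ 2) = φ 3 + (φ 1 + φ 3) + (c₂ + b (τ 0))
      rw [g1]
      exact e8 _ _ _ _ _
  · rintro ⟨h0, χ, hχ⟩
    rw [h.mem_iff hA y]
    obtain ⟨x1, hx1, u1, u2⟩ := k2 ![χ 0 + χ 2, χ 1 + χ 3, χ 0, χ 1]
    set b' : Fin 3 → ZMod 2 := ![0, χ 0 + χ 2 + (χ 1 + χ 3), χ 1 + χ 3] with hb'
    obtain ⟨x2, hx2, v1, v2, v3⟩ := l2 (χ 4) (χ 5) (b' ∘ σ)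
    have hbτ : ∀ j, (b' ∘ σ) (τ j) = b' j := by
      intro j
      rw [Function.comp_apply, hτ, Equiv.apply_symm_apply]
    have hbs : (b' ∘ σ) 0 + (b' ∘ σ) 1 + (b' ∘ σ) 2 = b' 0 + b' 1 + b' 2 := by
      have := Equiv.sum_comp σ b'
      rwa [Fin.sum_univ_three, Fin.sum_univ_three] at this
    -- agreement on the two sides
    have n3 : ∀ j, (3 : Fin 9) ≠ row0 j := by decide
    have n4 : ∀ j, (4 : Fin 9) ≠ row0 j := by decide
    have n5 : ∀ j, (5 : Fin 9) ≠ row0 j := by decide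
    have n6 : ∀ j, (6 : Fin 9) ≠ row0 j := by decide
    have n7 : ∀ j, (7 : Fin 9) ≠ row0 j := by decide
    have n8 : ∀ j, (8 : Fin 9) ≠ row0 j := by decide
    have w6 : ∀ a c : ZMod 2, c = a + c + a := by decide
    have w8 : ∀ a b c d : ZMod 2, c + d = a + c + (b + d) + a + b := by decide
    have agA : ∀ a ∈ A, y a = x1 a := by
      intro a ha
      rcases mA a ha with ⟨j, rfl⟩ | ⟨j, rfl⟩
      · fin_cases j
        · exact ((hχ 0).trans (r0 χ)).trans ((u1 3 n3).trans (s3 _)).symm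
        · exact ((hχ 1).trans (r1 χ)).trans ((u1 4 n4).trans (s4 _)).symm
        · exact ((hχ 2).trans (r2 χ)).trans ((u1 5 n5).trans (s5 _)).symm
      · fin_cases j
        · exact ((hχ 3).trans (r3 χ)).trans (((u1 6 n6).trans (s6 _)).trans (w6 _ _).symm).symm
        · exact ((hχ 4).trans (r4 χ)).trans (((u1 7 n7).trans (s7 _)).trans (w6 _ _).symm).symm
        · exact ((hχ 5).trans (r5 χ)).trans (((u1 8 n8).trans (s8 _)).trans
            (w8 _ _ _ _).symm).symm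
    have w7 : ∀ a b c d e : ZMod 2, a + b + c + d + e = e + (a + c + (b + d)) := by decide
    have w9 : ∀ b d e : ZMod 2, b + d + e = e + (b + d) := by decide
    have agB : ∀ a ∈ N.E \ A, y a = x2 a := by
      intro a ha
      rcases mB a ha with ⟨j, rfl⟩ | ⟨j, rfl⟩
      · obtain ⟨i, rfl⟩ := τ.surjective j
        rw [v1, hbτ]
        fin_cases i
        · exact ((hχ 6).trans (r6 χ)).trans (add_zero _).symm
        · exact ((hχ 7).trans (r7 χ)).trans (w7 _ _ _ _ _)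
        · exact ((hχ 8).trans (r8 χ)).trans (w9 _ _ _)
      · obtain ⟨i, rfl⟩ := τ.surjective j
        rw [v2, hbτ]
        fin_cases i
        · exact ((hχ 9).trans (r9 χ)).trans (add_zero _).symm
        · exact ((hχ 10).trans (r10' χ)).trans (w7 _ _ _ _ _)
        · exact ((hχ 11).trans (r11 χ)).trans (w9 _ _ _)
    refine ⟨fun a ha => h0 a (by rwa [himg]), ⟨x1, hx1, agA⟩, ⟨x2, hx2, agB⟩, ?_⟩
    intro j
    have f1 : ∑ a ∈ R j, y a = ∑ a ∈ R j, x1 a :=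
      Finset.sum_congr rfl fun a ha => agA a (h.R_sub j ha)
    have f2 : ∑ a ∈ S j, y a = ∑ a ∈ S j, x2 a :=
      Finset.sum_congr rfl fun a ha => agB a (h.S_sub j ha)
    rw [f1, f2, u2, hSR j x2 hx2, v3, hbτ, hbs]
    have z0 : ∀ p q : ZMod 2, p = (0 + (p + q) + q) + 0 := by decide
    have z1 : ∀ p q : ZMod 2, q = (0 + (p + q) + q) + (p + q) := by decide
    have z2 : ∀ p q : ZMod 2, p + q = (0 + (p + q) + q) + q := by decide
    fin_cases j
    · exact (s0 _).trans (z0 _ _)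
    · exact (s1 _).trans (z1 _ _)
    · exact (s2 _).trans (z2 _ _)

end Pool.Agent.H87.Sey
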