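import Pool.Agent.H87.Sey.Parts2

/-!
# Transfer of parts to minors (Seymour project, MP_dbe88a_co, job S87-11)
-/

set_option autoImplicit false

namespace Pool.Agent.H87.Sey

open Pool.Agent.H63.Sey

universe u

variable {α : Type u} [DecidableEq α]

/-! ### auxiliary lemmas -/

namespace TransferAux

lemma minor_lift {K : Type} [Field K] {M : LM K α} {C D : Finset α} {x : α → K}
    (hx : x ∈ ((M.con C).del D).D) :
    ∃ y ∈ M.D, (∀ a ∈ C, y a = 0) ∧ (∀ a ∈ D, x a = 0) ∧ ∀ a, a ∉ D → x a = y a := by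
  obtain ⟨h1, y, hy, h2⟩ := (LM.mem_del _).1 hx
  obtain ⟨h3, h4⟩ := (LM.mem_con _).1 hy
  exact ⟨y, h3, h4, h1, h2⟩

lemma minor_push {K : Type} [Field K] {M : LM K α} {C D : Finset α} {y : α → K}
    (hy : y ∈ M.D) (hC : ∀ a ∈ C, y a = 0) :
    (fun a => if a ∈ D then 0 else y a) ∈ ((M.con C).del D).D := by
  refine (LM.mem_del _).2 ⟨fun a ha => by simp [ha], y, (LM.mem_con _).2 ⟨hy, hC⟩, fun a ha => ?_⟩
  simp [ha]

lemma sum_push {y : α → ZMod 2} {X D : Finset α} (h : ∀ a ∈ X, a ∉ D) :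
    ∑ a ∈ X, (fun a => if a ∈ D then 0 else y a) a = ∑ a ∈ X, y a := by
  apply Finset.sum_congr rfl
  intro a ha
  simp [h a ha]

end TransferAux

open TransferAux PartsAux

/-- `(M.con C).del D` restricted to `X` has the same cocycles as `M` if the ranks agree -/
theorem restr_eq_of_rk {M N : BM α} (hN : N.IsMinor M) {X : Finset α} (hX : X ⊆ N.E)
    (hr : N.rk X = M.rk X) : (∀ x ∈ N.D, ∃ y ∈ M.D, ∀ a ∈ X, x a = y a) ∧
      (∀ y ∈ M.D, ∃ x ∈ N.D, ∀ a ∈ X, x a = y a) := by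
  have h1 : ∀ x ∈ N.D, ∃ y ∈ M.D, ∀ a ∈ X, x a = y a := by
    obtain ⟨C, D, hCD, rfl⟩ := hN
    intro x hx
    obtain ⟨y, hy, _, _, h2⟩ := minor_lift hx
    refine ⟨y, hy, fun a ha => h2 a ?_⟩
    have := hX ha
    rw [LM.del_E, Finset.mem_sdiff] at this
    exact this.2
  refine ⟨h1, ?_⟩
  have hle : N.D.map (res (ZMod 2) X) ≤ M.D.map (res (ZMod 2) X) := by
    rintro _ ⟨x, hx, rfl⟩
    obtain ⟨y, hy, hxy⟩ := h1 x hx
    refine ⟨y, hy, ?_⟩
    funext a
    by_cases ha : a ∈ X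
    · simp [ha, hxy a ha]
    · simp [ha]
  have heq := Submodule.eq_of_le_of_finrank_eq hle hr
  intro y hy
  have h2 : res (ZMod 2) X y ∈ N.D.map (res (ZMod 2) X) := by
    rw [heq]
    exact ⟨y, hy, rfl⟩
  obtain ⟨x, hx, hxy⟩ := h2
  refine ⟨x, hx, fun a ha => ?_⟩
  have := congrFun hxy a
  simpa [ha] using this

/-- the rank in the dual in terms of `lam` -/
theorem rk_dual_add {K : Type} [Field K] (M : LM K α) {X : Finset α} (hX : X ⊆ M.E) :
    M.dual.rk X + M.rk X = X.card + M.lam X := by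
  have h1 := M.rk_dual X hX
  have h2 := M.lam_add X
  omega

theorem isPart_transfer {k : ℕ} {M N P : BM α} {A : Finset α} {R : Fin k → Finset α}
    {z : Fin k → α} (hR : ∀ i, R i ⊆ A) (h1 : ∀ x ∈ N.D, ∃ y ∈ M.D, ∀ a ∈ A, x a = y a)
    (h2 : ∀ y ∈ M.D, ∃ x ∈ N.D, ∀ a ∈ A, x a = y a) (hP : IsPart M P A z R) :
    IsPart N P A z R := by
  refine ⟨hP.inj, hP.z_nmem, hP.E_eq, fun w => ?_⟩
  rw [hP.mem w]
  refine and_congr_right fun _ => ⟨?_, ?_⟩
  · rintro ⟨y, hy, hA, hz⟩
    obtain ⟨x, hx, hxy⟩ := h2 y hy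
    refine ⟨x, hx, fun a ha => (hA a ha).trans (hxy a ha).symm, fun i => (hz i).trans ?_⟩
    exact Finset.sum_congr rfl fun a ha => (hxy a (hR i ha)).symm
  · rintro ⟨x, hx, hA, hz⟩
    obtain ⟨y, hy, hxy⟩ := h1 x hx
    refine ⟨y, hy, fun a ha => (hA a ha).trans (hxy a ha), fun i => (hz i).trans ?_⟩
    exact Finset.sum_congr rfl fun a ha => hxy a (hR i ha)

/-- Let `N = (M.con C).del D`, `R'', S''` the guts of `N` at `A` (`exists_guts3`). The relation
`R'' i = S'' i` on `N.D` gives `R'' i = S'' i + (a subset of C)` on `M.D`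
(`exists_sum_of_vanish`), so by `Guts.full` for `M` each `R'' i` is some `R j` on `M.D`, hence also
on `N.D`. -/
theorem guts_transfer {M N : BM α} (hN : N.IsMinor M) {A : Finset α} (hA : A ⊆ N.E)
    (hl : M.lam A = 2) (hl' : N.lam A = 2) (hr : N.rk A = M.rk A) {R S : Fin 3 → Finset α}
    (h : Guts M A R S) (ht : Tri M R) : ∃ S', Guts N A R S' ∧ Tri N R := by
  obtain ⟨h1, h2⟩ := restr_eq_of_rk hN hA hr
  have hNM : N.E ⊆ M.E := hN.E_subset
  -- equalities on `M.D` between subsets of `A` go to `N.D`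
  have hgo : ∀ X ⊆ A, ∀ Y ⊆ A, (∀ y ∈ M.D, ∑ a ∈ X, y a = ∑ a ∈ Y, y a) →
      ∀ x ∈ N.D, ∑ a ∈ X, x a = ∑ a ∈ Y, x a := by
    intro X hX Y hY hXY x hx
    obtain ⟨y, hy, hxy⟩ := h1 x hx
    rw [Finset.sum_congr rfl fun a ha => hxy a (hX ha),
      Finset.sum_congr rfl fun a ha => hxy a (hY ha)]
    exact hXY y hy
  have htN : Tri N R := by
    intro x hx
    obtain ⟨y, hy, hxy⟩ := h1 x hx
    rw [Finset.sum_congr rfl fun a ha => hxy a (h.R_sub 0 ha),
      Finset.sum_congr rfl fun a ha => hxy a (h.R_sub 1 ha),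
      Finset.sum_congr rfl fun a ha => hxy a (h.R_sub 2 ha)]
    exact ht y hy
  obtain ⟨R'', S'', g, t⟩ := exists_guts3 N hA hl'
  -- each `R'' i` is some `R j` on `M.D`
  have hj : ∀ i, ∃ j, ∀ y ∈ M.D, ∑ a ∈ R'' i, y a = ∑ a ∈ R j, y a := by
    intro i
    obtain ⟨T, hT, hT'⟩ := exists_sum_of_vanish M (X := M.E \ A) (Y := R'' i) (by
      intro y hy hy'
      have hyN : y ∈ N.D := by
        obtain ⟨C, D, hCD, rfl⟩ := hN
        have hAC : ∀ a ∈ A, a ∉ C ∧ a ∉ D := by
          intro a ha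
          have := hA ha
          rw [LM.del_E, LM.con_E, Finset.mem_sdiff, Finset.mem_sdiff] at this
          exact ⟨this.1.2, this.2⟩
        have hz : ∀ a, a ∉ A → y a = 0 := by
          intro a ha
          by_cases haE : a ∈ M.E
          · exact hy' a (Finset.mem_sdiff.2 ⟨haE, ha⟩)
          · exact M.supp y hy a haE
        have e := minor_push (D := D) hy (C := C) (fun a ha => hz a fun h' => (hAC a h').1 ha)
        have e' : (fun a => if a ∈ D then 0 else y a) = y := by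
          funext a
          by_cases ha : a ∈ D
          · simp only [ha, if_true]
            exact (hz a fun h' => (hAC a h').2 ha).symm
          · simp only [ha, if_false]
        rw [e'] at e
        exact e
      rw [g.eq i y hyN]
      apply Finset.sum_eq_zero
      intro a ha
      have ha' := g.S_sub i ha
      rw [Finset.mem_sdiff] at ha'
      exact hy' a (Finset.mem_sdiff.2 ⟨hNM ha'.1, ha'.2⟩))
    rcases h.full _ (g.R_sub i) T hT hT' with h3 | ⟨j, h3⟩
    · exfalso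
      obtain ⟨x, hx, hxn⟩ := g.nz i
      apply hxn
      have := hgo (R'' i) (g.R_sub i) ∅ (Finset.empty_subset _)
        (fun y hy => by rw [h3 y hy, Finset.sum_empty]) x hx
      rw [this, Finset.sum_empty]
    · exact ⟨j, h3⟩
  choose j hj using hj
  have hjN : ∀ i, ∀ x ∈ N.D, ∑ a ∈ R'' i, x a = ∑ a ∈ R (j i), x a := fun i =>
    hgo _ (g.R_sub i) _ (h.R_sub (j i)) (hj i)
  -- different `R'' i` are different on `N.D`
  have hdiff : ∀ i i' k : Fin 3, (∀ x ∈ N.D, ∑ a ∈ R'' i, x a + ∑ a ∈ R'' i', x a +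
      ∑ a ∈ R'' k, x a = 0) → j i ≠ j i' := by
    intro i i' k hs heq
    obtain ⟨x, hx, hxn⟩ := g.nz k
    apply hxn
    have e1 := hs x hx
    rw [hjN i x hx, hjN i' x hx, heq, zmod_add_self, zero_add] at e1
    exact e1
  have hinj : Function.Injective j := by
    have d01 := hdiff 0 1 2 t
    have d02 := hdiff 0 2 1 (fun x hx => by rw [← t x hx]; ring)
    have d12 := hdiff 1 2 0 (fun x hx => by rw [← t x hx]; ring)
    intro a b hab
    fin_cases a <;> fin_cases b <;>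
      first
        | rfl
        | exact absurd hab d01
        | exact absurd hab d02
        | exact absurd hab d12
        | exact absurd hab.symm d01
        | exact absurd hab.symm d02
        | exact absurd hab.symm d12
  have hsurj : Function.Surjective j := Finite.injective_iff_surjective.1 hinj
  choose q hq using hsurj
  refine ⟨fun i => S'' (q i), ?_, htN⟩
  refine ⟨h.R_sub, fun i => g.S_sub (q i), ?_, ?_, ?_⟩
  · intro i x hx
    rw [← g.eq (q i) x hx, hjN (q i) x hx, hq i]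
  · intro i
    obtain ⟨x, hx, hxn⟩ := g.nz (q i)
    refine ⟨x, hx, ?_⟩
    rw [hjN (q i) x hx, hq i] at hxn
    exact hxn
  · intro R₀ hR₀ S₀ hS₀ h3
    rcases g.full R₀ hR₀ S₀ hS₀ h3 with h4 | ⟨i, h4⟩
    · exact Or.inl h4
    · exact Or.inr ⟨j i, fun x hx => (h4 x hx).trans (hjN i x hx)⟩

/-- a minor `P' = (P.con C).del D` of the part `P` of `M` on `A`, `C, D ⊆ A`, in which the guts
elements `z i` are still nonzero and spanned by the remaining part `A' = A \ (C ∪ D)`, is a part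
of the minor `M' = (M.con C).del D` of `M`. Here `R' i ⊆ A'` is a set with sum `z i` in `P'`. -/
theorem lift_minor {M P P' : BM α} {A : Finset α} (hA : A ⊆ M.E) {R S : Fin 3 → Finset α}
    {z : Fin 3 → α} (h : Guts M A R S) (ht : Tri M R) (hP : IsPart M P A z R) {C D : Finset α}
    (hC : C ⊆ A) (hD : D ⊆ A) (hCD : Disjoint C D) (hP' : P' = (P.con C).del D)
    (hnz : ∀ i, ∃ w ∈ P'.D, w (z i) ≠ 0) (hcl : ∀ i, P'.InCl (A \ (C ∪ D)) (z i)) :
    ∃ R' : Fin 3 → Finset α, Guts ((M.con C).del D) (A \ (C ∪ D)) R' S ∧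
      Tri ((M.con C).del D) R' ∧ IsPart ((M.con C).del D) P' (A \ (C ∪ D)) z R' ∧
      ((M.con C).del D).lam (A \ (C ∪ D)) = 2 ∧
      ((M.con C).del D).rk (M.E \ A) = M.rk (M.E \ A) := by
  choose R' hR' hR'z using fun i => exists_sum_of_inCl P' (hcl i)
  have hA'A : A \ (C ∪ D) ⊆ A := Finset.sdiff_subset
  have hA'C : ∀ a ∈ A \ (C ∪ D), a ∉ C := fun a ha hc =>
    (Finset.mem_sdiff.1 ha).2 (Finset.mem_union_left _ hc)
  have hA'D : ∀ a ∈ A \ (C ∪ D), a ∉ D := fun a ha hd =>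
    (Finset.mem_sdiff.1 ha).2 (Finset.mem_union_right _ hd)
  have hzD : ∀ i, z i ∉ D := fun i hd => hP.z_nmem i (hD hd)
  have hzC : ∀ i, z i ∉ C := fun i hd => hP.z_nmem i (hC hd)
  have hSD : ∀ i, ∀ a ∈ S i, a ∉ D := fun i a ha hd =>
    (Finset.mem_sdiff.1 (h.S_sub i ha)).2 (hD hd)
  have hE' : ((M.con C).del D).E \ (A \ (C ∪ D)) = M.E \ A := by
    ext a
    simp only [LM.del_E, LM.con_E, Finset.mem_sdiff, Finset.mem_union]
    constructor
    · rintro ⟨⟨⟨h1, h2⟩, h3⟩, h4⟩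
      exact ⟨h1, fun h5 => h4 ⟨h5, by tauto⟩⟩
    · rintro ⟨h1, h2⟩
      exact ⟨⟨⟨h1, fun h3 => h2 (hC h3)⟩, fun h3 => h2 (hD h3)⟩, fun h3 => h2 h3.1⟩
  have hA'E : A \ (C ∪ D) ⊆ ((M.con C).del D).E := by
    intro a ha
    rw [LM.del_E, LM.con_E, Finset.mem_sdiff, Finset.mem_sdiff]
    exact ⟨⟨hA (hA'A ha), hA'C a ha⟩, hA'D a ha⟩
  -- the vector of `P` belonging to `y`
  have hvec : ∀ y ∈ M.D, ∃ v ∈ P.D, (∀ a ∈ A, v a = y a) ∧ ∀ i, v (z i) = ∑ a ∈ R i, y a := by
    intro y hy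
    let v : α → ZMod 2 := fun a => if a ∈ A then y a else
      ∑ i, if z i = a then ∑ b ∈ R i, y b else 0
    have hvA : ∀ a ∈ A, v a = y a := fun a ha => by simp only [v, ha, if_true]
    have hvz : ∀ i, v (z i) = ∑ a ∈ R i, y a := by
      intro i
      simp only [v, hP.z_nmem i, if_false]
      rw [Finset.sum_eq_single i]
      · rw [if_pos rfl]
      · intro k _ hk
        exact if_neg fun h' => hk (hP.inj h')
      · intro h'
        exact absurd (Finset.mem_univ _) h'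
    refine ⟨v, (hP.mem v).2 ⟨?_, y, hy, hvA, hvz⟩, hvA, hvz⟩
    intro a ha
    rw [hP.E_eq, Finset.mem_union, not_or] at ha
    simp only [v, ha.1, if_false]
    apply Finset.sum_eq_zero
    intro i _
    exact if_neg fun h' => ha.2 (Finset.mem_image.2 ⟨i, Finset.mem_univ _, h'⟩)
  -- `R i = R' i` on the cocycles of `M` vanishing on `C`
  have hRR' : ∀ y ∈ M.D, (∀ a ∈ C, y a = 0) → ∀ i, ∑ a ∈ R i, y a = ∑ a ∈ R' i, y a := by
    intro y hy hyC i
    obtain ⟨v, hv, hvA, hvz⟩ := hvec y hy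
    have hw := minor_push (D := D) hv (C := C) (fun a ha => by rw [hvA a (hC ha), hyC a ha])
    rw [← hP'] at hw
    have h1 := hR'z i _ hw
    simp only [hzD i, if_false] at h1
    rw [hvz i] at h1
    rw [h1]
    apply Finset.sum_congr rfl
    intro a ha
    have ha' := hR' i ha
    simp only [hA'D a ha', if_false]
    exact hvA a (hA'A ha')
  have hpart : IsPart ((M.con C).del D) P' (A \ (C ∪ D)) z R' := by
    refine ⟨hP.inj, fun i hi => hP.z_nmem i (hA'A hi), ?_, fun w => ?_⟩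
    · rw [hP']
      ext a
      simp only [LM.del_E, LM.con_E, hP.E_eq, Finset.mem_sdiff, Finset.mem_union,
        Finset.mem_image, Finset.mem_univ, true_and]
      constructor
      · rintro ⟨⟨h1 | ⟨i, rfl⟩, h2⟩, h3⟩
        · exact Or.inl ⟨h1, by tauto⟩
        · exact Or.inr ⟨i, rfl⟩
      · rintro (⟨h1, h2⟩ | ⟨i, rfl⟩)
        · exact ⟨⟨Or.inl h1, by tauto⟩, by tauto⟩
        · exact ⟨⟨Or.inr ⟨i, rfl⟩, hzC i⟩, hzD i⟩
    · constructor
      · intro hw
        refine ⟨P'.supp w hw, ?_⟩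
        have hw2 := hw
        rw [hP'] at hw2
        obtain ⟨v, hv, hvC, hwD, hwv⟩ := minor_lift hw2
        obtain ⟨_, y, hy, hvy, hvz⟩ := (hP.mem v).1 hv
        have hyC : ∀ a ∈ C, y a = 0 := fun a ha => by rw [← hvy a (hC ha), hvC a ha]
        refine ⟨_, minor_push (D := D) hy hyC, fun a ha => ?_, fun i => ?_⟩
        · simp only [hA'D a ha, if_false]
          rw [hwv a (hA'D a ha), hvy a (hA'A ha)]
        · rw [hR'z i w hw]
          apply Finset.sum_congr rfl
          intro a ha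
          have ha' := hR' i ha
          simp only [hA'D a ha', if_false]
          rw [hwv a (hA'D a ha'), hvy a (hA'A ha')]
      · rintro ⟨hs, y', hy', hwy, hwz⟩
        obtain ⟨y, hy, hyC, hyD', hyy'⟩ := minor_lift hy'
        obtain ⟨v, hv, hvA, hvz⟩ := hvec y hy
        have hw := minor_push (D := D) hv (C := C) (fun a ha => by rw [hvA a (hC ha), hyC a ha])
        rw [← hP'] at hw
        have e : w = fun a => if a ∈ D then 0 else v a := by
          funext a
          by_cases haE : a ∈ P'.E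
          · have haE' := haE
            rw [hP', LM.del_E, LM.con_E, Finset.mem_sdiff, Finset.mem_sdiff, hP.E_eq,
              Finset.mem_union] at haE'
            obtain ⟨⟨h1 | h1, h2⟩, h3⟩ := haE'
            · simp only [h3, if_false]
              have ha' : a ∈ A \ (C ∪ D) := Finset.mem_sdiff.2 ⟨h1, by
                rw [Finset.mem_union]; tauto⟩
              rw [hwy a ha', hyy' a h3, hvA a h1]
            · obtain ⟨i, _, rfl⟩ := Finset.mem_image.1 h1
              simp only [h3, if_false]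
              rw [hwz i, hvz i, hRR' y hy hyC i]
              apply Finset.sum_congr rfl
              intro a ha
              exact hyy' a (hA'D a (hR' i ha))
          · rw [hs a haE]
            exact (P'.supp _ hw a haE).symm
        rw [e]
        exact hw
  have heq : ∀ i, ∀ y ∈ ((M.con C).del D).D, ∑ a ∈ R' i, y a = ∑ a ∈ S i, y a := by
    intro i y' hy'
    obtain ⟨y, hy, hyC, hyD', hyy'⟩ := minor_lift hy'
    rw [Finset.sum_congr rfl fun a ha => hyy' a (hA'D a (hR' i ha)),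
      Finset.sum_congr rfl fun a ha => hyy' a (hSD i a ha), ← hRR' y hy hyC i]
    exact h.eq i y hy
  have hnz' : ∀ i, ∃ y ∈ ((M.con C).del D).D, ∑ a ∈ R' i, y a ≠ 0 := by
    intro i
    obtain ⟨w, hw, hwn⟩ := hnz i
    obtain ⟨_, y, hy, _, h2⟩ := (hpart.mem w).1 hw
    refine ⟨y, hy, ?_⟩
    rw [← h2 i]
    exact hwn
  have htri : Tri ((M.con C).del D) R' := by
    intro y' hy'
    obtain ⟨y, hy, hyC, hyD', hyy'⟩ := minor_lift hy'
    rw [Finset.sum_congr rfl fun a ha => hyy' a (hA'D a (hR' 0 ha)),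
      Finset.sum_congr rfl fun a ha => hyy' a (hA'D a (hR' 1 ha)),
      Finset.sum_congr rfl fun a ha => hyy' a (hA'D a (hR' 2 ha)), ← hRR' y hy hyC 0,
      ← hRR' y hy hyC 1, ← hRR' y hy hyC 2]
    exact ht y hy
  have hS' : ∀ i, S i ⊆ ((M.con C).del D).E \ (A \ (C ∪ D)) := fun i => by
    rw [hE']
    exact h.S_sub i
  have hlM : M.lam A = 2 := h.lam3 hA ht
  have hl2 : ((M.con C).del D).lam (A \ (C ∪ D)) = 2 := by
    have h1 := two_le_lam hA'E hR' hS' heq hnz' htri
    have h2 := (M.con C).lam_del_le (A \ C) D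
    have h3 := M.lam_con_le A C
    have e : (A \ C) \ D = A \ (C ∪ D) := by
      ext a
      simp only [Finset.mem_sdiff, Finset.mem_union]
      tauto
    rw [e] at h2
    omega
  refine ⟨R', guts3_of hA'E hl2 hR' hS' heq hnz' htri, htri, hpart, hl2, ?_⟩
  -- the rank of the other side
  have r0 := ((M.con C).del D).lam_add (A \ (C ∪ D))
  rw [hE', hl2] at r0
  have rr : ∀ X : Finset α, ((M.con C).del D).rk X + M.rk C = M.rk ((X \ D) ∪ C) := by
    intro X
    rw [LM.rk_del]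
    exact M.rk_con C _
  have r1 := rr (A \ (C ∪ D))
  have r2 := rr (M.E \ A)
  have r3 := rr ((M.con C).del D).E
  have e2 : (M.E \ A) \ D ∪ C = (M.E \ A) ∪ C := by
    ext a
    simp only [Finset.mem_sdiff, Finset.mem_union]
    constructor
    · rintro (⟨h1, _⟩ | h1)
      · exact Or.inl h1
      · exact Or.inr h1
    · rintro (h1 | h1)
      · exact Or.inl ⟨h1, fun h3 => h1.2 (hD h3)⟩
      · exact Or.inr h1
  rw [e2] at r2
  have r4 := M.lam_add A
  rw [hlM] at r4
  have r5 := M.rk_submod (((((M.con C).del D).E) \ D) ∪ C) A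
  have r6 : M.rk M.E ≤ M.rk ((((((M.con C).del D).E) \ D) ∪ C) ∪ A) := by
    apply M.rk_mono
    intro a ha
    simp only [LM.del_E, LM.con_E, Finset.mem_sdiff, Finset.mem_union]
    by_cases h1 : a ∈ A
    · exact Or.inr h1
    · exact Or.inl (Or.inl ⟨⟨⟨ha, fun h3 => h1 (hC h3)⟩, fun h3 => h1 (hD h3)⟩,
        fun h3 => h1 (hD h3)⟩)
  have r7 : M.rk ((A \ (C ∪ D)) \ D ∪ C) ≤ M.rk ((((((M.con C).del D).E) \ D) ∪ C) ∩ A) := by
    apply M.rk_mono
    intro a ha
    simp only [LM.del_E, LM.con_E, Finset.mem_sdiff, Finset.mem_union, Finset.mem_inter] at ha ⊢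
    rcases ha with ⟨⟨h1, h2⟩, h3⟩ | h1
    · exact ⟨Or.inl ⟨⟨⟨hA h1, by tauto⟩, h3⟩, h3⟩, h1⟩
    · exact ⟨Or.inr h1, hC h1⟩
  have r8 := M.rk_union_le (M.E \ A) C
  omega

end Pool.Agent.H87.Sey
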