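import Pool.Agent.H87.Sey.Core
import Pool.Agent.H87.Sey.Transfer
import Pool.Agent.H87.Sey.RecR12

/-!
# Part (II) (Seymour project, MP_dbe88a_co, job S87-14)
-/

set_option autoImplicit false

namespace Pool.Agent.H87.Sey

open Pool.Agent.H63.Sey

universe u

variable {α : Type u} [DecidableEq α]

/-- a minimal set `A ⊆ X` with a nongraphic part -/
theorem exists_min_nonGP {N : BM α} {X : Finset α} (hX : N.lam X = 2) (hng : ¬ GP N X) :
    ∃ A ⊆ X, N.lam A = 2 ∧ ¬ GP N A ∧ ∀ A₁ ⊆ A, A₁ ≠ A → N.lam A₁ = 2 → GP N A₁ := by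
  classical
  have hne : (X.powerset.filter fun A => N.lam A = 2 ∧ ¬ GP N A).Nonempty :=
    ⟨X, Finset.mem_filter.2 ⟨Finset.mem_powerset.2 (Finset.Subset.refl _), hX, hng⟩⟩
  obtain ⟨A, hA, hmin⟩ := Finset.exists_min_image _ Finset.card hne
  rw [Finset.mem_filter, Finset.mem_powerset] at hA
  refine ⟨A, hA.1, hA.2.1, hA.2.2, ?_⟩
  intro A₁ h1 hne1 hl
  by_contra hcon
  have h2 := hmin A₁ (Finset.mem_filter.2
    ⟨Finset.mem_powerset.2 (h1.trans hA.1), hl, hcon⟩)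
  exact hne1 (Finset.eq_of_subset_of_card_le h1 h2)

/-! ### facts on `M*(K33)` -/

theorem p4_k33s_card {ι : Fin 9 → α} (hι : Function.Injective ι) {P : BM α}
    {A C D : Finset α} {z : Fin 3 → α} (hE : P.E = A ∪ Finset.univ.image z)
    (h : (P.con C).del D = conc k33s ι) : 6 ≤ A.card := by
  have h1 : (conc k33s ι).E ⊆ P.E := by
    rw [← h]
    intro a ha
    rw [LM.del_E, LM.con_E] at ha
    exact (Finset.mem_sdiff.1 (Finset.mem_sdiff.1 ha).1).1
  have h2 : (conc k33s ι).E.card = 9 := by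
    rw [conc_E, Finset.card_image_of_injective _ hι]
    rfl
  have h3 := Finset.card_le_card h1
  rw [hE] at h3
  have h4 := Finset.card_union_le A (Finset.univ.image z)
  have h5 : (Finset.univ.image z).card ≤ 3 := by
    refine Finset.card_image_le.trans ?_
    simp
  omega

theorem p4_nz {ι : Fin 9 → α} (hι : Function.Injective ι) (i : Fin 3) :
    ∃ w ∈ (conc k33s ι).D, w (ι (row0 i)) ≠ 0 := by
  have h : ∀ i : Fin 3, ∃ φ : Fin 4 → ZMod 2, ∑ j, φ j * k33s (row0 i) j ≠ 0 := by decide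
  obtain ⟨φ, hφ⟩ := h i
  exact ⟨concMap k33s ι φ, ⟨φ, rfl⟩, by rwa [concMap_mem k33s hι]⟩

theorem p4_cl {ι : Fin 9 → α} (hι : Function.Injective ι) (i : Fin 3) {Y : Finset α}
    (hY : ∀ j : Fin 9, (∀ k, j ≠ row0 k) → ι j ∈ Y) : (conc k33s ι).InCl Y (ι (row0 i)) := by
  rintro x ⟨φ, rfl⟩ hx
  have h : ∀ i : Fin 3, ∃ j k : Fin 9, (∀ l, j ≠ row0 l) ∧ (∀ l, k ≠ row0 l) ∧
      ∀ r : Fin 4, k33s (row0 i) r = k33s j r + k33s k r := by decide
  obtain ⟨j, k, hj, hk, hr⟩ := h i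
  have e1 := hx _ (hY j hj)
  have e2 := hx _ (hY k hk)
  rw [concMap_mem k33s hι] at e1 e2 ⊢
  have e3 : ∑ r, φ r * k33s (row0 i) r = ∑ r, φ r * k33s j r + ∑ r, φ r * k33s k r := by
    rw [← Finset.sum_add_distrib]
    exact Finset.sum_congr rfl fun r _ => by rw [hr, mul_add]
  rw [e3, e1, e2, add_zero]

/-- the hypotheses of `lift_minor` for a `M*(K33)`-minor rooted at the first row -/
theorem p4_lift {M P : BM α} {A : Finset α} (hA : A ⊆ M.E) {R S : Fin 3 → Finset α}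
    {z : Fin 3 → α} (h : Guts M A R S) (ht : Tri M R) (hP : IsPart M P A z R) {C D : Finset α}
    (hC : C ⊆ A) (hD : D ⊆ A) (hCD : Disjoint C D) {ι : Fin 9 → α} (hι : Function.Injective ι)
    (hPι : (P.con C).del D = conc k33s ι) (hz : ∀ i, ι (row0 i) = z i) :
    ∃ R' : Fin 3 → Finset α, Guts ((M.con C).del D) (A \ (C ∪ D)) R' S ∧
      Tri ((M.con C).del D) R' ∧
      IsPart ((M.con C).del D) (conc k33s ι) (A \ (C ∪ D)) z R' ∧
      ((M.con C).del D).lam (A \ (C ∪ D)) = 2 ∧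
      ((M.con C).del D).rk (M.E \ A) = M.rk (M.E \ A) := by
  refine lift_minor hA h ht hP hC hD hCD hPι.symm ?_ ?_
  · intro i
    rw [← hz i]
    exact p4_nz hι i
  · intro i
    rw [← hz i]
    refine p4_cl hι i ?_
    intro j hj
    have h1 : ι j ∈ (conc k33s ι).E := by
      rw [conc_E]
      exact Finset.mem_image_of_mem _ (Finset.mem_univ _)
    rw [← hPι, LM.del_E, LM.con_E, hP.E_eq, Finset.mem_sdiff, Finset.mem_sdiff,
      Finset.mem_union] at h1
    rw [Finset.mem_sdiff, Finset.mem_union, not_or]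
    refine ⟨?_, h1.1.2, h1.2⟩
    rcases h1.1.1 with h2 | h2
    · exact h2
    · obtain ⟨k, -, hk⟩ := Finset.mem_image.1 h2
      rw [← hz k] at hk
      exact absurd (hι hk).symm (hj k)

/-- transfer of guts and part to a minor -/
theorem p4_transfer {M N P : BM α} (hN : N.IsMinor M) {A : Finset α} (hA : A ⊆ N.E)
    (hl : M.lam A = 2) (hl' : N.lam A = 2) (hr : N.rk A = M.rk A) {R S : Fin 3 → Finset α}
    {z : Fin 3 → α} (h : Guts M A R S) (ht : Tri M R) (hP : IsPart M P A z R) :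
    ∃ S', Guts N A R S' ∧ Tri N R ∧ IsPart N P A z R := by
  obtain ⟨S', h1, h2⟩ := guts_transfer hN hA hl hl' hr h ht
  obtain ⟨h3, h4⟩ := restr_eq_of_rk hN hA hr
  exact ⟨S', h1, h2, isPart_transfer h.R_sub h3 h4 hP⟩

/-- equal ranks in the dual -/
theorem p4_rk_dual {M N : BM α} {X : Finset α} (hX : X ⊆ N.E) (hX' : X ⊆ M.E)
    (hl : N.lam X = M.lam X) (hr : N.rk X = M.rk X) : N.dual.rk X = M.dual.rk X := by
  have h1 := rk_dual_add N hX
  have h2 := rk_dual_add M hX'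
  omega

/-- Two disjoint sets with rooted `M*(K33)`-minors, one in `N`, one in `N.dual`: `R12`.
`link2` gives a minor `N₁` on `A ∪ B` (connectivity from `Conn3`); `guts_transfer`,
`isPart_transfer`, `restr_eq_of_rk`, `rk_dual_add`; then `lift_minor` for `A`, again transfer
(to the dual), `lift_minor` for `B` in the dual, transfer back; then `r12_of_parts`. -/
theorem r12_of_two {N : BM α} (hN : N.Conn3) {A B : Finset α} (hA : A ⊆ N.E) (hB : B ⊆ N.E)
    (hAB : Disjoint A B) (hlA : N.lam A = 2) (hlB : N.lam B = 2) (h2A : 2 ≤ A.card)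
    (h2B : 2 ≤ B.card) {R S R' S' : Fin 3 → Finset α} {z z' : Fin 3 → α} {P Q : BM α}
    (h : Guts N A R S) (ht : Tri N R) (hP : IsPart N P A z R)
    (h' : Guts N.dual B R' S') (ht' : Tri N.dual R') (hQ : IsPart N.dual Q B z' R')
    {C D C' D' : Finset α} (hC : C ⊆ A) (hD : D ⊆ A) (hCD : Disjoint C D) (hC' : C' ⊆ B)
    (hD' : D' ⊆ B) (hCD' : Disjoint C' D') {ι κ : Fin 9 → α} (hι : Function.Injective ι)
    (hκ : Function.Injective κ) (hPι : (P.con C).del D = conc k33s ι)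
    (hQκ : (Q.con C').del D' = conc k33s κ) (hz : ∀ i, ι (row0 i) = z i)
    (hz' : ∀ i, κ (row0 i) = z' i) : HasR12 N := by
  -- linking
  obtain ⟨N₁, hm1, hE1, hl1, hrA, hrB⟩ := link2 hA hB hAB hlA hlB (by
    intro X hAX hX hXB
    refine hN.2 X hX (h2A.trans (Finset.card_le_card hAX)) (h2B.trans (Finset.card_le_card ?_))
    intro b hb
    exact Finset.mem_sdiff.2 ⟨hB hb, fun hb' => Finset.disjoint_left.1 hXB hb' hb⟩)
  have hA1 : A ⊆ N₁.E := by rw [hE1]; exact Finset.subset_union_left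
  have hB1 : B ⊆ N₁.E := by rw [hE1]; exact Finset.subset_union_right
  have hEA1 : N₁.E \ A = B := by
    rw [hE1, Finset.union_sdiff_left]
    exact Finset.sdiff_eq_self_of_disjoint hAB.symm
  have hEB1 : N₁.E \ B = A := by
    rw [hE1, Finset.union_sdiff_right]
    exact Finset.sdiff_eq_self_of_disjoint hAB
  have hlB1 : N₁.lam B = 2 := by
    rw [← hEA1, N₁.lam_compl A hA1]
    exact hl1
  obtain ⟨S₁, g1, t1, p1⟩ := p4_transfer hm1 hA1 hlA hl1 hrA h ht hP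
  obtain ⟨S₁', g1', t1', p1'⟩ := p4_transfer (M := N.dual) (N := N₁.dual) hm1.dual
    (A := B) hB1 (by rw [N.lam_dual B hB]; exact hlB) (by rw [N₁.lam_dual B hB1]; exact hlB1)
    (p4_rk_dual hB1 hB (hlB1.trans hlB.symm) hrB) h' ht' hQ
  -- the minor in `A`
  obtain ⟨R₂, g2, t2, p2, l2, r2⟩ := p4_lift hA1 g1 t1 p1 hC hD hCD hι hPι hz
  obtain ⟨N₂, hN2⟩ : ∃ N₂, N₂ = (N₁.con C).del D := ⟨_, rfl⟩
  obtain ⟨A₂, hA2⟩ : ∃ A₂, A₂ = A \ (C ∪ D) := ⟨_, rfl⟩
  rw [← hN2, ← hA2] at g2 p2 l2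
  rw [← hN2] at t2 r2
  rw [hEA1] at r2
  have hm2 : N₂.IsMinor N₁ := ⟨C, D, hCD, hN2⟩
  have hA2A : A₂ ⊆ A := by rw [hA2]; exact Finset.sdiff_subset
  have hE2 : N₂.E = A₂ ∪ B := by
    rw [hN2, LM.del_E, LM.con_E, hE1, hA2]
    ext a
    simp only [Finset.mem_sdiff, Finset.mem_union]
    constructor
    · rintro ⟨⟨ha | ha, h1⟩, h2⟩
      · exact Or.inl ⟨ha, fun h3 => h3.elim h1 h2⟩
      · exact Or.inr ha
    · rintro (⟨ha, h1⟩ | ha)
      · exact ⟨⟨Or.inl ha, fun h3 => h1 (Or.inl h3)⟩, fun h3 => h1 (Or.inr h3)⟩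
      · exact ⟨⟨Or.inr ha, fun h3 => Finset.disjoint_left.1 hAB (hC h3) ha⟩,
          fun h3 => Finset.disjoint_left.1 hAB (hD h3) ha⟩
  have hAB2 : Disjoint A₂ B := hAB.mono_left hA2A
  have hA2E : A₂ ⊆ N₂.E := by rw [hE2]; exact Finset.subset_union_left
  have hB2E : B ⊆ N₂.E := by rw [hE2]; exact Finset.subset_union_right
  have hEA2 : N₂.E \ A₂ = B := by
    rw [hE2, Finset.union_sdiff_left]
    exact Finset.sdiff_eq_self_of_disjoint hAB2.symm
  have hEB2 : N₂.E \ B = A₂ := by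
    rw [hE2, Finset.union_sdiff_right]
    exact Finset.sdiff_eq_self_of_disjoint hAB2
  have hlB2 : N₂.lam B = 2 := by
    rw [← hEA2, N₂.lam_compl A₂ hA2E]
    exact l2
  obtain ⟨S₂', g2', t2', p2'⟩ := p4_transfer (M := N₁.dual) (N := N₂.dual) hm2.dual
    (A := B) hB2E (by rw [N₁.lam_dual B hB1]; exact hlB1)
    (by rw [N₂.lam_dual B hB2E]; exact hlB2)
    (p4_rk_dual hB2E hB1 (hlB2.trans hlB1.symm) r2) g1' t1' p1'
  -- the minor in `B` (in the dual)
  obtain ⟨R₃, g3', t3', p3', l3', r3'⟩ := p4_lift (M := N₂.dual) hB2E g2' t2' p2' hC' hD' hCD' hκ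
    hQκ hz'
  obtain ⟨N₃, hN3⟩ : ∃ N₃, N₃ = (N₂.dual.con C').del D' := ⟨_, rfl⟩
  obtain ⟨B₃, hB3⟩ : ∃ B₃, B₃ = B \ (C' ∪ D') := ⟨_, rfl⟩
  rw [← hN3, ← hB3] at g3' p3' l3'
  rw [← hN3] at t3' r3'
  rw [LM.dual_E, hEB2] at r3'
  have hm3 : N₃.IsMinor N₂.dual := ⟨C', D', hCD', hN3⟩
  have hm3' : N₃.dual.IsMinor N₂ := by
    have := hm3.dual
    rwa [LM.dual_dual] at this
  have hB3B : B₃ ⊆ B := by rw [hB3]; exact Finset.sdiff_subset
  have hE3 : N₃.E = A₂ ∪ B₃ := by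
    rw [hN3, LM.del_E, LM.con_E, LM.dual_E, hE2, hB3]
    ext a
    simp only [Finset.mem_sdiff, Finset.mem_union]
    constructor
    · rintro ⟨⟨ha | ha, h1⟩, h2⟩
      · exact Or.inl ha
      · exact Or.inr ⟨ha, fun h3 => h3.elim h1 h2⟩
    · rintro (ha | ⟨ha, h1⟩)
      · exact ⟨⟨Or.inl ha, fun h3 => Finset.disjoint_left.1 hAB2 ha (hC' h3)⟩,
          fun h3 => Finset.disjoint_left.1 hAB2 ha (hD' h3)⟩
      · exact ⟨⟨Or.inr ha, fun h3 => h1 (Or.inl h3)⟩, fun h3 => h1 (Or.inr h3)⟩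
  have hAB3 : Disjoint A₂ B₃ := hAB2.mono_right hB3B
  have hA3E : A₂ ⊆ N₃.E := by rw [hE3]; exact Finset.subset_union_left
  have hB3E : B₃ ⊆ N₃.E := by rw [hE3]; exact Finset.subset_union_right
  have hEA3 : N₃.E \ A₂ = B₃ := by
    rw [hE3, Finset.union_sdiff_left]
    exact Finset.sdiff_eq_self_of_disjoint hAB3.symm
  have hEB3 : N₃.E \ B₃ = A₂ := by
    rw [hE3, Finset.union_sdiff_right]
    exact Finset.sdiff_eq_self_of_disjoint hAB3
  have hlA3 : N₃.lam A₂ = 2 := by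
    rw [← hEB3, N₃.lam_compl B₃ hB3E]
    exact l3'
  have hlA2d : N₂.dual.lam A₂ = 2 := by rw [N₂.lam_dual A₂ hA2E]; exact l2
  have hr3 : N₃.dual.rk A₂ = N₂.rk A₂ := by
    have := p4_rk_dual (M := N₂.dual) (N := N₃) (X := A₂) hA3E hA2E (hlA3.trans hlA2d.symm) r3'
    rwa [LM.dual_dual] at this
  obtain ⟨S₃, g3, t3, p3⟩ := p4_transfer (M := N₂) (N := N₃.dual) hm3' (A := A₂) hA3E l2
    (by rw [N₃.lam_dual A₂ hA3E]; exact hlA3) hr3 g2 t2 p2
  -- recognise `R12`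
  obtain ⟨θ, hθ, e⟩ := r12_of_parts (N := N₃.dual) (A := A₂) (Q := conc k33s κ) hA3E g3 t3 p3
    (R' := R₃) (S' := S₂') (z' := z')
    (by rw [LM.dual_dual, LM.dual_E, hEA3]; exact g3') (by rw [LM.dual_dual]; exact t3')
    (by rw [LM.dual_dual, LM.dual_E, hEA3]; exact p3') hι hκ rfl rfl (fun i => (hz i).symm)
    (fun i => (hz' i).symm)
  exact ⟨θ, hθ, by rw [← e]; exact (hm3'.trans hm2).trans hm1⟩

/-! ### duality -/

/-- the permutation giving the self-duality of `R10` -/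
def p4perm : Fin 10 → Fin 10 := ![0, 1, 4, 7, 9, 2, 8, 6, 3, 5]

theorem p4perm_bij : Function.Bijective p4perm :=
  (Finite.injective_iff_bijective).1 (by decide)

set_option synthInstance.maxSize 2000 in
theorem p4_r10_key : ∀ a b c d e f g h i j : ZMod 2, a + b + c + d + e + f = 0 →
    a + b + c + g + h + i = 0 → a + d + e + g + h + j = 0 → b + d + f + g + i + j = 0 →
    c + e + f + h + i + j = 0 → ∀ k : Fin 10, (![a, b, c, d, e, f, g, h, i, j] : Fin 10 → ZMod 2) k =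
      ∑ l, ![b + d + e, b + c + e, a + c + d, b + c + d, a + b + e] l *
        (r10 ∘ p4perm) k l := by
  decide +kernel

theorem p4_r10_dual {ι : Fin 10 → α} (hι : Function.Injective ι) :
    (conc r10 ι).dual = conc (r10 ∘ p4perm) ι := by
  refine conc_dual hι (by decide) ?_
  intro y hy
  refine ⟨![y 1 + y 3 + y 4, y 1 + y 2 + y 4, y 0 + y 2 + y 3, y 1 + y 2 + y 3,
    y 0 + y 1 + y 4], ?_⟩
  have h0 := hy 0
  have h1 := hy 1
  have h2 := hy 2
  have h3 := hy 3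
  have h4 := hy 4
  have key := p4_r10_key (y 0) (y 1) (y 2) (y 3) (y 4) (y 5) (y 6) (y 7) (y 8) (y 9)
    (by rw [← h0]; simp [r10, Fin.sum_univ_succ]; ring)
    (by rw [← h1]; simp [r10, Fin.sum_univ_succ]; ring)
    (by rw [← h2]; simp [r10, Fin.sum_univ_succ]; ring)
    (by rw [← h3]; simp [r10, Fin.sum_univ_succ]; ring)
    (by rw [← h4]; simp [r10, Fin.sum_univ_succ]; ring)
  intro i
  rw [← key i]
  fin_cases i <;> rfl

theorem MinOK.dual {N : BM α} (h : MinOK N) : MinOK N.dual := by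
  intro N' hm hc h3
  have hm' : N'.dual.IsMinor N := by
    have := hm.dual
    rwa [LM.dual_dual] at this
  rcases h N'.dual hm' (by rw [LM.dual_E]; exact hc) h3.dual with h1 | h1 | ⟨ι, hι, h1⟩
  · exact Or.inr (Or.inl h1)
  · unfold Cographic at h1
    rw [LM.dual_dual] at h1
    exact Or.inl h1
  · refine Or.inr (Or.inr ?_)
    have h2 : N' = (conc r10 ι).dual := by rw [← h1, LM.dual_dual]
    rw [p4_r10_dual hι] at h2
    obtain ⟨σ, hσ⟩ : ∃ σ : Equiv.Perm (Fin 10), ∀ i, σ i = p4perm i :=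
      ⟨Equiv.ofBijective _ p4perm_bij, fun _ => rfl⟩
    refine ⟨ι ∘ σ.symm, hι.comp σ.symm.injective, ?_⟩
    rw [h2]
    have h4 : (r10 ∘ p4perm) = r10 ∘ σ := by
      funext i
      simp only [Function.comp_apply, hσ]
    have h5 : ι = (ι ∘ σ.symm) ∘ σ := by
      funext i
      simp
    rw [h4]
    conv_lhs => rw [h5]
    exact conc_comp r10 σ

/-- Part (II). Suppose `N` is neither graphic nor cographic. There is `X` with `4 ≤ |X|`,
`4 ≤ |N.E \ X|`, `N.lam X = 2`. By `graphic_of_GP` one side, say `X`, has a nongraphic part. Choose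
`A ⊆ X` minimal (`exists_min_nonGP`), apply `core`: `GP N.dual A`. Since `N.dual` is not graphic,
`¬ GP N.dual (N.E \ A)`. Choose `B ⊆ N.E \ A` minimal with `¬ GP N.dual B`, apply `core` to
`N.dual`. Then `r12_of_two`. (`GP_of_card_two` gives `3 ≤ |A|`.) -/
theorem P4 {N : BM α} (hN : N.Conn3) (hreg : Regular N) (hmin : MinOK N) (hsep : ¬ N.I4c) :
    Graphic N ∨ Cographic N ∨ HasR12 N := by
  by_contra hcon
  push Not at hcon
  obtain ⟨hg, hcg, hr12⟩ := hcon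
  apply hr12
  -- the `3`-separation
  obtain ⟨X, hX, h4, h4', hlX⟩ : ∃ X ⊆ N.E, 4 ≤ X.card ∧ 4 ≤ (N.E \ X).card ∧ N.lam X = 2 := by
    by_contra hno
    push Not at hno
    apply hsep
    refine ⟨hN, fun X hX h1 h2 => ?_⟩
    have h3 := hN.2 X hX (by omega) (by omega)
    have h4 := hno X hX h1 h2
    omega
  -- a nongraphic side
  obtain ⟨X, hX, h4, h4', hlX, hng⟩ : ∃ X ⊆ N.E, 4 ≤ X.card ∧ 4 ≤ (N.E \ X).card ∧
      N.lam X = 2 ∧ ¬ GP N X := by
    by_cases h1 : GP N X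
    · refine ⟨N.E \ X, Finset.sdiff_subset, h4', ?_, ?_, ?_⟩
      · rwa [Finset.sdiff_sdiff_eq_self hX]
      · rwa [N.lam_compl X hX]
      · intro h2
        exact hg (graphic_of_GP hX hlX (by omega) (by omega) h1 h2)
    · exact ⟨X, hX, h4, h4', hlX, h1⟩
  obtain ⟨A, hAX, hlA, hngA, hminA⟩ := exists_min_nonGP hlX hng
  have hA : A ⊆ N.E := hAX.trans hX
  have hcA : 4 ≤ (N.E \ A).card :=
    h4'.trans (Finset.card_le_card (Finset.sdiff_subset_sdiff (Finset.Subset.refl _) hAX))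
  obtain ⟨R, S, z, P, gA, tA, pA, gpA, C, D, hC, hD, hCD, ι, hι, hPι, hz⟩ :=
    core hN hreg hmin hA hlA hcA hngA hminA
  have h6 : 6 ≤ A.card := p4_k33s_card hι pA.E_eq hPι
  -- the dual
  have hng' : ¬ GP N.dual (N.E \ A) := by
    intro h1
    exact hcg (graphic_of_GP (M := N.dual) hA (by rw [N.lam_dual A hA]; exact hlA) (by omega)
      (by rw [LM.dual_E]; omega) gpA h1)
  obtain ⟨B, hBX, hlB, hngB, hminB⟩ := exists_min_nonGP (N := N.dual) (X := N.E \ A)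
    (by rw [N.lam_dual _ Finset.sdiff_subset, N.lam_compl A hA]; exact hlA) hng'
  have hB : B ⊆ N.E := hBX.trans Finset.sdiff_subset
  have hAB : Disjoint A B := by
    rw [Finset.disjoint_left]
    intro a ha hb
    exact (Finset.mem_sdiff.1 (hBX hb)).2 ha
  have hcB : 4 ≤ (N.dual.E \ B).card := by
    refine le_trans (by omega : 4 ≤ A.card) (Finset.card_le_card ?_)
    intro a ha
    exact Finset.mem_sdiff.2 ⟨hA ha, fun hb => Finset.disjoint_left.1 hAB ha hb⟩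
  obtain ⟨R', S', z', Q, gB, tB, pB, gpB, C', D', hC', hD', hCD', κ, hκ, hQκ, hz'⟩ :=
    core hN.dual hreg.dual hmin.dual (A := B) hB hlB hcB hngB hminB
  have h6' : 6 ≤ B.card := p4_k33s_card hκ pB.E_eq hQκ
  exact r12_of_two hN hA hB hAB hlA (by rw [← N.lam_dual B hB]; exact hlB) (by omega) (by omega)
    gA tA pA gB tB pB hC hD hCD hC' hD' hCD' hι hκ hPι hQκ hz hz'

end Pool.Agent.H87.Sey
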