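import Pool.Agent.H63.Sey.Conn

/-!
# Guts of a separation, parts, gluing formula (Seymour project, MP_dbe88a_co, job S87-1)

Everything is for binary matroids `M : BM α`, given by the cocycle space `M.D`.
A *cycle* of `M` is a set `X ⊆ M.E` with `∑ a ∈ X, y a = 0` for all `y ∈ M.D`.

For a separation `(A, M.E \ A)` the *guts* is the intersection of the span of `A` and the span of
`M.E \ A`. Its nonzero elements are written as sums over subsets `R i ⊆ A` and, at the same time,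
as sums over subsets `S i ⊆ M.E \ A`: `R i ∪ S i` is a cycle. `k = 1` for `lam A = 1` and `k = 3`
for `lam A = 2` (the three nonzero elements of a plane over `GF(2)`).

The *part* of `M` on `A` is the matroid on `A ∪ {z i}` where `z i` is a new element placed at the
`i`-th guts point.
-/

set_option autoImplicit false

namespace Pool.Agent.H87.Sey

open Pool.Agent.H63.Sey

universe u

variable {α : Type u} [DecidableEq α]

/-- the guts of the separation `(A, M.E \ A)` consists of `0` and of the elements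
`∑ a ∈ R i, a = ∑ a ∈ S i, a` -/
structure Guts {k : ℕ} (M : BM α) (A : Finset α) (R S : Fin k → Finset α) : Prop where
  R_sub : ∀ i, R i ⊆ A
  S_sub : ∀ i, S i ⊆ M.E \ A
  eq : ∀ i, ∀ y ∈ M.D, ∑ a ∈ R i, y a = ∑ a ∈ S i, y a
  nz : ∀ i, ∃ y ∈ M.D, ∑ a ∈ R i, y a ≠ 0
  full : ∀ R₀ ⊆ A, ∀ S₀ ⊆ M.E \ A, (∀ y ∈ M.D, ∑ a ∈ R₀, y a = ∑ a ∈ S₀, y a) →
    (∀ y ∈ M.D, ∑ a ∈ R₀, y a = 0) ∨ ∃ i, ∀ y ∈ M.D, ∑ a ∈ R₀, y a = ∑ a ∈ R i, y a

/-- the three guts points of a `3`-separation are the nonzero elements of a plane -/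
def Tri (M : BM α) (R : Fin 3 → Finset α) : Prop :=
  ∀ y ∈ M.D, ∑ a ∈ R 0, y a + ∑ a ∈ R 1, y a + ∑ a ∈ R 2, y a = 0

/-- `P` is the part of `M` on `A`, with the new elements `z i` at the guts points -/
structure IsPart {k : ℕ} (M P : BM α) (A : Finset α) (z : Fin k → α) (R : Fin k → Finset α) :
    Prop where
  inj : Function.Injective z
  z_nmem : ∀ i, z i ∉ A
  E_eq : P.E = A ∪ Finset.univ.image z
  mem : ∀ w : α → ZMod 2, w ∈ P.D ↔ (∀ a, a ∉ P.E → w a = 0) ∧
    ∃ y ∈ M.D, (∀ a ∈ A, w a = y a) ∧ ∀ i, w (z i) = ∑ a ∈ R i, y a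

/-! ### auxiliary lemmas on spans over `GF(2)` -/

namespace PartsAux

variable (M : BM α)

/-- the functional attached to a set -/
noncomputable def ev (X : Finset α) : Module.Dual (ZMod 2) M.D := ∑ a ∈ X, M.evec a

lemma ev_apply (X : Finset α) (y : M.D) : ev M X y = ∑ a ∈ X, y.1 a := by
  unfold ev
  rw [LinearMap.sum_apply]
  rfl

lemma ev_ext {X Y : Finset α} (h : ∀ y ∈ M.D, ∑ a ∈ X, y a = ∑ a ∈ Y, y a) :
    ev M X = ev M Y := by
  apply LinearMap.ext
  intro y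
  rw [ev_apply, ev_apply]
  exact h y.1 y.2

lemma ev_congr {X Y : Finset α} (h : ev M X = ev M Y) {y : α → ZMod 2} (hy : y ∈ M.D) :
    ∑ a ∈ X, y a = ∑ a ∈ Y, y a := by
  have := LinearMap.congr_fun h ⟨y, hy⟩
  rwa [ev_apply, ev_apply] at this

lemma ev_eq_zero {X : Finset α} : ev M X = 0 ↔ ∀ y ∈ M.D, ∑ a ∈ X, y a = 0 := by
  constructor
  · intro h y hy
    have := LinearMap.congr_fun h ⟨y, hy⟩
    rwa [ev_apply] at this
  · intro h
    apply LinearMap.ext
    intro y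
    rw [ev_apply]
    exact h y.1 y.2

lemma zmod_cases (c : ZMod 2) : c = 0 ∨ c = 1 := by
  revert c
  decide

lemma zmod_add_self (c : ZMod 2) : c + c = 0 := by
  revert c
  decide

lemma zmod_eq_of_add {c d : ZMod 2} (h : c + d = 0) : c = d := by
  revert c d
  decide

lemma ev_mem {R X : Finset α} (h : R ⊆ X) :
    ev M R ∈ Submodule.span (ZMod 2) (M.evec '' (X : Set α)) :=
  Submodule.sum_mem _ fun a ha => Submodule.subset_span ⟨a, Finset.mem_coe.2 (h ha), rfl⟩

lemma exists_ev {X : Finset α} {φ : Module.Dual (ZMod 2) M.D}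
    (h : φ ∈ Submodule.span (ZMod 2) (M.evec '' (X : Set α))) : ∃ R ⊆ X, ev M R = φ := by
  classical
  rw [Submodule.mem_span_image_finset_iff_exists_fun] at h
  obtain ⟨c0, hc0⟩ := h
  let c : α → ZMod 2 := fun a => if h : a ∈ X then c0 ⟨a, h⟩ else 0
  have hc : ∑ a ∈ X, c a • M.evec a = φ := by
    rw [← hc0, ← Finset.sum_coe_sort X]
    apply Finset.sum_congr rfl
    intro a _
    simp only [c]
    rw [dif_pos a.2]
  refine ⟨X.filter fun a => c a = 1, Finset.filter_subset _ _, ?_⟩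
  rw [← hc]
  unfold ev
  rw [Finset.sum_filter]
  apply Finset.sum_congr rfl
  intro a _
  rcases zmod_cases (c a) with h0 | h1
  · rw [h0, zero_smul, if_neg (by decide)]
  · rw [h1, one_smul, if_pos rfl]

/-- the guts as a subspace -/
noncomputable def gs (A : Finset α) : Submodule (ZMod 2) (Module.Dual (ZMod 2) M.D) :=
  Submodule.span (ZMod 2) (M.evec '' (A : Set α)) ⊓
    Submodule.span (ZMod 2) (M.evec '' ((M.E \ A : Finset α) : Set α))

lemma finrank_gs {A : Finset α} (hA : A ⊆ M.E) : Module.finrank (ZMod 2) (gs M A) = M.lam A := by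
  have h2 := Submodule.finrank_sup_add_finrank_inf_eq
    (Submodule.span (ZMod 2) (M.evec '' (A : Set α)))
    (Submodule.span (ZMod 2) (M.evec '' ((M.E \ A : Finset α) : Set α)))
  rw [← M.rk_eq_span, ← M.rk_eq_span, ← Submodule.span_union, ← Set.image_union,
    ← Finset.coe_union, ← M.rk_eq_span, Finset.union_sdiff_of_subset hA] at h2
  have h3 := M.lam_add A
  unfold gs
  omega

lemma gs_ev {A R S : Finset α} (hR : R ⊆ A) (hS : S ⊆ M.E \ A)
    (h : ∀ y ∈ M.D, ∑ a ∈ R, y a = ∑ a ∈ S, y a) : ev M R ∈ gs M A := by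
  refine ⟨ev_mem M hR, ?_⟩
  rw [ev_ext M h]
  exact ev_mem M hS

lemma guts_of {k : ℕ} {A : Finset α} (φ : Fin k → Module.Dual (ZMod 2) M.D)
    (h1 : ∀ i, φ i ∈ gs M A) (h2 : ∀ i, φ i ≠ 0)
    (h3 : ∀ ψ ∈ gs M A, ψ = 0 ∨ ∃ i, ψ = φ i) :
    ∃ R S : Fin k → Finset α, Guts M A R S ∧ ∀ i, ev M (R i) = φ i := by
  choose R hR hR' using fun i => exists_ev M (h1 i).1
  choose S hS hS' using fun i => exists_ev M (h1 i).2
  refine ⟨R, S, ⟨hR, hS, ?_, ?_, ?_⟩, hR'⟩
  · intro i y hy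
    exact ev_congr M ((hR' i).trans (hS' i).symm) hy
  · intro i
    by_contra hcon
    push Not at hcon
    exact h2 i ((hR' i).symm.trans ((ev_eq_zero M).2 hcon))
  · intro R₀ hR₀ S₀ hS₀ h
    rcases h3 _ (gs_ev M hR₀ hS₀ h) with h4 | ⟨i, h4⟩
    · exact Or.inl ((ev_eq_zero M).1 h4)
    · exact Or.inr ⟨i, fun y hy => ev_congr M (h4.trans (hR' i).symm) hy⟩

lemma gs_mem {k : ℕ} {M : BM α} {A : Finset α} {R S : Fin k → Finset α} (h : Guts M A R S)
    (i : Fin k) : ev M (R i) ∈ gs M A := gs_ev M (h.R_sub i) (h.S_sub i) (h.eq i)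

lemma gs_cases {k : ℕ} {M : BM α} {A : Finset α} {R S : Fin k → Finset α} (h : Guts M A R S)
    {ψ : Module.Dual (ZMod 2) M.D} (hψ : ψ ∈ gs M A) : ψ = 0 ∨ ∃ i, ψ = ev M (R i) := by
  obtain ⟨R₀, hR₀, h1⟩ := exists_ev M hψ.1
  obtain ⟨S₀, hS₀, h2⟩ := exists_ev M hψ.2
  rcases h.full R₀ hR₀ S₀ hS₀ (fun y hy => ev_congr M (h1.trans h2.symm) hy) with h3 | ⟨i, h3⟩
  · left
    rw [← h1]
    exact (ev_eq_zero M).2 h3
  · right
    refine ⟨i, ?_⟩
    rw [← h1]
    exact ev_ext M h3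

lemma ev_ne {k : ℕ} {M : BM α} {A : Finset α} {R S : Fin k → Finset α} (h : Guts M A R S)
    (i : Fin k) : ev M (R i) ≠ 0 := by
  intro hcon
  obtain ⟨y, hy, h1⟩ := h.nz i
  exact h1 ((ev_eq_zero M).1 hcon y hy)

lemma eq_of_add_dual {φ ψ : Module.Dual (ZMod 2) M.D} (h : φ + ψ = 0) : φ = ψ := by
  apply LinearMap.ext
  intro y
  exact zmod_eq_of_add (LinearMap.congr_fun h y)

lemma add_self_dual (φ : Module.Dual (ZMod 2) M.D) : φ + φ = 0 := by
  apply LinearMap.ext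
  intro y
  exact zmod_add_self (φ y)

end PartsAux

open PartsAux

/-! ### cycles -/

/-- a vector supported in `M.E` which is orthogonal to all cycles is a cocycle (from `dual_dual`) -/
lemma mem_D_of_cycles (M : BM α) {y : α → ZMod 2} (hy : ∀ a, a ∉ M.E → y a = 0)
    (h : ∀ X ⊆ M.E, (∀ x ∈ M.D, ∑ a ∈ X, x a = 0) → ∑ a ∈ X, y a = 0) : y ∈ M.D := by
  classical
  rw [← M.dual_dual]
  refine ⟨hy, ?_⟩
  intro x hx
  have h1 : ∀ z : α → ZMod 2, ∑ a ∈ M.E.filter (fun a => x a = 1), z a = ∑ a ∈ M.E, x a * z a := by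
    intro z
    rw [Finset.sum_filter]
    apply Finset.sum_congr rfl
    intro a _
    rcases zmod_cases (x a) with h0 | h1
    · rw [h0, zero_mul, if_neg (by decide)]
    · rw [h1, one_mul, if_pos rfl]
  show ∑ a ∈ M.E, x a * y a = 0
  rw [← h1]
  apply h _ (Finset.filter_subset _ _)
  intro z hz
  rw [h1]
  have := hx.2 z hz
  rw [← this]
  apply Finset.sum_congr rfl
  intro a _
  rw [mul_comm]

/-- general form: a functional `y ↦ ∑ a ∈ Y, y a` of `M.D` which vanishes on every `y` vanishing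
on all of `X` is a sum over a subset of `X` -/
lemma exists_sum_of_vanish (M : BM α) {X Y : Finset α}
    (h : ∀ y ∈ M.D, (∀ b ∈ X, y b = 0) → ∑ a ∈ Y, y a = 0) :
    ∃ R ⊆ X, ∀ y ∈ M.D, ∑ a ∈ Y, y a = ∑ b ∈ R, y b := by
  have h1 : ev M Y ∈ Submodule.span (ZMod 2) (M.evec '' (X : Set α)) := by
    rw [← Subspace.dualCoannihilator_dualAnnihilator_eq
      (W := Submodule.span (ZMod 2) (M.evec '' (X : Set α))), Submodule.mem_dualAnnihilator]
    intro x hx
    rw [M.coann_eq, Submodule.mem_comap, LinearMap.mem_ker] at hx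
    rw [ev_apply]
    refine h x.1 x.2 fun b hb => ?_
    have := congrFun hx b
    simpa [hb] using this
  obtain ⟨R, hR, h2⟩ := exists_ev M h1
  exact ⟨R, hR, fun y hy => ev_congr M h2.symm hy⟩

/-- an element of the closure of `X` is a sum of elements of `X` -/
lemma exists_sum_of_inCl (M : BM α) {X : Finset α} {a : α} (h : M.InCl X a) :
    ∃ R ⊆ X, ∀ y ∈ M.D, y a = ∑ b ∈ R, y b := by
  obtain ⟨R, hR, h1⟩ := exists_sum_of_vanish M (X := X) (Y := {a}) (by
    intro y hy hy'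
    rw [Finset.sum_singleton]
    exact h y hy hy')
  exact ⟨R, hR, fun y hy => by rw [← h1 y hy, Finset.sum_singleton]⟩

/-! ### guts -/

theorem exists_guts1 (M : BM α) {A : Finset α} (hA : A ⊆ M.E) (h : M.lam A = 1) :
    ∃ R S : Fin 1 → Finset α, Guts M A R S := by
  have h1 := finrank_gs M hA
  rw [h] at h1
  obtain ⟨φ, hφ, hφ'⟩ := finrank_eq_one_iff'.1 h1
  obtain ⟨R, S, hg, _⟩ := guts_of M (A := A) (fun _ : Fin 1 => φ.1) (fun _ => φ.2)
    (fun _ hcon => hφ (Subtype.ext hcon)) (by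
      intro ψ hψ
      obtain ⟨c, hc⟩ := hφ' ⟨ψ, hψ⟩
      have hc' : c • φ.1 = ψ := congrArg Subtype.val hc
      rcases zmod_cases c with h0 | h0
      · left
        rw [← hc', h0, zero_smul]
      · right
        refine ⟨0, ?_⟩
        rw [← hc', h0, one_smul])
  exact ⟨R, S, hg⟩

/-- `span (evec '' A) ⊓ span (evec '' (M.E \ A))` has dimension `M.lam A = 2`, so it has exactly
three nonzero elements and their sum is zero -/
theorem exists_guts3 (M : BM α) {A : Finset α} (hA : A ⊆ M.E) (h : M.lam A = 2) :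
    ∃ R S : Fin 3 → Finset α, Guts M A R S ∧ Tri M R := by
  have h1 := finrank_gs M hA
  rw [h] at h1
  let b := Module.finBasisOfFinrankEq (ZMod 2) (gs M A) h1
  have hli : ∀ c d : ZMod 2, c • (b 0).1 + d • (b 1).1 = 0 → c = 0 ∧ d = 0 := by
    intro c d hcd
    have h2 := Fintype.linearIndependent_iff.1 b.linearIndependent ![c, d] (by
      rw [Fin.sum_univ_two]
      exact Subtype.ext hcd)
    exact ⟨h2 0, h2 1⟩
  have n0 : (b 0).1 ≠ 0 := by
    intro hcon
    have := hli 1 0 (by rw [hcon, smul_zero, zero_smul, add_zero])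
    exact absurd this.1 (by decide)
  have n1 : (b 1).1 ≠ 0 := by
    intro hcon
    have := hli 0 1 (by rw [hcon, smul_zero, zero_smul, add_zero])
    exact absurd this.2 (by decide)
  have n2 : (b 0).1 + (b 1).1 ≠ 0 := by
    intro hcon
    have := hli 1 1 (by rw [one_smul, one_smul, hcon])
    exact absurd this.1 (by decide)
  obtain ⟨R, S, hg, hR⟩ := guts_of M (A := A) ![(b 0).1, (b 1).1, (b 0).1 + (b 1).1]
    (by
      intro i
      fin_cases i
      · exact (b 0).2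
      · exact (b 1).2
      · exact (gs M A).add_mem (b 0).2 (b 1).2)
    (by
      intro i
      fin_cases i
      · exact n0
      · exact n1
      · exact n2)
    (by
      intro ψ hψ
      have h2 := b.sum_repr ⟨ψ, hψ⟩
      rw [Fin.sum_univ_two] at h2
      have h3 : (b.repr ⟨ψ, hψ⟩ 0) • (b 0).1 + (b.repr ⟨ψ, hψ⟩ 1) • (b 1).1 = ψ :=
        congrArg Subtype.val h2
      rcases zmod_cases (b.repr ⟨ψ, hψ⟩ 0) with h4 | h4 <;>
        rcases zmod_cases (b.repr ⟨ψ, hψ⟩ 1) with h5 | h5 <;> rw [h4, h5] at h3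
      · left
        rw [← h3, zero_smul, zero_smul, add_zero]
      · right
        refine ⟨1, ?_⟩
        rw [← h3, zero_smul, one_smul, zero_add]
        rfl
      · right
        refine ⟨0, ?_⟩
        rw [← h3, zero_smul, one_smul, add_zero]
        rfl
      · right
        refine ⟨2, ?_⟩
        rw [← h3, one_smul, one_smul]
        rfl)
  refine ⟨R, S, hg, ?_⟩
  intro y hy
  have e0 : ev M (R 0) = (b 0).1 := hR 0
  have e1 : ev M (R 1) = (b 1).1 := hR 1
  have e2 : ev M (R 2) = (b 0).1 + (b 1).1 := hR 2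
  rw [← e0, ← e1] at e2
  have h2 := LinearMap.congr_fun e2 ⟨y, hy⟩
  rw [LinearMap.add_apply, ev_apply, ev_apply, ev_apply] at h2
  rw [h2]
  exact zmod_add_self _

lemma Guts.symm {k : ℕ} {M : BM α} {A : Finset α} {R S : Fin k → Finset α} (hA : A ⊆ M.E)
    (h : Guts M A R S) : Guts M (M.E \ A) S R := by
  refine ⟨h.S_sub, ?_, fun i y hy => (h.eq i y hy).symm, ?_, ?_⟩
  · intro i
    rw [Finset.sdiff_sdiff_eq_self hA]
    exact h.R_sub i
  · intro i
    obtain ⟨y, hy, h1⟩ := h.nz i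
    exact ⟨y, hy, by rwa [← h.eq i y hy]⟩
  · intro R₀ hR₀ S₀ hS₀ h1
    rw [Finset.sdiff_sdiff_eq_self hA] at hS₀
    rcases h.full S₀ hS₀ R₀ hR₀ (fun y hy => (h1 y hy).symm) with h2 | ⟨i, h2⟩
    · exact Or.inl fun y hy => (h1 y hy).trans (h2 y hy)
    · exact Or.inr ⟨i, fun y hy => (h1 y hy).trans ((h2 y hy).trans (h.eq i y hy))⟩

/-- conversely -/
theorem Guts.lam1 {M : BM α} {A : Finset α} {R S : Fin 1 → Finset α} (hA : A ⊆ M.E)
    (h : Guts M A R S) : M.lam A = 1 := by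
  rw [← finrank_gs M hA]
  have e : gs M A = Submodule.span (ZMod 2) {ev M (R 0)} := by
    apply le_antisymm
    · intro ψ hψ
      rcases gs_cases h hψ with h1 | ⟨i, h1⟩
      · rw [h1]
        exact Submodule.zero_mem _
      · rw [h1, Subsingleton.elim i 0]
        exact Submodule.mem_span_singleton_self _
    · rw [Submodule.span_singleton_le_iff_mem]
      exact gs_mem h 0
  rw [e]
  exact finrank_span_singleton (ev_ne h 0)

theorem Guts.lam3 {M : BM α} {A : Finset α} {R S : Fin 3 → Finset α} (hA : A ⊆ M.E)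
    (h : Guts M A R S) (ht : Tri M R) : M.lam A = 2 := by
  rw [← finrank_gs M hA]
  have e2 : ev M (R 2) = ev M (R 0) + ev M (R 1) := by
    apply LinearMap.ext
    intro y
    rw [LinearMap.add_apply, ev_apply, ev_apply, ev_apply]
    have := ht y.1 y.2
    exact (zmod_eq_of_add this).symm
  have e : gs M A = Submodule.span (ZMod 2) (Set.range ![ev M (R 0), ev M (R 1)]) := by
    have m0 : ev M (R 0) ∈ Submodule.span (ZMod 2) (Set.range ![ev M (R 0), ev M (R 1)]) :=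
      Submodule.subset_span ⟨0, rfl⟩
    have m1 : ev M (R 1) ∈ Submodule.span (ZMod 2) (Set.range ![ev M (R 0), ev M (R 1)]) :=
      Submodule.subset_span ⟨1, rfl⟩
    apply le_antisymm
    · intro ψ hψ
      rcases gs_cases h hψ with h1 | ⟨i, h1⟩
      · rw [h1]
        exact Submodule.zero_mem _
      · rw [h1]
        fin_cases i
        · exact m0
        · exact m1
        · show ev M (R 2) ∈ _
          rw [e2]
          exact Submodule.add_mem _ m0 m1
    · rw [Submodule.span_le]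
      rintro _ ⟨i, rfl⟩
      fin_cases i
      · exact gs_mem h 0
      · exact gs_mem h 1
  rw [e, finrank_span_eq_card, Fintype.card_fin]
  rw [LinearIndependent.pair_iff]
  intro c d hcd
  rcases zmod_cases c with h4 | h4 <;> rcases zmod_cases d with h5 | h5 <;> rw [h4, h5] at hcd
  · exact ⟨h4, h5⟩
  · rw [zero_smul, one_smul, zero_add] at hcd
    exact absurd hcd (ev_ne h 1)
  · rw [zero_smul, one_smul, add_zero] at hcd
    exact absurd hcd (ev_ne h 0)
  · rw [one_smul, one_smul, ← e2] at hcd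
    exact absurd hcd (ev_ne h 2)

/-- the gluing formula: a vector is a cocycle iff its restrictions to the two sides are
restrictions of cocycles and the guts sums agree. Proof: `mem_D_of_cycles`; split a cycle into
`R₀ ⊆ A` and `S₀ ⊆ M.E \ A` and use `Guts.full`. -/
theorem Guts.mem_iff {k : ℕ} {M : BM α} {A : Finset α} {R S : Fin k → Finset α} (hA : A ⊆ M.E)
    (h : Guts M A R S) (y : α → ZMod 2) : y ∈ M.D ↔ (∀ a, a ∉ M.E → y a = 0) ∧
      (∃ x ∈ M.D, ∀ a ∈ A, y a = x a) ∧ (∃ x ∈ M.D, ∀ a ∈ M.E \ A, y a = x a) ∧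
      ∀ i, ∑ a ∈ R i, y a = ∑ a ∈ S i, y a := by
  constructor
  · intro hy
    exact ⟨M.supp y hy, ⟨y, hy, fun _ _ => rfl⟩, ⟨y, hy, fun _ _ => rfl⟩, fun i => h.eq i y hy⟩
  · rintro ⟨h0, ⟨x1, hx1, h1⟩, ⟨x2, hx2, h2⟩, h3⟩
    apply mem_D_of_cycles M h0
    intro X hX hc
    have hs : ∀ z : α → ZMod 2, ∑ a ∈ X, z a = ∑ a ∈ X ∩ A, z a + ∑ a ∈ X \ A, z a := fun z =>
      (Finset.sum_inter_add_sum_sdiff X A z).symm
    have hR₀ : X ∩ A ⊆ A := Finset.inter_subset_right
    have hS₀ : X \ A ⊆ M.E \ A := Finset.sdiff_subset_sdiff hX (Finset.Subset.refl _)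
    have heq : ∀ x ∈ M.D, ∑ a ∈ X ∩ A, x a = ∑ a ∈ X \ A, x a := by
      intro x hx
      apply zmod_eq_of_add
      rw [← hs, hc x hx]
    have c1 : ∀ Z ⊆ A, ∑ a ∈ Z, y a = ∑ a ∈ Z, x1 a := fun Z hZ =>
      Finset.sum_congr rfl fun a ha => h1 a (hZ ha)
    have c2 : ∀ Z ⊆ M.E \ A, ∑ a ∈ Z, y a = ∑ a ∈ Z, x2 a := fun Z hZ =>
      Finset.sum_congr rfl fun a ha => h2 a (hZ ha)
    rw [hs]
    rcases h.full _ hR₀ _ hS₀ heq with h4 | ⟨i, h4⟩
    · rw [c1 _ hR₀, c2 _ hS₀, h4 x1 hx1, ← heq x2 hx2, h4 x2 hx2, add_zero]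
    · rw [c1 _ hR₀, c2 _ hS₀, h4 x1 hx1, ← heq x2 hx2, h4 x2 hx2, h.eq i x2 hx2,
        ← c1 _ (h.R_sub i), ← c2 _ (h.S_sub i), h3 i]
      exact zmod_add_self _

/-- the gluing formula for `lam A = 0` -/
theorem mem_iff_of_lam_zero {M : BM α} {A : Finset α} (hA : A ⊆ M.E) (h : M.lam A = 0)
    (y : α → ZMod 2) : y ∈ M.D ↔ (∀ a, a ∉ M.E → y a = 0) ∧
      (∃ x ∈ M.D, ∀ a ∈ A, y a = x a) ∧ (∃ x ∈ M.D, ∀ a ∈ M.E \ A, y a = x a) := by
  have h1 := finrank_gs M hA
  rw [h, Submodule.finrank_eq_zero] at h1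
  obtain ⟨R, S, hg, _⟩ := guts_of M (A := A) (fun i : Fin 0 => i.elim0) (fun i => i.elim0)
    (fun i => i.elim0) (by
      intro ψ hψ
      rw [h1, Submodule.mem_bot] at hψ
      exact Or.inl hψ)
  rw [hg.mem_iff hA y]
  constructor
  · rintro ⟨a, b, c, _⟩
    exact ⟨a, b, c⟩
  · rintro ⟨a, b, c⟩
    exact ⟨a, b, c, fun i => i.elim0⟩

end Pool.Agent.H87.Sey
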