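import Pool.Agent.H87.Sey.GoodDef

/-!
# Bixby's lemma (Seymour project, MP_dbe88a_co, job S87-25)
-/

set_option autoImplicit false

namespace Pool.Agent.H87.Sey

open Pool.Agent.H63.Sey

universe u

variable {α : Type u} [DecidableEq α]

variable {K : Type} [Field K]

/-- For `(A, B)` and `(A', B')` partitions of `M.E \ {e}`:
`lam (A ∩ A') + lam (B ∩ B') ≤ lam_{M \ e} A + lam_{M / e} A' + 1`. Submodularity of the rank
function: `rk (A ∩ A') + rk (A ∪ A' ∪ {e}) ≤ rk A + rk (A' ∪ {e})` etc. -/
theorem bc_ineq (M : LM K α) {e : α} (he : e ∈ M.E) {A A' : Finset α} (hA : A ⊆ M.E \ {e})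
    (hA' : A' ⊆ M.E \ {e}) :
    M.lam (A ∩ A') + M.lam ((M.E \ {e}) \ A ∩ ((M.E \ {e}) \ A')) ≤
      (M.del {e}).lam A + (M.con {e}).lam A' + 1 := by
  have heA : e ∉ A := fun h => (Finset.mem_sdiff.1 (hA h)).2 (Finset.mem_singleton_self e)
  have hAE : A ⊆ M.E := hA.trans Finset.sdiff_subset
  have hAE' : A' ⊆ M.E := hA'.trans Finset.sdiff_subset
  have h1 := M.lam_add (A ∩ A')
  have h2 := M.lam_add ((M.E \ {e}) \ A ∩ ((M.E \ {e}) \ A'))
  have h3 := (M.del {e}).lam_add A
  have h4 := (M.con {e}).lam_add A'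
  rw [M.rk_del, M.rk_del, M.rk_del, M.del_E] at h3
  rw [M.con_E] at h4
  have c1 := M.rk_con {e} A'
  have c2 := M.rk_con {e} ((M.E \ {e}) \ A')
  have c3 := M.rk_con {e} (M.E \ {e})
  have e1 : A \ {e} = A := by
    ext a; simp only [Finset.mem_sdiff, Finset.mem_singleton]
    refine ⟨fun h => h.1, fun h => ⟨h, ?_⟩⟩
    rintro rfl
    exact heA h
  have e2 : ((M.E \ {e}) \ A) \ {e} = (M.E \ {e}) \ A := by
    ext a; simp only [Finset.mem_sdiff]; tauto
  have e3 : (M.E \ {e}) \ {e} = M.E \ {e} := by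
    ext a; simp only [Finset.mem_sdiff]; tauto
  have e4 : (M.E \ {e}) ∪ {e} = M.E := by
    ext a
    simp only [Finset.mem_sdiff, Finset.mem_union, Finset.mem_singleton]
    constructor
    · rintro (h | rfl)
      · exact h.1
      · exact he
    · intro h
      by_cases h' : a = e
      · exact Or.inr h'
      · exact Or.inl ⟨h, h'⟩
  rw [e1, e2, e3] at h3
  rw [e4] at c3
  have s1 := M.rk_submod A (A' ∪ {e})
  have s2 := M.rk_submod ((M.E \ {e}) \ A) (((M.E \ {e}) \ A') ∪ {e})
  have e5 : A ∩ (A' ∪ {e}) = A ∩ A' := by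
    ext a
    simp only [Finset.mem_inter, Finset.mem_union, Finset.mem_singleton]
    constructor
    · rintro ⟨h, h' | rfl⟩
      · exact ⟨h, h'⟩
      · exact absurd h heA
    · rintro ⟨h, h'⟩
      exact ⟨h, Or.inl h'⟩
  have e6 : A ∪ (A' ∪ {e}) = M.E \ ((M.E \ {e}) \ A ∩ ((M.E \ {e}) \ A')) := by
    ext a
    have ha := @hAE a
    have ha' := @hAE' a
    simp only [Finset.mem_inter, Finset.mem_union, Finset.mem_singleton, Finset.mem_sdiff]
    by_cases hae : a = e
    · subst hae; simp [he]
    · simp only [hae, or_false, not_false_eq_true, and_true]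
      tauto
  have e7 : (M.E \ {e}) \ A ∩ (((M.E \ {e}) \ A') ∪ {e}) =
      (M.E \ {e}) \ A ∩ ((M.E \ {e}) \ A') := by
    ext a
    simp only [Finset.mem_inter, Finset.mem_union, Finset.mem_singleton, Finset.mem_sdiff]
    tauto
  have e8 : (M.E \ {e}) \ A ∪ (((M.E \ {e}) \ A') ∪ {e}) = M.E \ (A ∩ A') := by
    ext a
    simp only [Finset.mem_inter, Finset.mem_union, Finset.mem_singleton, Finset.mem_sdiff]
    by_cases hae : a = e
    · subst hae; simp [he, heA]
    · simp only [hae, or_false, not_false_eq_true, and_true]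
      tauto
  rw [e5, e6] at s1
  rw [e7, e8] at s2
  have h5 : M.rk (M.E \ {e}) ≤ M.rk M.E := M.rk_le_E _
  have h6 : M.rk {e} ≤ 1 := by
    have := M.rk_le_card {e}
    rwa [Finset.card_singleton] at this
  omega

/-- Bixby's lemma. Let `(A, B)` be a separation of `M \ e` and `(A', B')` one of `M / e`, both
with `lam ≤ 1` and all four sides with at least three elements. By `bc_ineq` for the pairs
`(A, B), (A', B')` and `(A, B), (B', A')`: `lam (A ∩ A') + lam (B ∩ B') ≤ 3` and
`lam (A ∩ B') + lam (B ∩ A') ≤ 3`; a set `X` with at least two elements whose complement has at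
least two elements has `lam X ≥ 2`; so one of `A ∩ A'`, `B ∩ B'` has at most one element and one
of `A ∩ B'`, `B ∩ A'` has at most one element; then one of the four sets has at most two
elements. -/
theorem bixby {M : LM K α} (hc : M.Conn3) {e : α} (he : e ∈ M.E) :
    Good (M.del {e}) ∨ Good (M.con {e}) := by
  by_contra hcon
  rw [not_or] at hcon
  obtain ⟨h1, h2⟩ := hcon
  unfold Good at h1 h2
  push Not at h1 h2
  obtain ⟨A, hA, hlA, hcA, hcB⟩ := h1
  obtain ⟨A', hA', hlA', hcA', hcB'⟩ := h2
  rw [M.del_E] at hA hcB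
  rw [M.con_E] at hA' hcB'
  have i1 := bc_ineq M he hA hA'
  have i2 := bc_ineq M he hA (A' := (M.E \ {e}) \ A') Finset.sdiff_subset
  have hl2 : (M.con {e}).lam ((M.E \ {e}) \ A') = (M.con {e}).lam A' :=
    (M.con {e}).lam_compl A' hA'
  rw [hl2, Finset.sdiff_sdiff_eq_self hA'] at i2
  -- cardinalities
  have k1 : (A ∩ A').card + (A ∩ ((M.E \ {e}) \ A')).card = A.card := by
    rw [← Finset.card_union_of_disjoint]
    · congr 1
      ext a
      have ha := @hA a
      simp only [Finset.mem_inter, Finset.mem_union, Finset.mem_sdiff] at ha ⊢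
      tauto
    · rw [Finset.disjoint_left]
      intro a h h'
      simp only [Finset.mem_inter, Finset.mem_sdiff] at h h'
      exact h'.2.2 h.2
  have k2 : ((M.E \ {e}) \ A ∩ A').card + ((M.E \ {e}) \ A ∩ ((M.E \ {e}) \ A')).card =
      ((M.E \ {e}) \ A).card := by
    rw [← Finset.card_union_of_disjoint]
    · congr 1
      ext a
      simp only [Finset.mem_inter, Finset.mem_union, Finset.mem_sdiff]
      tauto
    · rw [Finset.disjoint_left]
      intro a h h'
      simp only [Finset.mem_inter, Finset.mem_sdiff] at h h'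
      exact h'.2.2 h.2
  have k3 : (A ∩ A').card + ((M.E \ {e}) \ A ∩ A').card = A'.card := by
    rw [← Finset.card_union_of_disjoint]
    · congr 1
      ext a
      have ha := @hA' a
      simp only [Finset.mem_inter, Finset.mem_union, Finset.mem_sdiff] at ha ⊢
      tauto
    · rw [Finset.disjoint_left]
      intro a h h'
      simp only [Finset.mem_inter, Finset.mem_sdiff] at h h'
      exact h'.1.2 h.1
  have k4 : (A ∩ ((M.E \ {e}) \ A')).card + ((M.E \ {e}) \ A ∩ ((M.E \ {e}) \ A')).card =
      ((M.E \ {e}) \ A').card := by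
    rw [← Finset.card_union_of_disjoint]
    · congr 1
      ext a
      simp only [Finset.mem_inter, Finset.mem_union, Finset.mem_sdiff]
      tauto
    · rw [Finset.disjoint_left]
      intro a h h'
      simp only [Finset.mem_inter, Finset.mem_sdiff] at h h'
      exact h'.1.2 h.1
  -- connectivity of the four sets
  have key : ∀ Z W : Finset α, Z ⊆ M.E → W ⊆ M.E → Disjoint Z W → 3 ≤ W.card →
      2 ≤ Z.card → 2 ≤ M.lam Z := by
    intro Z W hZ hW hd hW3 hZ2
    refine hc.2 Z hZ hZ2 ?_
    have h1 : W ⊆ M.E \ Z := fun a ha => Finset.mem_sdiff.2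
      ⟨hW ha, fun h => Finset.disjoint_left.1 hd h ha⟩
    exact (le_trans (by norm_num) hW3).trans (Finset.card_le_card h1)
  have hFE : M.E \ {e} ⊆ M.E := Finset.sdiff_subset
  have l1 := key (A ∩ A') ((M.E \ {e}) \ A) (Finset.inter_subset_left.trans (hA.trans hFE))
    (Finset.sdiff_subset.trans hFE) (by
      rw [Finset.disjoint_left]
      intro a h h'
      exact (Finset.mem_sdiff.1 h').2 (Finset.mem_inter.1 h).1) hcB
  have l2 := key (A ∩ ((M.E \ {e}) \ A')) ((M.E \ {e}) \ A)
    (Finset.inter_subset_left.trans (hA.trans hFE))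
    (Finset.sdiff_subset.trans hFE) (by
      rw [Finset.disjoint_left]
      intro a h h'
      exact (Finset.mem_sdiff.1 h').2 (Finset.mem_inter.1 h).1) hcB
  have l3 := key ((M.E \ {e}) \ A ∩ A') A
    (Finset.inter_subset_left.trans (Finset.sdiff_subset.trans hFE)) (hA.trans hFE) (by
      rw [Finset.disjoint_left]
      intro a h h'
      exact (Finset.mem_sdiff.1 (Finset.mem_inter.1 h).1).2 h') hcA
  have l4 := key ((M.E \ {e}) \ A ∩ ((M.E \ {e}) \ A')) A
    (Finset.inter_subset_left.trans (Finset.sdiff_subset.trans hFE)) (hA.trans hFE) (by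
      rw [Finset.disjoint_left]
      intro a h h'
      exact (Finset.mem_sdiff.1 (Finset.mem_inter.1 h).1).2 h') hcA
  omega

/-- deletion from an internally `4`-connected matroid -/
theorem good_del_of_i4c {M : LM K α} (hc : M.I4c) (h8 : 8 ≤ M.E.card) {e : α} (he : e ∈ M.E) :
    Good (M.del {e}) := by
  intro X hX hl
  rw [M.del_E] at hX ⊢
  have hXE : X ⊆ M.E := hX.trans Finset.sdiff_subset
  have heX : e ∉ X := fun h => (Finset.mem_sdiff.1 (hX h)).2 (Finset.mem_singleton_self e)
  have h1 := M.lam_del_single hXE heX he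
  have hY : (M.E \ {e}) \ X ⊆ M.E := Finset.sdiff_subset.trans Finset.sdiff_subset
  have heY : e ∉ (M.E \ {e}) \ X := by simp
  have h2 := M.lam_del_single hY heY he
  have h3 : (M.del {e}).lam ((M.E \ {e}) \ X) = (M.del {e}).lam X :=
    (M.del {e}).lam_compl X hX
  have c1 : (M.E \ {e}).card + 1 = M.E.card := by
    have := Finset.card_sdiff_add_card_eq_card (Finset.singleton_subset_iff.2 he)
    rwa [Finset.card_singleton] at this
  have c2 : ((M.E \ {e}) \ X).card + X.card = (M.E \ {e}).card :=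
    Finset.card_sdiff_add_card_eq_card hX
  have c3 : (M.E \ X).card + X.card = M.E.card := Finset.card_sdiff_add_card_eq_card hXE
  have c4 : (M.E \ ((M.E \ {e}) \ X)).card + ((M.E \ {e}) \ X).card = M.E.card :=
    Finset.card_sdiff_add_card_eq_card hY
  have h4 := hc.2 X hXE
  have h5 := hc.2 _ hY
  by_contra hcon
  rw [not_or] at hcon
  by_cases a1 : 4 ≤ X.card
  · have := h4 a1 (by omega)
    omega
  · have := h5 (by omega) (by omega)
    omega

theorem good_con_of_i4c {M : LM K α} (hc : M.I4c) (h8 : 8 ≤ M.E.card) {e : α} (he : e ∈ M.E) :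
    Good (M.con {e}) := by
  have h := good_del_of_i4c hc.dual (e := e) h8 he
  rw [← LM.dual_con] at h
  have h' := h.dual
  rwa [LM.dual_dual] at h'

end Pool.Agent.H87.Sey
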