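import Pool.Agent.H87.Sey.GoodDef

/-!
# Connected good matroids (Seymour project, MP_dbe88a_co, job S87-17)
-/

set_option autoImplicit false

namespace Pool.Agent.H87.Sey

open Pool.Agent.H63.Sey

universe u

variable {α : Type u} [DecidableEq α]

variable {K : Type} [Field K]

/-- connected and good -/
def C3 (M : LM K α) : Prop :=
  (∀ X ⊆ M.E, X.Nonempty → (M.E \ X).Nonempty → 1 ≤ M.lam X) ∧ Good M

lemma C3.dual {M : LM K α} (h : C3 M) : C3 M.dual :=
  ⟨fun X hX h1 h2 => by rw [M.lam_dual X hX]; exact h.1 X hX h1 h2, h.2.dual⟩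

/-- `3`-connected matroids are good -/
lemma c3_of_conn3 {M : LM K α} (h : M.Conn3) : C3 M := by
  refine ⟨h.1, fun X hX hl => ?_⟩
  by_contra hcon
  rw [not_or, not_le, not_le] at hcon
  have h1 := h.2 X hX (by omega) (by omega)
  omega

/-- the connectivity function after the deletion of a parallel element -/
lemma lam_del_parallel {M : LM K α} {a b : α} (hab : a ≠ b) (ha : a ∈ M.E)
    (hb : b ∈ M.E) (hp : M.InCl {b} a) {X : Finset α} (hX : X ⊆ M.E \ {a}) (hbX : b ∈ X) :
    (M.del {a}).lam X = M.lam (insert a X) := by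
  have h1 := (M.del {a}).lam_add X
  have h2 := M.lam_add (insert a X)
  rw [M.rk_del, M.rk_del, M.rk_del, M.del_E] at h1
  have haX : a ∉ X := fun h => by
    have := hX h
    simp at this
  have e1 : X \ {a} = X := by
    ext c; simp only [Finset.mem_sdiff, Finset.mem_singleton]
    refine ⟨fun h => h.1, fun h => ⟨h, ?_⟩⟩
    rintro rfl
    exact haX h
  have e2 : ((M.E \ {a}) \ X) \ {a} = M.E \ insert a X := by
    ext c; simp only [Finset.mem_sdiff, Finset.mem_singleton, Finset.mem_insert]; tauto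
  have e3 : (M.E \ {a}) \ {a} = M.E \ {a} := by
    ext c; simp only [Finset.mem_sdiff]; tauto
  rw [e1, e2, e3] at h1
  have h3 : M.rk (insert a X) = M.rk X :=
    M.inCl_iff_rk.1 (hp.mono (Finset.singleton_subset_iff.2 hbX))
  have h4 : M.rk (insert a (M.E \ {a})) = M.rk (M.E \ {a}) := by
    refine M.inCl_iff_rk.1 (hp.mono (Finset.singleton_subset_iff.2 ?_))
    rw [Finset.mem_sdiff, Finset.mem_singleton]
    exact ⟨hb, fun h => hab h.symm⟩
  have e4 : insert a (M.E \ {a}) = M.E := by
    ext c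
    simp only [Finset.mem_sdiff, Finset.mem_singleton, Finset.mem_insert]
    constructor
    · rintro (rfl | h)
      · exact ha
      · exact h.1
    · intro h
      by_cases hc : c = a
      · exact Or.inl hc
      · exact Or.inr ⟨h, hc⟩
  rw [e4] at h4
  omega

/-- delete an element parallel to another one (no cocycle separates `a` and `b`). If
`(M.del {a}).lam X ≤ 1` we may assume `b ∈ X` (`lam_compl`); then `M.lam (insert a X) =
(M.del {a}).lam X`. -/
lemma c3_del_parallel {M : LM K α} (h : C3 M) {a b : α} (hab : a ≠ b) (ha : a ∈ M.E)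
    (hb : b ∈ M.E) (hp : M.InCl {b} a) : C3 (M.del {a}) := by
  have key : ∀ X ⊆ M.E \ {a}, b ∈ X →
      (((M.E \ {a}) \ X).Nonempty → 1 ≤ (M.del {a}).lam X) ∧
      ((M.del {a}).lam X ≤ 1 → X.card ≤ 2 ∨ ((M.E \ {a}) \ X).card ≤ 2) := by
    intro X hX hbX
    rw [lam_del_parallel hab ha hb hp hX hbX]
    have e : (M.E \ {a}) \ X = M.E \ insert a X := by
      ext c; simp only [Finset.mem_sdiff, Finset.mem_singleton, Finset.mem_insert]; tauto
    have hs : insert a X ⊆ M.E :=
      Finset.insert_subset ha (hX.trans Finset.sdiff_subset)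
    refine ⟨fun hne => ?_, fun hl => ?_⟩
    · rw [e] at hne
      exact h.1 _ hs ⟨a, Finset.mem_insert_self a X⟩ hne
    · rw [e]
      rcases h.2 _ hs hl with h1 | h1
      · exact Or.inl ((Finset.card_le_card (Finset.subset_insert a X)).trans h1)
      · exact Or.inr h1
  refine ⟨fun X hX hne hne' => ?_, fun X hX hl => ?_⟩
  · rw [LM.del_E] at hX hne'
    by_cases hbX : b ∈ X
    · exact (key X hX hbX).1 hne'
    · have hb' : b ∈ (M.E \ {a}) \ X := by
        simp only [Finset.mem_sdiff, Finset.mem_singleton]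
        exact ⟨⟨hb, fun h => hab h.symm⟩, hbX⟩
      have h1 := (key _ Finset.sdiff_subset hb').1
        (by rw [Finset.sdiff_sdiff_eq_self hX]; exact hne)
      rwa [← M.del_E, (M.del {a}).lam_compl X hX] at h1
  · rw [LM.del_E] at hX ⊢
    by_cases hbX : b ∈ X
    · exact (key X hX hbX).2 hl
    · have hb' : b ∈ (M.E \ {a}) \ X := by
        simp only [Finset.mem_sdiff, Finset.mem_singleton]
        exact ⟨⟨hb, fun h => hab h.symm⟩, hbX⟩
      have h1 := (key _ Finset.sdiff_subset hb').2
        (by rw [← M.del_E, (M.del {a}).lam_compl X hX]; exact hl)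
      rw [Finset.sdiff_sdiff_eq_self hX] at h1
      exact h1.symm

/-- dual form -/
lemma c3_con_series {M : LM K α} (h : C3 M) {a b : α} (hab : a ≠ b) (ha : a ∈ M.E)
    (hb : b ∈ M.E) (hp : M.dual.InCl {b} a) : C3 (M.con {a}) := by
  have h1 := c3_del_parallel h.dual hab ha hb hp
  rw [← LM.dual_con] at h1
  have h2 := h1.dual
  rwa [LM.dual_dual] at h2

/-- no loops in a connected matroid with at least two elements -/
lemma rk_singleton_pos {M : LM K α}
    (h : ∀ X ⊆ M.E, X.Nonempty → (M.E \ X).Nonempty → 1 ≤ M.lam X) {b : α} (hb : b ∈ M.E)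
    (hne : (M.E \ {b}).Nonempty) : 1 ≤ M.rk {b} := by
  have h1 := h {b} (Finset.singleton_subset_iff.2 hb) (Finset.singleton_nonempty b) hne
  have h2 := M.lam_add {b}
  have h3 := M.rk_le_E (M.E \ {b})
  omega

/-- a pair of rank at most one is a parallel pair -/
lemma inCl_of_rk_pair {M : LM K α}
    (h : ∀ X ⊆ M.E, X.Nonempty → (M.E \ X).Nonempty → 1 ≤ M.lam X) {a b : α}
    (ha : a ∈ M.E) (hb : b ∈ M.E) (hab : a ≠ b) (hr : M.rk {a, b} ≤ 1) : M.InCl {b} a := by
  have h1 := rk_singleton_pos h hb ⟨a, by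
    rw [Finset.mem_sdiff, Finset.mem_singleton]
    exact ⟨ha, hab⟩⟩
  exact M.inCl_of_rk_le (X := {b}) (Y := {a, b})
    (Finset.singleton_subset_iff.2 (by simp)) (hr.trans h1) (by simp)

/-- no parallel and no series pairs: `3`-connected. A `2`-separation has a side `{a, b}`;
`lam {a, b} ≤ 1` means that `{a, b}` has rank at most one in `M` or in `M.dual`
(`rk_dual`), and there are no loops and coloops. -/
lemma conn3_of_c3 {M : LM K α} (h : C3 M)
    (hp : ∀ a ∈ M.E, ∀ b ∈ M.E, a ≠ b → ¬ M.InCl {b} a)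
    (hs : ∀ a ∈ M.E, ∀ b ∈ M.E, a ≠ b → ¬ M.dual.InCl {b} a) : M.Conn3 := by
  have key : ∀ X ⊆ M.E, X.card = 2 → M.lam X ≤ 1 → False := by
    intro X hX hc hl
    obtain ⟨a, b, hab, rfl⟩ := Finset.card_eq_two.1 hc
    have ha : a ∈ M.E := hX (by simp)
    have hb : b ∈ M.E := hX (by simp)
    have h1 := M.lam_add {a, b}
    have h2 := M.rk_dual {a, b} hX
    rw [hc] at h2
    have h3 : M.rk {a, b} ≤ 1 ∨ M.dual.rk {a, b} ≤ 1 := by omega
    rcases h3 with h3 | h3
    · exact hp a ha b hb hab (inCl_of_rk_pair h.1 ha hb hab h3)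
    · exact hs a ha b hb hab (inCl_of_rk_pair h.dual.1 (M := M.dual) ha hb hab h3)
  refine ⟨h.1, fun X hX h1 h2 => ?_⟩
  by_contra hcon
  rw [not_le] at hcon
  rcases h.2 X hX (by omega) with h3 | h3
  · exact key X hX (by omega) (by omega)
  · exact key (M.E \ X) Finset.sdiff_subset (by omega) (by rw [M.lam_compl X hX]; omega)

/-- deletion of an element of a `3`-connected matroid with at least four elements stays
connected -/
lemma c3_del_of_conn3 {M : LM K α} (h : M.Conn3) (h4 : 4 ≤ M.E.card) {f : α} (hf : f ∈ M.E)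
    (hg : Good (M.del {f})) : C3 (M.del {f}) := by
  have hcard : (M.E \ {f}).card + 1 = M.E.card := by
    have := Finset.card_sdiff_add_card_eq_card (Finset.singleton_subset_iff.2 hf)
    rwa [Finset.card_singleton] at this
  have key : ∀ X ⊆ M.E \ {f}, 2 ≤ X.card → ((M.E \ {f}) \ X).Nonempty →
      1 ≤ (M.del {f}).lam X := by
    intro X hX h2 hne
    have hXE : X ⊆ M.E := hX.trans Finset.sdiff_subset
    have hfX : f ∉ X := fun h => by
      have := hX h
      simp at this
    have h1 := M.lam_del_single hXE hfX hf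
    have h3 : 2 ≤ (M.E \ X).card := by
      obtain ⟨c, hc⟩ := hne
      simp only [Finset.mem_sdiff, Finset.mem_singleton] at hc
      have h5 : ({f, c} : Finset α) ⊆ M.E \ X := by
        intro d hd
        simp only [Finset.mem_insert, Finset.mem_singleton] at hd
        rcases hd with rfl | rfl
        · exact Finset.mem_sdiff.2 ⟨hf, hfX⟩
        · exact Finset.mem_sdiff.2 ⟨hc.1.1, hc.2⟩
      have h6 := Finset.card_le_card h5
      rwa [Finset.card_pair (fun h => hc.1.2 h.symm)] at h6
    have h4 := h.2 X hXE h2 h3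
    omega
  refine ⟨fun X hX hne hne' => ?_, hg⟩
  rw [LM.del_E] at hX hne'
  by_cases h2 : 2 ≤ X.card
  · exact key X hX h2 hne'
  · have h5 := Finset.card_sdiff_add_card_eq_card hX
    have h6 := key ((M.E \ {f}) \ X) Finset.sdiff_subset (by omega)
      (by rw [Finset.sdiff_sdiff_eq_self hX]; exact hne)
    rwa [← M.del_E, (M.del {f}).lam_compl X hX] at h6

lemma c3_con_of_conn3 {M : LM K α} (h : M.Conn3) (h4 : 4 ≤ M.E.card) {f : α} (hf : f ∈ M.E)
    (hg : Good (M.con {f})) : C3 (M.con {f}) := by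
  have h1 := hg.dual
  rw [LM.dual_con] at h1
  have h2 := c3_del_of_conn3 h.dual h4 hf h1
  rw [← LM.dual_con] at h2
  have h3 := h2.dual
  rwa [LM.dual_dual] at h3

/-- `3`-connected matroids with at least four elements have no loops, coloops, parallel pairs,
series pairs -/
lemma conn3_no_loop {M : LM K α} (h : M.Conn3) (h4 : 2 ≤ M.E.card) {a : α} (ha : a ∈ M.E) :
    ∃ x ∈ M.D, x a ≠ 0 := by
  by_contra hcon
  push Not at hcon
  have hne : (M.E \ {a}).Nonempty := by
    rw [← Finset.card_pos]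
    have := Finset.card_sdiff_add_card_eq_card (Finset.singleton_subset_iff.2 ha)
    rw [Finset.card_singleton] at this
    omega
  have h1 := rk_singleton_pos h.1 ha hne
  have h2 : M.InCl ∅ a := fun x hx _ => hcon x hx
  rw [M.inCl_iff_rk, M.rk_empty] at h2
  have h3 : (insert a (∅ : Finset α)) = {a} := by simp
  rw [h3] at h2
  omega

lemma conn3_no_parallel {M : LM K α} (h : M.Conn3) (h4 : 4 ≤ M.E.card) {a b : α}
    (ha : a ∈ M.E) (hb : b ∈ M.E) (hab : a ≠ b) : ¬ M.InCl {b} a := by
  intro hp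
  have h1 : M.rk {a, b} = M.rk {b} := M.inCl_iff_rk.1 hp
  have h2 := M.rk_le_card {b}
  rw [Finset.card_singleton] at h2
  have hsub : ({a, b} : Finset α) ⊆ M.E := by
    intro c hc
    simp only [Finset.mem_insert, Finset.mem_singleton] at hc
    rcases hc with rfl | rfl
    · exact ha
    · exact hb
  have h3 := M.lam_add {a, b}
  have h5 := M.rk_le_E (M.E \ {a, b})
  have h6 := Finset.card_pair hab
  have h7 := Finset.card_sdiff_add_card_eq_card hsub
  have h8 := h.2 {a, b} hsub (by omega) (by omega)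
  omega

lemma conn3_no_series {M : LM K α} (h : M.Conn3) (h4 : 4 ≤ M.E.card) {a b : α}
    (ha : a ∈ M.E) (hb : b ∈ M.E) (hab : a ≠ b) : ¬ M.dual.InCl {b} a :=
  conn3_no_parallel h.dual h4 ha hb hab

lemma zmod2_cases (x : ZMod 2) : x = 0 ∨ x = 1 := by
  revert x; decide

/-- in a binary matroid: parallel / series pairs in terms of cocycles -/
lemma inCl_singleton_iff {M : BM α} {a b : α} (h : ∃ x ∈ M.D, x a ≠ 0) :
    M.InCl {b} a ↔ ∀ x ∈ M.D, x a = x b := by
  constructor
  · intro hp x hx
    have hp' : ∀ y ∈ M.D, y b = 0 → y a = 0 := by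
      intro y hy hyb
      refine hp y hy fun c hc => ?_
      rw [Finset.mem_singleton] at hc
      rw [hc]
      exact hyb
    rcases zmod2_cases (x b) with hb | hb
    · rw [hb]
      exact hp' x hx hb
    · obtain ⟨x0, hx0, hx0a⟩ := h
      have h1 : x0 a = 1 := (zmod2_cases _).resolve_left hx0a
      have h2 : x0 b = 1 := by
        refine (zmod2_cases _).resolve_left fun h' => hx0a (hp' x0 hx0 h')
      have h3 := hp' (x + x0) (M.D.add_mem hx hx0) (by
        rw [Pi.add_apply, hb, h2]; decide)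
      rw [Pi.add_apply, h1] at h3
      rw [hb]
      rcases zmod2_cases (x a) with h4 | h4
      · rw [h4] at h3
        exact absurd h3 (by decide)
      · exact h4
  · intro hp x hx h0
    rw [hp x hx]
    exact h0 b (Finset.mem_singleton_self b)

lemma series_iff {M : BM α} {a b : α} (ha : a ∈ M.E) (hb : b ∈ M.E) (hab : a ≠ b)
    (h : ∃ x ∈ M.dual.D, x a ≠ 0) :
    M.dual.InCl {b} a ↔ (fun c => if c = a ∨ c = b then (1 : ZMod 2) else 0) ∈ M.D := by
  rw [inCl_singleton_iff h]
  have h1 : (fun c => if c = a ∨ c = b then (1 : ZMod 2) else 0) ∈ M.D ↔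
      (fun c => if c = a ∨ c = b then (1 : ZMod 2) else 0) ∈ M.dual.dual.D := by
    rw [LM.dual_dual]
  rw [h1, LM.mem_dual, LM.dual_E]
  have hsum : ∀ x : α → ZMod 2,
      ∑ c ∈ M.E, x c * (if c = a ∨ c = b then (1 : ZMod 2) else 0) = x a + x b := by
    intro x
    have hsub : ({a, b} : Finset α) ⊆ M.E := by
      intro c hc
      simp only [Finset.mem_insert, Finset.mem_singleton] at hc
      rcases hc with rfl | rfl
      · exact ha
      · exact hb
    rw [← Finset.sum_subset hsub]
    · rw [Finset.sum_pair hab]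
      simp
    · intro c _ hc
      simp only [Finset.mem_insert, Finset.mem_singleton] at hc
      simp [hc]
  constructor
  · intro hx
    refine ⟨fun c hc => ?_, fun x hx' => ?_⟩
    · have h2 : ¬ (c = a ∨ c = b) := by
        rintro (rfl | rfl)
        · exact hc ha
        · exact hc hb
      simp [h2]
    · rw [hsum, hx x hx']
      exact CharTwo.add_self_eq_zero _
  · rintro ⟨-, h2⟩ x hx
    have h3 := h2 x hx
    rw [hsum] at h3
    exact CharTwo.add_eq_zero.1 h3

end Pool.Agent.H87.Sey
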