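import Pool.Agent.H87.Sey.Parts
import Pool.Agent.H87.Sey.GraphBasic

/-!
# Graphic matroids are closed under 3-sums (Seymour project, MP_dbe88a_co, job S87-5)
-/

set_option autoImplicit false

namespace Pool.Agent.H87.Sey

open Pool.Agent.H63.Sey

universe u

variable {α : Type u} [DecidableEq α]

/-- parity of the six ends of three edges: the edges form a triangle -/
lemma tri_aux {V : Type*} [DecidableEq V] (a0 b0 a1 b1 a2 b2 : V) (h0 : a0 ≠ b0) (h1 : a1 ≠ b1)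
    (h2 : a2 ≠ b2)
    (h : ∀ v : V, ((if a0 = v then (1 : ZMod 2) else 0) + (if b0 = v then 1 else 0)) +
      ((if a1 = v then 1 else 0) + (if b1 = v then 1 else 0)) +
      ((if a2 = v then 1 else 0) + (if b2 = v then 1 else 0)) = 0) :
    ∃ p0 p1 p2 : V, p0 ≠ p1 ∧ p0 ≠ p2 ∧ p1 ≠ p2 ∧
      (a0 = p1 ∧ b0 = p2 ∨ a0 = p2 ∧ b0 = p1) ∧
      (a1 = p0 ∧ b1 = p2 ∨ a1 = p2 ∧ b1 = p0) ∧
      (a2 = p0 ∧ b2 = p1 ∨ a2 = p1 ∧ b2 = p0) := by
  have par : ∀ v : V, ((a0 = v ∨ b0 = v) ∧ (a1 = v ∨ b1 = v) ∧ ¬ (a2 = v ∨ b2 = v)) ∨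
      ((a0 = v ∨ b0 = v) ∧ ¬ (a1 = v ∨ b1 = v) ∧ (a2 = v ∨ b2 = v)) ∨
      (¬ (a0 = v ∨ b0 = v) ∧ (a1 = v ∨ b1 = v) ∧ (a2 = v ∨ b2 = v)) ∨
      (¬ (a0 = v ∨ b0 = v) ∧ ¬ (a1 = v ∨ b1 = v) ∧ ¬ (a2 = v ∨ b2 = v)) := by
    intro v
    have two : ∀ x y : V, x ≠ y → ((if x = v then (1 : ZMod 2) else 0) + (if y = v then 1 else 0)) =
        if (x = v ∨ y = v) then 1 else 0 := by
      intro x y hxy
      by_cases hx : x = v
      · have hy : y ≠ v := fun h' => hxy (hx.trans h'.symm)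
        simp [hx, hy]
      · simp [hx]
    have h3 := h v
    rw [two _ _ h0, two _ _ h1, two _ _ h2] at h3
    by_cases q0 : (a0 = v ∨ b0 = v) <;> by_cases q1 : (a1 = v ∨ b1 = v) <;>
      by_cases q2 : (a2 = v ∨ b2 = v)
    · exfalso
      rw [if_pos q0, if_pos q1, if_pos q2] at h3
      exact absurd h3 (by decide)
    · exact Or.inl ⟨q0, q1, q2⟩
    · exact Or.inr (Or.inl ⟨q0, q1, q2⟩)
    · exfalso
      rw [if_pos q0, if_neg q1, if_neg q2] at h3
      exact absurd h3 (by decide)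
    · exact Or.inr (Or.inr (Or.inl ⟨q0, q1, q2⟩))
    · exfalso
      rw [if_neg q0, if_pos q1, if_neg q2] at h3
      exact absurd h3 (by decide)
    · exfalso
      rw [if_neg q0, if_neg q1, if_pos q2] at h3
      exact absurd h3 (by decide)
    · exact Or.inr (Or.inr (Or.inr ⟨q0, q1, q2⟩))
  have d0 := par a0
  have d1 := par b0
  have d2 := par a1
  have d3 := par b1
  have d4 := par a2
  have d5 := par b2
  clear h par
  by_cases e1 : a1 = a0
  · exact ⟨b1, b0, a0, by grind⟩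
  by_cases e2 : b1 = a0
  · exact ⟨a1, b0, a0, by grind⟩
  by_cases e3 : a1 = b0
  · exact ⟨b1, a0, b0, by grind⟩
  · exact ⟨a1, a0, b0, by grind⟩

/-- the three edges of a triangle of a graph -/
lemma tri_vertices {n : ℕ} {E : Finset α} {f g : α → Fin n} {z : Fin 3 → α} (hz : ∀ i, z i ∈ E)
    (h0 : ∀ i, f (z i) ≠ g (z i))
    (ht : ∀ x ∈ (cyc E f g).D, x (z 0) + x (z 1) + x (z 2) = 0) :
    ∃ p : Fin 3 → Fin n, Function.Injective p ∧
      (f (z 0) = p 1 ∧ g (z 0) = p 2 ∨ f (z 0) = p 2 ∧ g (z 0) = p 1) ∧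
      (f (z 1) = p 0 ∧ g (z 1) = p 2 ∨ f (z 1) = p 2 ∧ g (z 1) = p 0) ∧
      (f (z 2) = p 0 ∧ g (z 2) = p 1 ∨ f (z 2) = p 1 ∧ g (z 2) = p 0) := by
  obtain ⟨p0, p1, p2, h01, h02, h12, h3, h4, h5⟩ := tri_aux (f (z 0)) (g (z 0)) (f (z 1)) (g (z 1))
    (f (z 2)) (g (z 2)) (h0 0) (h0 1) (h0 2) (by
      intro v
      have h1 := ht _ ⟨fun w => if w = v then (1 : ZMod 2) else 0, rfl⟩
      simpa [hz] using h1)
  refine ⟨![p0, p1, p2], ?_, h3, h4, h5⟩
  intro i j hij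
  fin_cases i <;> fin_cases j <;> simp_all

/-- the common core of the two gluing theorems -/
lemma glue_core {M : BM α} {n n' : ℕ} {A B : Finset α} (f g : α → Fin n) (f' g' : α → Fin n')
    (p : Fin 3 → Fin n) (p' : Fin 3 → Fin n') (hp' : Function.Injective p')
    (hE : ∀ a, a ∈ M.E ↔ a ∈ A ∨ a ∈ B) (hAB : ∀ a ∈ A, a ∉ B)
    (h : ∀ x : α → ZMod 2, x ∈ M.D ↔ (∀ a, a ∉ M.E → x a = 0) ∧
      ∃ φ : Fin n → ZMod 2, ∃ ψ : Fin n' → ZMod 2,
      (∀ a ∈ A, x a = φ (f a) + φ (g a)) ∧ (∀ a ∈ B, x a = ψ (f' a) + ψ (g' a)) ∧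
      ∀ i j, φ (p i) + φ (p j) = ψ (p' i) + ψ (p' j)) : Graphic M := by
  classical
  let red : Fin n' → Fin n ⊕ Fin n' := fun v =>
    if h : ∃ i, p' i = v then Sum.inl (p h.choose) else Sum.inr v
  have red_p : ∀ i, red (p' i) = Sum.inl (p i) := by
    intro i
    have h : ∃ j, p' j = p' i := ⟨i, rfl⟩
    simp only [red, dif_pos h]
    rw [hp' h.choose_spec]
  have red_n : ∀ v, (¬ ∃ i, p' i = v) → red v = Sum.inr v := by
    intro v hv
    simp only [red, dif_neg hv]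
  refine graphic_of_fintype (V := Fin n ⊕ Fin n')
    (f := fun a => if a ∈ A then Sum.inl (f a) else red (f' a))
    (g := fun a => if a ∈ A then Sum.inl (g a) else red (g' a)) ?_
  intro x
  rw [h]
  constructor
  · rintro ⟨h0, φ, ψ, h1, h2, h3⟩
    have h4 : ∀ i, φ (p i) = ψ (p' i) + (φ (p 0) + ψ (p' 0)) := by
      intro i
      have e : φ (p i) = (φ (p i) + φ (p 0)) + φ (p 0) := by
        rw [add_assoc, CharTwo.add_self_eq_zero, add_zero]
      rw [e, h3 i 0]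
      ring
    have h5 : ∀ v, Sum.elim φ (fun v => ψ v + (φ (p 0) + ψ (p' 0))) (red v) =
        ψ v + (φ (p 0) + ψ (p' 0)) := by
      intro v
      by_cases hv : ∃ i, p' i = v
      · obtain ⟨i, rfl⟩ := hv
        rw [red_p, Sum.elim_inl, h4 i]
      · rw [red_n v hv, Sum.elim_inr]
    refine ⟨Sum.elim φ (fun v => ψ v + (φ (p 0) + ψ (p' 0))), fun a => ?_⟩
    by_cases ha : a ∈ M.E
    · rw [if_pos ha]
      by_cases hA : a ∈ A
      · simp only [if_pos hA, Sum.elim_inl]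
        exact h1 a hA
      · have hB : a ∈ B := ((hE a).1 ha).resolve_left hA
        simp only [if_neg hA, h5]
        rw [h2 a hB, add_add_add_comm, CharTwo.add_self_eq_zero, add_zero]
    · rw [if_neg ha]
      exact h0 a ha
  · rintro ⟨Φ, hΦ⟩
    refine ⟨fun a ha => by rw [hΦ a, if_neg ha], fun v => Φ (Sum.inl v), fun v => Φ (red v),
      ?_, ?_, ?_⟩
    · intro a ha
      rw [hΦ a, if_pos ((hE a).2 (Or.inl ha)), if_pos ha, if_pos ha]
    · intro a ha
      have hA : a ∉ A := fun h' => hAB a h' ha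
      rw [hΦ a, if_pos ((hE a).2 (Or.inr ha)), if_neg hA, if_neg hA]
    · intro i j
      simp only [red_p]

/-- `p` are the vertices of the triangle `z` -/
def TriV {n : ℕ} (f g : α → Fin n) (z : Fin 3 → α) (p : Fin 3 → Fin n) : Prop :=
  (f (z 0) = p 1 ∧ g (z 0) = p 2 ∨ f (z 0) = p 2 ∧ g (z 0) = p 1) ∧
  (f (z 1) = p 0 ∧ g (z 1) = p 2 ∨ f (z 1) = p 2 ∧ g (z 1) = p 0) ∧
  (f (z 2) = p 0 ∧ g (z 2) = p 1 ∨ f (z 2) = p 1 ∧ g (z 2) = p 0)

omit [DecidableEq α] in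
lemma TriV.pot {n : ℕ} {f g : α → Fin n} {z : Fin 3 → α} {p : Fin 3 → Fin n} (h : TriV f g z p)
    (φ : Fin n → ZMod 2) : φ (f (z 0)) + φ (g (z 0)) = φ (p 1) + φ (p 2) ∧
      φ (f (z 1)) + φ (g (z 1)) = φ (p 0) + φ (p 2) ∧
      φ (f (z 2)) + φ (g (z 2)) = φ (p 0) + φ (p 1) := by
  obtain ⟨h0, h1, h2⟩ := h
  refine ⟨?_, ?_, ?_⟩
  · rcases h0 with ⟨e, e'⟩ | ⟨e, e'⟩
    · rw [e, e']
    · rw [e, e', add_comm]
  · rcases h1 with ⟨e, e'⟩ | ⟨e, e'⟩
    · rw [e, e']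
    · rw [e, e', add_comm]
  · rcases h2 with ⟨e, e'⟩ | ⟨e, e'⟩
    · rw [e, e']
    · rw [e, e', add_comm]

omit [DecidableEq α] in
lemma tri_compat {n n' : ℕ} {f g : α → Fin n} {f' g' : α → Fin n'} {z z' : Fin 3 → α}
    {p : Fin 3 → Fin n} {p' : Fin 3 → Fin n'} (hp : TriV f g z p) (hp' : TriV f' g' z' p')
    (φ : Fin n → ZMod 2) (ψ : Fin n' → ZMod 2) :
    (∀ i, φ (f (z i)) + φ (g (z i)) = ψ (f' (z' i)) + ψ (g' (z' i))) ↔
      ∀ i j, φ (p i) + φ (p j) = ψ (p' i) + ψ (p' j) := by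
  obtain ⟨h0, h1, h2⟩ := hp.pot φ
  obtain ⟨h0', h1', h2'⟩ := hp'.pot ψ
  constructor
  · intro h i j
    have e0 := h 0
    have e1 := h 1
    have e2 := h 2
    rw [h0, h0'] at e0
    rw [h1, h1'] at e1
    rw [h2, h2'] at e2
    fin_cases i <;> fin_cases j
    · simp only [CharTwo.add_self_eq_zero]
    · exact e2
    · exact e1
    · exact (add_comm _ _).trans (e2.trans (add_comm _ _))
    · simp only [CharTwo.add_self_eq_zero]
    · exact e0
    · exact (add_comm _ _).trans (e1.trans (add_comm _ _))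
    · exact (add_comm _ _).trans (e0.trans (add_comm _ _))
    · simp only [CharTwo.add_self_eq_zero]
  · intro h i
    fin_cases i
    · simp only [Fin.zero_eta, h0, h0']
      exact h 1 2
    · simp only [Fin.mk_one, h1, h1']
      exact h 0 2
    · simp only [Fin.reduceFinMk, h2, h2']
      exact h 0 1

/-- the vector of a part given by a cocycle -/
lemma IsPart.exists_ext {k : ℕ} {M P : BM α} {A : Finset α} {z : Fin k → α}
    {R : Fin k → Finset α} (hP : IsPart M P A z R) {y : α → ZMod 2} (hy : y ∈ M.D) :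
    ∃ w ∈ P.D, (∀ a ∈ A, w a = y a) ∧ ∀ i, w (z i) = ∑ a ∈ R i, y a := by
  classical
  let w : α → ZMod 2 := fun a => if a ∈ A then y a else
    if h : ∃ i, z i = a then ∑ b ∈ R h.choose, y b else 0
  have h1 : ∀ a ∈ A, w a = y a := fun a ha => by simp only [w, if_pos ha]
  have h2 : ∀ i, w (z i) = ∑ a ∈ R i, y a := by
    intro i
    have h : ∃ j, z j = z i := ⟨i, rfl⟩
    simp only [w, if_neg (hP.z_nmem i), dif_pos h]
    rw [hP.inj h.choose_spec]
  refine ⟨w, (hP.mem w).2 ⟨?_, y, hy, h1, h2⟩, h1, h2⟩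
  intro a ha
  rw [hP.E_eq, Finset.mem_union, not_or] at ha
  have h3 : ¬ ∃ i, z i = a := by
    rintro ⟨i, rfl⟩
    exact ha.2 (Finset.mem_image_of_mem z (Finset.mem_univ i))
  simp only [w, if_neg ha.1, dif_neg h3]

/-- the triangle of a part -/
lemma part_tri {M P : BM α} {A : Finset α} {z : Fin 3 → α}
    {R : Fin 3 → Finset α} (hP : IsPart M P A z R) (hnz : ∀ i, ∃ y ∈ M.D, ∑ a ∈ R i, y a ≠ 0)
    (ht : Tri M R) {n : ℕ} {f g : α → Fin n} (hfg : P = cyc P.E f g) :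
    ∃ p : Fin 3 → Fin n, Function.Injective p ∧ TriV f g z p := by
  have hz : ∀ i, z i ∈ P.E := by
    intro i
    rw [hP.E_eq]
    exact Finset.mem_union_right _ (Finset.mem_image_of_mem z (Finset.mem_univ i))
  have hD : ∀ w ∈ P.D, ∃ φ : Fin n → ZMod 2, ∀ a ∈ P.E, w a = φ (f a) + φ (g a) := by
    intro w hw
    rw [hfg] at hw
    obtain ⟨φ, h⟩ := mem_cyc.1 hw
    exact ⟨φ, fun a ha => by rw [h a, if_pos ha]⟩
  refine tri_vertices (E := P.E) hz ?_ ?_
  · intro i hi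
    obtain ⟨y, hy, hy'⟩ := hnz i
    obtain ⟨w, hw, h1, h2⟩ := hP.exists_ext hy
    obtain ⟨φ, h⟩ := hD w hw
    apply hy'
    rw [← h2 i, h _ (hz i), hi, CharTwo.add_self_eq_zero]
  · intro x hx
    rw [← hfg] at hx
    obtain ⟨_, y, hy, h1, h2⟩ := (hP.mem x).1 hx
    rw [h2, h2, h2]
    exact ht y hy

/-- `3`-sum: identify the two triangles (vertex set `V₁ ⊕ V₂`, the edges of the second graph are
redirected from the vertices `p' i` of its triangle to the vertices `p i` of the first; if the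
potentials `φ`, `φ'` of the two graphs have the same differences on the triangles, add a constant
to `φ'` such that `φ' (p' i) = φ (p i)`). Use `Guts.mem_iff`. -/
theorem glue3 {M P Q : BM α} {A : Finset α} (hA : A ⊆ M.E) {R S : Fin 3 → Finset α}
    (h : Guts M A R S) (ht : Tri M R) {z z' : Fin 3 → α} (hP : IsPart M P A z R)
    (hQ : IsPart M Q (M.E \ A) z' S) (h1 : Graphic P) (h2 : Graphic Q) : Graphic M := by
  obtain ⟨n, f, g, hfg⟩ := h1
  obtain ⟨n', f', g', hfg'⟩ := h2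
  have hnz' : ∀ i, ∃ y ∈ M.D, ∑ a ∈ S i, y a ≠ 0 := by
    intro i
    obtain ⟨y, hy, hy'⟩ := h.nz i
    exact ⟨y, hy, by rw [← h.eq i y hy]; exact hy'⟩
  have ht' : Tri M S := by
    intro y hy
    rw [← h.eq 0 y hy, ← h.eq 1 y hy, ← h.eq 2 y hy]
    exact ht y hy
  obtain ⟨p, hp, hpt⟩ := part_tri hP h.nz ht hfg
  obtain ⟨p', hp', hpt'⟩ := part_tri hQ hnz' ht' hfg'
  have hz : ∀ i, z i ∈ P.E := by
    intro i
    rw [hP.E_eq]
    exact Finset.mem_union_right _ (Finset.mem_image_of_mem z (Finset.mem_univ i))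
  have hz' : ∀ i, z' i ∈ Q.E := by
    intro i
    rw [hQ.E_eq]
    exact Finset.mem_union_right _ (Finset.mem_image_of_mem z' (Finset.mem_univ i))
  have hAP : ∀ a ∈ A, a ∈ P.E := by
    intro a ha
    rw [hP.E_eq]
    exact Finset.mem_union_left _ ha
  have hBQ : ∀ a ∈ M.E \ A, a ∈ Q.E := by
    intro a ha
    rw [hQ.E_eq]
    exact Finset.mem_union_left _ ha
  refine glue_core (A := A) (B := M.E \ A) f g f' g' p p' hp' ?_ ?_ ?_
  · intro a
    rw [Finset.mem_sdiff]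
    constructor
    · intro ha
      by_cases h' : a ∈ A
      · exact Or.inl h'
      · exact Or.inr ⟨ha, h'⟩
    · rintro (ha | ha)
      · exact hA ha
      · exact ha.1
  · intro a ha h'
    exact (Finset.mem_sdiff.1 h').2 ha
  intro x
  constructor
  · intro hx
    refine ⟨fun a ha => M.supp x hx a ha, ?_⟩
    obtain ⟨w, hw, w1, w2⟩ := hP.exists_ext hx
    obtain ⟨w', hw', w1', w2'⟩ := hQ.exists_ext hx
    rw [hfg] at hw
    rw [hfg'] at hw'
    obtain ⟨φ, hφ⟩ := mem_cyc.1 hw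
    obtain ⟨ψ, hψ⟩ := mem_cyc.1 hw'
    refine ⟨φ, ψ, ?_, ?_, ?_⟩
    · intro a ha
      rw [← w1 a ha, hφ a, if_pos (hAP a ha)]
    · intro a ha
      rw [← w1' a ha, hψ a, if_pos (hBQ a ha)]
    · rw [← tri_compat hpt hpt']
      intro i
      have e1 := hφ (z i)
      rw [if_pos (hz i)] at e1
      have e2 := hψ (z' i)
      rw [if_pos (hz' i)] at e2
      rw [← e1, ← e2, w2, w2']
      exact h.eq i x hx
  · rintro ⟨h0, φ, ψ, h1, h2, h3⟩
    rw [← tri_compat hpt hpt'] at h3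
    have hw : (fun a => if a ∈ P.E then φ (f a) + φ (g a) else 0) ∈ P.D := by
      rw [hfg]
      exact mem_cyc.2 ⟨φ, fun a => rfl⟩
    have hw' : (fun a => if a ∈ Q.E then ψ (f' a) + ψ (g' a) else 0) ∈ Q.D := by
      rw [hfg']
      exact mem_cyc.2 ⟨ψ, fun a => rfl⟩
    obtain ⟨_, y, hy, y1, y2⟩ := (hP.mem _).1 hw
    obtain ⟨_, y', hy', y1', y2'⟩ := (hQ.mem _).1 hw'
    have e1 : ∀ a ∈ A, x a = y a := by
      intro a ha
      rw [← y1 a ha, h1 a ha, if_pos (hAP a ha)]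
    have e2 : ∀ a ∈ M.E \ A, x a = y' a := by
      intro a ha
      rw [← y1' a ha, h2 a ha, if_pos (hBQ a ha)]
    refine (h.mem_iff hA x).2 ⟨h0, ⟨y, hy, e1⟩, ⟨y', hy', e2⟩, ?_⟩
    intro i
    rw [Finset.sum_congr rfl (fun a ha => e1 a (h.R_sub i ha)),
      Finset.sum_congr rfl (fun a ha => e2 a (h.S_sub i ha)), ← y2 i, ← y2' i, if_pos (hz i),
      if_pos (hz' i)]
    exact h3 i

/-- `3`-sum keeping the triangle: `z 0, z 1, z 2 ∈ M.E` is a triangle, the rest of `M.E` splits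
into `A` and `B` such that a vector is a cocycle iff its restrictions to `A ∪ {z i}` and to
`B ∪ {z i}` are restrictions of cocycles. Same construction as `glue3`. -/
theorem glue3_keep {M : BM α} {A B : Finset α} {z : Fin 3 → α} (hz : Function.Injective z)
    (hzA : ∀ i, z i ∉ A) (hzB : ∀ i, z i ∉ B) (hAB : Disjoint A B)
    (hE : M.E = A ∪ B ∪ Finset.univ.image z)
    (ht : ∀ x ∈ M.D, x (z 0) + x (z 1) + x (z 2) = 0) (hnz : ∀ i, ∃ x ∈ M.D, x (z i) ≠ 0)
    (hmem : ∀ y : α → ZMod 2, (∀ a, a ∉ M.E → y a = 0) →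
      (∃ x ∈ M.D, ∀ a, a ∉ B → y a = x a) → (∃ x ∈ M.D, ∀ a, a ∉ A → y a = x a) → y ∈ M.D)
    (h1 : Graphic (M.del B)) (h2 : Graphic (M.del A)) : Graphic M := by
  obtain ⟨n, f, g, hfg⟩ := h1
  obtain ⟨n', f', g', hfg'⟩ := h2
  have hzE : ∀ i, z i ∈ M.E := by
    intro i
    rw [hE]
    exact Finset.mem_union_right _ (Finset.mem_image_of_mem z (Finset.mem_univ i))
  -- vectors of the deletions
  have key : ∀ (C : Finset α) (m : ℕ) (u v : α → Fin m), M.del C = cyc (M.del C).E u v →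
      (∀ x ∈ M.D, ∃ φ : Fin m → ZMod 2, ∀ a ∈ M.E, a ∉ C → x a = φ (u a) + φ (v a)) ∧
      (∀ φ : Fin m → ZMod 2, ∃ x ∈ M.D, ∀ a ∈ M.E, a ∉ C → x a = φ (u a) + φ (v a)) := by
    intro C m u v huv
    constructor
    · intro x hx
      have hx' : res (ZMod 2) (M.E \ C) x ∈ (M.del C).D := ⟨x, hx, rfl⟩
      rw [huv] at hx'
      obtain ⟨φ, h⟩ := mem_cyc.1 hx'
      refine ⟨φ, fun a ha haC => ?_⟩
      have h' := h a
      have ha' : a ∈ M.E \ C := Finset.mem_sdiff.2 ⟨ha, haC⟩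
      have ha'' : a ∈ (M.del C).E := ha'
      rw [if_pos ha'', res_apply, if_pos ha'] at h'
      exact h'
    · intro φ
      have hw : (fun a => if a ∈ (M.del C).E then φ (u a) + φ (v a) else 0) ∈ (M.del C).D := by
        rw [huv]
        exact mem_cyc.2 ⟨φ, fun a => rfl⟩
      obtain ⟨x, hx, hxw⟩ := hw
      refine ⟨x, hx, fun a ha haC => ?_⟩
      have h' := congrFun hxw a
      have ha' : a ∈ M.E \ C := Finset.mem_sdiff.2 ⟨ha, haC⟩
      have ha'' : a ∈ (M.del C).E := ha'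
      simp only [res_apply] at h'
      rw [if_pos ha', if_pos ha''] at h'
      exact h'
  obtain ⟨k1, k2⟩ := key B n f g hfg
  obtain ⟨k1', k2'⟩ := key A n' f' g' hfg'
  have tri : ∀ (C : Finset α) (hzC : ∀ i, z i ∉ C) (m : ℕ) (u v : α → Fin m)
      (huv : M.del C = cyc (M.del C).E u v), ∃ p : Fin 3 → Fin m, Function.Injective p ∧
        TriV u v z p := by
    intro C hzC m u v huv
    obtain ⟨l1, l2⟩ := key C m u v huv
    refine tri_vertices (E := (M.del C).E) (fun i => Finset.mem_sdiff.2 ⟨hzE i, hzC i⟩) ?_ ?_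
    · intro i hi
      obtain ⟨x, hx, hx'⟩ := hnz i
      obtain ⟨φ, h⟩ := l1 x hx
      apply hx'
      rw [h _ (hzE i) (hzC i), hi, CharTwo.add_self_eq_zero]
    · intro x hx
      rw [← huv] at hx
      obtain ⟨y, hy, rfl⟩ := hx
      have e : ∀ i, z i ∈ M.E \ C := fun i => Finset.mem_sdiff.2 ⟨hzE i, hzC i⟩
      simp only [res_apply, if_pos (e 0), if_pos (e 1), if_pos (e 2)]
      exact ht y hy
  obtain ⟨p, hp, hpt⟩ := tri B hzB n f g hfg
  obtain ⟨p', hp', hpt'⟩ := tri A hzA n' f' g' hfg'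
  refine glue_core (A := A ∪ Finset.univ.image z) (B := B) f g f' g' p p' hp' ?_ ?_ ?_
  · intro a
    rw [hE]
    simp only [Finset.mem_union]
    tauto
  · intro a ha hB
    rcases Finset.mem_union.1 ha with ha | ha
    · exact Finset.disjoint_left.1 hAB ha hB
    · obtain ⟨i, -, rfl⟩ := Finset.mem_image.1 ha
      exact hzB i hB
  intro x
  constructor
  · intro hx
    refine ⟨fun a ha => M.supp x hx a ha, ?_⟩
    obtain ⟨φ, hφ⟩ := k1 x hx
    obtain ⟨ψ, hψ⟩ := k1' x hx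
    refine ⟨φ, ψ, ?_, ?_, ?_⟩
    · intro a ha
      rcases Finset.mem_union.1 ha with ha | ha
      · exact hφ a (by rw [hE]; simp [ha]) (Finset.disjoint_left.1 hAB ha)
      · obtain ⟨i, -, rfl⟩ := Finset.mem_image.1 ha
        exact hφ _ (hzE i) (hzB i)
    · intro a ha
      exact hψ a (by rw [hE]; simp [ha]) (Finset.disjoint_right.1 hAB ha)
    · rw [← tri_compat hpt hpt']
      intro i
      rw [← hφ _ (hzE i) (hzB i), ← hψ _ (hzE i) (hzA i)]
  · rintro ⟨h0, φ, ψ, h1, h2, h3⟩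
    rw [← tri_compat hpt hpt'] at h3
    obtain ⟨y, hy, y1⟩ := k2 φ
    obtain ⟨y', hy', y1'⟩ := k2' ψ
    refine hmem x h0 ⟨y, hy, ?_⟩ ⟨y', hy', ?_⟩
    · intro a ha
      by_cases haE : a ∈ M.E
      · rw [y1 a haE ha]
        apply h1
        rw [hE] at haE
        simp only [Finset.mem_union] at haE ⊢
        tauto
      · rw [h0 a haE, M.supp y hy a haE]
    · intro a ha
      by_cases haE : a ∈ M.E
      · rw [y1' a haE ha]
        have haE' := haE
        rw [hE] at haE'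
        simp only [Finset.mem_union] at haE'
        rcases haE' with (h' | h') | h'
        · exact absurd h' ha
        · exact h2 a h'
        · obtain ⟨i, -, rfl⟩ := Finset.mem_image.1 h'
          rw [h1 _ (Finset.mem_union_right _ h'), h3 i]
      · rw [h0 a haE, M.supp y' hy' a haE]

end Pool.Agent.H87.Sey
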