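import Pool.Agent.H87.Sey.Parts2
import Pool.Agent.H87.Sey.Glue3
import Pool.Agent.H87.Sey.Stars

/-!
# Graphic parts (Seymour project, MP_dbe88a_co, job S87-9)
-/

set_option autoImplicit false

namespace Pool.Agent.H87.Sey

open Pool.Agent.H63.Sey

universe u

variable {α : Type u} [DecidableEq α]

/-- the part of `M` on `A` (for a `3`-separation) is graphic -/
def GP (M : BM α) (A : Finset α) : Prop :=
  ∃ (R S : Fin 3 → Finset α) (z : Fin 3 → α) (P : BM α),
    Guts M A R S ∧ Tri M R ∧ IsPart M P A z R ∧ Graphic P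

/-- the element of `α` at which the graph of the given part is read off -/
lemma gp_relabel {A : Finset α} {z z' : Fin 3 → α} (hz : Function.Injective z)
    (hzA : ∀ i, z i ∉ A) (σ : Equiv.Perm (Fin 3)) : ∃ u : α → α, (∀ a ∈ A, u a = a) ∧
      ∀ i, u (z i) = z' (σ i) := by
  classical
  refine ⟨fun a => if h : ∃ i, z i = a then z' (σ h.choose) else a, ?_, ?_⟩
  · intro a ha
    have h : ¬ ∃ i, z i = a := by
      rintro ⟨i, rfl⟩
      exact hzA i ha
    simp only [dif_neg h]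
  · intro i
    have h : ∃ j, z j = z i := ⟨i, rfl⟩
    simp only [dif_pos h]
    rw [hz h.choose_spec]

/-- the choice of the guts and of the labels does not matter (use `guts3_perm`; the graph of `P`
is the graph of the given part with the three extra edges relabelled) -/
theorem GP.graphic {M P : BM α} {A : Finset α} (hG : GP M A) {R S : Fin 3 → Finset α}
    {z : Fin 3 → α} (h : Guts M A R S) (ht : Tri M R) (hP : IsPart M P A z R) : Graphic P := by
  obtain ⟨R', S', z', P', h', ht', hP', hg⟩ := hG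
  obtain ⟨σ, hσ⟩ := guts3_perm h' ht' h ht
  obtain ⟨n, f, g, hfg⟩ := graphic_exists_mem hg
  obtain ⟨u, hu1, hu2⟩ := gp_relabel (z' := z') hP.inj hP.z_nmem σ
  have hE : ∀ a, a ∈ P.E ↔ a ∈ A ∨ ∃ i, z i = a := by
    intro a
    rw [hP.E_eq, Finset.mem_union, Finset.mem_image]
    simp
  have hE' : ∀ a, a ∈ P'.E ↔ a ∈ A ∨ ∃ i, z' i = a := by
    intro a
    rw [hP'.E_eq, Finset.mem_union, Finset.mem_image]
    simp
  refine graphic_of_fintype (V := Fin n) (f := fun a => f (u a)) (g := fun a => g (u a))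
    fun x => ⟨fun hx => ?_, ?_⟩
  · obtain ⟨h0, y, hy, h1, h2⟩ := (hP.mem x).1 hx
    obtain ⟨w, hw, w1, w2⟩ := hP'.exists_ext hy
    obtain ⟨φ, hφ⟩ := (hfg w).1 hw
    refine ⟨φ, fun a => ?_⟩
    by_cases ha : a ∈ P.E
    · rw [if_pos ha]
      rcases (hE a).1 ha with ha' | ⟨i, rfl⟩
      · rw [hu1 a ha', h1 a ha', ← w1 a ha', hφ a, if_pos ((hE' a).2 (Or.inl ha'))]
      · rw [hu2 i, h2 i, hσ i y hy, ← w2 (σ i), hφ (z' (σ i)),
          if_pos ((hE' _).2 (Or.inr ⟨σ i, rfl⟩))]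
    · rw [if_neg ha, h0 a ha]
  · rintro ⟨φ, hφ⟩
    have hw : (fun a => if a ∈ P'.E then φ (f a) + φ (g a) else 0) ∈ P'.D :=
      (hfg _).2 ⟨φ, fun a => rfl⟩
    obtain ⟨_, y, hy, w1, w2⟩ := (hP'.mem _).1 hw
    refine (hP.mem x).2 ⟨fun a ha => by rw [hφ a, if_neg ha], y, hy, fun a ha => ?_, fun i => ?_⟩
    · rw [hφ a, if_pos ((hE a).2 (Or.inl ha)), hu1 a ha, ← w1 a ha,
        if_pos ((hE' a).2 (Or.inl ha))]
    · rw [hφ (z i), if_pos ((hE _).2 (Or.inr ⟨i, rfl⟩)), hu2 i, hσ i y hy, ← w2 (σ i),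
        if_pos ((hE' _).2 (Or.inr ⟨σ i, rfl⟩))]

lemma gp_labels {B : Finset α} (h : 3 ≤ B.card) :
    ∃ z : Fin 3 → α, Function.Injective z ∧ ∀ i, z i ∈ B := by
  obtain ⟨t, ht, hc⟩ := Finset.exists_subset_card_eq h
  let e := (Finset.equivFinOfCardEq hc).symm
  exact ⟨fun i => (e i).1, fun i j hij => e.injective (Subtype.ext hij), fun i => ht (e i).2⟩

/-- `3`-sum: labels for the parts exist because both sides have at least three elements -/
theorem graphic_of_GP {M : BM α} {A : Finset α} (hA : A ⊆ M.E) (hl : M.lam A = 2)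
    (h3 : 3 ≤ A.card) (h3' : 3 ≤ (M.E \ A).card) (h1 : GP M A) (h2 : GP M (M.E \ A)) :
    Graphic M := by
  obtain ⟨R, S, hG, hT⟩ := exists_guts3 M hA hl
  obtain ⟨z, hz, hzB⟩ := gp_labels h3'
  obtain ⟨z', hz', hzA⟩ := gp_labels h3
  have hzn : ∀ i, z i ∉ A := fun i => (Finset.mem_sdiff.1 (hzB i)).2
  have hzn' : ∀ i, z' i ∉ M.E \ A := fun i hi => (Finset.mem_sdiff.1 hi).2 (hzA i)
  obtain ⟨P, hP⟩ := exists_isPart M A R hz hzn
  obtain ⟨Q, hQ⟩ := exists_isPart M (M.E \ A) S hz' hzn'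
  have hT' : Tri M S := by
    intro y hy
    rw [← hG.eq 0 y hy, ← hG.eq 1 y hy, ← hG.eq 2 y hy]
    exact hT y hy
  exact glue3 hA hG hT hP hQ (h1.graphic hG hT hP) (h2.graphic (hG.symm hA) hT' hQ)

/-- a part on a set with two elements is graphic: `A = {a, b}` is independent (since
`M.lam A = 2`), the guts points are `a`, `b`, `a + b`. (One element: `M.lam A ≤ 1`.) The labels
`z i` are three elements of `M.E \ A`. -/
theorem GP_of_card_two {M : BM α} {A : Finset α} (hA : A ⊆ M.E) (hl : M.lam A = 2)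
    (h2 : A.card ≤ 2) (h3' : 3 ≤ (M.E \ A).card) : GP M A := by
  classical
  obtain ⟨R, S, hG, hT⟩ := exists_guts3 M hA hl
  obtain ⟨z, hz, hzB⟩ := gp_labels h3'
  have hzn : ∀ i, z i ∉ A := fun i => (Finset.mem_sdiff.1 (hzB i)).2
  obtain ⟨P, hP⟩ := exists_isPart M A R hz hzn
  refine ⟨R, S, z, P, hG, hT, hP, ?_⟩
  have e1 := M.lam_add A
  have e2 := M.rk_le_E (M.E \ A)
  have e3 := M.rk_le_card A
  have hrk : M.rk A = 2 := by omega
  have hcard : A.card = 2 := by omega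
  have hind : ∀ c ∈ A, ∃ y ∈ M.D, (∀ b ∈ A.erase c, y b = 0) ∧ y c = 1 := by
    intro c hc
    have h1 : ¬ M.InCl (A.erase c) c := by
      rw [M.inCl_iff_rk, Finset.insert_erase hc, hrk]
      have h3 := M.rk_le_card (A.erase c)
      rw [Finset.card_erase_of_mem hc, hcard] at h3
      omega
    unfold LM.InCl at h1
    push Not at h1
    obtain ⟨y, hy, hy0, hyc⟩ := h1
    refine ⟨y, hy, hy0, ?_⟩
    rcases PartsAux.zmod_cases (y c) with h | h
    · exact absurd h hyc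
    · exact h
  obtain ⟨a, b, hab, hAab⟩ := Finset.card_eq_two.1 hcard
  have haA : a ∈ A := by rw [hAab]; simp
  have hbA : b ∈ A := by rw [hAab]; simp
  obtain ⟨ya, hya, hya0, hya1⟩ := hind a haA
  obtain ⟨yb, hyb, hyb0, hyb1⟩ := hind b hbA
  have hya0' : ya b = 0 := hya0 b (Finset.mem_erase.2 ⟨hab.symm, hbA⟩)
  have hyb0' : yb a = 0 := hyb0 a (Finset.mem_erase.2 ⟨hab, haA⟩)
  -- sums over subsets of `{a, b}`
  have hsum : ∀ T ⊆ A, ∀ y : α → ZMod 2,
      ∑ c ∈ T, y c = (if a ∈ T then y a else 0) + (if b ∈ T then y b else 0) := by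
    intro T hTA y
    have h1 : T = A.filter (fun c => c ∈ T) := by
      ext c
      rw [Finset.mem_filter]
      exact ⟨fun h => ⟨hTA h, h⟩, fun h => h.2⟩
    have h3 : ∑ c ∈ T, y c = ∑ c ∈ A, if c ∈ T then y c else 0 := by
      conv_lhs => rw [h1]
      rw [Finset.sum_filter]
    rw [h3, hAab, Finset.sum_pair hab]
  have hE : ∀ c, c ∈ P.E ↔ c ∈ A ∨ ∃ i, z i = c := by
    intro c
    rw [hP.E_eq, Finset.mem_union, Finset.mem_image]
    simp
  obtain ⟨T, hTA, hTz⟩ : ∃ T : α → Finset α, (∀ c ∈ A, T c = {c}) ∧ ∀ i, T (z i) = R i := by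
    have h0 : ∀ i, ∃ j, z j = z i := fun i => ⟨i, rfl⟩
    refine ⟨fun c => if c ∈ A then ({c} : Finset α) else
        if h : ∃ i, z i = c then R h.choose else ∅, ?_, ?_⟩
    · intro c hc
      simp only [if_pos hc]
    · intro i
      simp only [if_neg (hzn i), dif_pos (h0 i)]
      rw [hz (h0 i).choose_spec]
  have hTsub : ∀ c ∈ P.E, T c ⊆ A := by
    intro c hc
    rcases (hE c).1 hc with h | ⟨i, rfl⟩
    · rw [hTA c h]
      exact Finset.singleton_subset_iff.2 h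
    · rw [hTz i]
      exact hG.R_sub i
  -- the graph
  have hpot : ∀ (φ : Fin 3 → ZMod 2) (T : Finset α),
      φ (if a ∈ T then 0 else 1) + φ (if b ∈ T then 2 else 1) =
        (if a ∈ T then φ 0 + φ 1 else 0) + (if b ∈ T then φ 1 + φ 2 else 0) := by
    intro φ T
    have h11 : φ 1 + φ 1 = 0 := PartsAux.zmod_add_self _
    by_cases h1 : a ∈ T <;> by_cases h2 : b ∈ T
    · simp only [if_pos h1, if_pos h2]
      have : φ 0 + φ 1 + (φ 1 + φ 2) = φ 0 + φ 2 + (φ 1 + φ 1) := by ring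
      rw [this, h11, add_zero]
    · simp only [if_pos h1, if_neg h2, add_zero]
    · simp only [if_neg h1, if_pos h2, zero_add]
    · simp only [if_neg h1, if_neg h2, h11, add_zero]
  refine graphic_of_fintype (V := Fin 3) (f := fun c => if a ∈ T c then 0 else 1)
    (g := fun c => if b ∈ T c then 2 else 1) fun x => ⟨fun hx => ?_, ?_⟩
  · obtain ⟨h0, y, hy, h1, h2⟩ := (hP.mem x).1 hx
    refine ⟨![y a, 0, y b], fun c => ?_⟩
    by_cases hc : c ∈ P.E
    · rw [if_pos hc, hpot]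
      have h3 : x c = ∑ d ∈ T c, y d := by
        rcases (hE c).1 hc with h | ⟨i, rfl⟩
        · rw [hTA c h, Finset.sum_singleton]
          exact h1 c h
        · rw [hTz i]
          exact h2 i
      rw [h3, hsum _ (hTsub c hc)]
      simp
    · rw [if_neg hc, h0 c hc]
  · rintro ⟨φ, hφ⟩
    have hy : (φ 0 + φ 1) • ya + (φ 1 + φ 2) • yb ∈ M.D :=
      M.D.add_mem (M.D.smul_mem _ hya) (M.D.smul_mem _ hyb)
    have hx : ∀ c ∈ P.E, x c = ∑ d ∈ T c, ((φ 0 + φ 1) • ya + (φ 1 + φ 2) • yb) d := by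
      intro c hc
      rw [hφ c, if_pos hc, hpot, hsum _ (hTsub c hc)]
      simp only [Pi.add_apply, Pi.smul_apply, smul_eq_mul, hya1, hyb1, hya0', hyb0', mul_one,
        mul_zero, add_zero, zero_add]
    refine (hP.mem x).2 ⟨fun c hc => by rw [hφ c, if_neg hc], _, hy, fun c hc => ?_, fun i => ?_⟩
    · rw [hx c ((hE c).2 (Or.inl hc)), hTA c hc, Finset.sum_singleton]
    · rw [hx _ ((hE _).2 (Or.inr ⟨i, rfl⟩)), hTz i]

end Pool.Agent.H87.Sey
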