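import Pool.Agent.H87.Sey.Parts2
import Pool.Agent.H87.Sey.GP

/-!
# Dual guts, Delta-Y exchange (Seymour project, MP_dbe88a_co, job S87-10)
-/

set_option autoImplicit false

namespace Pool.Agent.H87.Sey

open Pool.Agent.H63.Sey

universe u

variable {α : Type u} [DecidableEq α]

namespace DP

lemma z2_cases (c : ZMod 2) : c = 0 ∨ c = 1 := by
  revert c
  decide

lemma z2_one {c : ZMod 2} (h : c ≠ 0) : c = 1 := (z2_cases c).resolve_left h

lemma z2_eq_of_add {c d : ZMod 2} (h : c + d = 0) : c = d := by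
  revert c d
  decide

lemma z2_add_of_eq {c d : ZMod 2} (h : c = d) : c + d = 0 := by
  revert c d
  decide

omit [DecidableEq α] in
lemma sum_filter_ne (X : Finset α) (x y : α → ZMod 2) :
    ∑ a ∈ X.filter (fun a => y a ≠ 0), x a = ∑ a ∈ X, x a * y a := by
  rw [Finset.sum_filter]
  refine Finset.sum_congr rfl fun a _ => ?_
  rcases z2_cases (y a) with h | h <;> simp [h]

/-- split a sum over the ground set -/
lemma sum_split (M : BM α) {A : Finset α} (hA : A ⊆ M.E) (f : α → ZMod 2) :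
    ∑ a ∈ M.E, f a = ∑ a ∈ A, f a + ∑ a ∈ M.E \ A, f a := by
  rw [add_comm, Finset.sum_sdiff hA]

lemma sum_ite_mem_mul {X Y : Finset α} (h : X ⊆ Y) (y : α → ZMod 2) :
    ∑ a ∈ Y, (if a ∈ X then (1 : ZMod 2) else 0) * y a = ∑ a ∈ X, y a := by
  simp only [ite_mul, one_mul, zero_mul]
  rw [Finset.sum_ite_mem, Finset.inter_eq_right.2 h]

omit [DecidableEq α] in
lemma exists_two {D : Submodule (ZMod 2) (α → ZMod 2)} {r0 r1 : (α → ZMod 2) → ZMod 2}
    (h0 : ∀ x y, r0 (x + y) = r0 x + r0 y) (h1 : ∀ x y, r1 (x + y) = r1 x + r1 y)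
    (hu : ∃ u ∈ D, r0 u ≠ 0) (hv : ∃ v ∈ D, r1 v ≠ 0) (hw : ∃ w ∈ D, r0 w + r1 w ≠ 0) :
    ∃ y0 ∈ D, ∃ y1 ∈ D, r0 y0 = 1 ∧ r1 y0 = 0 ∧ r0 y1 = 0 ∧ r1 y1 = 1 := by
  obtain ⟨u, hu, u0⟩ := hu
  obtain ⟨v, hv, v1⟩ := hv
  obtain ⟨w, hw, w2⟩ := hw
  replace u0 := z2_one u0
  replace v1 := z2_one v1
  rcases z2_cases (r1 u) with u1 | u1
  · rcases z2_cases (r0 v) with v0 | v0
    · exact ⟨u, hu, v, hv, u0, u1, v0, v1⟩
    · refine ⟨u, hu, v + u, D.add_mem hv hu, u0, u1, ?_, ?_⟩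
      · rw [h0, v0, u0]; decide
      · rw [h1, v1, u1]; decide
  · rcases z2_cases (r0 v) with v0 | v0
    · refine ⟨u + v, D.add_mem hu hv, v, hv, ?_, ?_, v0, v1⟩
      · rw [h0, v0, u0]; decide
      · rw [h1, v1, u1]; decide
    · rcases z2_cases (r0 w) with w0 | w0
      · have w1 : r1 w = 1 := by
          apply z2_one
          intro h
          rw [w0, h] at w2
          exact w2 (by decide)
        refine ⟨u + w, D.add_mem hu hw, w, hw, ?_, ?_, w0, w1⟩
        · rw [h0, w0, u0]; decide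
        · rw [h1, w1, u1]; decide
      · have w1 : r1 w = 0 := by
          rcases z2_cases (r1 w) with h | h
          · exact h
          · rw [w0, h] at w2
            exact absurd (by decide) w2
        refine ⟨w, hw, u + w, D.add_mem hu hw, w0, w1, ?_, ?_⟩
        · rw [h0, w0, u0]; decide
        · rw [h1, w1, u1]; decide

lemma tri_eq {M : BM α} {R : Fin 3 → Finset α} (ht : Tri M R) {y : α → ZMod 2} (hy : y ∈ M.D) :
    ∑ a ∈ R 2, y a = ∑ a ∈ R 0, y a + ∑ a ∈ R 1, y a := (z2_eq_of_add (ht y hy)).symm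

/-- the basis dual to the guts -/
lemma exists_basis {M : BM α} {A : Finset α} {R S : Fin 3 → Finset α}
    (h : Guts M A R S) (ht : Tri M R) : ∃ y0 ∈ M.D, ∃ y1 ∈ M.D,
      ∑ a ∈ R 0, y0 a = 1 ∧ ∑ a ∈ R 1, y0 a = 0 ∧ ∑ a ∈ R 0, y1 a = 0 ∧ ∑ a ∈ R 1, y1 a = 1 := by
  refine exists_two (D := M.D) (r0 := fun y => ∑ a ∈ R 0, y a) (r1 := fun y => ∑ a ∈ R 1, y a)
    ?_ ?_ (h.nz 0) (h.nz 1) ?_
  · intro x y
    simp only [Pi.add_apply, Finset.sum_add_distrib]
  · intro x y
    simp only [Pi.add_apply, Finset.sum_add_distrib]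
  · obtain ⟨y, hy, hy'⟩ := h.nz 2
    refine ⟨y, hy, ?_⟩
    rw [tri_eq ht hy] at hy'
    exact hy'

end DP

open DP

/-- guts of the dual. Choose `y₀, y₁ ∈ M.D` with `(∑_{R 0} y₀, ∑_{R 1} y₀) = (1, 0)` and
`(∑_{R 0} y₁, ∑_{R 1} y₁) = (0, 1)`; `R' 1 = A ∩ supp y₀`, `R' 0 = A ∩ supp y₁`,
`R' 2 = A ∩ supp (y₀ + y₁)`, the same with `M.E \ A` for `S'`. For a cycle `X` the functional
`y ↦ ∑ a ∈ A, X a * y a` on `M.D` is a guts element of `M` at `A`, i.e. a combination of the
`R 0` and `R 1` sums (`Guts.full`), with coefficients found by inserting `y₀`, `y₁`. -/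
theorem guts_dual {M : BM α} {A : Finset α} (hA : A ⊆ M.E) {R S : Fin 3 → Finset α}
    (h : Guts M A R S) (ht : Tri M R) :
    ∃ R' S' : Fin 3 → Finset α, Guts M.dual A R' S' ∧ Tri M.dual R' ∧
      ∀ x ∈ M.dual.D, ∀ y ∈ M.D, ∑ a ∈ A, x a * y a =
        (∑ a ∈ R' 1, x a) * (∑ a ∈ R 0, y a) + (∑ a ∈ R' 0, x a) * (∑ a ∈ R 1, y a) := by
  obtain ⟨y0, hy0, y1, hy1, r00, r10, r01, r11⟩ := exists_basis h ht
  let t : Fin 3 → (α → ZMod 2) := ![y1, y0, y0 + y1]
  have htD : ∀ i, t i ∈ M.D := by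
    intro i
    fin_cases i
    · exact hy1
    · exact hy0
    · exact M.D.add_mem hy0 hy1
  have hR' : ∀ (x : α → ZMod 2) i, ∑ a ∈ A.filter (fun a => t i a ≠ 0), x a =
      ∑ a ∈ A, x a * t i a := fun x i => sum_filter_ne A x (t i)
  have hS' : ∀ (x : α → ZMod 2) i, ∑ a ∈ (M.E \ A).filter (fun a => t i a ≠ 0), x a =
      ∑ a ∈ M.E \ A, x a * t i a := fun x i => sum_filter_ne _ x (t i)
  -- the pairing formula
  have pair : ∀ x ∈ M.dual.D, ∀ y ∈ M.D, ∑ a ∈ A, x a * y a =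
      (∑ a ∈ A, x a * y0 a) * (∑ a ∈ R 0, y a) + (∑ a ∈ A, x a * y1 a) * (∑ a ∈ R 1, y a) := by
    intro x hx
    have hf : ∀ (X : Finset α) (y : α → ZMod 2), ∑ a ∈ X.filter (fun a => x a ≠ 0), y a =
        ∑ a ∈ X, x a * y a := by
      intro X y
      rw [sum_filter_ne]
      exact Finset.sum_congr rfl fun a _ => mul_comm _ _
    have hfull := h.full (A.filter (fun a => x a ≠ 0)) (Finset.filter_subset _ _)
      ((M.E \ A).filter (fun a => x a ≠ 0)) (Finset.filter_subset _ _) (by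
        intro y hy
        rw [hf, hf]
        apply z2_eq_of_add
        rw [← sum_split M hA (fun a => x a * y a)]
        have h1 := (LM.mem_dual M).1 hx |>.2 y hy
        rw [← h1]
        exact Finset.sum_congr rfl fun a _ => mul_comm _ _)
    simp only [hf] at hfull
    intro y hy
    rcases hfull with h0 | ⟨i, hi⟩
    · rw [h0 y hy, h0 y0 hy0, h0 y1 hy1, zero_mul, zero_mul, add_zero]
    · rw [hi y hy, hi y0 hy0, hi y1 hy1]
      fin_cases i
      · simp only [Fin.zero_eta, r00, r01]; ring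
      · simp only [Fin.mk_one, r10, r11]; ring
      · simp only [Fin.reduceFinMk]
        rw [tri_eq ht hy, tri_eq ht hy0, tri_eq ht hy1, r00, r01, r10, r11]; ring
  have triR : Tri M.dual (fun i => A.filter (fun a => t i a ≠ 0)) := by
    intro x hx
    simp only [hR']
    rw [← Finset.sum_add_distrib, ← Finset.sum_add_distrib]
    apply Finset.sum_eq_zero
    intro a _
    have e0 : t 0 a = y1 a := rfl
    have e1 : t 1 a = y0 a := rfl
    have e2 : t 2 a = y0 a + y1 a := rfl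
    rw [e0, e1, e2]
    have : x a * y1 a + x a * y0 a + x a * (y0 a + y1 a) =
      (x a * y0 a + x a * y0 a) + (x a * y1 a + x a * y1 a) := by ring
    rw [this, CharTwo.add_self_eq_zero, CharTwo.add_self_eq_zero, add_zero]
  refine ⟨fun i => A.filter (fun a => t i a ≠ 0), fun i => (M.E \ A).filter (fun a => t i a ≠ 0),
    ⟨fun i => Finset.filter_subset _ _, fun i => Finset.filter_subset _ _, ?_, ?_, ?_⟩, triR, ?_⟩
  · intro i x hx
    simp only [hR', hS']
    apply z2_eq_of_add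
    rw [← sum_split M hA (fun a => x a * t i a)]
    have h1 := (LM.mem_dual M).1 hx |>.2 (t i) (htD i)
    rw [← h1]
    exact Finset.sum_congr rfl fun a _ => mul_comm _ _
  · -- the cycles `R i ∪ S i`
    have hcyc : ∀ i, ∃ x ∈ M.dual.D, ∀ y : α → ZMod 2, ∑ a ∈ A, x a * y a = ∑ a ∈ R i, y a := by
      intro i
      have hRS : Disjoint (R i) (S i) := by
        rw [Finset.disjoint_left]
        intro a ha ha'
        exact (Finset.mem_sdiff.1 (h.S_sub i ha')).2 (h.R_sub i ha)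
      refine ⟨fun a => if a ∈ R i ∪ S i then 1 else 0, (LM.mem_dual M).2 ⟨?_, ?_⟩, ?_⟩
      · intro a ha
        apply if_neg
        rw [Finset.mem_union]
        rintro (h' | h')
        · exact ha (hA (h.R_sub i h'))
        · exact ha (Finset.mem_sdiff.1 (h.S_sub i h')).1
      · intro y hy
        have e : ∑ a ∈ M.E, y a * (if a ∈ R i ∪ S i then (1 : ZMod 2) else 0) =
            ∑ a ∈ M.E, (if a ∈ R i ∪ S i then (1 : ZMod 2) else 0) * y a :=
          Finset.sum_congr rfl fun a _ => mul_comm _ _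
        rw [e, sum_ite_mem_mul, Finset.sum_union hRS]
        · exact z2_add_of_eq (h.eq i y hy)
        · exact Finset.union_subset ((h.R_sub i).trans hA)
            ((h.S_sub i).trans Finset.sdiff_subset)
      · intro y
        rw [← sum_ite_mem_mul (h.R_sub i) y]
        refine Finset.sum_congr rfl fun a ha => ?_
        congr 1
        have : a ∉ S i := fun h' => (Finset.mem_sdiff.1 (h.S_sub i h')).2 ha
        simp [this]
    intro i
    simp only [hR']
    obtain ⟨x0, hx0, h0⟩ := hcyc 0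
    obtain ⟨x1, hx1, h1⟩ := hcyc 1
    fin_cases i
    · refine ⟨x1, hx1, ?_⟩
      show ∑ a ∈ A, x1 a * y1 a ≠ 0
      rw [h1 y1, r11]
      decide
    · refine ⟨x0, hx0, ?_⟩
      show ∑ a ∈ A, x0 a * y0 a ≠ 0
      rw [h0 y0, r00]
      decide
    · refine ⟨x0, hx0, ?_⟩
      show ∑ a ∈ A, x0 a * (y0 + y1) a ≠ 0
      rw [h0 (y0 + y1)]
      simp only [Pi.add_apply, Finset.sum_add_distrib]
      rw [r00, r01]
      decide
  · intro R₀ hR₀ S₀ hS₀ hRS
    simp only [LM.dual_E] at hS₀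
    have hRSd : Disjoint R₀ S₀ := by
      rw [Finset.disjoint_left]
      intro a ha ha'
      exact (Finset.mem_sdiff.1 (hS₀ ha')).2 (hR₀ ha)
    have hy : (fun a => if a ∈ R₀ ∪ S₀ then (1 : ZMod 2) else 0) ∈ M.D := by
      rw [← LM.dual_dual M]
      refine (LM.mem_dual M.dual).2 ⟨?_, ?_⟩
      · intro a ha
        apply if_neg
        rw [Finset.mem_union]
        rintro (h' | h')
        · exact ha (hA (hR₀ h'))
        · exact ha (Finset.mem_sdiff.1 (hS₀ h')).1
      · intro x hx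
        have e : ∑ a ∈ M.dual.E, x a * (if a ∈ R₀ ∪ S₀ then (1 : ZMod 2) else 0) =
            ∑ a ∈ M.dual.E, (if a ∈ R₀ ∪ S₀ then (1 : ZMod 2) else 0) * x a :=
          Finset.sum_congr rfl fun a _ => mul_comm _ _
        rw [e, sum_ite_mem_mul, Finset.sum_union hRSd]
        · exact z2_add_of_eq (hRS x hx)
        · exact Finset.union_subset (hR₀.trans hA) (hS₀.trans Finset.sdiff_subset)
    have hval : ∀ x : α → ZMod 2, ∑ a ∈ A, x a * (if a ∈ R₀ ∪ S₀ then (1 : ZMod 2) else 0) =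
        ∑ a ∈ R₀, x a := by
      intro x
      rw [← sum_ite_mem_mul hR₀ x]
      refine Finset.sum_congr rfl fun a ha => ?_
      rw [mul_comm]
      congr 1
      have : a ∉ S₀ := fun h' => (Finset.mem_sdiff.1 (hS₀ h')).2 ha
      simp [this]
    have hp : ∀ x ∈ M.dual.D, ∑ a ∈ R₀, x a =
        (∑ a ∈ A, x a * y0 a) * (∑ a ∈ R 0, if a ∈ R₀ ∪ S₀ then (1 : ZMod 2) else 0) +
        (∑ a ∈ A, x a * y1 a) * (∑ a ∈ R 1, if a ∈ R₀ ∪ S₀ then (1 : ZMod 2) else 0) := by
      intro x hx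
      rw [← hval x]
      exact pair x hx _ hy
    rcases z2_cases (∑ a ∈ R 0, if a ∈ R₀ ∪ S₀ then (1 : ZMod 2) else 0) with e0 | e0 <;>
      rcases z2_cases (∑ a ∈ R 1, if a ∈ R₀ ∪ S₀ then (1 : ZMod 2) else 0) with e1 | e1
    · left
      intro x hx
      rw [hp x hx, e0, e1, mul_zero, mul_zero, add_zero]
    · right
      refine ⟨0, fun x hx => ?_⟩
      rw [hp x hx, e0, e1, hR', mul_zero, mul_one, zero_add]
      rfl
    · right
      refine ⟨1, fun x hx => ?_⟩
      rw [hp x hx, e0, e1, hR', mul_zero, mul_one, add_zero]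
      rfl
    · right
      refine ⟨2, fun x hx => ?_⟩
      have e2 := tri_eq triR hx
      simp only [hR'] at e2 ⊢
      rw [hp x hx, e0, e1, mul_one, mul_one, e2, add_comm]
      rfl
  · intro x hx y hy
    simp only [hR']
    exact pair x hx y hy

/-- membership in the dual of a part -/
lemma mem_dual_part {M P : BM α} {A : Finset α} {R : Fin 3 → Finset α}
    {z : Fin 3 → α} (ht : Tri M R) (hP : IsPart M P A z R) (x : α → ZMod 2) :
    x ∈ P.dual.D ↔ (∀ a, a ∉ P.E → x a = 0) ∧ ∀ y ∈ M.D, ∑ a ∈ A, x a * y a =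
      (x (z 0) + x (z 2)) * (∑ a ∈ R 0, y a) + (x (z 1) + x (z 2)) * (∑ a ∈ R 1, y a) := by
  have hdisj : Disjoint A (Finset.univ.image z) := by
    rw [Finset.disjoint_right]
    intro a ha
    obtain ⟨i, -, rfl⟩ := Finset.mem_image.1 ha
    exact hP.z_nmem i
  have hsum : ∀ f : α → ZMod 2, ∑ a ∈ P.E, f a = ∑ a ∈ A, f a + (f (z 0) + f (z 1) + f (z 2)) := by
    intro f
    rw [hP.E_eq, Finset.sum_union hdisj, Finset.sum_image (fun i _ j _ hij => hP.inj hij),
      Fin.sum_univ_three]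
  have hval : ∀ w y : α → ZMod 2, y ∈ M.D → (∀ a ∈ A, w a = y a) →
      (∀ i, w (z i) = ∑ a ∈ R i, y a) → (∑ a ∈ P.E, w a * x a = 0 ↔ ∑ a ∈ A, x a * y a =
      (x (z 0) + x (z 2)) * (∑ a ∈ R 0, y a) + (x (z 1) + x (z 2)) * (∑ a ∈ R 1, y a)) := by
    intro w y hy h1 h2
    rw [hsum, h2, h2, h2, tri_eq ht hy]
    have e1 : ∑ a ∈ A, w a * x a = ∑ a ∈ A, x a * y a :=
      Finset.sum_congr rfl fun a ha => by rw [h1 a ha, mul_comm]
    rw [e1]
    have e2 : (∑ a ∈ R 0, y a) * x (z 0) + (∑ a ∈ R 1, y a) * x (z 1) +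
        (∑ a ∈ R 0, y a + ∑ a ∈ R 1, y a) * x (z 2) =
      (x (z 0) + x (z 2)) * (∑ a ∈ R 0, y a) + (x (z 1) + x (z 2)) * (∑ a ∈ R 1, y a) := by ring
    rw [e2]
    exact ⟨z2_eq_of_add, z2_add_of_eq⟩
  rw [LM.mem_dual]
  refine and_congr_right fun _ => ⟨fun h y hy => ?_, fun h w hw => ?_⟩
  · obtain ⟨w, hw, h1, h2⟩ := hP.exists_ext hy
    exact (hval w y hy h1 h2).1 (h w hw)
  · obtain ⟨_, y, hy, h1, h2⟩ := (hP.mem w).1 hw
    exact (hval w y hy h1 h2).2 (h y hy)

/-- the part of the dual is obtained from the dual of the part by a Y-Delta exchange -/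
theorem part_dual {M P P' : BM α} {A : Finset α} (hA : A ⊆ M.E) {R S R' S' : Fin 3 → Finset α}
    {z : Fin 3 → α} (h : Guts M A R S) (ht : Tri M R) (h' : Guts M.dual A R' S')
    (ht' : Tri M.dual R') (hpair : ∀ x ∈ M.dual.D, ∀ y ∈ M.D, ∑ a ∈ A, x a * y a =
        (∑ a ∈ R' 1, x a) * (∑ a ∈ R 0, y a) + (∑ a ∈ R' 0, x a) * (∑ a ∈ R 1, y a))
    (hP : IsPart M P A z R) (hP' : IsPart M.dual P' A z R') (w : α → ZMod 2) :
    w ∈ P'.D ↔ (∀ a, a ∉ P'.E → w a = 0) ∧ ∃ x ∈ P.dual.D, (∀ a ∈ A, w a = x a) ∧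
      w (z 0) = x (z 1) + x (z 2) ∧ w (z 1) = x (z 0) + x (z 2) ∧
      w (z 2) = x (z 0) + x (z 1) := by
  have z01 : z 0 ≠ z 1 := fun e => absurd (hP.inj e) (by decide)
  have z02 : z 0 ≠ z 2 := fun e => absurd (hP.inj e) (by decide)
  have z12 : z 1 ≠ z 2 := fun e => absurd (hP.inj e) (by decide)
  rw [hP'.mem]
  refine and_congr_right fun hsupp => ?_
  constructor
  · rintro ⟨x', hx', h1, h2⟩
    let x : α → ZMod 2 := fun a => if a ∈ A then x' a else if a = z 0 then w (z 1) else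
      if a = z 1 then w (z 0) else 0
    have xA : ∀ a ∈ A, x a = x' a := fun a ha => if_pos ha
    have x0 : x (z 0) = w (z 1) := by
      simp only [x, if_neg (hP.z_nmem 0)]
      simp
    have x1 : x (z 1) = w (z 0) := by
      simp only [x, if_neg (hP.z_nmem 1), if_neg z01.symm]
      simp
    have x2 : x (z 2) = 0 := by
      simp only [x, if_neg (hP.z_nmem 2), if_neg z02.symm, if_neg z12.symm]
    have e2 : w (z 2) = w (z 0) + w (z 1) := by
      rw [h2, h2, h2]
      exact tri_eq ht' hx'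
    refine ⟨x, (mem_dual_part ht hP x).2 ⟨?_, ?_⟩, ?_, ?_, ?_, ?_⟩
    · intro a ha
      rw [hP.E_eq, Finset.mem_union, not_or] at ha
      have n0 : a ≠ z 0 := fun e => ha.2 (Finset.mem_image.2 ⟨0, Finset.mem_univ _, e.symm⟩)
      have n1 : a ≠ z 1 := fun e => ha.2 (Finset.mem_image.2 ⟨1, Finset.mem_univ _, e.symm⟩)
      simp only [x, if_neg ha.1, if_neg n0, if_neg n1]
    · intro y hy
      rw [x0, x1, x2, add_zero, add_zero, h2, h2, ← hpair x' hx' y hy]
      exact Finset.sum_congr rfl fun a ha => by rw [xA a ha]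
    · intro a ha
      rw [h1 a ha, xA a ha]
    · rw [x1, x2, add_zero]
    · rw [x0, x2, add_zero]
    · rw [x0, x1, e2, add_comm]
  · rintro ⟨x, hx, hA', w0, w1, w2⟩
    obtain ⟨hxs, hxe⟩ := (mem_dual_part ht hP x).1 hx
    let x' : α → ZMod 2 := fun a => if a ∈ A then x a else
      (if a ∈ S 0 then w (z 1) else 0) + (if a ∈ S 1 then w (z 0) else 0)
    have xA : ∀ a ∈ A, x' a = x a := fun a ha => if_pos ha
    have xB : ∀ a ∈ M.E \ A, x' a = (if a ∈ S 0 then w (z 1) else 0) +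
        (if a ∈ S 1 then w (z 0) else 0) := fun a ha => if_neg (Finset.mem_sdiff.1 ha).2
    have hval : ∀ y ∈ M.D, ∑ a ∈ A, x' a * y a =
        w (z 1) * (∑ a ∈ R 0, y a) + w (z 0) * (∑ a ∈ R 1, y a) := by
      intro y hy
      rw [w0, w1, ← hxe y hy]
      exact Finset.sum_congr rfl fun a ha => by rw [xA a ha]
    have hx' : x' ∈ M.dual.D := by
      refine (LM.mem_dual M).2 ⟨?_, ?_⟩
      · intro a ha
        have n0 : a ∉ A := fun e => ha (hA e)
        have n1 : a ∉ S 0 := fun e => ha (Finset.mem_sdiff.1 (h.S_sub 0 e)).1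
        have n2 : a ∉ S 1 := fun e => ha (Finset.mem_sdiff.1 (h.S_sub 1 e)).1
        simp only [x', if_neg n0, if_neg n1, if_neg n2, add_zero]
      · intro y hy
        have e : ∑ a ∈ M.E, y a * x' a = ∑ a ∈ M.E, x' a * y a :=
          Finset.sum_congr rfl fun a _ => mul_comm _ _
        rw [e, sum_split M hA (fun a => x' a * y a)]
        apply z2_add_of_eq
        rw [hval y hy, h.eq 0 y hy, h.eq 1 y hy, ← sum_ite_mem_mul (h.S_sub 0) y,
          ← sum_ite_mem_mul (h.S_sub 1) y, Finset.mul_sum, Finset.mul_sum,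
          ← Finset.sum_add_distrib]
        refine Finset.sum_congr rfl fun a ha => ?_
        rw [xB a ha]
        by_cases c0 : a ∈ S 0 <;> by_cases c1 : a ∈ S 1 <;> simp [c0, c1] <;> ring
    obtain ⟨y0, hy0, y1, hy1, r00, r10, r01, r11⟩ := exists_basis h ht
    have s1 : ∑ a ∈ R' 1, x' a = w (z 1) := by
      have e1 := hpair x' hx' y0 hy0
      rw [hval y0 hy0, r00, r10, mul_one, mul_one, mul_zero, mul_zero, add_zero, add_zero] at e1
      exact e1.symm
    have s0 : ∑ a ∈ R' 0, x' a = w (z 0) := by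
      have e1 := hpair x' hx' y1 hy1
      rw [hval y1 hy1, r01, r11, mul_one, mul_one, mul_zero, mul_zero, zero_add, zero_add] at e1
      exact e1.symm
    refine ⟨x', hx', ?_, ?_⟩
    · intro a ha
      rw [hA' a ha, xA a ha]
    · intro i
      fin_cases i
      · exact s0.symm
      · exact s1.symm
      · show w (z 2) = ∑ a ∈ R' 2, x' a
        rw [tri_eq ht' hx', s0, s1, w0, w1, w2]
        have : x (z 1) + x (z 2) + (x (z 0) + x (z 2)) =
          (x (z 0) + x (z 1)) + (x (z 2) + x (z 2)) := by ring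
        rw [this, CharTwo.add_self_eq_zero, add_zero]

/-- if `P.dual` is the cycle matroid of a graph in which the triad `{z 0, z 1, z 2}` is the star
of a vertex `v`, then the part of `M.dual` on `A` is graphic: replace the edge `z i = v n_i` by
`n_j n_k` -/
theorem GP_dual_of_star {M P : BM α} {A : Finset α} (hA : A ⊆ M.E) {R S : Fin 3 → Finset α}
    {z : Fin 3 → α} (h : Guts M A R S) (ht : Tri M R) (hP : IsPart M P A z R) {n : ℕ}
    {f g : α → Fin n} (hG : P.dual = cyc P.E f g) (v : Fin n)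
    (hv : ∀ a ∈ P.E, (f a = v ∨ g a = v) ↔ a ∈ Finset.univ.image z)
    (hloop : ∀ i, f (z i) ≠ g (z i)) : GP M.dual A := by
  have z01 : z 0 ≠ z 1 := fun e => absurd (hP.inj e) (by decide)
  have z02 : z 0 ≠ z 2 := fun e => absurd (hP.inj e) (by decide)
  have z12 : z 1 ≠ z 2 := fun e => absurd (hP.inj e) (by decide)
  have hzE : ∀ i, z i ∈ P.E := by
    intro i
    rw [hP.E_eq]
    exact Finset.mem_union_right _ (Finset.mem_image_of_mem z (Finset.mem_univ i))
  have hAE : ∀ a ∈ A, a ∈ P.E := by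
    intro a ha
    rw [hP.E_eq]
    exact Finset.mem_union_left _ ha
  -- the other ends
  have hn : ∀ i, ∃ m : Fin n, ∀ φ : Fin n → ZMod 2, φ (f (z i)) + φ (g (z i)) = φ v + φ m := by
    intro i
    rcases (hv (z i) (hzE i)).2 (Finset.mem_image_of_mem z (Finset.mem_univ i)) with e | e
    · exact ⟨g (z i), fun φ => by rw [e]⟩
    · exact ⟨f (z i), fun φ => by rw [e, add_comm]⟩
  choose nb hnb using hn
  obtain ⟨R', S', h', ht', hpair⟩ := guts_dual hA h ht
  obtain ⟨P', hP'⟩ := exists_isPart M.dual A R' hP.inj hP.z_nmem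
  refine ⟨R', S', z, P', h', ht', hP', ?_⟩
  have hEE : P'.E = P.E := by rw [hP'.E_eq, hP.E_eq]
  let f' : α → Fin n := fun a => if a = z 0 then nb 1 else if a = z 1 then nb 0 else
    if a = z 2 then nb 0 else f a
  let g' : α → Fin n := fun a => if a = z 0 then nb 2 else if a = z 1 then nb 2 else
    if a = z 2 then nb 1 else g a
  have f0 : f' (z 0) = nb 1 := by simp [f']
  have f1 : f' (z 1) = nb 0 := by simp [f', z01.symm]
  have f2 : f' (z 2) = nb 0 := by simp [f', z02.symm, z12.symm]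
  have g0 : g' (z 0) = nb 2 := by simp [g']
  have g1 : g' (z 1) = nb 2 := by simp [g', z01.symm]
  have g2 : g' (z 2) = nb 1 := by simp [g', z02.symm, z12.symm]
  have fA : ∀ a ∈ A, f' a = f a := by
    intro a ha
    have n0 : a ≠ z 0 := fun e => hP.z_nmem 0 (e ▸ ha)
    have n1 : a ≠ z 1 := fun e => hP.z_nmem 1 (e ▸ ha)
    have n2 : a ≠ z 2 := fun e => hP.z_nmem 2 (e ▸ ha)
    simp [f', n0, n1, n2]
  have gA : ∀ a ∈ A, g' a = g a := by
    intro a ha
    have n0 : a ≠ z 0 := fun e => hP.z_nmem 0 (e ▸ ha)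
    have n1 : a ≠ z 1 := fun e => hP.z_nmem 1 (e ▸ ha)
    have n2 : a ≠ z 2 := fun e => hP.z_nmem 2 (e ▸ ha)
    simp [g', n0, n1, n2]
  refine graphic_of_fintype (V := Fin n) (f := f') (g := g') ?_
  intro w
  rw [part_dual hA h ht h' ht' hpair hP hP', hEE]
  constructor
  · rintro ⟨hsupp, x, hx, hxA, w0, w1, w2⟩
    rw [hG] at hx
    obtain ⟨φ, hφ⟩ := mem_cyc.1 hx
    refine ⟨φ, fun a => ?_⟩
    by_cases ha : a ∈ P.E
    · rw [if_pos ha]
      have hz' : ∀ i, x (z i) = φ v + φ (nb i) := by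
        intro i
        rw [hφ, if_pos (hzE i), hnb]
      have hcalc : ∀ p q : ZMod 2, φ v + p + (φ v + q) = p + q := by
        intro p q
        have : φ v + p + (φ v + q) = (φ v + φ v) + (p + q) := by ring
        rw [this, CharTwo.add_self_eq_zero, zero_add]
      rw [hP.E_eq, Finset.mem_union] at ha
      rcases ha with ha | ha
      · rw [hxA a ha, hφ, if_pos (hAE a ha), fA a ha, gA a ha]
      · obtain ⟨i, -, rfl⟩ := Finset.mem_image.1 ha
        fin_cases i
        · show w (z 0) = φ (f' (z 0)) + φ (g' (z 0))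
          rw [f0, g0, w0, hz', hz', hcalc]
        · show w (z 1) = φ (f' (z 1)) + φ (g' (z 1))
          rw [f1, g1, w1, hz', hz', hcalc]
        · show w (z 2) = φ (f' (z 2)) + φ (g' (z 2))
          rw [f2, g2, w2, hz', hz', hcalc]
    · rw [if_neg ha]
      exact hsupp a ha
  · rintro ⟨φ, hφ⟩
    refine ⟨fun a ha => by rw [hφ, if_neg ha], fun a => if a ∈ P.E then φ (f a) + φ (g a) else 0,
      ?_, ?_, ?_, ?_, ?_⟩
    · rw [hG]
      exact mem_cyc.2 ⟨φ, fun a => rfl⟩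
    · intro a ha
      simp only [if_pos (hAE a ha)]
      rw [hφ, if_pos (hAE a ha), fA a ha, gA a ha]
    all_goals
      simp only [if_pos (hzE _), hnb]
      rw [hφ, if_pos (hzE _)]
    · rw [f0, g0]
      have : φ v + φ (nb 1) + (φ v + φ (nb 2)) = (φ v + φ v) + (φ (nb 1) + φ (nb 2)) := by ring
      rw [this, CharTwo.add_self_eq_zero, zero_add]
    · rw [f1, g1]
      have : φ v + φ (nb 0) + (φ v + φ (nb 2)) = (φ v + φ v) + (φ (nb 0) + φ (nb 2)) := by ring
      rw [this, CharTwo.add_self_eq_zero, zero_add]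
    · rw [f2, g2]
      have : φ v + φ (nb 0) + (φ v + φ (nb 1)) = (φ v + φ v) + (φ (nb 0) + φ (nb 1)) := by ring
      rw [this, CharTwo.add_self_eq_zero, zero_add]

end Pool.Agent.H87.Sey
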