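import Pool.Agent.H87.Sey.GP

/-!
# No element at a guts point in a minimal nongraphic part (Seymour project, MP_dbe88a_co, job S87-9b)
-/

set_option autoImplicit false

namespace Pool.Agent.H87.Sey

open Pool.Agent.H63.Sey

universe u

variable {α : Type u} [DecidableEq α]

/-- In a minimal nongraphic part no element of `A` is at a guts point. Suppose `a` is at the guts
point `R i`; put `A' = A \ {a}`. Then `M.lam A' = 2` (`≤`: `a` is in the closure of `M.E \ A`;
`≥`: `Conn3`), so `A'` has a graphic part by `hmin`; the guts points of `A'` and `A` are the same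
elements, and the part on `A` is obtained from the part on `A'` by adding `a` parallel to `z i`
(`graphic_of_parallel`). -/
theorem nonpar_of_min {M : BM α} (hM : M.Conn3) {A : Finset α} (hA : A ⊆ M.E)
    (hl : M.lam A = 2) (h4 : 4 ≤ (M.E \ A).card) {R S : Fin 3 → Finset α} (h : Guts M A R S)
    (ht : Tri M R) (hng : ¬ GP M A) (hmin : ∀ A₁ ⊆ A, A₁ ≠ A → M.lam A₁ = 2 → GP M A₁) :
    ∀ a ∈ A, ∀ i, ∃ y ∈ M.D, y a ≠ ∑ b ∈ R i, y b := by
  classical
  intro a ha i₀
  by_contra hcon
  push Not at hcon
  have hcard : 3 ≤ A.card := by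
    by_contra hc
    exact hng (GP_of_card_two hA hl (by omega) (by omega))
  have haE : a ∈ M.E := hA ha
  set A' := A \ {a} with hA'
  have hA'A : A' ⊆ A := Finset.sdiff_subset
  have hA'E : A' ⊆ M.E := hA'A.trans hA
  have haA' : a ∉ A' := by simp [hA']
  have hne : A' ≠ A := fun h => haA' (h ▸ ha)
  have hcl : M.InCl (M.E \ A) a := by
    intro y hy hz
    rw [hcon y hy, h.eq i₀ y hy]
    exact Finset.sum_eq_zero fun b hb => hz b (h.S_sub i₀ hb)
  have hE' : M.E \ A' = insert a (M.E \ A) := by
    ext x
    simp only [hA', Finset.mem_sdiff, Finset.mem_singleton, Finset.mem_insert, not_and, not_not]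
    constructor
    · rintro ⟨h1, h2⟩
      by_cases h3 : x ∈ A
      · exact Or.inl (h2 h3)
      · exact Or.inr ⟨h1, h3⟩
    · rintro (rfl | ⟨h1, h2⟩)
      · exact ⟨haE, fun _ => rfl⟩
      · exact ⟨h1, fun h3 => absurd h3 h2⟩
  have hl' : M.lam A' = 2 := by
    apply le_antisymm
    · have h1 := M.lam_add A
      have h2 := M.lam_add A'
      rw [hE', M.inCl_iff_rk.1 hcl] at h2
      have h3 := M.rk_mono hA'A
      omega
    · apply hM.2 A' hA'E
      · have := Finset.card_sdiff_add_card_inter A {a}
        have h2 : (A ∩ {a}).card ≤ 1 := (Finset.card_le_card Finset.inter_subset_right).trans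
          (by simp)
        rw [← hA'] at this
        omega
      · rw [hE']
        exact le_trans (by omega) (Finset.card_le_card (Finset.subset_insert _ _))
  have hGP := hmin A' hA'A hne hl'
  obtain ⟨R', S', z', P', hG', hT', -, -⟩ := id hGP
  -- the same guts for `A`
  have hex : ∀ i, ∃ T ⊆ M.E \ A, ∀ y ∈ M.D, ∑ b ∈ R' i, y b = ∑ b ∈ T, y b := by
    intro i
    apply exists_sum_of_vanish
    intro y hy hz
    rw [hG'.eq i y hy]
    refine Finset.sum_eq_zero fun b hb => ?_
    have h1 := hG'.S_sub i hb
    rw [hE', Finset.mem_insert] at h1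
    rcases h1 with rfl | h1
    · exact hcl y hy hz
    · exact hz b h1
  choose S'' hS'' hS''e using hex
  have hG : Guts M A R' S'' := guts3_of hA hl (fun i => (hG'.R_sub i).trans hA'A) hS'' hS''e
    hG'.nz hT'
  obtain ⟨j, hj⟩ : ∃ j, ∀ y ∈ M.D, ∑ b ∈ R i₀, y b = ∑ b ∈ R' j, y b := by
    rcases hG.full (R i₀) (h.R_sub i₀) (S i₀) (h.S_sub i₀) (h.eq i₀) with h1 | h1
    · obtain ⟨y, hy, hy'⟩ := h.nz i₀
      exact absurd (h1 y hy) hy'
    · exact h1
  -- labels
  obtain ⟨z, hz⟩ : ∃ z : Fin 3 → α, Function.Injective z ∧ ∀ i, z i ∈ M.E \ A := by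
    obtain ⟨t, ht1, ht2⟩ := Finset.exists_subset_card_eq (show 3 ≤ (M.E \ A).card by omega)
    have e := t.equivFinOfCardEq ht2
    exact ⟨fun i => (e.symm i).1, fun i j hij => e.symm.injective (Subtype.ext hij),
      fun i => ht1 (e.symm i).2⟩
  have hzA : ∀ i, z i ∉ A := fun i => (Finset.mem_sdiff.1 (hz.2 i)).2
  obtain ⟨P, hP⟩ := exists_isPart M A R' hz.1 hzA
  have haz : ∀ i, a ≠ z i := fun i hi => hzA i (hi ▸ ha)
  have hPd : IsPart M (P.del {a}) A' z R' := by
    refine ⟨hz.1, fun i hi => hzA i (hA'A hi), ?_, ?_⟩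
    · rw [LM.del_E, hP.E_eq]
      ext x
      simp only [hA', Finset.mem_sdiff, Finset.mem_union, Finset.mem_image, Finset.mem_univ,
        true_and, Finset.mem_singleton]
      constructor
      · rintro ⟨h1 | h1, h2⟩
        · exact Or.inl ⟨h1, h2⟩
        · exact Or.inr h1
      · rintro (⟨h1, h2⟩ | ⟨i, rfl⟩)
        · exact ⟨Or.inl h1, h2⟩
        · exact ⟨Or.inr ⟨i, rfl⟩, fun h3 => haz i h3.symm⟩
    · intro w
      rw [LM.mem_del]
      constructor
      · rintro ⟨h1, v, hv, hvw⟩
        obtain ⟨hv1, y, hy, hy1, hy2⟩ := (hP.mem v).1 hv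
        refine ⟨?_, y, hy, ?_, ?_⟩
        · intro c hc
          by_cases hca : c = a
          · exact h1 c (by simp [hca])
          · rw [hvw c (by simpa using hca)]
            apply hv1 c
            intro hcP
            exact hc (by simp [LM.del_E, hcP, hca])
        · intro c hc
          have hca : c ≠ a := fun h => haA' (h ▸ hc)
          rw [hvw c (by simpa using hca)]
          exact hy1 c (hA'A hc)
        · intro i
          rw [hvw (z i) (by simpa using (haz i).symm)]
          exact hy2 i
      · rintro ⟨h1, y, hy, hy1, hy2⟩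
        refine ⟨?_, fun c => if c = a then y a else w c, ?_, ?_⟩
        · intro c hc
          apply h1
          rw [LM.del_E, Finset.mem_sdiff]
          exact fun h3 => h3.2 hc
        · rw [hP.mem]
          refine ⟨?_, y, hy, ?_, ?_⟩
          · intro c hc
            have hca : c ≠ a := by
              rintro rfl
              apply hc
              rw [hP.E_eq]
              exact Finset.mem_union_left _ ha
            rw [if_neg hca]
            apply h1
            rw [LM.del_E, Finset.mem_sdiff]
            exact fun h3 => hc h3.1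
          · intro c hc
            by_cases hca : c = a
            · rw [if_pos hca, hca]
            · rw [if_neg hca]
              exact hy1 c (by simp [hA', hc, hca])
          · intro i
            rw [if_neg (haz i).symm]
            exact hy2 i
        · intro c hc
          have hca : c ≠ a := by simpa using hc
          exact (if_neg hca).symm
  have hgr : Graphic (P.del {a}) := hGP.graphic hG' hT' hPd
  refine hng ⟨R', S'', z, P, hG, hT', hP, graphic_of_parallel (haz j) ?_ ?_ hgr⟩
  · rw [hP.E_eq]
    exact Finset.mem_union_right _ (Finset.mem_image_of_mem _ (Finset.mem_univ _))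
  · intro w hw
    obtain ⟨-, y, hy, hy1, hy2⟩ := (hP.mem w).1 hw
    rw [hy1 a ha, hy2 j, ← hj y hy]
    exact hcon y hy

end Pool.Agent.H87.Sey
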