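import Pool.Agent.H87.Sey.GP

/-!
# A minimal nongraphic part: contraction of the triangle (Seymour project, MP_dbe88a_co, job S87-9c)
-/

set_option autoImplicit false

namespace Pool.Agent.H87.Sey

open Pool.Agent.H63.Sey

universe u

variable {α : Type u} [DecidableEq α]

/-- an element in the closure of a triangle is a loop or parallel to one of its elements -/
lemma nonsep_cl {P : BM α} {z : Fin 3 → α} (hz : Function.Injective z)
    (ht : ∀ x ∈ P.D, x (z 0) + x (z 1) + x (z 2) = 0) {a : α}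
    (ha : P.InCl (Finset.univ.image z) a) :
    (∀ y ∈ P.D, y a = 0) ∨ ∃ i, ∀ y ∈ P.D, y a = y (z i) := by
  classical
  obtain ⟨T, hT, h⟩ := exists_sum_of_inCl P ha
  have h1 : ∀ y : α → ZMod 2, ∑ b ∈ T, y b = (if z 0 ∈ T then y (z 0) else 0) +
      (if z 1 ∈ T then y (z 1) else 0) + (if z 2 ∈ T then y (z 2) else 0) := by
    intro y
    have e1 : T = (Finset.univ.image z).filter (fun c => c ∈ T) := by
      ext c
      rw [Finset.mem_filter]
      exact ⟨fun h => ⟨hT h, h⟩, fun h => h.2⟩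
    have e2 : ∑ c ∈ T, y c = ∑ c ∈ Finset.univ.image z, if c ∈ T then y c else 0 := by
      conv_lhs => rw [e1]
      rw [Finset.sum_filter]
    rw [e2, Finset.sum_image fun i _ j _ hij => hz hij, Fin.sum_univ_three]
  have k1 : ∀ p q r : ZMod 2, p + q + r = 0 → p + q = r ∧ p + r = q ∧ q + r = p := by decide
  by_cases h0 : z 0 ∈ T <;> by_cases h1' : z 1 ∈ T <;> by_cases h2 : z 2 ∈ T
  · left
    intro y hy
    rw [h y hy, h1, if_pos h0, if_pos h1', if_pos h2]
    exact ht y hy
  · right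
    refine ⟨2, fun y hy => ?_⟩
    rw [h y hy, h1, if_pos h0, if_pos h1', if_neg h2, add_zero]
    exact (k1 _ _ _ (ht y hy)).1
  · right
    refine ⟨1, fun y hy => ?_⟩
    rw [h y hy, h1, if_pos h0, if_neg h1', if_pos h2, add_zero]
    exact (k1 _ _ _ (ht y hy)).2.1
  · right
    refine ⟨0, fun y hy => ?_⟩
    rw [h y hy, h1, if_pos h0, if_neg h1', if_neg h2, add_zero, add_zero]
  · right
    refine ⟨0, fun y hy => ?_⟩
    rw [h y hy, h1, if_neg h0, if_pos h1', if_pos h2, zero_add]
    exact (k1 _ _ _ (ht y hy)).2.2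
  · right
    refine ⟨1, fun y hy => ?_⟩
    rw [h y hy, h1, if_neg h0, if_pos h1', if_neg h2, add_zero, zero_add]
  · right
    refine ⟨2, fun y hy => ?_⟩
    rw [h y hy, h1, if_neg h0, if_neg h1', if_pos h2, add_zero, zero_add]
  · left
    intro y hy
    rw [h y hy, h1, if_neg h0, if_neg h1', if_neg h2, add_zero, add_zero]

/-- in a `3`-connected matroid no element outside a triangle is in the closure of the triangle -/
lemma nonsep_not_cl {P : BM α} {z : Fin 3 → α} (hz : Function.Injective z) (hzE : ∀ i, z i ∈ P.E)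
    (ht : ∀ x ∈ P.D, x (z 0) + x (z 1) + x (z 2) = 0) (hc : P.Conn3) {a : α} (haE : a ∈ P.E)
    (haz : ∀ i, z i ≠ a) : ¬ P.InCl (Finset.univ.image z) a := by
  intro hcl
  rcases nonsep_cl hz ht hcl with h | ⟨i, h⟩
  · have h1 := hc.1 {a} (Finset.singleton_subset_iff.2 haE) (Finset.singleton_nonempty a)
      ⟨z 0, Finset.mem_sdiff.2 ⟨hzE 0, by rw [Finset.mem_singleton]; exact haz 0⟩⟩
    have h2 : P.rk (insert a (∅ : Finset α)) = P.rk ∅ := by
      rw [← P.inCl_iff_rk]
      exact fun y hy _ => h y hy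
    rw [P.rk_empty, insert_empty_eq] at h2
    have h3 := P.lam_add {a}
    have h4 := P.rk_le_E (P.E \ {a})
    omega
  · have hcard : ({a, z i} : Finset α).card = 2 := Finset.card_pair (haz i).symm
    have hsub : ({a, z i} : Finset α) ⊆ P.E := by
      intro b hb
      rw [Finset.mem_insert, Finset.mem_singleton] at hb
      rcases hb with rfl | rfl
      · exact haE
      · exact hzE i
    have hjk3 : ∀ i : Fin 3, ∃ j k : Fin 3, j ≠ i ∧ k ≠ i ∧ j ≠ k := by decide
    obtain ⟨j, k, hij, hik, hjk⟩ := hjk3 i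
    have hcard' : 2 ≤ (P.E \ {a, z i}).card := by
      have e1 : ({z j, z k} : Finset α) ⊆ P.E \ {a, z i} := by
        intro b hb
        rw [Finset.mem_insert, Finset.mem_singleton] at hb
        rw [Finset.mem_sdiff, Finset.mem_insert, Finset.mem_singleton]
        rcases hb with rfl | rfl
        · exact ⟨hzE j, fun h' => h'.elim (haz j) (fun h'' => hij (hz h''))⟩
        · exact ⟨hzE k, fun h' => h'.elim (haz k) (fun h'' => hik (hz h''))⟩
      have e2 := Finset.card_le_card e1
      rw [Finset.card_pair (fun h' => hjk (hz h'))] at e2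
      exact e2
    have h1 := hc.2 {a, z i} hsub (by omega) hcard'
    have h2 : P.rk (insert a ({z i} : Finset α)) = P.rk {z i} := by
      rw [← P.inCl_iff_rk]
      intro y hy hy0
      rw [h y hy]
      exact hy0 _ (Finset.mem_singleton_self _)
    have h3 := P.lam_add {a, z i}
    have h4 := P.rk_le_E (P.E \ {a, z i})
    have h5 := P.rk_le_card {z i}
    rw [Finset.card_singleton] at h5
    omega

/-- one side of a separation of the contraction of the triangle gives a graphic part -/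
lemma nonsep_side {M P : BM α} {A : Finset α} (hA : A ⊆ M.E) {R S : Fin 3 → Finset α}
    {z : Fin 3 → α} (h : Guts M A R S) (ht : Tri M R) (hP : IsPart M P A z R) (hc : P.Conn3)
    (htz : ∀ x ∈ P.D, x (z 0) + x (z 1) + x (z 2) = 0)
    (hmin : ∀ A₁ ⊆ A, A₁ ≠ A → M.lam A₁ = 2 → GP M A₁)
    {B : Finset α} (hB : B ⊆ A) (hBne : B.Nonempty) (hBA : (A \ B).Nonempty)
    (hrk : P.rk (B ∪ Finset.univ.image z) + P.rk ((A \ B) ∪ Finset.univ.image z) =
      P.rk P.E + P.rk (Finset.univ.image z)) : Graphic (P.del (A \ B)) := by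
  classical
  set Z : Finset α := Finset.univ.image z with hZ
  have hE : P.E = A ∪ Z := hP.E_eq
  have hzZ : ∀ i, z i ∈ Z := fun i => Finset.mem_image_of_mem z (Finset.mem_univ i)
  have hzE : ∀ i, z i ∈ P.E := fun i => by rw [hE]; exact Finset.mem_union_right _ (hzZ i)
  have hAE : ∀ a ∈ A, a ∈ P.E := fun a ha => by rw [hE]; exact Finset.mem_union_left _ ha
  have hZA : ∀ a ∈ Z, a ∉ A := by
    intro a ha
    obtain ⟨i, -, rfl⟩ := Finset.mem_image.1 ha
    exact hP.z_nmem i
  -- the rank of the triangle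
  have hrZ : P.rk Z ≤ 2 := by
    have e1 : Z = insert (z 2) {z 0, z 1} := by
      ext a
      simp only [hZ, Finset.mem_image, Finset.mem_univ, true_and, Finset.mem_insert,
        Finset.mem_singleton]
      constructor
      · rintro ⟨i, rfl⟩
        fin_cases i
        · exact Or.inr (Or.inl rfl)
        · exact Or.inr (Or.inr rfl)
        · exact Or.inl rfl
      · rintro (rfl | rfl | rfl)
        · exact ⟨2, rfl⟩
        · exact ⟨0, rfl⟩
        · exact ⟨1, rfl⟩
    have e2 : P.rk (insert (z 2) ({z 0, z 1} : Finset α)) = P.rk {z 0, z 1} := by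
      rw [← P.inCl_iff_rk]
      intro y hy hy0
      have h1 := htz y hy
      rw [hy0 (z 0) (by simp), hy0 (z 1) (by simp), add_zero, zero_add] at h1
      exact h1
    rw [e1, e2]
    exact (P.rk_le_card _).trans Finset.card_le_two
  have hEB : P.E \ B = (A \ B) ∪ Z := by
    rw [hE]
    ext a
    have h1 := hZA a
    have h2 := @hB a
    simp only [Finset.mem_sdiff, Finset.mem_union]
    tauto
  have hBE : B ⊆ P.E := fun a ha => hAE a (hB ha)
  have hl := P.lam_add B
  rw [hEB] at hl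
  -- `B` has at least two elements
  have hcard : 2 ≤ B.card := by
    by_contra hcon
    have hB1 : B.card = 1 := by
      have := Finset.card_pos.2 hBne
      omega
    obtain ⟨a, rfl⟩ := Finset.card_eq_one.1 hB1
    have haA : a ∈ A := hB (Finset.mem_singleton_self a)
    have h1 := nonsep_not_cl hP.inj hzE htz hc (hAE a haA)
      (fun i hi => hP.z_nmem i (hi ▸ haA))
    rw [P.inCl_iff_rk, ← hZ] at h1
    have h2 := P.rk_mono (Finset.subset_insert a Z)
    have h3 : ({a} : Finset α) ∪ Z = insert a Z := rfl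
    rw [h3] at hrk
    have h4 := hc.1 {a} hBE hBne ⟨z 0, by rw [hEB]; exact Finset.mem_union_right _ (hzZ 0)⟩
    have h5 := P.rk_le_card {a}
    rw [Finset.card_singleton] at h5
    omega
  have hcard' : 2 ≤ (P.E \ B).card := by
    have e1 : Z ⊆ P.E \ B := by
      rw [hEB]
      exact Finset.subset_union_right
    have e2 := Finset.card_le_card e1
    rw [hZ, Finset.card_image_of_injective _ hP.inj, Finset.card_univ, Fintype.card_fin] at e2
    omega
  have h1 := hc.2 B hBE hcard hcard'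
  have h2 := P.rk_mono (Finset.subset_union_left (s₁ := B) (s₂ := Z))
  have hBZ : P.rk (B ∪ Z) = P.rk B := by omega
  have hlB : P.lam B = 2 := by omega
  have hlM : M.lam B = 2 := by rw [← hP.lam_eq3 hA h ht hB, hlB]
  -- the new guts
  have hcl : ∀ i, P.InCl B (z i) := fun i =>
    P.inCl_of_rk_le Finset.subset_union_left hBZ.le (Finset.mem_union_right _ (hzZ i))
  choose R₁ hR₁ hR₁' using fun i => exists_sum_of_inCl P (hcl i)
  have hRR : ∀ i, ∀ y ∈ M.D, ∑ a ∈ R₁ i, y a = ∑ a ∈ R i, y a := by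
    intro i y hy
    obtain ⟨w, hw, w1, w2⟩ := hP.exists_ext hy
    rw [← w2 i, hR₁' i w hw]
    exact Finset.sum_congr rfl fun a ha => (w1 a (hB (hR₁ i ha))).symm
  have hBM : B ⊆ M.E := fun a ha => hA (hB ha)
  have ht₁ : Tri M R₁ := by
    intro y hy
    rw [hRR 0 y hy, hRR 1 y hy, hRR 2 y hy]
    exact ht y hy
  have hG₁ : Guts M B R₁ S := by
    refine guts3_of hBM hlM hR₁ (fun i a ha => ?_) (fun i y hy => ?_) (fun i => ?_) ht₁
    · have h3 := Finset.mem_sdiff.1 (h.S_sub i ha)
      exact Finset.mem_sdiff.2 ⟨h3.1, fun h4 => h3.2 (hB h4)⟩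
    · rw [hRR i y hy]
      exact h.eq i y hy
    · obtain ⟨y, hy, hy'⟩ := h.nz i
      exact ⟨y, hy, by rw [hRR i y hy]; exact hy'⟩
  have hP₁ : IsPart M (P.del (A \ B)) B z R₁ := by
    refine ⟨hP.inj, fun i hi => hP.z_nmem i (hB hi), ?_, fun w => ?_⟩
    · show P.E \ (A \ B) = B ∪ Z
      rw [hE]
      ext a
      have h3 := hZA a
      have h4 := @hB a
      simp only [Finset.mem_sdiff, Finset.mem_union]
      tauto
    · have hE₁ : ∀ a, a ∈ (P.del (A \ B)).E ↔ a ∈ P.E ∧ a ∉ A \ B := by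
        intro a
        rw [LM.del_E, Finset.mem_sdiff]
      rw [LM.mem_del]
      constructor
      · rintro ⟨h0, x, hx, hwx⟩
        obtain ⟨hx0, y, hy, y1, y2⟩ := (hP.mem x).1 hx
        refine ⟨fun a ha => ?_, y, hy, fun a ha => ?_, fun i => ?_⟩
        · by_cases ha' : a ∈ A \ B
          · exact h0 a ha'
          · rw [hwx a ha']
            apply hx0
            intro h3
            exact ha ((hE₁ a).2 ⟨h3, ha'⟩)
        · rw [hwx a (fun h3 => (Finset.mem_sdiff.1 h3).2 ha)]
          exact y1 a (hB ha)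
        · rw [hwx (z i) (fun h3 => hP.z_nmem i (Finset.mem_sdiff.1 h3).1), y2 i, hRR i y hy]
      · rintro ⟨h0, y, hy, y1, y2⟩
        obtain ⟨x, hx, x1, x2⟩ := hP.exists_ext hy
        refine ⟨fun a ha => ?_, x, hx, fun a ha => ?_⟩
        · apply h0
          intro h3
          exact ((hE₁ a).1 h3).2 ha
        · by_cases haE : a ∈ P.E
          · have haE' := haE
            rw [hE, Finset.mem_union] at haE'
            rcases haE' with h3 | h3
            · have haB : a ∈ B := by
                by_contra h4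
                exact ha (Finset.mem_sdiff.2 ⟨h3, h4⟩)
              rw [y1 a haB, x1 a h3]
            · obtain ⟨i, -, rfl⟩ := Finset.mem_image.1 h3
              rw [y2 i, x2 i, hRR i y hy]
          · rw [P.supp x hx a haE]
            apply h0
            intro h3
            exact haE ((hE₁ a).1 h3).1
  have hne : B ≠ A := by
    rintro rfl
    rw [Finset.sdiff_self] at hBA
    exact Finset.not_nonempty_empty hBA
  exact (hmin B hB hne hlM).graphic hG₁ ht₁ hP₁

/-- In a minimal nongraphic part `P` (`3`-connected), the contraction of the triangle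
`Z = {z 0, z 1, z 2}` is connected. Suppose `A = A₁ ∪ A₂` and `(P.con Z).lam A₁ = 0`; then
`P.rk (A₁ ∪ Z) + P.rk (A₂ ∪ Z) = P.rk P.E + 2`, so a vector is a cocycle of `P` iff its
restrictions to `A₁ ∪ Z` and `A₂ ∪ Z` are restrictions of cocycles; by `glue3_keep` one of
`P.del A₁`, `P.del A₂` is not graphic, say `P.del A₂`. `|A₁| ≥ 2` (if `A₁ = {a}` then either `a`
is in the closure of `Z`, contradicting `P.Conn3`, or `P.rk (A₂ ∪ Z) < P.rk P.E` and `a` is a
coloop). So `P.lam A₁ = 2` by `Conn3` and `P.rk A₁ = P.rk (A₁ ∪ Z)`: the `z i` are sums of subsets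
`R₁ i` of `A₁`, `R₁, S` are guts of `M` at `A₁` (`guts3_of`, `M.lam A₁ = P.lam A₁`) and
`P.del A₂` is the part of `M` on `A₁`, contradicting `hmin`. -/
theorem nonsep_of_min {M P : BM α} {A : Finset α} (hA : A ⊆ M.E) {R S : Fin 3 → Finset α}
    {z : Fin 3 → α} (h : Guts M A R S) (ht : Tri M R) (hP : IsPart M P A z R) (hc : P.Conn3)
    (hng : ¬ Graphic P) (hmin : ∀ A₁ ⊆ A, A₁ ≠ A → M.lam A₁ = 2 → GP M A₁) :
    ∀ A₁ ⊆ A, A₁.Nonempty → A₁ ≠ A → 1 ≤ (P.con (Finset.univ.image z)).lam A₁ := by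
  classical
  intro A₁ hA₁ hne hneA
  by_contra hcon
  have hl0 : (P.con (Finset.univ.image z)).lam A₁ = 0 := by omega
  apply hng
  set Z : Finset α := Finset.univ.image z with hZ
  have hE : P.E = A ∪ Z := hP.E_eq
  have hzZ : ∀ i, z i ∈ Z := fun i => Finset.mem_image_of_mem z (Finset.mem_univ i)
  have hzE : ∀ i, z i ∈ P.E := fun i => by rw [hE]; exact Finset.mem_union_right _ (hzZ i)
  have hZA : ∀ a ∈ Z, a ∉ A := by
    intro a ha
    obtain ⟨i, -, rfl⟩ := Finset.mem_image.1 ha
    exact hP.z_nmem i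
  have htz : ∀ x ∈ P.D, x (z 0) + x (z 1) + x (z 2) = 0 := by
    intro x hx
    obtain ⟨-, y, hy, -, y2⟩ := (hP.mem x).1 hx
    rw [y2, y2, y2]
    exact ht y hy
  have hnz : ∀ i, ∃ x ∈ P.D, x (z i) ≠ 0 := by
    intro i
    obtain ⟨y, hy, hy'⟩ := h.nz i
    obtain ⟨w, hw, -, w2⟩ := hP.exists_ext hy
    exact ⟨w, hw, by rw [w2 i]; exact hy'⟩
  have hEZ : (P.con Z).E = A := by
    show P.E \ Z = A
    rw [hE]
    ext a
    have h1 := hZA a
    simp only [Finset.mem_sdiff, Finset.mem_union]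
    tauto
  have hA₂ : (A \ A₁).Nonempty := by
    rw [Finset.nonempty_iff_ne_empty]
    intro h1
    exact hneA (Finset.Subset.antisymm hA₁ (Finset.sdiff_eq_empty_iff_subset.1 h1))
  have hrk : P.rk (A₁ ∪ Z) + P.rk ((A \ A₁) ∪ Z) = P.rk P.E + P.rk Z := by
    have e1 := (P.con Z).lam_add A₁
    rw [hEZ, hl0] at e1
    have e2 := P.rk_con Z A₁
    have e3 := P.rk_con Z (A \ A₁)
    have e4 := P.rk_con Z A
    rw [← hE] at e4
    omega
  have hAA : A \ (A \ A₁) = A₁ := Finset.sdiff_sdiff_eq_self hA₁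
  have g1 : Graphic (P.del (A \ A₁)) :=
    nonsep_side hA h ht hP hc htz hmin hA₁ hne hA₂ hrk
  have g2 : Graphic (P.del A₁) := by
    have := nonsep_side hA h ht hP hc htz hmin (B := A \ A₁) Finset.sdiff_subset hA₂
      (by rw [hAA]; exact hne) (by rw [hAA, add_comm]; exact hrk)
    rwa [hAA] at this
  refine glue3_keep (A := A₁) (B := A \ A₁) hP.inj (fun i hi => hP.z_nmem i (hA₁ hi))
    (fun i hi => hP.z_nmem i (Finset.mem_sdiff.1 hi).1) Finset.disjoint_sdiff ?_ htz hnz ?_ g1 g2
  · rw [Finset.union_sdiff_of_subset hA₁]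
    exact hE
  · intro y hy0 hy1 hy2
    obtain ⟨x1, hx1, e1⟩ := hy1
    obtain ⟨x2, hx2, e2⟩ := hy2
    have hA₁Z : A₁ ⊆ (P.con Z).E := by
      rw [hEZ]
      exact hA₁
    have hd : x2 - x1 ∈ (P.con Z).D := by
      rw [LM.mem_con]
      refine ⟨P.D.sub_mem hx2 hx1, fun a ha => ?_⟩
      have haA := hZA a ha
      rw [Pi.sub_apply, ← e2 a (fun h3 => haA (hA₁ h3)),
        ← e1 a (fun h3 => haA (Finset.mem_sdiff.1 h3).1), sub_self]
    have hy' : y - x1 ∈ (P.con Z).D := by
      rw [mem_iff_of_lam_zero hA₁Z hl0]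
      refine ⟨fun a ha => ?_, ⟨0, (P.con Z).D.zero_mem, fun a ha => ?_⟩,
        ⟨x2 - x1, hd, fun a ha => ?_⟩⟩
      · rw [hEZ] at ha
        rw [Pi.sub_apply, ← e1 a (fun h3 => ha (Finset.mem_sdiff.1 h3).1), sub_self]
      · rw [Pi.sub_apply, ← e1 a (fun h3 => (Finset.mem_sdiff.1 h3).2 ha), sub_self]
        rfl
      · rw [hEZ] at ha
        rw [Pi.sub_apply, Pi.sub_apply, ← e2 a (Finset.mem_sdiff.1 ha).2]
    have h3 := ((P.mem_con).1 hy').1
    have h4 := P.D.add_mem h3 hx1
    rwa [sub_add_cancel] at h4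

end Pool.Agent.H87.Sey
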