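import Pool.Agent.H87.Sey.Parts2

/-!
# A part of a 3-connected matroid is 3-connected (Seymour project, MP_dbe88a_co, job S87-8)
-/

set_option autoImplicit false

namespace Pool.Agent.H87.Sey

open Pool.Agent.H63.Sey

universe u

variable {α : Type u} [DecidableEq α]

namespace PartConnAux

lemma extend {k : ℕ} {M P : BM α} {A : Finset α} {R : Fin k → Finset α} {z : Fin k → α}
    (hP : IsPart M P A z R) {y : α → ZMod 2} (hy : y ∈ M.D) :
    ∃ w ∈ P.D, (∀ a ∈ A, w a = y a) ∧ ∀ i, w (z i) = ∑ a ∈ R i, y a := by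
  classical
  let w : α → ZMod 2 := fun b => if b ∈ A then y b else
    if h : ∃ i, z i = b then ∑ a ∈ R h.choose, y a else 0
  have h1 : ∀ a ∈ A, w a = y a := fun a ha => if_pos ha
  have h2 : ∀ i, w (z i) = ∑ a ∈ R i, y a := by
    intro i
    have h : ∃ j, z j = z i := ⟨i, rfl⟩
    have hi : h.choose = i := hP.inj h.choose_spec
    simp only [w]
    rw [if_neg (hP.z_nmem i), dif_pos h, hi]
  have h3 : ∀ a, a ∉ P.E → w a = 0 := by
    intro a ha
    rw [hP.E_eq, Finset.mem_union, not_or] at ha
    have h : ¬ ∃ i, z i = a := fun ⟨i, hi⟩ => ha.2 (Finset.mem_image.2 ⟨i, Finset.mem_univ _, hi⟩)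
    simp only [w]
    rw [if_neg ha.1, dif_neg h]
  exact ⟨w, (hP.mem w).2 ⟨h3, y, hy, h1, h2⟩, h1, h2⟩

lemma tri_P {M P : BM α} {A : Finset α} {R : Fin 3 → Finset α} {z : Fin 3 → α} (ht : Tri M R)
    (hP : IsPart M P A z R) {w : α → ZMod 2} (hw : w ∈ P.D) :
    w (z 0) + w (z 1) + w (z 2) = 0 := by
  obtain ⟨_, y, hy, _, h2⟩ := (hP.mem w).1 hw
  rw [h2, h2, h2]
  exact ht y hy

lemma inCl_z {M P : BM α} {A : Finset α} {R : Fin 3 → Finset α} {z : Fin 3 → α} (ht : Tri M R)
    (hP : IsPart M P A z R) {Y : Finset α} (i : Fin 3) (h : ∀ j, j ≠ i → z j ∈ Y) :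
    P.InCl Y (z i) := by
  intro w hw h0
  have h1 := tri_P ht hP hw
  fin_cases i
  · have a1 := h0 _ (h 1 (by decide))
    have a2 := h0 _ (h 2 (by decide))
    rw [a1, a2, add_zero, add_zero] at h1
    exact h1
  · have a1 := h0 _ (h 0 (by decide))
    have a2 := h0 _ (h 2 (by decide))
    rw [a1, a2, add_zero, zero_add] at h1
    exact h1
  · have a1 := h0 _ (h 0 (by decide))
    have a2 := h0 _ (h 1 (by decide))
    rw [a1, a2, add_zero, zero_add] at h1
    exact h1

lemma core {M P : BM α} (hM : M.Conn3) {A : Finset α} (hA : A ⊆ M.E)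
    {R S : Fin 3 → Finset α} {z : Fin 3 → α} (h : Guts M A R S) (ht : Tri M R)
    (hP : IsPart M P A z R) (hB : 2 ≤ (M.E \ A).card)
    (hpar : ∀ a ∈ A, ∀ i, ∃ y ∈ M.D, y a ≠ ∑ b ∈ R i, y b) (i : Fin 3) {X : Finset α}
    (hX : X ⊆ P.E) (hXz : ∀ j, j ≠ i → z j ∉ X) :
    (X.Nonempty → 1 ≤ P.lam X) ∧ (2 ≤ X.card → 2 ≤ P.lam X) := by
  classical
  have hsubA : ∀ b ∈ X, b ≠ z i → b ∈ A := by
    intro b hb hbz
    have h1 := hX hb
    rw [hP.E_eq, Finset.mem_union, Finset.mem_image] at h1
    rcases h1 with h1 | ⟨j, _, hj⟩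
    · exact h1
    · exfalso
      have hji : j ≠ i := fun hh => hbz (by rw [← hj, hh])
      exact hXz j hji (hj ▸ hb)
  have hMne : ∀ X : Finset α, X ⊆ A → (M.E \ X).Nonempty := by
    intro X hX
    have h1 : (M.E \ A).Nonempty := Finset.card_pos.1 (by omega)
    exact h1.mono (Finset.sdiff_subset_sdiff (Finset.Subset.refl _) hX)
  have hMc : ∀ X : Finset α, X ⊆ A → 2 ≤ (M.E \ X).card := by
    intro X hX
    exact hB.trans (Finset.card_le_card (Finset.sdiff_subset_sdiff (Finset.Subset.refl _) hX))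
  by_cases hzi : z i ∈ X
  · -- `z i ∈ X`
    have hX'A : X.erase (z i) ⊆ A := fun b hb =>
      hsubA b (Finset.mem_of_mem_erase hb) (Finset.ne_of_mem_erase hb)
    have hins : insert (z i) (X.erase (z i)) = X := Finset.insert_erase hzi
    have hcl : P.InCl (P.E \ X) (z i) := by
      refine inCl_z ht hP i fun j hj => ?_
      rw [Finset.mem_sdiff]
      refine ⟨?_, hXz j hj⟩
      rw [hP.E_eq, Finset.mem_union, Finset.mem_image]
      exact Or.inr ⟨j, Finset.mem_univ _, rfl⟩
    have hrk1 := P.inCl_iff_rk.1 hcl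
    have hE : P.E \ X.erase (z i) = insert (z i) (P.E \ X) := by
      rw [Finset.sdiff_erase (hX hzi)]
    have l1 := P.lam_add X
    have l2 := P.lam_add (X.erase (z i))
    rw [hE, hrk1] at l2
    have l3 : P.rk (X.erase (z i)) ≤ P.rk X := P.rk_mono (Finset.erase_subset _ _)
    have l4 := IsPart.lam_eq3 hA h ht hP hX'A
    -- the rank of `{z i}`
    have hz0 : ¬ P.InCl ∅ (z i) := by
      intro hcon
      obtain ⟨y, hy, hy'⟩ := h.nz i
      obtain ⟨w, hw, _, hw2⟩ := extend hP hy
      apply hy'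
      rw [← hw2 i]
      exact hcon w hw (fun b hb => absurd hb (Finset.notMem_empty b))
    have hz1 : P.rk {z i} = 1 := by
      have a1 := P.rk_le_card {z i}
      rw [Finset.card_singleton] at a1
      have a2 : P.rk {z i} ≠ 0 := by
        intro hcon
        apply hz0
        rw [P.inCl_iff_rk, P.rk_empty]
        exact hcon
      omega
    have hc : X.card = (X.erase (z i)).card + 1 := by
      rw [Finset.card_erase_of_mem hzi]
      have := Finset.card_pos.2 ⟨_, hzi⟩
      omega
    rcases Nat.lt_or_ge (X.erase (z i)).card 2 with hlt | hge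
    · rcases Nat.eq_zero_or_pos (X.erase (z i)).card with h0 | hpos
      · -- `X = {z i}`
        have he := Finset.card_eq_zero.1 h0
        have hXe : X = {z i} := by
          rw [← hins, he]
          rfl
        have a1 : P.rk (P.E \ X) = P.rk P.E := by
          rw [← hrk1, ← hE, he, Finset.sdiff_empty]
        rw [hXe] at l1 a1
        rw [a1, hz1] at l1
        constructor
        · intro _
          rw [hXe]
          omega
        · intro hcard
          omega
      · -- `X = {a, z i}`
        obtain ⟨a, ha⟩ := Finset.card_eq_one.1 (show (X.erase (z i)).card = 1 by omega)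
        have haA : a ∈ A := hX'A (by rw [ha]; exact Finset.mem_singleton_self a)
        have hla : 1 ≤ M.lam {a} :=
          hM.1 {a} (Finset.singleton_subset_iff.2 (hA haA)) (Finset.singleton_nonempty a)
            (hMne _ (Finset.singleton_subset_iff.2 haA))
        have hna : ¬ P.InCl {z i} a := by
          intro hcon
          obtain ⟨R0, hR0, hR1⟩ := exists_sum_of_inCl P hcon
          rcases Finset.subset_singleton_iff.1 hR0 with h1 | h1
          · -- `a` is a loop
            have hl : M.InCl ∅ a := by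
              intro y hy _
              obtain ⟨w, hw, hw1, _⟩ := extend hP hy
              have := hR1 w hw
              rw [h1, Finset.sum_empty, hw1 a haA] at this
              exact this
            have a1 := M.inCl_iff_rk.1 hl
            rw [M.rk_empty] at a1
            have a2 := M.lam_add {a}
            have a3 : M.rk {a} = 0 := a1
            have a4 := M.rk_le_E (M.E \ {a})
            omega
          · obtain ⟨y, hy, hy'⟩ := hpar a haA i
            obtain ⟨w, hw, hw1, hw2⟩ := extend hP hy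
            have := hR1 w hw
            rw [h1, Finset.sum_singleton, hw1 a haA, hw2 i] at this
            exact hy' this
        have a1 : P.rk (insert a {z i}) ≠ P.rk {z i} := fun hh => hna (P.inCl_iff_rk.2 hh)
        have a2 : P.rk {z i} ≤ P.rk (insert a {z i}) := P.rk_mono (Finset.subset_insert _ _)
        have hXe : X = insert a {z i} := by
          rw [← hins, ha, Finset.pair_comm]
        rw [← hXe] at a1 a2
        rw [ha] at l2 l4
        have a3 := P.rk_le_card {a}
        rw [Finset.card_singleton] at a3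
        constructor
        · intro _
          omega
        · intro _
          omega
    · have hlam := hM.2 (X.erase (z i)) (hX'A.trans hA) hge (hMc _ hX'A)
      constructor
      · intro _
        omega
      · intro _
        omega
  · have hXA : X ⊆ A := fun b hb => hsubA b hb (fun hh => hzi (hh ▸ hb))
    rw [IsPart.lam_eq3 hA h ht hP hXA]
    exact ⟨fun hne => hM.1 X (hXA.trans hA) hne (hMne _ hXA),
      fun hcard => hM.2 X (hXA.trans hA) hcard (hMc _ hXA)⟩

lemma maj (X : Finset α) (z : Fin 3 → α) :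
    (∃ i, ∀ j, j ≠ i → z j ∉ X) ∨ (∃ i, ∀ j, j ≠ i → z j ∈ X) := by
  by_cases h0 : z 0 ∈ X <;> by_cases h1 : z 1 ∈ X <;> by_cases h2 : z 2 ∈ X
  · right; refine ⟨0, fun j hj => ?_⟩; fin_cases j <;> simp_all
  · right; refine ⟨2, fun j hj => ?_⟩; fin_cases j <;> simp_all
  · right; refine ⟨1, fun j hj => ?_⟩; fin_cases j <;> simp_all
  · left; refine ⟨0, fun j hj => ?_⟩; fin_cases j <;> simp_all
  · right; refine ⟨0, fun j hj => ?_⟩; fin_cases j <;> simp_all
  · left; refine ⟨1, fun j hj => ?_⟩; fin_cases j <;> simp_all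
  · left; refine ⟨2, fun j hj => ?_⟩; fin_cases j <;> simp_all
  · left; refine ⟨0, fun j hj => ?_⟩; fin_cases j <;> simp_all

end PartConnAux

open PartConnAux in
/-- If no element of `A` is at a guts point, then the part is `3`-connected.
Let `X ⊆ P.E = A ∪ Z`, `Z = {z 0, z 1, z 2}`; by `lam_compl` we may assume `|X ∩ Z| ≤ 1`.
If `X ⊆ A`, use `IsPart.lam_eq3`. If `X ∩ Z = {z i}`, then `z i` is in the closure of the
complement `Y` (it is the sum of the other two), so `P.lam X ≥ P.lam (X \ {z i})`, which is at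
least `2` if `|X| ≥ 3`. If `X = {a, z i}` then `P.rk X = 2` (`a` is no loop and not parallel to
`z i`) and `P.rk Y = P.rk (P.E \ {a}) = P.rk P.E` because `P.lam {a} = M.lam {a} ≥ 1`. If
`X = {z i}` then `P.rk X = 1`. -/
theorem part_conn3 {M P : BM α} (hM : M.Conn3) {A : Finset α} (hA : A ⊆ M.E)
    {R S : Fin 3 → Finset α} {z : Fin 3 → α} (h : Guts M A R S) (ht : Tri M R)
    (hP : IsPart M P A z R) (hB : 2 ≤ (M.E \ A).card)
    (hpar : ∀ a ∈ A, ∀ i, ∃ y ∈ M.D, y a ≠ ∑ b ∈ R i, y b) : P.Conn3 := by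
  have hc : ∀ X ⊆ P.E, ∀ i, (∀ j, j ≠ i → z j ∈ X) →
      (((P.E \ X).Nonempty → 1 ≤ P.lam X) ∧ (2 ≤ (P.E \ X).card → 2 ≤ P.lam X)) := by
    intro X hX i hi
    rw [← P.lam_compl X hX]
    exact core hM hA h ht hP hB hpar i Finset.sdiff_subset
      (fun j hj hcon => (Finset.mem_sdiff.1 hcon).2 (hi j hj))
  constructor
  · intro X hX h1 h2
    rcases maj X z with ⟨i, hi⟩ | ⟨i, hi⟩
    · exact (core hM hA h ht hP hB hpar i hX hi).1 h1
    · exact (hc X hX i hi).1 h2
  · intro X hX h1 h2
    rcases maj X z with ⟨i, hi⟩ | ⟨i, hi⟩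
    · exact (core hM hA h ht hP hB hpar i hX hi).2 h1
    · exact (hc X hX i hi).2 h2

end Pool.Agent.H87.Sey
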