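import Pool.Agent.H87.Sey.GraphBasic
import Pool.Agent.H63.Sey.Conc

/-!
# `M*(K33)` and `M*(K5)` are not graphic (Seymour project, MP_dbe88a_co, job S87-18)
-/

set_option autoImplicit false

namespace Pool.Agent.H87.Sey

open Pool.Agent.H63.Sey

universe u

variable {α : Type u} [DecidableEq α]

/-- Counting. If `M` is graphic, the nonzero stars span `M.D` and their sum is zero, so there are
at least `rk + 1` of them; every nonzero cocycle has at least `d` elements; every element is in at
most two stars. -/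
theorem not_graphic_of_count {M : BM α} {d : ℕ} (h0 : ∃ x ∈ M.D, x ≠ 0)
    (hd : ∀ x ∈ M.D, x ≠ 0 → d ≤ (M.E.filter fun a => x a ≠ 0).card)
    (hc : 2 * M.E.card < (Module.finrank (ZMod 2) M.D + 1) * d) : ¬ Graphic M := by
  classical
  rintro ⟨n, f, g, hM⟩
  have hD : M.D = LinearMap.range (cob M.E f g) := by
    conv_lhs => rw [hM]
    rfl
  -- the stars
  set s : Fin n → α → ZMod 2 := fun v => cob M.E f g (Pi.single v 1) with hs
  have hsD : ∀ v, s v ∈ M.D := fun v => by
    rw [hD]
    exact ⟨_, rfl⟩
  have hsum : ∑ v, s v = 0 := by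
    have h1 : ∑ v, s v = cob M.E f g (∑ v, Pi.single v 1) := by
      rw [map_sum]
    rw [h1]
    funext a
    rw [cob_apply]
    have h2 : ∀ w : Fin n, (∑ v : Fin n, (Pi.single v 1 : Fin n → ZMod 2)) w = 1 := by
      intro w
      rw [Finset.sum_apply, Finset.sum_eq_single w]
      · rw [Pi.single_eq_same]
      · intro b _ hb
        rw [Pi.single_eq_of_ne (Ne.symm hb)]
      · intro h
        exact absurd (Finset.mem_univ _) h
    split_ifs
    · rw [h2, h2]
      rfl
    · rfl
  have hspan : M.D = Submodule.span (ZMod 2) (Set.range s) := by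
    apply le_antisymm
    · intro x hx
      rw [hD] at hx
      obtain ⟨φ, rfl⟩ := hx
      have h1 : φ = ∑ v, φ v • (Pi.single v 1 : Fin n → ZMod 2) := by
        funext w
        rw [Finset.sum_apply, Finset.sum_eq_single w]
        · simp
        · intro b _ hb
          rw [Pi.smul_apply, Pi.single_eq_of_ne (Ne.symm hb), smul_zero]
        · intro h
          exact absurd (Finset.mem_univ _) h
      rw [h1, map_sum]
      refine Submodule.sum_mem _ fun v _ => ?_
      rw [map_smul]
      exact Submodule.smul_mem _ _ (Submodule.subset_span ⟨v, rfl⟩)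
    · rw [Submodule.span_le]
      rintro x ⟨v, rfl⟩
      exact hsD v
  set V : Finset (Fin n) := Finset.univ.filter fun v => s v ≠ 0 with hV
  have hsumV : ∑ v ∈ V, s v = 0 := by
    rw [← hsum, hV, Finset.sum_filter]
    refine Finset.sum_congr rfl fun v _ => ?_
    by_cases h : s v = 0
    · rw [if_neg (not_not.2 h), h]
    · rw [if_pos h]
  obtain ⟨x, hxD, hx0⟩ := h0
  have hVne : V.Nonempty := by
    by_contra hne
    rw [Finset.not_nonempty_iff_eq_empty] at hne
    apply hx0
    rw [hspan] at hxD
    have h1 : ∀ v, s v = 0 := by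
      intro v
      by_contra h
      have : v ∈ V := Finset.mem_filter.2 ⟨Finset.mem_univ _, h⟩
      rw [hne] at this
      exact absurd this (Finset.notMem_empty _)
    have h2 : Submodule.span (ZMod 2) (Set.range s) ≤ ⊥ := by
      rw [Submodule.span_le]
      rintro y ⟨v, rfl⟩
      exact h1 v
    exact (Submodule.mem_bot _).1 (h2 hxD)
  obtain ⟨v0, hv0⟩ := hVne
  have hspan' : M.D ≤ Submodule.span (ZMod 2) ((V.erase v0).image s : Set (α → ZMod 2)) := by
    rw [hspan, Submodule.span_le]
    rintro y ⟨v, rfl⟩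
    show s v ∈ Submodule.span (ZMod 2) ((V.erase v0).image s : Set (α → ZMod 2))
    have h3 : ∀ w ∈ V.erase v0,
        s w ∈ Submodule.span (ZMod 2) ((V.erase v0).image s : Set (α → ZMod 2)) := fun w hw =>
      Submodule.subset_span (by
        rw [Finset.mem_coe]
        exact Finset.mem_image_of_mem s hw)
    by_cases h : s v = 0
    · rw [h]
      exact Submodule.zero_mem _
    · by_cases hv : v = v0
      · have h4 : s v0 = -∑ w ∈ V.erase v0, s w := by
          rw [← Finset.add_sum_erase V s hv0] at hsumV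
          exact eq_neg_of_add_eq_zero_left hsumV
        rw [hv, h4]
        exact Submodule.neg_mem _ (Submodule.sum_mem _ h3)
      · exact h3 v (Finset.mem_erase.2 ⟨hv, Finset.mem_filter.2 ⟨Finset.mem_univ _, h⟩⟩)
  have hrk : Module.finrank (ZMod 2) M.D + 1 ≤ V.card := by
    have h1 : Module.finrank (ZMod 2) M.D ≤ ((V.erase v0).image s).card := by
      refine le_trans (Submodule.finrank_mono hspan') ?_
      exact finrank_span_finset_le_card _
    have h2 : ((V.erase v0).image s).card ≤ (V.erase v0).card := Finset.card_image_le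
    rw [Finset.card_erase_of_mem hv0] at h2
    have h3 : 0 < V.card := Finset.card_pos.2 ⟨v0, hv0⟩
    omega
  have hlow : V.card * d ≤ ∑ v ∈ V, (M.E.filter fun a => s v a ≠ 0).card := by
    rw [← smul_eq_mul]
    exact Finset.card_nsmul_le_sum _ _ _ fun v hv => hd _ (hsD v) (Finset.mem_filter.1 hv).2
  have hup : ∑ v ∈ V, (M.E.filter fun a => s v a ≠ 0).card ≤ M.E.card * 2 := by
    have h1 : ∑ v ∈ V, (M.E.filter fun a => s v a ≠ 0).card =
        ∑ a ∈ M.E, (V.filter fun v => s v a ≠ 0).card := by
      simp only [Finset.card_filter]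
      exact Finset.sum_comm
    rw [h1, ← smul_eq_mul]
    refine Finset.sum_le_card_nsmul _ _ _ fun a ha => ?_
    have h2 : (V.filter fun v => s v a ≠ 0) ⊆ {f a, g a} := by
      intro v hv
      have h3 := (Finset.mem_filter.1 hv).2
      rw [Finset.mem_insert, Finset.mem_singleton]
      by_contra h4
      push Not at h4
      apply h3
      rw [hs]
      show cob M.E f g (Pi.single v 1) a = 0
      rw [cob_apply, if_pos ha, Pi.single_eq_of_ne (Ne.symm h4.1),
        Pi.single_eq_of_ne (Ne.symm h4.2), add_zero]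
    exact le_trans (Finset.card_le_card h2) (Finset.card_le_two)
  have h5 : (Module.finrank (ZMod 2) M.D + 1) * d ≤ V.card * d := Nat.mul_le_mul_right _ hrk
  omega

private lemma conc_not_graphic {n r : ℕ} {v : Fin n → Fin r → ZMod 2} {ι : Fin n → α}
    (hι : Function.Injective ι) {d : ℕ} (hr : 0 < r) (hd0 : 0 < d)
    (hd : ∀ φ : Fin r → ZMod 2, φ ≠ 0 →
      d ≤ (Finset.univ.filter fun i => ∑ j, φ j * v i j ≠ 0).card)
    (hc : 2 * n < (r + 1) * d) : ¬ Graphic (conc v ι) := by
  have hcount : ∀ φ : Fin r → ZMod 2, ((conc v ι).E.filter fun a => concMap v ι φ a ≠ 0).card =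
      (Finset.univ.filter fun i => ∑ j, φ j * v i j ≠ 0).card := by
    intro φ
    rw [conc_E, Finset.filter_image, Finset.card_image_of_injective _ hι]
    congr 1
    ext i
    simp only [Finset.mem_filter, Finset.mem_univ, true_and]
    rw [concMap_mem v hι]
  have hinj : Function.Injective (concMap v ι) := by
    rw [← LinearMap.ker_eq_bot, LinearMap.ker_eq_bot']
    intro φ hφ
    by_contra h
    have h1 := hd φ h
    rw [← hcount φ, hφ] at h1
    simp only [Pi.zero_apply, ne_eq, not_true_eq_false, Finset.filter_false, Finset.card_empty]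
      at h1
    omega
  have hfr : Module.finrank (ZMod 2) (conc v ι).D = r := by
    show Module.finrank (ZMod 2) (LinearMap.range (concMap v ι)) = r
    rw [LinearMap.finrank_range_of_inj hinj]
    simp
  have hE : (conc v ι).E.card = n := by
    rw [conc_E, Finset.card_image_of_injective _ hι, Finset.card_univ, Fintype.card_fin]
  refine not_graphic_of_count (d := d) ?_ ?_ ?_
  · refine ⟨concMap v ι (Pi.single ⟨0, hr⟩ 1), ⟨_, rfl⟩, fun h => ?_⟩
    have h1 : (Pi.single ⟨0, hr⟩ 1 : Fin r → ZMod 2) = 0 := hinj (by rw [h, map_zero])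
    have h2 := congrFun h1 ⟨0, hr⟩
    rw [Pi.single_eq_same] at h2
    exact one_ne_zero h2
  · rintro x ⟨φ, rfl⟩ hx
    rw [hcount]
    exact hd φ fun h => hx (by rw [h, map_zero])
  · rw [hfr, hE]
    exact hc

/-- rank 4, nine elements, every nonzero cocycle has at least four elements -/
theorem k33s_not_graphic {ι : Fin 9 → α} (hι : Function.Injective ι) :
    ¬ Graphic (conc k33s ι) :=
  conc_not_graphic hι (d := 4) (by norm_num) (by norm_num) (by decide +kernel) (by norm_num)

private def k5w : Fin 10 → Fin 6 → ZMod 2 :=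
  ![![1, 0, 0, 0, 0, 0], ![0, 1, 0, 0, 0, 0], ![0, 0, 1, 0, 0, 0], ![1, 1, 1, 0, 0, 0],
    ![0, 0, 0, 1, 0, 0], ![0, 0, 0, 0, 1, 0], ![1, 0, 0, 1, 1, 0], ![0, 0, 0, 0, 0, 1],
    ![0, 1, 0, 1, 0, 1], ![0, 0, 1, 0, 1, 1]]

private lemma k5_dual {ι : Fin 10 → α} (hι : Function.Injective ι) :
    (conc k5 ι).dual = conc k5w ι := by
  refine conc_dual hι (by decide +kernel) ?_
  intro y hy
  refine ⟨![y 0, y 1, y 2, y 4, y 5, y 7], ?_⟩
  have h0 := hy 0
  have h1 := hy 1
  have h2 := hy 2
  have h3 := hy 3
  simp only [k5, Fin.sum_univ_succ] at h0 h1 h2 h3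
  have key : ∀ a b c d : ZMod 2, a + b + c + d = 0 → d = a + b + c := by decide
  have k3 : y 3 = y 0 + y 1 + y 2 := key _ _ _ _ (by simpa [add_assoc] using h0)
  have k6 : y 6 = y 0 + y 4 + y 5 := key _ _ _ _ (by simpa [add_assoc] using h1)
  have k8 : y 8 = y 1 + y 4 + y 7 := key _ _ _ _ (by simpa [add_assoc] using h2)
  have k9 : y 9 = y 2 + y 5 + y 7 := key _ _ _ _ (by simpa [add_assoc] using h3)
  intro i
  fin_cases i <;> simp [k5w, Fin.sum_univ_six, k3, k6, k8, k9]

/-- rank 6, ten elements, every nonzero cocycle (= cycle of `K5`) has at least three elements -/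
theorem k5s_not_graphic {ι : Fin 10 → α} (hι : Function.Injective ι) :
    ¬ Graphic (conc k5 ι).dual := by
  rw [k5_dual hι]
  exact conc_not_graphic hι (d := 3) (by norm_num) (by norm_num) (by decide +kernel) (by norm_num)

end Pool.Agent.H87.Sey
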