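import Pool.Agent.H63.Sey.Conc
import Pool.Agent.H87.Sey.TutD

/-!
# Tutte's theorem for regular matroids (Seymour project, MP_dbe88a_co): statement
-/

set_option autoImplicit false

namespace Pool.Agent.H87.Sey

open Pool.Agent.H63.Sey

universe u

variable {α : Type u} [DecidableEq α]

/-- a regular matroid which is not graphic has an `M*(K33)`- or an `M*(K5)`-minor -/
theorem tutte {M : BM α} (hM : Regular M) (h : ¬ Graphic M) : HasK33s M ∨ HasK5s M :=
  tutte' hM h

end Pool.Agent.H87.Sey
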