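import Pool.Agent.H87.Sey.Final
import Pool.Agent.H87.Sey.Pl
import Pool.Agent.H87.Sey.Bixby
import Pool.Agent.H87.Sey.NotGraphic
import Pool.Agent.H87.Sey.Stars
import Pool.Agent.H87.Sey.TutteDef

/-!
# The rooted lemma (Seymour project, MP_dbe88a_co, job S87-27)
-/

set_option autoImplicit false

namespace Pool.Agent.H87.Sey

open Pool.Agent.H63.Sey

universe u

variable {α : Type u} [DecidableEq α]

namespace RmAux

lemma sum_pair_ind {E : Finset α} {a b : α} (hab : a ≠ b) (ha : a ∈ E) (hb : b ∈ E)
    (x : α → ZMod 2) :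
    ∑ c ∈ E, x c * (if c = a ∨ c = b then (1 : ZMod 2) else 0) = x a + x b := by
  have hsub : ({a, b} : Finset α) ⊆ E := by
    intro c hc
    rw [Finset.mem_insert, Finset.mem_singleton] at hc
    rcases hc with rfl | rfl
    · exact ha
    · exact hb
  rw [← Finset.sum_subset hsub]
  · rw [Finset.sum_pair hab, if_pos (Or.inl rfl), if_pos (Or.inr rfl), mul_one, mul_one]
  · intro c _ hc
    rw [Finset.mem_insert, Finset.mem_singleton] at hc
    rw [if_neg hc, mul_zero]

lemma no_loop {M : BM α} (h : C3 M) (h2 : 2 ≤ M.E.card) {a : α} (ha : a ∈ M.E) :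
    ∃ x ∈ M.D, x a ≠ 0 := by
  by_contra hcon
  push Not at hcon
  have h1 : M.InCl ∅ a := fun x hx _ => hcon x hx
  have h3 := M.inCl_iff_rk.1 h1
  rw [M.rk_empty] at h3
  have h4 : insert a (∅ : Finset α) = {a} := by simp
  rw [h4] at h3
  have h5 := rk_singleton_pos h.1 ha (by
    apply Finset.card_pos.1
    have := Finset.card_sdiff_add_card_eq_card (Finset.singleton_subset_iff.2 ha)
    rw [Finset.card_singleton] at this
    omega)
  omega

lemma card_del_lt {M : BM α} {a : α} (ha : a ∈ M.E) : (M.del {a}).E.card < M.E.card := by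
  rw [LM.del_E]
  have := Finset.card_sdiff_add_card_eq_card (Finset.singleton_subset_iff.2 ha)
  rw [Finset.card_singleton] at this
  omega

lemma card_con_lt {M : BM α} {a : α} (ha : a ∈ M.E) : (M.con {a}).E.card < M.E.card :=
  card_del_lt ha

/-- a minor obtained by contracting (among others) `a` is a minor of the contraction of `a` -/
lemma isMinor_of_mem_con {M : BM α} {C D : Finset α} {a : α} (ha : a ∈ C)
    (hCD : Disjoint C D) : ((M.con C).del D).IsMinor (M.con {a}) := by
  have e : M.con C = (M.con {a}).con (C \ {a}) := by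
    rw [LM.con_con, Finset.union_sdiff_of_subset (Finset.singleton_subset_iff.2 ha)]
  rw [e]
  exact ⟨C \ {a}, D, Finset.disjoint_of_subset_left Finset.sdiff_subset hCD, rfl⟩

lemma isMinor_of_mem_del {M : BM α} {C D : Finset α} {a : α} (ha : a ∈ D)
    (hCD : Disjoint C D) : ((M.con C).del D).IsMinor (M.del {a}) := by
  have haC : Disjoint C {a} := by
    rw [Finset.disjoint_singleton_right]
    exact fun h => Finset.disjoint_left.1 hCD h ha
  have e : (M.con C).del D = ((M.del {a}).con C).del (D \ {a}) := by
    rw [← LM.con_del _ haC, LM.del_del,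
      Finset.union_sdiff_of_subset (Finset.singleton_subset_iff.2 ha)]
  rw [e]
  exact ⟨C, D \ {a}, Finset.disjoint_of_subset_right Finset.sdiff_subset hCD, rfl⟩

end RmAux

open RmAux

/-- nongraphic regular matroids have at least nine elements (`tutte`) -/
lemma nine_le {K : BM α} (hreg : Regular K) (hnc : ¬ Cographic K) : 9 ≤ K.E.card := by
  rcases tutte hreg.dual hnc with ⟨ι, hι, h⟩ | ⟨ι, hι, h⟩
  · have h1 := Finset.card_le_card h.E_subset
    rw [conc_E, Finset.card_image_of_injective _ hι, Finset.card_univ, Fintype.card_fin,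
      LM.dual_E] at h1
    exact h1
  · have h1 := Finset.card_le_card h.E_subset
    rw [LM.dual_E, conc_E, Finset.card_image_of_injective _ hι, Finset.card_univ,
      Fintype.card_fin, LM.dual_E] at h1
    omega

/-- deletion of a parallel element / contraction of a series element does not make a
noncographic matroid cographic (dual of `graphic_of_series`, `graphic_of_parallel`) -/
lemma not_cographic_del_parallel {K : BM α} {a b : α} (hab : a ≠ b) (ha : a ∈ K.E)
    (hb : b ∈ K.E) (hp : ∀ x ∈ K.D, x a = x b) (hnc : ¬ Cographic K) :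
    ¬ Cographic (K.del {a}) := by
  intro h
  apply hnc
  have h1 : Graphic (K.del {a}).dual := h
  rw [LM.dual_del] at h1
  refine graphic_of_series (M := K.dual) hab ha hb ?_ h1
  rw [LM.mem_dual]
  refine ⟨fun c hc => if_neg ?_, fun x hx => ?_⟩
  · rintro (rfl | rfl)
    · exact hc ha
    · exact hc hb
  · rw [sum_pair_ind hab ha hb, hp x hx]
    exact CharTwo.add_self_eq_zero _

lemma not_cographic_con_series {K : BM α} {a b : α} (hab : a ≠ b) (ha : a ∈ K.E)
    (hb : b ∈ K.E) (hs : (fun c => if c = a ∨ c = b then (1 : ZMod 2) else 0) ∈ K.D)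
    (hnc : ¬ Cographic K) : ¬ Cographic (K.con {a}) := by
  intro h
  apply hnc
  have h1 : Graphic (K.con {a}).dual := h
  rw [LM.dual_con] at h1
  refine graphic_of_parallel (M := K.dual) hab hb ?_ h1
  intro z hz
  rw [LM.mem_dual] at hz
  have h2 := hz.2 _ hs
  have h3 : ∑ c ∈ K.E, (if c = a ∨ c = b then (1 : ZMod 2) else 0) * z c =
      ∑ c ∈ K.E, z c * (if c = a ∨ c = b then (1 : ZMod 2) else 0) :=
    Finset.sum_congr rfl fun c _ => mul_comm _ _
  rw [h3, sum_pair_ind hab ha hb] at h2
  exact CharTwo.add_eq_zero.1 h2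

/-- The rooted lemma for connected good matroids, by strong induction on the number `m` of
elements. (1) A parallel pair: delete an element not in the star of `v` (`Rt.not_parallel`).
(2) A series pair: contract an element not in the star (`Rt.not_series`, `Rt.series_not_F`).
(3) Otherwise `K` is `3`-connected (`conn3_of_c3`). Let `a` be outside the star and not joining two
neighbours of `v`. If `K.del {a}` is good and not cographic use induction, same for `K.con {a}`.
By `bixby`, `pl_del`, `pl_con` (class of cographic matroids) the remaining case is that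
`K.del {a}` and `K.con {a}` are both cographic. (4) By `tutte` for `K.dual` there are `C, D` with
`(K.con C).del D = conc k33 ι` or `conc k5 ι` (`k33_dual`, `dual_dual`); by (3) and
`k33s_not_graphic`, `k5s_not_graphic` the elements of `C ∪ D` are in the star or join two
neighbours of `v`; `final_rooted`. -/
theorem rooted_c3 (m : ℕ) : ∀ {K : BM α}, K.E.card = m → Regular K → C3 K → ∀ {n : ℕ}
    {f g : α → Fin n} {v : Fin n} {y : Fin 3 → α} {p : Fin 3 → Fin n}, Rt K f g v y p →
    ¬ Cographic K → Rooted33 K y := by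
  induction m using Nat.strong_induction_on with
  | _ m ih =>
  intro K hm hreg hc n f g v y p h hnc
  have h9 : 9 ≤ K.E.card := nine_le hreg hnc
  have hcd : C3 K.dual := hc.dual
  -- deleting a parallel element outside the star
  have hpar : ∀ a b : α, a ∈ K.E → b ∈ K.E → a ≠ b → (∀ x ∈ K.D, x a = x b) →
      (∀ i, a ≠ y i) → Rooted33 K y := by
    intro a b ha hb hab hx hay
    have hcl : K.InCl {b} a := (inCl_singleton_iff (no_loop hc (by omega) ha)).2 hx
    refine Rooted33.of_del hay ha (ih _ ?_ rfl (hreg.minor (LM.isMinor_del _ _))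
      (c3_del_parallel hc hab ha hb hcl) (h.del hay)
      (not_cographic_del_parallel hab ha hb hx hnc))
    rw [← hm]
    exact card_del_lt ha
  -- contracting a series element outside the star
  have hser : ∀ a b : α, a ∈ K.E → b ∈ K.E → a ≠ b →
      (fun c => if c = a ∨ c = b then (1 : ZMod 2) else 0) ∈ K.D →
      (∀ i, a ≠ y i) → Rooted33 K y := by
    intro a b ha hb hab hs hay
    have hcl : K.dual.InCl {b} a :=
      (series_iff ha hb hab (no_loop hcd (by rw [LM.dual_E]; omega) (by exact ha))).2 hs
    have hF := h.series_not_F hc (by omega) ha hb hab hs hay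
    obtain ⟨f', g', p', h'⟩ := h.con ha hay hF
    refine Rooted33.of_con hay ha (ih _ ?_ rfl (hreg.minor (LM.isMinor_con _ _))
      (c3_con_series hc hab ha hb hcl) h' (not_cographic_con_series hab ha hb hs hnc))
    rw [← hm]
    exact card_con_lt ha
  -- (1)
  by_cases hp : ∃ a ∈ K.E, ∃ b ∈ K.E, a ≠ b ∧ K.InCl {b} a
  · obtain ⟨a, ha, b, hb, hab, hcl⟩ := hp
    have hx := (inCl_singleton_iff (no_loop hc (by omega) ha)).1 hcl
    by_cases h1 : ∃ i, a = y i
    · by_cases h2 : ∃ j, b = y j
      · obtain ⟨i, rfl⟩ := h1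
        obtain ⟨j, rfl⟩ := h2
        exact absurd hx (h.not_parallel fun e => hab (by rw [e]))
      · push Not at h2
        exact hpar b a hb ha hab.symm (fun x hx' => (hx x hx').symm) h2
    · push Not at h1
      exact hpar a b ha hb hab hx h1
  -- (2)
  by_cases hs : ∃ a ∈ K.E, ∃ b ∈ K.E, a ≠ b ∧ K.dual.InCl {b} a
  · obtain ⟨a, ha, b, hb, hab, hcl⟩ := hs
    have hx := (series_iff ha hb hab
      (no_loop hcd (by rw [LM.dual_E]; omega) (by exact ha))).1 hcl
    by_cases h1 : ∃ i, a = y i
    · by_cases h2 : ∃ j, b = y j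
      · obtain ⟨i, rfl⟩ := h1
        obtain ⟨j, rfl⟩ := h2
        exact absurd hx (h.not_series hc (by omega) fun e => hab (by rw [e]))
      · push Not at h2
        refine hser b a hb ha hab.symm ?_ h2
        have e : (fun c => if c = b ∨ c = a then (1 : ZMod 2) else 0) =
            fun c => if c = a ∨ c = b then (1 : ZMod 2) else 0 := by
          funext c
          simp only [or_comm]
        rw [e]
        exact hx
    · push Not at h1
      exact hser a b ha hb hab hx h1
  push Not at hp hs
  -- (3)
  have hK3 : K.Conn3 := conn3_of_c3 hc hp hs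
  by_contra hR
  have hboth : ∀ a ∈ K.E, (∀ i, a ≠ y i) → ¬ IsF f g p a →
      Cographic (K.del {a}) ∧ Cographic (K.con {a}) := by
    intro a ha hay hF
    have hdel : Good (K.del {a}) → Cographic (K.del {a}) := by
      intro hg
      by_contra hn
      apply hR
      refine Rooted33.of_del hay ha (ih _ ?_ rfl (hreg.minor (LM.isMinor_del _ _))
        (c3_del_of_conn3 hK3 (by omega) ha hg) (h.del hay) hn)
      rw [← hm]
      exact card_del_lt ha
    have hcon : Good (K.con {a}) → Cographic (K.con {a}) := by
      intro hg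
      by_contra hn
      apply hR
      obtain ⟨f', g', p', h'⟩ := h.con ha hay hF
      refine Rooted33.of_con hay ha (ih _ ?_ rfl (hreg.minor (LM.isMinor_con _ _))
        (c3_con_of_conn3 hK3 (by omega) ha hg) h' hn)
      rw [← hm]
      exact card_con_lt ha
    rcases bixby hK3 ha with hg | hg
    · have h1 := hdel hg
      refine ⟨h1, ?_⟩
      by_contra hn
      exact hn (hcon (pl_con sumClosed_cographic hK3 ha h1 hn))
    · have h1 := hcon hg
      refine ⟨?_, h1⟩
      by_contra hn
      exact hn (hdel (pl_del sumClosed_cographic hK3 ha h1 hn))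
  -- (4)
  have hfin : ∀ {k m' : ℕ} {e : Fin k → Fin m' × Fin m'} {adj : Fin m' → Fin m' → Bool},
      TG e adj → ∀ {ι : Fin k → α}, Function.Injective ι → ∀ N : BM α, N.IsMinor K →
      N.E = Finset.univ.image ι → IsG N e ι → ¬ Cographic N → False := by
    intro k m' e adj he ι hι N hN hE hG hncN
    obtain ⟨C, D, hCD, hCDE, rfl, -, -⟩ := hN.exists_indep
    have hCE : C ⊆ K.E := fun a ha =>
      (Finset.mem_sdiff.1 (hCDE ▸ Finset.mem_union_left D ha)).1
    have hDE : D ⊆ K.E := fun a ha =>
      (Finset.mem_sdiff.1 (hCDE ▸ Finset.mem_union_right C ha)).1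
    apply hR
    refine final_rooted hK3 h9 h hCE hDE hCD ?_ he hι hE hG
    intro a ha
    by_contra hcon
    rw [not_or] at hcon
    obtain ⟨h1, h2⟩ := hcon
    push Not at h1
    have haE : a ∈ K.E := by
      rcases Finset.mem_union.1 ha with h' | h'
      · exact hCE h'
      · exact hDE h'
    obtain ⟨h3, h4⟩ := hboth a haE h1 h2
    rcases Finset.mem_union.1 ha with h' | h'
    · exact hncN (cographic_minor h4 (isMinor_of_mem_con h' hCD))
    · exact hncN (cographic_minor h3 (isMinor_of_mem_del h' hCD))
  rcases tutte hreg.dual hnc with ⟨ι, hι, hmin⟩ | ⟨ι, hι, hmin⟩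
  · have h1 : (conc k33 ι).IsMinor K := by
      have h2 := hmin.dual
      rw [LM.dual_dual, ← k33_dual hι, LM.dual_dual] at h2
      exact h2
    refine hfin tg33 hι _ h1 rfl (isG33 hι) ?_
    intro h2
    have h3 : Graphic (conc k33 ι).dual := h2
    rw [k33_dual hι] at h3
    exact k33s_not_graphic hι h3
  · have h1 : (conc k5 ι).IsMinor K := by
      have h2 := hmin.dual
      rw [LM.dual_dual, LM.dual_dual] at h2
      exact h2
    refine hfin tg5 hι _ h1 rfl (isG5 hι) ?_
    intro h2
    exact k5s_not_graphic hι h2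

/-- the statement of `rooted33` in `RootedDef.lean` -/
theorem rooted33' {K : BM α} (hreg : Regular K) (hc : K.Conn3) {n : ℕ} {f g : α → Fin n}
    (hG : K = cyc K.E f g) {v : Fin n} {y : Fin 3 → α} (hy : Function.Injective y)
    (hyE : ∀ i, y i ∈ K.E) (hv : ∀ a ∈ K.E, (f a = v ∨ g a = v) ↔ a ∈ Finset.univ.image y)
    (hnc : ¬ Cographic K) : Rooted33 K y := by
  have h9 := nine_le hreg hnc
  obtain ⟨p, hp⟩ := Rt.of_star hc (by omega) hG hy hyE hv
  exact rooted_c3 _ rfl hreg (c3_of_conn3 hc) hp hnc

end Pool.Agent.H87.Sey
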