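import Pool.Agent.H87.Sey.P4Defs
import Pool.Agent.H87.Sey.RootedMain

/-!
# The rooted Tutte lemma (Seymour project, MP_dbe88a_co): statement
-/

set_option autoImplicit false

namespace Pool.Agent.H87.Sey

open Pool.Agent.H63.Sey

universe u

variable {α : Type u} [DecidableEq α]

/-- a `3`-connected regular nonplanar graph with a cubic vertex `v` has a `K33`-minor in which `v`
is a vertex -/
theorem rooted33 {K : BM α} (hreg : Regular K) (hc : K.Conn3) {n : ℕ} {f g : α → Fin n}
    (hG : K = cyc K.E f g) {v : Fin n} {y : Fin 3 → α} (hy : Function.Injective y)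
    (hyE : ∀ i, y i ∈ K.E) (hv : ∀ a ∈ K.E, (f a = v ∨ g a = v) ↔ a ∈ Finset.univ.image y)
    (hnc : ¬ Cographic K) : Rooted33 K y :=
  rooted33' hreg hc hG hy hyE hv hnc

end Pool.Agent.H87.Sey
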