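import Pool.Agent.H87.Sey.PartsMinor
import Pool.Agent.H87.Sey.PartConn
import Pool.Agent.H87.Sey.NonPar
import Pool.Agent.H87.Sey.NonSep
import Pool.Agent.H87.Sey.DualPart
import Pool.Agent.H87.Sey.RootedDef

/-!
# The core lemma of part (II) (Seymour project, MP_dbe88a_co, job S87-13)
-/

set_option autoImplicit false

namespace Pool.Agent.H87.Sey

open Pool.Agent.H63.Sey

universe u

variable {α : Type u} [DecidableEq α]

/-! ### auxiliary lemmas -/

lemma lam_of_rk_zero {M : BM α} {a : α} (h : ∀ x ∈ M.D, x a = 0) : M.lam {a} = 0 := by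
  have h1 : M.InCl ∅ a := fun x hx _ => h x hx
  have h2 := M.inCl_iff_rk.1 h1
  rw [M.rk_empty] at h2
  have h3 : insert a (∅ : Finset α) = {a} := by simp
  rw [h3] at h2
  have h4 := M.lam_add {a}
  have h5 := M.rk_le_E (M.E \ {a})
  omega

/-- a nonzero cocycle lowers the rank of the complement of its support -/
lemma rk_compl_lt {M : BM α} {x : α → ZMod 2} (hx : x ∈ M.D) {X : Finset α}
    (hX : ∀ a ∈ M.E, a ∉ X → x a = 0) {a : α} (ha : a ∈ M.E) (hxa : x a ≠ 0) :
    M.rk (M.E \ X) < M.rk M.E := by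
  by_contra hcon
  push Not at hcon
  have h1 := M.inCl_of_rk_le (X := M.E \ X) (Y := M.E) Finset.sdiff_subset hcon ha
  refine hxa (h1 x hx fun b hb => ?_)
  rw [Finset.mem_sdiff] at hb
  exact hX b hb.1 hb.2

/-- cocycles of a `3`-connected matroid have at least three elements -/
lemma three_le_cocycle {M : BM α} (hM : M.Conn3) (h4 : 4 ≤ M.E.card) {x : α → ZMod 2}
    (hx : x ∈ M.D) {X : Finset α} (hXE : X ⊆ M.E) (hX : ∀ a ∈ M.E, a ∉ X → x a = 0)
    {a : α} (ha : a ∈ M.E) (hxa : x a ≠ 0) : 3 ≤ X.card := by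
  have h1 := rk_compl_lt hx hX ha hxa
  have h2 := M.lam_add X
  have h3 := M.rk_le_card X
  have haX : a ∈ X := by
    by_contra h
    exact hxa (hX a ha h)
  have hpos : 1 ≤ X.card := Finset.card_pos.2 ⟨a, haX⟩
  have hcard : (M.E \ X).card + X.card = M.E.card := Finset.card_sdiff_add_card_eq_card hXE
  by_contra hcon
  push Not at hcon
  rcases Nat.lt_or_ge X.card 2 with h5 | h5
  · have h6 := hM.1 X hXE ⟨a, haX⟩ (Finset.card_pos.1 (by omega))
    omega
  · have h6 := hM.2 X hXE h5 (by omega)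
    omega

/-- if every cocycle can be cut off outside `X`, then `X` is separated -/
lemma lam_zero_of_cut {M : BM α} {X : Finset α} (hX : X ⊆ M.E)
    (h : ∀ x ∈ M.D, ∃ y ∈ M.D, (∀ a ∈ X, y a = x a) ∧ ∀ a ∈ M.E, a ∉ X → y a = 0) :
    M.lam X = 0 := by
  have h1 := M.rk_con (M.E \ X) X
  have h2 : X ∪ (M.E \ X) = M.E := Finset.union_sdiff_of_subset hX
  rw [h2] at h1
  have h3 : (M.con (M.E \ X)).rk X = M.rk X := by
    have e : (M.con (M.E \ X)).D.map (res (ZMod 2) X) = M.D.map (res (ZMod 2) X) := by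
      ext z
      simp only [Submodule.mem_map]
      constructor
      · rintro ⟨x, hx, rfl⟩
        exact ⟨x, ((M.mem_con).1 hx).1, rfl⟩
      · rintro ⟨x, hx, rfl⟩
        obtain ⟨y, hy, hy1, hy2⟩ := h x hx
        refine ⟨y, (M.mem_con).2 ⟨hy, fun a ha => ?_⟩, ?_⟩
        · rw [Finset.mem_sdiff] at ha
          exact hy2 a ha.1 ha.2
        · funext a
          rw [res_apply, res_apply]
          by_cases ha : a ∈ X
          · rw [if_pos ha, if_pos ha, hy1 a ha]
          · rw [if_neg ha, if_neg ha]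
    unfold LM.rk
    rw [e]
  have h4 := M.lam_add X
  omega

/-- `R10` has no triangle -/
theorem r10_no_triangle {ι : Fin 10 → α} (hι : Function.Injective ι) {a b c : α}
    (ha : a ∈ (conc r10 ι).E) (hb : b ∈ (conc r10 ι).E) (hc : c ∈ (conc r10 ι).E)
    (h : ∀ y ∈ (conc r10 ι).D, y a + y b + y c = 0) : False := by
  have h1 := h _ ⟨fun _ => 1, rfl⟩
  have h2 : ∀ d ∈ (conc r10 ι).E, concMap r10 ι (fun _ => 1) d = 1 := by
    intro d hd
    obtain ⟨i, -, rfl⟩ := Finset.mem_image.1 hd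
    rw [concMap_mem r10 hι]
    have h3 : ∀ i : Fin 10, ∑ j, 1 * r10 i j = 1 := by decide
    exact h3 i
  rw [h2 a ha, h2 b hb, h2 c hc] at h1
  exact absurd h1 (by decide)

/-- The cocycles of a graph with a nonseparating cocircuit `Z` of size three: `Z` is the star of a
vertex. `Z` is a cut `δ(U)`; by `hns` one side, say `U`, contains no edge (an edge set `A₁` inside
`U` and the rest inside the complement would have `(Q.del Z).lam A₁ = 0`); the stars of the
vertices of `U` are cocycles contained in `Z`; there is no cocycle of size one or two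
(`Q.Conn3`, at least four elements), so some star is `Z`. -/
theorem star_of_nonsep {Q : BM α} (hQ : Q.Conn3) (h5 : 5 ≤ Q.E.card) {n : ℕ} {f g : α → Fin n}
    (hG : Q = cyc Q.E f g) {y : Fin 3 → α} (hy : Function.Injective y) (hyE : ∀ i, y i ∈ Q.E)
    (hcoc : (fun a => if a ∈ Finset.univ.image y then (1 : ZMod 2) else 0) ∈ Q.D)
    (hns : ∀ A₁ ⊆ Q.E \ Finset.univ.image y, A₁.Nonempty → A₁ ≠ Q.E \ Finset.univ.image y →
      1 ≤ (Q.del (Finset.univ.image y)).lam A₁) :
    ∃ v : Fin n, ∀ a ∈ Q.E, (f a = v ∨ g a = v) ↔ a ∈ Finset.univ.image y := by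
  classical
  set Z : Finset α := Finset.univ.image y with hZ
  have z2 : ∀ c : ZMod 2, c = 0 ∨ c = 1 := by decide
  have hZcard : Z.card = 3 := by
    rw [hZ, Finset.card_image_of_injective _ hy, Finset.card_univ, Fintype.card_fin]
  have hZE : Z ⊆ Q.E := by
    intro a ha
    obtain ⟨i, -, rfl⟩ := Finset.mem_image.1 ha
    exact hyE i
  have hmem : ∀ x : α → ZMod 2, x ∈ Q.D ↔
      ∃ φ : Fin n → ZMod 2, ∀ a, x a = if a ∈ Q.E then φ (f a) + φ (g a) else 0 := by
    intro x
    conv_lhs => rw [hG]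
    exact mem_cyc
  obtain ⟨φ, hφ⟩ := (hmem _).1 hcoc
  have hφZ : ∀ a ∈ Z, φ (f a) + φ (g a) = 1 := by
    intro a ha
    have h1 := hφ a
    rw [if_pos ha, if_pos (hZE ha)] at h1
    exact h1.symm
  have hφn : ∀ a ∈ Q.E, a ∉ Z → φ (f a) = φ (g a) := by
    intro a ha haZ
    have h1 := hφ a
    rw [if_neg haZ, if_pos ha] at h1
    exact CharTwo.add_eq_zero.1 h1.symm
  -- the main argument for a potential all of whose edges outside `Z` are on the side `0`
  have main : ∀ ψ : Fin n → ZMod 2, (∀ a ∈ Z, ψ (f a) + ψ (g a) = 1) →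
      (∀ a ∈ Q.E, a ∉ Z → ψ (f a) = 0 ∧ ψ (g a) = 0) →
      ∃ v : Fin n, ∀ a ∈ Q.E, (f a = v ∨ g a = v) ↔ a ∈ Z := by
    intro ψ h1 h2
    have h0Z : y 0 ∈ Z := Finset.mem_image.2 ⟨0, Finset.mem_univ _, rfl⟩
    obtain ⟨u, hu, hu'⟩ : ∃ u : Fin n, ψ u = 1 ∧ (f (y 0) = u ∧ g (y 0) ≠ u ∨
        g (y 0) = u ∧ f (y 0) ≠ u) := by
      have h3 := h1 _ h0Z
      rcases z2 (ψ (f (y 0))) with h4 | h4
      · rw [h4, zero_add] at h3
        refine ⟨g (y 0), h3, Or.inr ⟨rfl, ?_⟩⟩
        intro h5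
        rw [h5, h3] at h4
        exact absurd h4 (by decide)
      · refine ⟨f (y 0), h4, Or.inl ⟨rfl, ?_⟩⟩
        intro h5
        rw [h5, h4] at h3
        exact absurd h3 (by decide)
    let φu : Fin n → ZMod 2 := fun w => if w = u then 1 else 0
    let x : α → ZMod 2 := fun a => if a ∈ Q.E then φu (f a) + φu (g a) else 0
    have hx : x ∈ Q.D := (hmem x).2 ⟨φu, fun a => rfl⟩
    have hxv : ∀ a ∈ Q.E, x a ≠ 0 → f a = u ∨ g a = u := by
      intro a ha hxa
      by_contra hcon
      rw [not_or] at hcon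
      apply hxa
      simp only [x, φu]
      rw [if_pos ha, if_neg hcon.1, if_neg hcon.2, add_zero]
    have hend : ∀ a ∈ Q.E, (f a = u ∨ g a = u) → a ∈ Z := by
      intro a ha h3
      by_contra haZ
      obtain ⟨h4, h5⟩ := h2 a ha haZ
      rcases h3 with h3 | h3
      · rw [h3, hu] at h4
        exact absurd h4 (by decide)
      · rw [h3, hu] at h5
        exact absurd h5 (by decide)
    have hx0 : x (y 0) ≠ 0 := by
      simp only [x, φu]
      rw [if_pos (hyE 0)]
      rcases hu' with ⟨h3, h4⟩ | ⟨h3, h4⟩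
      · rw [if_pos h3, if_neg h4]
        decide
      · rw [if_pos h3, if_neg h4]
        decide
    let X : Finset α := Q.E.filter fun a => x a ≠ 0
    have hXE : X ⊆ Q.E := Finset.filter_subset _ _
    have hXZ : X ⊆ Z := by
      intro a ha
      rw [Finset.mem_filter] at ha
      exact hend a ha.1 (hxv a ha.1 ha.2)
    have h3 : 3 ≤ X.card := by
      refine three_le_cocycle hQ (by omega) hx hXE ?_ (hyE 0) hx0
      intro a ha haX
      by_contra hxa
      exact haX (Finset.mem_filter.2 ⟨ha, hxa⟩)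
    have hXeq : X = Z := Finset.eq_of_subset_of_card_le hXZ (by omega)
    refine ⟨u, fun a ha => ⟨hend a ha, fun haZ => ?_⟩⟩
    rw [← hXeq] at haZ
    exact hxv a ha (Finset.mem_filter.1 haZ).2
  -- one side is empty
  let A₁ : Finset α := (Q.E \ Z).filter fun a => φ (f a) = 1
  have hA₁ : A₁ ⊆ Q.E \ Z := Finset.filter_subset _ _
  have hl : (Q.del Z).lam A₁ = 0 := by
    apply lam_zero_of_cut hA₁
    intro x hx
    obtain ⟨h0, x', hx', hxx⟩ := (Q.mem_del).1 hx
    obtain ⟨ψ, hψ⟩ := (hmem x').1 hx'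
    let ψ' : Fin n → ZMod 2 := fun w => φ w * ψ w
    let y' : α → ZMod 2 := fun a => if a ∈ Q.E then ψ' (f a) + ψ' (g a) else 0
    have hy' : y' ∈ Q.D := (hmem y').2 ⟨ψ', fun a => rfl⟩
    refine ⟨fun a => if a ∈ Z then 0 else y' a, (Q.mem_del).2 ⟨fun a ha => ?_, y', hy', ?_⟩,
      ?_, ?_⟩
    · exact if_pos ha
    · intro a ha
      exact if_neg ha
    · intro a ha
      rw [Finset.mem_filter, Finset.mem_sdiff] at ha
      obtain ⟨⟨haE, haZ⟩, ha1⟩ := ha
      have ha2 := hφn a haE haZ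
      rw [ha1] at ha2
      change (if a ∈ Z then 0 else y' a) = x a
      rw [if_neg haZ, hxx a haZ, hψ a, if_pos haE]
      simp only [y', ψ']
      rw [if_pos haE, ha1, ← ha2, one_mul, one_mul]
    · intro a ha haA
      rw [LM.del_E, Finset.mem_sdiff] at ha
      change (if a ∈ Z then 0 else y' a) = 0
      rw [if_neg ha.2]
      have ha0 : φ (f a) = 0 := by
        rcases z2 (φ (f a)) with h | h
        · exact h
        · exact absurd (Finset.mem_filter.2 ⟨Finset.mem_sdiff.2 ha, h⟩) haA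
      have ha2 := hφn a ha.1 ha.2
      rw [ha0] at ha2
      simp only [y', ψ']
      rw [if_pos ha.1, ha0, ← ha2, zero_mul, zero_mul, add_zero]
  have hor : A₁ = ∅ ∨ A₁ = Q.E \ Z := by
    by_contra hcon
    rw [not_or] at hcon
    have := hns A₁ hA₁ (Finset.nonempty_iff_ne_empty.2 hcon.1) hcon.2
    omega
  rcases hor with h | h
  · refine main φ hφZ fun a ha haZ => ?_
    have ha0 : φ (f a) = 0 := by
      rcases z2 (φ (f a)) with h' | h'
      · exact h'
      · have : a ∈ A₁ := Finset.mem_filter.2 ⟨Finset.mem_sdiff.2 ⟨ha, haZ⟩, h'⟩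
        rw [h] at this
        exact absurd this (Finset.notMem_empty a)
    exact ⟨ha0, by rw [← hφn a ha haZ]; exact ha0⟩
  · refine main (fun w => φ w + 1) (fun a ha => ?_) fun a ha haZ => ?_
    · have h1 := hφZ a ha
      have h3 : ∀ c d : ZMod 2, c + d = 1 → c + 1 + (d + 1) = 1 := by decide
      exact h3 _ _ h1
    · have ha1 : a ∈ A₁ := by
        rw [h]
        exact Finset.mem_sdiff.2 ⟨ha, haZ⟩
      have ha2 := (Finset.mem_filter.1 ha1).2
      have ha3 := hφn a ha haZ
      rw [ha2] at ha3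
      refine ⟨?_, ?_⟩
      · show φ (f a) + 1 = 0
        rw [ha2]
        decide
      · show φ (g a) + 1 = 0
        rw [← ha3]
        decide

/-- no loops -/
theorem no_loop_of_conn3 {Q : BM α} (hQ : Q.Conn3) (h2 : 2 ≤ Q.E.card) {n : ℕ}
    {f g : α → Fin n} (hG : Q = cyc Q.E f g) {a : α} (ha : a ∈ Q.E) : f a ≠ g a := by
  intro hfg
  have h1 : Q.lam {a} = 0 := by
    apply lam_of_rk_zero
    intro x hx
    rw [hG] at hx
    obtain ⟨φ, hφ⟩ := mem_cyc.1 hx
    rw [hφ a, if_pos ha, hfg]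
    exact CharTwo.add_self_eq_zero _
  have h3 := hQ.1 {a} (Finset.singleton_subset_iff.2 ha) (Finset.singleton_nonempty a) (by
    apply Finset.card_pos.1
    have := Finset.card_sdiff_add_card_eq_card (Finset.singleton_subset_iff.2 ha)
    rw [Finset.card_singleton] at this
    omega)
  omega

/-- Core lemma: a minimal nongraphic part `P` is cographic, its triangle is the star of a vertex
in the graph of `P.dual`, and it has a rooted `M*(K33)`-minor. -/
theorem core {N : BM α} (hN : N.Conn3) (hreg : Regular N) (hmin : MinOK N) {A : Finset α}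
    (hA : A ⊆ N.E) (hl : N.lam A = 2) (h4 : 4 ≤ (N.E \ A).card) (hng : ¬ GP N A)
    (hminA : ∀ A₁ ⊆ A, A₁ ≠ A → N.lam A₁ = 2 → GP N A₁) :
    ∃ (R S : Fin 3 → Finset α) (z : Fin 3 → α) (P : BM α), Guts N A R S ∧ Tri N R ∧
      IsPart N P A z R ∧ GP N.dual A ∧ ∃ C D : Finset α, C ⊆ A ∧ D ⊆ A ∧ Disjoint C D ∧
        ∃ ι : Fin 9 → α, Function.Injective ι ∧ (P.con C).del D = conc k33s ι ∧
          ∀ i, ι (row0 i) = z i := by
  classical
  obtain ⟨R, S, h, ht⟩ := exists_guts3 N hA hl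
  obtain ⟨P, z, hP, hPN, hzE⟩ := parts3 hN hA h ht h4
  have hcard : (N.E \ A).card + A.card = N.E.card := Finset.card_sdiff_add_card_eq_card hA
  have hA2 : 2 ≤ A.card := by
    have := N.lam_le_card A hA
    omega
  set Z : Finset α := Finset.univ.image z with hZ
  have hZcard : Z.card = 3 := by
    rw [hZ, Finset.card_image_of_injective _ hP.inj, Finset.card_univ, Fintype.card_fin]
  have hAZ : Disjoint A Z := by
    rw [Finset.disjoint_left]
    intro a ha haZ
    obtain ⟨i, -, rfl⟩ := Finset.mem_image.1 haZ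
    exact hP.z_nmem i ha
  have hPE : P.E = A ∪ Z := hP.E_eq
  have hPcard : P.E.card = A.card + 3 := by
    rw [hPE, Finset.card_union_of_disjoint hAZ, hZcard]
  have hPZ : P.E \ Z = A := by
    rw [hPE]
    ext a
    simp only [Finset.mem_sdiff, Finset.mem_union]
    constructor
    · rintro ⟨h1 | h1, h2⟩
      · exact h1
      · exact absurd h1 h2
    · intro h1
      exact ⟨Or.inl h1, fun h2 => Finset.disjoint_left.1 hAZ h1 h2⟩
  have hzP : ∀ i, z i ∈ P.E := by
    intro i
    rw [hPE]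
    exact Finset.mem_union_right _ (Finset.mem_image.2 ⟨i, Finset.mem_univ _, rfl⟩)
  have hpar := nonpar_of_min hN hA hl h4 h ht hng hminA
  have hPc : P.Conn3 := part_conn3 hN hA h ht hP (by omega) hpar
  have hPng : ¬ Graphic P := fun hg => hng ⟨R, S, z, P, h, ht, hP, hg⟩
  have htri : ∀ w ∈ P.D, w (z 0) + w (z 1) + w (z 2) = 0 := by
    intro w hw
    obtain ⟨-, y, hy, -, h2⟩ := (hP.mem w).1 hw
    rw [h2, h2, h2]
    exact ht y hy
  have hPcog : Cographic P := by
    rcases hmin P hPN (by omega) hPc with h1 | h1 | h1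
    · exact absurd h1 hPng
    · exact h1
    · obtain ⟨ι, hι, h1⟩ := h1
      exfalso
      refine r10_no_triangle hι (a := z 0) (b := z 1) (c := z 2) ?_ ?_ ?_ ?_
      · rw [← h1]
        exact hzP 0
      · rw [← h1]
        exact hzP 1
      · rw [← h1]
        exact hzP 2
      · rw [← h1]
        exact htri
  obtain ⟨n, f, g, hG⟩ := hPcog
  have hKc : P.dual.Conn3 := hPc.dual
  have hcoc : (fun a => if a ∈ Z then (1 : ZMod 2) else 0) ∈ P.dual.D := by
    rw [LM.mem_dual]
    refine ⟨fun a ha => ?_, fun x hx => ?_⟩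
    · rw [if_neg]
      intro haZ
      apply ha
      rw [hPE]
      exact Finset.mem_union_right _ haZ
    · have h1 : ∑ a ∈ P.E, x a * (if a ∈ Z then (1 : ZMod 2) else 0) = ∑ a ∈ Z, x a := by
        rw [← Finset.sum_subset (s₁ := Z) (s₂ := P.E)]
        · refine Finset.sum_congr rfl fun a ha => ?_
          rw [if_pos ha, mul_one]
        · rw [hPE]
          exact Finset.subset_union_right
        · intro a _ ha
          rw [if_neg ha, mul_zero]
      rw [h1, hZ, Finset.sum_image fun i _ j _ hij => hP.inj hij, Fin.sum_univ_three]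
      exact htri x hx
  have hns : ∀ A₁ ⊆ P.dual.E \ Z, A₁.Nonempty → A₁ ≠ P.dual.E \ Z →
      1 ≤ (P.dual.del Z).lam A₁ := by
    intro A₁ h1 h2 h3
    have e1 : P.dual.E \ Z = A := hPZ
    rw [e1] at h1 h3
    have h5 := nonsep_of_min hA h ht hP hPc hPng hminA A₁ h1 h2 h3
    rw [← LM.dual_con, LM.lam_dual]
    · exact h5
    · rw [LM.con_E, hPZ]
      exact h1
  obtain ⟨v, hv⟩ := star_of_nonsep hKc (by rw [LM.dual_E]; omega) hG hP.inj hzP hcoc hns
  have hloop : ∀ i, f (z i) ≠ g (z i) := fun i =>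
    no_loop_of_conn3 hKc (by rw [LM.dual_E]; omega) hG (hzP i)
  have hgp : GP N.dual A := GP_dual_of_star hA h ht hP hG v hv hloop
  have hKreg : Regular P.dual := (hreg.minor hPN).dual
  have hnc : ¬ Cographic P.dual := by
    intro h1
    apply hPng
    have h2 : Graphic P.dual.dual := h1
    rwa [LM.dual_dual] at h2
  obtain ⟨C, D, hC, hD, hCD, ι, hι, hK, hrow⟩ := rooted33 hKreg hKc hG hP.inj hzP hv hnc
  have e1 : P.dual.E \ Z = A := hPZ
  rw [e1] at hC hD
  refine ⟨R, S, z, P, h, ht, hP, hgp, D, C, hD, hC, hCD.symm, ι, hι, ?_, hrow⟩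
  rw [← k33_dual hι, ← hK, LM.dual_del, LM.dual_con, LM.dual_dual]
  exact LM.con_del _ hCD.symm

end Pool.Agent.H87.Sey
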