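import Pool.Agent.H87.Sey.GraphBasic

/-!
# Connectivity of a graph and vertex cuts (Seymour project, MP_dbe88a_co, job S87-21)

(The abstract lemma is the one of `Pool/Agent/H53/Sey/SepB.lean`.)
-/

set_option autoImplicit false

namespace Pool.Agent.H87.Sey

open Pool.Agent.H63.Sey

universe u v

variable {α : Type u} [DecidableEq α] {V : Type v} [DecidableEq V]

/-- vertex separation, abstract form -/
private lemma cut_lam_le {N : BM α} {A : Finset α} (c : (V → ZMod 2) →ₗ[ZMod 2] (α → ZMod 2))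
    (hD : ∀ x, x ∈ N.D ↔ ∃ φ, c φ = x) (P Q : Finset V) (hc1 : c (fun _ => 1) = 0)
    (hA' : ∀ φ : V → ZMod 2, (∀ x ∈ Q, φ x = 0) → ∀ a ∈ N.E \ A, c φ a = 0)
    (hB' : ∀ φ : V → ZMod 2, (∀ x ∈ P, φ x = 0) → ∀ a ∈ A, c φ a = 0) :
    N.lam A ≤ (P ∩ Q).card - 1 := by
  classical
  have h1 := N.lam_add A
  have h2 := N.rk_add_finrank A
  have h3 := N.rk_add_finrank (N.E \ A)
  have h4 := N.rk_E
  set DB : Submodule (ZMod 2) (α → ZMod 2) := N.D ⊓ LinearMap.ker (res (ZMod 2) A) with hDB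
  set DA : Submodule (ZMod 2) (α → ZMod 2) := N.D ⊓ LinearMap.ker (res (ZMod 2) (N.E \ A))
    with hDA
  have memDB : ∀ x : α → ZMod 2, x ∈ DB ↔ x ∈ N.D ∧ ∀ a ∈ A, x a = 0 := fun x =>
    N.mem_con (X := A)
  have memDA : ∀ x : α → ZMod 2, x ∈ DA ↔ x ∈ N.D ∧ ∀ a ∈ N.E \ A, x a = 0 := fun x =>
    N.mem_con (X := N.E \ A)
  obtain ⟨W, hW, hWs⟩ : ∃ W : Finset V, W.card ≤ (P ∩ Q).card - 1 ∧
      ∀ φ : V → ZMod 2, ∃ φ' : V → ZMod 2, c φ' = c φ ∧ ∀ x ∈ P ∩ Q, x ∉ W → φ' x = 0 := by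
    rcases (P ∩ Q).eq_empty_or_nonempty with h | ⟨v0, hv0⟩
    · refine ⟨∅, by simp, fun φ => ⟨φ, rfl, ?_⟩⟩
      rw [h]
      intro x hx
      exact absurd hx (Finset.notMem_empty _)
    · refine ⟨(P ∩ Q).erase v0, by rw [Finset.card_erase_of_mem hv0], fun φ =>
        ⟨φ + φ v0 • (fun _ => 1), ?_, ?_⟩⟩
      · rw [map_add, map_smul, hc1, smul_zero, add_zero]
      · intro x hx hx'
        have hxv : x = v0 := by
          by_contra hne
          exact hx' (Finset.mem_erase.2 ⟨hne, hx⟩)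
        rw [hxv]
        simp only [Pi.add_apply, Pi.smul_apply, smul_eq_mul, mul_one]
        exact CharTwo.add_self_eq_zero _
  set S : Submodule (ZMod 2) (α → ZMod 2) :=
    Submodule.span (ZMod 2) ((W.image fun v => c (Pi.single v 1) : Finset (α → ZMod 2)) :
      Set (α → ZMod 2)) with hS
  have hle : N.D ≤ (DA ⊔ DB) ⊔ S := by
    intro x hx
    obtain ⟨φ0, rfl⟩ := (hD x).1 hx
    obtain ⟨φ, hφ, hφ0⟩ := hWs φ0
    rw [← hφ]
    have hsplit : φ = (fun x => if x ∈ Q then 0 else φ x) +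
        (fun x => if x ∈ Q ∧ x ∉ P then φ x else 0) +
        ∑ v ∈ W, (if v ∈ P ∩ Q then φ v else 0) • (Pi.single v 1 : V → ZMod 2) := by
      funext x
      rw [Pi.add_apply, Pi.add_apply, Finset.sum_apply]
      have hs : ∑ v ∈ W, ((if v ∈ P ∩ Q then φ v else 0) • (Pi.single v 1 : V → ZMod 2)) x =
          if x ∈ W then (if x ∈ P ∩ Q then φ x else 0) else 0 := by
        rw [← Finset.sum_ite_eq W x (fun v => if v ∈ P ∩ Q then φ v else 0)]
        refine Finset.sum_congr rfl fun v _ => ?_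
        rw [Pi.smul_apply, smul_eq_mul, Pi.single_apply]
        by_cases hxv : x = v
        · rw [if_pos hxv, if_pos hxv, mul_one]
        · rw [if_neg hxv, if_neg hxv, mul_zero]
      rw [hs]
      by_cases hQ : x ∈ Q
      · by_cases hP : x ∈ P
        · have hPQ : x ∈ P ∩ Q := Finset.mem_inter.2 ⟨hP, hQ⟩
          by_cases hxW : x ∈ W
          · simp [hQ, hP, hxW]
          · simp [hQ, hP, hxW, hφ0 x hPQ hxW]
        · simp [hQ, hP]
      · simp [hQ]
    rw [hsplit, map_add, map_add, map_sum]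
    refine Submodule.add_mem _ (Submodule.add_mem _ ?_ ?_) (Submodule.sum_mem _ fun v hv => ?_)
    · refine Submodule.mem_sup_left (Submodule.mem_sup_left ((memDA _).2 ⟨(hD _).2 ⟨_, rfl⟩, ?_⟩))
      exact hA' _ fun x hx => by rw [if_pos hx]
    · refine Submodule.mem_sup_left (Submodule.mem_sup_right ((memDB _).2 ⟨(hD _).2 ⟨_, rfl⟩, ?_⟩))
      exact hB' _ fun x hx => if_neg fun h => h.2 hx
    · rw [map_smul]
      refine Submodule.mem_sup_right (Submodule.smul_mem _ _ (Submodule.subset_span ?_))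
      rw [Finset.mem_coe]
      exact Finset.mem_image_of_mem _ hv
  have hfDA : FiniteDimensional (ZMod 2) DA :=
    Submodule.finiteDimensional_of_le (S₂ := N.D) inf_le_left
  have hfDB : FiniteDimensional (ZMod 2) DB :=
    Submodule.finiteDimensional_of_le (S₂ := N.D) inf_le_left
  have hfS : FiniteDimensional (ZMod 2) S := FiniteDimensional.span_finset _ _
  have h5 : Module.finrank (ZMod 2) N.D ≤ Module.finrank (ZMod 2) ↥((DA ⊔ DB) ⊔ S) :=
    Submodule.finrank_mono hle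
  have h6 : Module.finrank (ZMod 2) ↥((DA ⊔ DB) ⊔ S) ≤
      Module.finrank (ZMod 2) ↥(DA ⊔ DB) + Module.finrank (ZMod 2) S :=
    Submodule.finrank_add_le_finrank_add_finrank _ _
  have h7 : Module.finrank (ZMod 2) ↥(DA ⊔ DB) ≤
      Module.finrank (ZMod 2) DA + Module.finrank (ZMod 2) DB :=
    Submodule.finrank_add_le_finrank_add_finrank _ _
  have h8 : Module.finrank (ZMod 2) S ≤ (P ∩ Q).card - 1 :=
    (finrank_span_finset_le_card _).trans (Finset.card_image_le.trans hW)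
  omega


/-- If the edges of `X` and the other edges meet only in vertices of `W`, then
`lam X ≤ |W| - 1`. -/
theorem lam_le_of_cut {K : BM α} {V : Type*} [Fintype V] [DecidableEq V] {f g : α → V}
    (hG : K = cyc K.E f g) {X : Finset α} (hX : X ⊆ K.E) (W : Finset V) (hW : W.Nonempty)
    (h : ∀ w, (∃ a ∈ X, f a = w ∨ g a = w) → (∃ b ∈ K.E \ X, f b = w ∨ g b = w) → w ∈ W) :
    K.lam X + 1 ≤ W.card := by
  classical
  have hmem : ∀ x, x ∈ K.D ↔ ∃ φ, cob K.E f g φ = x := by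
    intro x
    have h1 : K.D = LinearMap.range (cob K.E f g) := by
      conv_lhs => rw [hG]
      rfl
    rw [h1]
    exact Iff.rfl
  set P : Finset V := Finset.univ.filter fun w => ∃ a ∈ X, f a = w ∨ g a = w with hP
  set Q : Finset V := Finset.univ.filter fun w => ∃ b ∈ K.E \ X, f b = w ∨ g b = w with hQ
  have h1 := cut_lam_le (N := K) (A := X) (cob K.E f g) hmem P Q
    (by ext a; by_cases ha : a ∈ K.E <;> simp [ha, CharTwo.add_self_eq_zero])
    (by
      intro φ hφ a ha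
      have haE : a ∈ K.E := (Finset.mem_sdiff.1 ha).1
      have e1 : φ (f a) = 0 := hφ _ (by
        rw [hQ, Finset.mem_filter]; exact ⟨Finset.mem_univ _, a, ha, Or.inl rfl⟩)
      have e2 : φ (g a) = 0 := hφ _ (by
        rw [hQ, Finset.mem_filter]; exact ⟨Finset.mem_univ _, a, ha, Or.inr rfl⟩)
      rw [cob_apply, if_pos haE, e1, e2, add_zero])
    (by
      intro φ hφ a ha
      have haE : a ∈ K.E := hX ha
      have e1 : φ (f a) = 0 := hφ _ (by
        rw [hP, Finset.mem_filter]; exact ⟨Finset.mem_univ _, a, ha, Or.inl rfl⟩)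
      have e2 : φ (g a) = 0 := hφ _ (by
        rw [hP, Finset.mem_filter]; exact ⟨Finset.mem_univ _, a, ha, Or.inr rfl⟩)
      rw [cob_apply, if_pos haE, e1, e2, add_zero])
  have h2 : (P ∩ Q).card ≤ W.card := by
    refine Finset.card_le_card fun w hw => ?_
    rw [Finset.mem_inter, hP, hQ, Finset.mem_filter, Finset.mem_filter] at hw
    exact h w hw.1.2 hw.2.2
  have h3 := Finset.card_pos.2 hW
  omega

end Pool.Agent.H87.Sey
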