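import Mathlib

/-!
# Finite check for the rooted lemma (Seymour project, MP_dbe88a_co, job S87-24)

The situation: `K33` or `K5` (vertex set `Fin m`) is obtained from a graph by contracting the three
roots `0, 1, 2` onto vertices `x 0, x 1, x 2` (not necessarily different); `k o r` says that the
vertex `o ∉ {x 0, x 1, x 2}` is joined to the root `r`.
-/

set_option autoImplicit false

namespace Pool.Agent.H87.Sey

def adj33 (i j : Fin 6) : Bool := (decide (i.1 < 3) && decide (3 ≤ j.1)) ||
  (decide (j.1 < 3) && decide (3 ≤ i.1))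

def adj5 (i j : Fin 5) : Bool := decide (i ≠ j)

/-- hypotheses: roots `r, r'` with `x r = x r'` share the edges at `x r` -/
structure FCHyp {m : ℕ} (adj : Fin m → Fin m → Bool) (x : Fin 3 → Fin m)
    (k : Fin m → Fin 3 → Bool) : Prop where
  h1 : ∀ o, (∀ r, o ≠ x r) → ∀ r, k o r = true → adj o (x r) = true
  h2 : ∀ o, (∀ r, o ≠ x r) → ∀ r, adj o (x r) = true → ∃ r', x r' = x r ∧ k o r' = true
  h2' : ∀ o, (∀ r, o ≠ x r) → ∀ r r', x r = x r' → k o r = true → k o r' = true → r = r'
  h3 : ∀ r, ∃ o, (∀ r', o ≠ x r') ∧ k o r = true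

/-- conclusion: two hubs `h 0, h 1` and for every root `r` a path `L r` of length at most two
starting at the root, all disjoint, each hub joined to the root or to its path -/
structure FCConcl {m : ℕ} (adj : Fin m → Fin m → Bool) (x : Fin 3 → Fin m)
    (k : Fin m → Fin 3 → Bool) (h : Fin 2 → Fin m) (L : Fin 3 → List (Fin m)) : Prop where
  hne : h 0 ≠ h 1
  hx : ∀ i r, h i ≠ x r
  hL : ∀ i r, h i ∉ L r
  Lx : ∀ r, ∀ o ∈ L r, ∀ r', o ≠ x r'
  LL : ∀ r r', r ≠ r' → ∀ o ∈ L r, o ∉ L r'
  path : ∀ r, L r = [] ∨ (∃ o, L r = [o] ∧ k o r = true) ∨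
    ∃ o o', L r = [o, o'] ∧ k o r = true ∧ adj o o' = true
  hub : ∀ i r, k (h i) r = true ∨ ∃ o ∈ L r, adj (h i) o = true

namespace FCAux

/-- root `r` shares its vertex with another root -/
def merged {m : ℕ} (x : Fin 3 → Fin m) (r : Fin 3) : Bool :=
  match r with
  | 0 => x 0 == x 1 || x 0 == x 2
  | 1 => x 1 == x 0 || x 1 == x 2
  | 2 => x 2 == x 0 || x 2 == x 1

lemma merged_iff {m : ℕ} (x : Fin 3 → Fin m) (r : Fin 3) :
    merged x r = true ↔ ∃ r', r' ≠ r ∧ x r' = x r := by
  constructor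
  · intro h
    fin_cases r
    · rcases Bool.or_eq_true _ _ ▸ h with h | h
      · exact ⟨1, by decide, (beq_iff_eq.1 h).symm⟩
      · exact ⟨2, by decide, (beq_iff_eq.1 h).symm⟩
    · rcases Bool.or_eq_true _ _ ▸ h with h | h
      · exact ⟨0, by decide, (beq_iff_eq.1 h).symm⟩
      · exact ⟨2, by decide, (beq_iff_eq.1 h).symm⟩
    · rcases Bool.or_eq_true _ _ ▸ h with h | h
      · exact ⟨0, by decide, (beq_iff_eq.1 h).symm⟩
      · exact ⟨1, by decide, (beq_iff_eq.1 h).symm⟩
  · rintro ⟨r', hne, h⟩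
    fin_cases r <;> fin_cases r' <;> simp_all [merged]

/-- the incidences given by the owner function -/
def kk {m : ℕ} (adj : Fin m → Fin m → Bool) (x : Fin 3 → Fin m) (own : Fin m → Fin 3)
    (o : Fin m) (r : Fin 3) : Bool :=
  adj o (x r) && (!merged x r || decide (own o = r))

lemma merged_pair {m : ℕ} (x : Fin 3 → Fin m) : ∀ r r', merged x r = true → merged x r' = true →
    x r = x r' := by
  intro r r' h h'
  rw [merged_iff] at h h'
  obtain ⟨s, hs, hxs⟩ := h
  obtain ⟨s', hs', hxs'⟩ := h'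
  have key : ∀ r r' s s' : Fin 3, s ≠ r → s' ≠ r' → r = r' ∨ r = s' ∨ s = r' ∨ s = s' := by
    decide
  rcases key r r' s s' hs hs' with h | h | h | h
  · rw [h]
  · rw [h, hxs']
  · rw [← hxs, h]
  · rw [← hxs, ← hxs', h]

/-- reduction to owner functions -/
lemma exists_own {m : ℕ} {adj : Fin m → Fin m → Bool} {x : Fin 3 → Fin m}
    {k : Fin m → Fin 3 → Bool} (h : FCHyp adj x k) : ∃ own : Fin m → Fin 3,
      ∀ o, (∀ r, o ≠ x r) → ∀ r, k o r = kk adj x own o r := by
  classical
  refine ⟨fun o => if hh : ∃ r, merged x r = true ∧ k o r = true then hh.choose else 0, ?_⟩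
  intro o ho r
  rw [Bool.eq_iff_iff]
  simp only [kk, Bool.and_eq_true, Bool.or_eq_true, Bool.not_eq_true', decide_eq_true_eq]
  constructor
  · intro hk
    refine ⟨h.h1 o ho r hk, ?_⟩
    by_cases hm : merged x r = true
    · right
      have hh : ∃ r, merged x r = true ∧ k o r = true := ⟨r, hm, hk⟩
      rw [dif_pos hh]
      exact h.h2' o ho _ _ (merged_pair x _ _ hh.choose_spec.1 hm) hh.choose_spec.2 hk
    · left
      simpa using hm
  · rintro ⟨ha, hb⟩
    obtain ⟨r', hr', hk'⟩ := h.h2 o ho r ha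
    rcases hb with hb | hb
    · have : r' = r := by
        by_contra hne
        have : merged x r = true := by
          rw [merged_iff]
          exact ⟨r', hne, hr'⟩
        rw [hb] at this
        exact Bool.false_ne_true this
      rw [← this]
      exact hk'
    · by_cases hrr : r' = r
      · rw [← hrr]
        exact hk'
      · have hm' : merged x r' = true := by
          rw [merged_iff]
          exact ⟨r, fun h => hrr h.symm, hr'.symm⟩
        have hh : ∃ r, merged x r = true ∧ k o r = true := ⟨r', hm', hk'⟩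
        rw [dif_pos hh] at hb
        rw [← hb]
        exact hh.choose_spec.2

/-- `FCConcl` only depends on `k` outside `x` -/
lemma concl_congr {m : ℕ} {adj : Fin m → Fin m → Bool} {x : Fin 3 → Fin m}
    {k k' : Fin m → Fin 3 → Bool} (hk : ∀ o, (∀ r, o ≠ x r) → ∀ r, k o r = k' o r)
    {h : Fin 2 → Fin m} {L : Fin 3 → List (Fin m)} (hc : FCConcl adj x k' h L) :
    FCConcl adj x k h L := by
  refine ⟨hc.hne, hc.hx, hc.hL, hc.Lx, hc.LL, ?_, ?_⟩
  · intro r
    rcases hc.path r with h1 | ⟨o, h1, h2⟩ | ⟨o, o', h1, h2, h3⟩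
    · exact Or.inl h1
    · refine Or.inr (Or.inl ⟨o, h1, ?_⟩)
      rw [hk o (hc.Lx r o (by rw [h1]; simp))]
      exact h2
    · refine Or.inr (Or.inr ⟨o, o', h1, ?_, h3⟩)
      rw [hk o (hc.Lx r o (by rw [h1]; simp))]
      exact h2
  · intro i r
    rcases hc.hub i r with h1 | h1
    · left
      rw [hk _ (hc.hx i)]
      exact h1
    · exact Or.inr h1

/-- computable version of the conclusion -/
def conclB {m : ℕ} (adj : Fin m → Fin m → Bool) (x : Fin 3 → Fin m)
    (k : Fin m → Fin 3 → Bool) (h0 h1 : Fin m) (L : Fin 3 → List (Fin m)) : Bool :=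
  let X := [x 0, x 1, x 2]
  let pathB : Fin 3 → Bool := fun r => match L r with
    | [] => true
    | [o] => k o r
    | [o, o'] => k o r && adj o o'
    | _ => false
  let hubB : Fin m → Fin 3 → Bool := fun h r => k h r || (L r).any fun o => adj h o
  (h0 != h1) && (!X.contains h0) && (!X.contains h1) &&
  (!(L 0).contains h0) && (!(L 1).contains h0) && (!(L 2).contains h0) &&
  (!(L 0).contains h1) && (!(L 1).contains h1) && (!(L 2).contains h1) &&
  ((L 0).all fun o => !X.contains o && !(L 1).contains o && !(L 2).contains o) &&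
  ((L 1).all fun o => !X.contains o && !(L 2).contains o && !(L 0).contains o) &&
  ((L 2).all fun o => !X.contains o && !(L 0).contains o && !(L 1).contains o) &&
  pathB 0 && pathB 1 && pathB 2 && hubB h0 0 && hubB h0 1 && hubB h0 2 &&
  hubB h1 0 && hubB h1 1 && hubB h1 2

lemma concl_of_conclB {m : ℕ} {adj : Fin m → Fin m → Bool} {x : Fin 3 → Fin m}
    {k : Fin m → Fin 3 → Bool} {h0 h1 : Fin m} {L : Fin 3 → List (Fin m)}
    (h : conclB adj x k h0 h1 L = true) : FCConcl adj x k ![h0, h1] L := by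
  simp only [conclB, Bool.and_eq_true, bne_iff_ne, ne_eq, Bool.not_eq_true',
    List.contains_eq_mem, decide_eq_false_iff_not, List.all_eq_true, Bool.or_eq_true,
    List.any_eq_true, List.mem_cons, List.not_mem_nil, or_false, not_or] at h
  obtain ⟨⟨⟨⟨⟨⟨⟨⟨⟨⟨⟨⟨⟨⟨⟨⟨⟨⟨⟨⟨hne, hX0⟩, hX1⟩, a0⟩, a1⟩, a2⟩, b0⟩, b1⟩, b2⟩, l0⟩, l1⟩, l2⟩, p0⟩, p1⟩, p2⟩,
    u0⟩, u1⟩, u2⟩, v0⟩, v1⟩, v2⟩ := h
  have path : ∀ r, (match L r with
    | [] => true
    | [o] => k o r
    | [o, o'] => k o r && adj o o'
    | _ => false) = true → L r = [] ∨ (∃ o, L r = [o] ∧ k o r = true) ∨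
    ∃ o o', L r = [o, o'] ∧ k o r = true ∧ adj o o' = true := by
    intro r hr
    match hL : L r, hr with
    | [], _ => exact Or.inl rfl
    | [o], hr => exact Or.inr (Or.inl ⟨o, rfl, hr⟩)
    | [o, o'], hr =>
      rw [Bool.and_eq_true] at hr
      exact Or.inr (Or.inr ⟨o, o', rfl, hr.1, hr.2⟩)
  refine ⟨by simpa using hne, ?_, ?_, ?_, ?_, ?_, ?_⟩
  · intro i r
    fin_cases i <;> fin_cases r <;> simp <;> tauto
  · intro i r
    fin_cases i <;> fin_cases r <;> simp <;> assumption
  · intro r o ho r'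
    have key : ∀ r : Fin 3, ∀ o ∈ L r, o ≠ x 0 ∧ o ≠ x 1 ∧ o ≠ x 2 := by
      intro r o ho
      fin_cases r
      · exact (l0 o ho).1.1
      · exact (l1 o ho).1.1
      · exact (l2 o ho).1.1
    have h := key r o ho
    fin_cases r'
    · exact h.1
    · exact h.2.1
    · exact h.2.2
  · intro r r' hrr o ho
    fin_cases r <;> fin_cases r'
    · exact absurd rfl hrr
    · exact (l0 o ho).1.2
    · exact (l0 o ho).2
    · exact (l1 o ho).2
    · exact absurd rfl hrr
    · exact (l1 o ho).1.2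
    · exact (l2 o ho).1.2
    · exact (l2 o ho).2
    · exact absurd rfl hrr
  · intro r
    fin_cases r
    · exact path 0 p0
    · exact path 1 p1
    · exact path 2 p2
  · intro i r
    fin_cases i <;> fin_cases r <;> simp <;> assumption


def sd (v : Fin 6) : Bool := decide (v.1 < 3)

def nth2 {m : ℕ} (d : Fin m) (l : List (Fin m)) : Fin m × Fin m :=
  match l with
  | a :: b :: _ => (a, b)
  | _ => (d, d)

def vec3 {β : Type} (a b c : β) (r : Fin 3) : β :=
  match r with
  | 0 => a
  | 1 => b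
  | 2 => c

lemma vec3_eta {β : Type} (x : Fin 3 → β) : vec3 (x 0) (x 1) (x 2) = x := by
  funext r
  fin_cases r <;> rfl

/-- the vertices different from the `x r` -/
def outs {m : ℕ} (l : List (Fin m)) (x : Fin 3 → Fin m) : List (Fin m) :=
  l.filter fun o => !(o == x 0 || o == x 1 || o == x 2)

lemma mem_outs {m : ℕ} {l : List (Fin m)} (hl : ∀ o, o ∈ l) {x : Fin 3 → Fin m} {o : Fin m} :
    o ∈ outs l x ↔ ∀ r, o ≠ x r := by
  rw [outs, List.mem_filter]
  simp only [Bool.not_eq_true', Bool.or_eq_false_iff, beq_eq_false_iff_ne, ne_eq]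
  constructor
  · rintro ⟨-, ⟨h0, h1⟩, h2⟩ r
    fin_cases r
    · exact h0
    · exact h1
    · exact h2
  · intro h
    exact ⟨hl o, ⟨h 0, h 1⟩, h 2⟩

def h2B {m : ℕ} (A : Fin m → Fin m → Bool) (x : Fin 3 → Fin m) (k : Fin m → Fin 3 → Bool)
    (o : Fin m) (r : Fin 3) : Bool :=
  !(A o (x r)) || ((x 0 == x r && k o 0) || (x 1 == x r && k o 1) || (x 2 == x r && k o 2))

/-- the hypotheses, computable -/
def preB {m : ℕ} (A : Fin m → Fin m → Bool) (l : List (Fin m)) (x : Fin 3 → Fin m)
    (k : Fin m → Fin 3 → Bool) : Bool :=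
  let O := outs l x
  (O.any fun o => k o 0) && (O.any fun o => k o 1) && (O.any fun o => k o 2) &&
      (O.all fun o => h2B A x k o 0 && h2B A x k o 1 && h2B A x k o 2)

lemma preB_of_hyp {m : ℕ} {A : Fin m → Fin m → Bool} {l : List (Fin m)} (hl : ∀ o, o ∈ l)
    {x : Fin 3 → Fin m} {k k' : Fin m → Fin 3 → Bool} (h : FCHyp A x k)
    (hk : ∀ o, (∀ r, o ≠ x r) → ∀ r, k o r = k' o r) : preB A l x k' = true := by
  have h3 : ∀ r, ((outs l x).any fun o => k' o r) = true := by
    intro r
    obtain ⟨o, ho, hkr⟩ := h.h3 r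
    rw [List.any_eq_true]
    exact ⟨o, (mem_outs hl).2 ho, by rw [← hk o ho r]; exact hkr⟩
  have h2 : ∀ o ∈ outs l x, ∀ r, h2B A x k' o r = true := by
    intro o ho r
    rw [mem_outs hl] at ho
    rw [h2B, Bool.or_eq_true, Bool.not_eq_true']
    by_cases ha : A o (x r) = true
    · right
      obtain ⟨r', hr', hk'⟩ := h.h2 o ho r ha
      rw [hk o ho] at hk'
      simp only [Bool.or_eq_true, Bool.and_eq_true, beq_iff_eq]
      fin_cases r'
      · exact Or.inl (Or.inl ⟨hr', hk'⟩)
      · exact Or.inl (Or.inr ⟨hr', hk'⟩)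
      · exact Or.inr ⟨hr', hk'⟩
    · left
      simpa using ha
  simp only [preB, Bool.and_eq_true, List.all_eq_true]
  exact ⟨⟨⟨h3 0, h3 1⟩, h3 2⟩, fun o ho => ⟨⟨h2 o ho 0, h2 o ho 1⟩, h2 o ho 2⟩⟩

def l6 : List (Fin 6) := [0, 1, 2, 3, 4, 5]

def l5 : List (Fin 5) := [0, 1, 2, 3, 4]

lemma mem_l6 : ∀ o : Fin 6, o ∈ l6 := by decide

lemma mem_l5 : ∀ o : Fin 5, o ∈ l5 := by decide

/-- candidate for `K33` -/
def cand33 (x : Fin 3 → Fin 6) (own : Fin 6 → Fin 3) : (Fin 6 × Fin 6) × (Fin 3 → List (Fin 6)) :=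
  let O := outs l6 x
  let m0 := x 0 == x 1 || x 0 == x 2
  let m1 := x 1 == x 0 || x 1 == x 2
  let m2 := x 2 == x 0 || x 2 == x 1
  if !m0 && !m1 && !m2 then
    if sd (x 0) == sd (x 1) && sd (x 1) == sd (x 2) then
      (nth2 0 (O.filter fun o => sd o != sd (x 0)), fun _ => [])
    else
      let t : Fin 3 := if sd (x 1) == sd (x 2) then 0 else if sd (x 0) == sd (x 2) then 1 else 2
      (nth2 0 (O.filter fun o => sd o == sd (x t)),
        fun r => if r == t then O.filter fun o => sd o != sd (x t) else [])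
  else
    let w := if m0 then x 0 else x 1
    if m0 && m1 && m2 then
      (nth2 0 (O.filter fun o => sd o == sd w),
        fun r => O.filter fun o => sd o != sd w && own o == r)
    else
      let r3 : Fin 3 := if !m0 then 0 else if !m1 then 1 else 2
      if sd (x r3) != sd w then
        (nth2 0 (O.filter fun o => sd o == sd w),
          fun r => if r == r3 then [] else O.filter fun o => sd o != sd w && own o == r)
      else
        let z := O.filter fun o => sd o == sd w
        let ra : Fin 3 := if m0 then 0 else 1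
        let rb : Fin 3 := if m2 then 2 else 1
        let ba := O.filter fun o => sd o != sd w && own o == ra
        let bb := O.filter fun o => sd o != sd w && own o == rb
        if 2 ≤ ba.length then
          (nth2 0 ba, fun r => if r == rb then bb ++ z else [])
        else
          (nth2 0 bb, fun r => if r == ra then ba ++ z else [])

def own6 (c0 c1 c2 : Fin 3) (o : Fin 6) : Fin 3 :=
  match o with
  | 0 => c0 | 1 => c1 | 2 => c2 | 3 => c0 | 4 => c1 | 5 => c2

def test33 (x : Fin 3 → Fin 6) (own : Fin 6 → Fin 3) : Bool :=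
  let k := kk adj33 x own
  if preB adj33 l6 x k then
    let c := cand33 x own
    conclB adj33 x k c.1.1 c.1.2 c.2
  else true

/-- candidate for `K5` -/
def cand5 (x : Fin 3 → Fin 5) (own : Fin 5 → Fin 3) : (Fin 5 × Fin 5) × (Fin 3 → List (Fin 5)) :=
  let O := outs l5 x
  let m0 := x 0 == x 1 || x 0 == x 2
  let m1 := x 1 == x 0 || x 1 == x 2
  let m2 := x 2 == x 0 || x 2 == x 1
  if !m0 && !m1 && !m2 then
    (nth2 0 O, fun _ => [])
  else
    let b0 := if m0 then O.filter fun o => own o == 0 else []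
    let b1 := if m1 then O.filter fun o => own o == 1 else []
    let b2 := if m2 then O.filter fun o => own o == 2 else []
    if 2 ≤ b0.length then (nth2 0 b0, vec3 [] b1 b2)
    else if 2 ≤ b1.length then (nth2 0 b1, vec3 b0 [] b2)
    else (nth2 0 b2, vec3 b0 b1 [])

/-- the owner function skipping the vertex `w` -/
def own5 (w : Fin 5) (c0 c1 c2 c3 : Fin 3) (o : Fin 5) : Fin 3 :=
  let i := if o.1 < w.1 then o.1 else o.1 - 1
  if i == 0 then c0 else if i == 1 then c1 else if i == 2 then c2 else c3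

def test5 (x : Fin 3 → Fin 5) (own : Fin 5 → Fin 3) : Bool :=
  let k := kk adj5 x own
  if preB adj5 l5 x k then
    let c := cand5 x own
    conclB adj5 x k c.1.1 c.1.2 c.2
  else true

/-- no two roots share their vertex -/
def inj {m : ℕ} (x : Fin 3 → Fin m) : Bool := !merged x 0 && !merged x 1 && !merged x 2

/-- a vertex shared by two roots -/
def mv {m : ℕ} (x : Fin 3 → Fin m) : Fin m := if merged x 0 then x 0 else x 1

lemma mv_eq {m : ℕ} {x : Fin 3 → Fin m} {r : Fin 3} (h : merged x r = true) : x r = mv x := by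
  rw [mv]
  by_cases h0 : merged x 0 = true
  · rw [if_pos h0]
    exact merged_pair x r 0 h h0
  · rw [if_neg h0]
    have h1 : merged x 1 = true := by
      rw [merged_iff] at h ⊢
      rw [merged_iff] at h0
      push Not at h0
      obtain ⟨r', hne, hr'⟩ := h
      have a1 := h0 1 (by decide)
      have a2 := h0 2 (by decide)
      fin_cases r <;> fin_cases r'
      · exact absurd rfl hne
      · exact absurd hr' a1
      · exact absurd hr' a2
      · exact absurd hr'.symm a1
      · exact absurd rfl hne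
      · exact ⟨2, by decide, hr'⟩
      · exact absurd hr'.symm a2
      · exact ⟨2, by decide, hr'.symm⟩
      · exact absurd rfl hne
    exact merged_pair x r 1 h h1

/-- only the owners of the neighbours of the shared vertex matter -/
lemma kk_congr {m : ℕ} {A : Fin m → Fin m → Bool} {x : Fin 3 → Fin m} {own own' : Fin m → Fin 3}
    (h : ∀ o, A o (mv x) = true → own o = own' o) (o : Fin m) (r : Fin 3) :
    kk A x own o r = kk A x own' o r := by
  by_cases hm : merged x r = true
  · by_cases ha : A o (x r) = true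
    · rw [kk, kk, h o (by rw [← mv_eq hm]; exact ha)]
    · simp [kk, ha]
  · simp [kk, hm]

lemma kk_inj {m : ℕ} {A : Fin m → Fin m → Bool} {x : Fin 3 → Fin m} {own own' : Fin m → Fin 3}
    (h : inj x = true) (o : Fin m) (r : Fin 3) : kk A x own o r = kk A x own' o r := by
  have hm : merged x r = false := by
    simp only [inj, Bool.and_eq_true, Bool.not_eq_true'] at h
    fin_cases r
    · exact h.1.1
    · exact h.1.2
    · exact h.2
  simp [kk, hm]

set_option maxRecDepth 100000 in
theorem t33a : ∀ x0 x1 x2 : Fin 6, test33 (vec3 x0 x1 x2) (fun _ => 0) = true ∨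
    inj (vec3 x0 x1 x2) = false := by
  decide +kernel

set_option maxRecDepth 100000 in
theorem t33b : ∀ x0 x1 x2 : Fin 6, inj (vec3 x0 x1 x2) = true ∨ ∀ c0 c1 c2 : Fin 3,
    test33 (vec3 x0 x1 x2) (own6 c0 c1 c2) = true := by
  decide +kernel

set_option maxRecDepth 100000 in
theorem t5a : ∀ x0 x1 x2 : Fin 5, test5 (vec3 x0 x1 x2) (fun _ => 0) = true ∨
    inj (vec3 x0 x1 x2) = false := by
  decide +kernel

set_option maxRecDepth 100000 in
theorem t5b : ∀ x0 x1 x2 : Fin 5, inj (vec3 x0 x1 x2) = true ∨ ∀ c0 c1 c2 c3 : Fin 3,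
    test5 (vec3 x0 x1 x2) (own5 (mv (vec3 x0 x1 x2)) c0 c1 c2 c3) = true := by
  decide +kernel

/-- index in the owner function -/
def g6 (w : Fin 6) (j : Fin 3) : Fin 6 :=
  if w.1 < 3 then
    match j with
    | 0 => 3 | 1 => 4 | 2 => 5
  else
    match j with
    | 0 => 0 | 1 => 1 | 2 => 2

lemma own6_spec (own : Fin 6 → Fin 3) : ∀ w o : Fin 6, adj33 o w = true →
    own o = own6 (own (g6 w 0)) (own (g6 w 1)) (own (g6 w 2)) o := by
  intro w o h
  fin_cases w <;> fin_cases o <;> first | rfl | exact absurd h (by decide)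

def g5 (w : Fin 5) (j : ℕ) : Fin 5 := if j < w.1 then Fin.ofNat 5 j else Fin.ofNat 5 (j + 1)

lemma own5_spec (own : Fin 5 → Fin 3) : ∀ w o : Fin 5, adj5 o w = true →
    own o = own5 w (own (g5 w 0)) (own (g5 w 1)) (own (g5 w 2)) (own (g5 w 3)) o := by
  intro w o h
  fin_cases w <;> fin_cases o <;> first | rfl | exact absurd h (by decide)

lemma of_test33 {x : Fin 3 → Fin 6} {k : Fin 6 → Fin 3 → Bool} {own : Fin 6 → Fin 3}
    (h : FCHyp adj33 x k) (hk : ∀ o, (∀ r, o ≠ x r) → ∀ r, k o r = kk adj33 x own o r)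
    (ht : test33 x own = true) : ∃ h L, FCConcl adj33 x k h L := by
  rw [test33] at ht
  simp only [preB_of_hyp mem_l6 h hk, if_true] at ht
  exact ⟨_, _, concl_congr hk (concl_of_conclB ht)⟩

lemma of_test5 {x : Fin 3 → Fin 5} {k : Fin 5 → Fin 3 → Bool} {own : Fin 5 → Fin 3}
    (h : FCHyp adj5 x k) (hk : ∀ o, (∀ r, o ≠ x r) → ∀ r, k o r = kk adj5 x own o r)
    (ht : test5 x own = true) : ∃ h L, FCConcl adj5 x k h L := by
  rw [test5] at ht
  simp only [preB_of_hyp mem_l5 h hk, if_true] at ht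
  exact ⟨_, _, concl_congr hk (concl_of_conclB ht)⟩

end FCAux

open FCAux in
/-- `K33`, up to symmetry (`a_i = i`, `b_j = 3 + j`):
`x` injective: `x = a_0 a_1 a_2`: hubs `b_0, b_1`; `x = a_0 a_1 b_0`: hubs `b_1, b_2`,
`L 2 = [a_2]`.
`x 0 = x 1 = a_0`, `x 2 = a_1`: root `0` has `b_0, b_1`, root `1` has `b_2` (or all the other way
round): hubs `b_0, b_1`, `L 1 = [b_2, a_2]`.
`x 0 = x 1 = a_0`, `x 2 = b_0`: root `0` has `b_1`, root `1` has `b_2`: hubs `a_1, a_2`,
`L 0 = [b_1]`, `L 1 = [b_2]`.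
`x 0 = x 1 = x 2 = a_0`, root `r` has `b_r`: hubs `a_1, a_2`, `L r = [b_r]`.
Or a kernel computation: for `k` it suffices to know for each `o` which of the roots at the merged
vertex owns it. -/
theorem fc33 (x : Fin 3 → Fin 6) (k : Fin 6 → Fin 3 → Bool) (h : FCHyp adj33 x k) :
    ∃ h L, FCConcl adj33 x k h L := by
  obtain ⟨own, hown⟩ := exists_own h
  by_cases hi : inj x = true
  · have h1 := t33a (x 0) (x 1) (x 2)
    rw [vec3_eta, hi] at h1
    have h2 := h1.resolve_right (by decide)
    exact of_test33 h (fun o ho r => (hown o ho r).trans (kk_inj hi o r)) h2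
  · have h1 := t33b (x 0) (x 1) (x 2)
    rw [vec3_eta] at h1
    have h2 := h1.resolve_left hi
    exact of_test33 h (fun o ho r => (hown o ho r).trans
      (kk_congr (fun o ho => own6_spec own (mv x) o ho) o r)) (h2 _ _ _)

open FCAux in
/-- `K5`: `x` injective: hubs the two other vertices. `x 0 = x 1 = 0`, `x 2 = 1`: root `0` has
`2, 3`, root `1` has `4`: hubs `2, 3`, `L 1 = [4]`. `x 0 = x 1 = x 2 = 0`: root `0` has `1, 2`,
root `1` has `3`, root `2` has `4`: hubs `1, 2`, `L 1 = [3]`, `L 2 = [4]`. -/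
theorem fc5 (x : Fin 3 → Fin 5) (k : Fin 5 → Fin 3 → Bool) (h : FCHyp adj5 x k) :
    ∃ h L, FCConcl adj5 x k h L := by
  obtain ⟨own, hown⟩ := exists_own h
  by_cases hi : inj x = true
  · have h1 := t5a (x 0) (x 1) (x 2)
    rw [vec3_eta, hi] at h1
    have h2 := h1.resolve_right (by decide)
    exact of_test5 h (fun o ho r => (hown o ho r).trans (kk_inj hi o r)) h2
  · have h1 := t5b (x 0) (x 1) (x 2)
    rw [vec3_eta] at h1
    have h2 := h1.resolve_left hi
    exact of_test5 h (fun o ho r => (hown o ho r).trans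
      (kk_congr (fun o ho => own5_spec own (mv x) o ho) o r)) (h2 _ _ _ _)

end Pool.Agent.H87.Sey
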