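import Pool.Agent.H87.Sey.Uniq

/-!
# The test graphs `K33` and `K5` (Seymour project, MP_dbe88a_co, job S87-23)
-/

set_option autoImplicit false

namespace Pool.Agent.H87.Sey

open Pool.Agent.H63.Sey

universe u

variable {α : Type u} [DecidableEq α]

/-- `K33`: edge `3 i + j` joins `i` and `3 + j` -/
def e33 : Fin 9 → Fin 6 × Fin 6 :=
  ![(0, 3), (0, 4), (0, 5), (1, 3), (1, 4), (1, 5), (2, 3), (2, 4), (2, 5)]

/-- `K5` -/
def e5 : Fin 10 → Fin 5 × Fin 5 :=
  ![(0, 1), (0, 2), (0, 3), (0, 4), (1, 2), (1, 3), (1, 4), (2, 3), (2, 4), (3, 4)]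

/-- the indicator of `v` -/
def tind {m : ℕ} (v : Fin m) : Fin m → ZMod 2 := fun x => if x = v then 1 else 0

/-- the value of `s` along a closed walk `L` avoiding `w`, at the vertex `v` -/
theorem tcyc {k m : ℕ} {e : Fin k → Fin m × Fin m} {w : Fin m} {s : Fin k → Bool}
    (h : ∀ ψ : Fin m → ZMod 2, ∃ ψ' : Fin m → ZMod 2, ∀ i,
      ¬ Inc e w i → ψ' (e i).1 + ψ' (e i).2 = if s i then ψ (e i).1 + ψ (e i).2 else 0)
    (v : Fin m) (i j : Fin k) (L : List (Fin k)) (hw : ∀ a ∈ i :: j :: L, ¬ Inc e w a)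
    (hi : tind v (e i).1 + tind v (e i).2 = 1) (hj : tind v (e j).1 + tind v (e j).2 = 1)
    (hL : ∀ a ∈ L, tind v (e a).1 + tind v (e a).2 = 0)
    (hc : ∀ ψ : Fin m → ZMod 2, ((i :: j :: L).map fun a => ψ (e a).1 + ψ (e a).2).sum = 0) :
    s i = s j := by
  obtain ⟨ψ', h'⟩ := h (tind v)
  have h1 := hc ψ'
  have h2 : (L.map fun a => ψ' (e a).1 + ψ' (e a).2).sum = 0 := by
    apply List.sum_eq_zero
    intro x hx
    obtain ⟨a, ha, rfl⟩ := List.mem_map.1 hx
    rw [h' a (hw a (by simp [ha])), hL a ha]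
    split_ifs <;> rfl
  rw [List.map_cons, List.map_cons, List.sum_cons, List.sum_cons, h2,
    h' i (hw i (by simp)), h' j (hw j (by simp)), hi, hj] at h1
  revert h1
  cases s i <;> cases s j <;> decide

/-- edge indices of `K33` -/
def tix33 (a c : Fin 3) : Fin 9 := ⟨3 * a + c, by omega⟩

def tlv (a : Fin 3) : Fin 6 := ⟨a, by omega⟩
def trv (a : Fin 3) : Fin 6 := ⟨3 + a, by omega⟩

theorem tq33 {w : Fin 6} {s : Fin 9 → Bool}
    (h : ∀ ψ : Fin 6 → ZMod 2, ∃ ψ' : Fin 6 → ZMod 2, ∀ i,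
      ¬ Inc e33 w i → ψ' (e33 i).1 + ψ' (e33 i).2 =
        if s i then ψ (e33 i).1 + ψ (e33 i).2 else 0) :
    ∀ a b c d : Fin 3, a ≠ b → c ≠ d → w ≠ tlv a → w ≠ tlv b → w ≠ trv c → w ≠ trv d →
      s (tix33 a c) = s (tix33 a d) ∧ s (tix33 a c) = s (tix33 b c) := by
  intro a b c d hab hcd ha hb hc hd
  have hix : ∀ a c, e33 (tix33 a c) = (tlv a, trv c) := by decide
  have hlr : ∀ a c, tlv a ≠ trv c := by decide
  have hll : ∀ a c, a ≠ c → tlv a ≠ tlv c := by decide
  have hrr : ∀ a c, a ≠ c → trv a ≠ trv c := by decide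
  have hin : ∀ a c, w ≠ tlv a → w ≠ trv c → ¬ Inc e33 w (tix33 a c) := by
    intro a c ha hc h1
    unfold Inc at h1
    rw [hix] at h1
    rcases h1 with h1 | h1
    · exact ha h1.symm
    · exact hc h1.symm
  constructor
  · refine tcyc h (tlv a) (tix33 a c) (tix33 a d) [tix33 b c, tix33 b d] ?_ ?_ ?_ ?_ ?_
    · intro x hx
      simp only [List.mem_cons, List.not_mem_nil, or_false] at hx
      rcases hx with rfl | rfl | rfl | rfl
      · exact hin _ _ ha hc
      · exact hin _ _ ha hd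
      · exact hin _ _ hb hc
      · exact hin _ _ hb hd
    · rw [hix]; unfold tind; rw [if_pos rfl, if_neg (hlr _ _).symm, add_zero]
    · rw [hix]; unfold tind; rw [if_pos rfl, if_neg (hlr _ _).symm, add_zero]
    · intro x hx
      simp only [List.mem_cons, List.not_mem_nil, or_false] at hx
      rcases hx with rfl | rfl
      · rw [hix]; unfold tind; rw [if_neg (hll _ _ hab.symm), if_neg (hlr _ _).symm, add_zero]
      · rw [hix]; unfold tind; rw [if_neg (hll _ _ hab.symm), if_neg (hlr _ _).symm, add_zero]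
    · intro ψ
      simp only [List.map_cons, List.map_nil, List.sum_cons, List.sum_nil, hix]
      generalize ψ (tlv a) = x1
      generalize ψ (tlv b) = x2
      generalize ψ (trv c) = x3
      generalize ψ (trv d) = x4
      revert x1 x2 x3 x4
      decide
  · refine tcyc h (trv c) (tix33 a c) (tix33 b c) [tix33 a d, tix33 b d] ?_ ?_ ?_ ?_ ?_
    · intro x hx
      simp only [List.mem_cons, List.not_mem_nil, or_false] at hx
      rcases hx with rfl | rfl | rfl | rfl
      · exact hin _ _ ha hc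
      · exact hin _ _ hb hc
      · exact hin _ _ ha hd
      · exact hin _ _ hb hd
    · rw [hix]; unfold tind; rw [if_neg (hlr _ _), if_pos rfl, zero_add]
    · rw [hix]; unfold tind; rw [if_neg (hlr _ _), if_pos rfl, zero_add]
    · intro x hx
      simp only [List.mem_cons, List.not_mem_nil, or_false] at hx
      rcases hx with rfl | rfl
      · rw [hix]; unfold tind; rw [if_neg (hlr _ _), if_neg (hrr _ _ hcd.symm), add_zero]
      · rw [hix]; unfold tind; rw [if_neg (hlr _ _), if_neg (hrr _ _ hcd.symm), add_zero]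
    · intro ψ
      simp only [List.map_cons, List.map_nil, List.sum_cons, List.sum_nil, hix]
      generalize ψ (tlv a) = x1
      generalize ψ (tlv b) = x2
      generalize ψ (trv c) = x3
      generalize ψ (trv d) = x4
      revert x1 x2 x3 x4
      decide

theorem tf33 : ∀ w : Fin 6, ∀ s : Fin 9 → Bool,
    (∀ a b c d : Fin 3, a ≠ b → c ≠ d → w ≠ tlv a → w ≠ tlv b → w ≠ trv c → w ≠ trv d →
      s (tix33 a c) = s (tix33 a d) ∧ s (tix33 a c) = s (tix33 b c)) →
    (∀ i, ¬ Inc e33 w i → s i = true) ∨ (∀ i, ¬ Inc e33 w i → s i = false) := by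
  decide +kernel

/-- edge indices of `K5` -/
def tix5 : Fin 5 → Fin 5 → Fin 10 :=
  ![![0, 0, 1, 2, 3], ![0, 0, 4, 5, 6], ![1, 4, 0, 7, 8], ![2, 5, 7, 0, 9], ![3, 6, 8, 9, 0]]

theorem tq5 {w : Fin 5} {s : Fin 10 → Bool}
    (h : ∀ ψ : Fin 5 → ZMod 2, ∃ ψ' : Fin 5 → ZMod 2, ∀ i,
      ¬ Inc e5 w i → ψ' (e5 i).1 + ψ' (e5 i).2 =
        if s i then ψ (e5 i).1 + ψ (e5 i).2 else 0) :
    ∀ a b c : Fin 5, a ≠ b → a ≠ c → b ≠ c → w ≠ a → w ≠ b → w ≠ c →
      s (tix5 a b) = s (tix5 a c) := by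
  intro a b c hab hac hbc ha hb hc
  have hix : ∀ a b : Fin 5, a ≠ b → ∀ ψ : Fin 5 → ZMod 2,
      ψ (e5 (tix5 a b)).1 + ψ (e5 (tix5 a b)).2 = ψ a + ψ b := by decide +kernel
  have hin : ∀ w a b : Fin 5, a ≠ b → w ≠ a → w ≠ b → ¬ Inc e5 w (tix5 a b) := by decide +kernel
  refine tcyc h a (tix5 a b) (tix5 a c) [tix5 b c] ?_ ?_ ?_ ?_ ?_
  · intro x hx
    simp only [List.mem_cons, List.not_mem_nil, or_false] at hx
    rcases hx with rfl | rfl | rfl
    · exact hin _ _ _ hab ha hb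
    · exact hin _ _ _ hac ha hc
    · exact hin _ _ _ hbc hb hc
  · rw [hix a b hab (tind a)]; unfold tind; rw [if_pos rfl, if_neg hab.symm, add_zero]
  · rw [hix a c hac (tind a)]; unfold tind; rw [if_pos rfl, if_neg hac.symm, add_zero]
  · intro x hx
    simp only [List.mem_cons, List.not_mem_nil, or_false] at hx
    subst hx
    rw [hix b c hbc (tind a)]; unfold tind; rw [if_neg hab.symm, if_neg hac.symm, add_zero]
  · intro ψ
    simp only [List.map_cons, List.map_nil, List.sum_cons, List.sum_nil, hix _ _ hab, hix _ _ hac,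
      hix _ _ hbc]
    generalize ψ a = x1
    generalize ψ b = x2
    generalize ψ c = x3
    revert x1 x2 x3
    decide

theorem tf5 : ∀ w : Fin 5, ∀ s : Fin 10 → Bool,
    (∀ a b c : Fin 5, (a ≠ b ∧ a ≠ c ∧ b ≠ c ∧ w ≠ a ∧ w ≠ b ∧ w ≠ c) →
      s (tix5 a b) = s (tix5 a c)) →
    (∀ i, ¬ Inc e5 w i → s i = true) ∨ (∀ i, ¬ Inc e5 w i → s i = false) := by
  decide +kernel
/-- `nonsep`: the two edges of a path of a `4`-cycle avoiding `w` ... (use the cycles of the graph
minus `w`: for a cycle `Z` avoiding `w`, the part of `Z` in `s` is again a cycle, so `s` is constant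
on every shortest cycle); or a `decide` -/
theorem rigid33 : Rigid e33 where
  loop := by decide
  simple := by decide +kernel
  conn := by decide +kernel
  nonsep := fun w s h => tf33 w s (tq33 h)
  brid := by decide +kernel
  inc := by decide +kernel

theorem rigid5 : Rigid e5 where
  loop := by decide
  simple := by decide +kernel
  conn := by decide +kernel
  nonsep := fun w s h => tf5 w s (fun a b c ⟨h1, h2, h3, h4, h5, h6⟩ => tq5 h a b c h1 h2 h3 h4 h5 h6)
  brid := by decide +kernel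
  inc := by decide +kernel

/-- two descriptions of the cocycles -/
theorem isG_of {n r m : ℕ} {v : Fin n → Fin r → ZMod 2} {e : Fin n → Fin m × Fin m}
    {ι : Fin n → α} (hι : Function.Injective ι)
    (h1 : ∀ φ : Fin r → ZMod 2, ∃ ψ : Fin m → ZMod 2, ∀ i,
      ∑ j, φ j * v i j = ψ (e i).1 + ψ (e i).2)
    (h2 : ∀ ψ : Fin m → ZMod 2, ∃ φ : Fin r → ZMod 2, ∀ i,
      ∑ j, φ j * v i j = ψ (e i).1 + ψ (e i).2) : IsG (conc v ι) e ι := by
  intro x
  rw [mem_conc hι]
  have h3 : (∀ a, a ∉ Finset.univ.image ι → x a = 0) ↔ (∀ a, (∀ i, ι i ≠ a) → x a = 0) := by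
    simp only [Finset.mem_image, Finset.mem_univ, true_and, not_exists, ne_eq]
  rw [h3]
  refine and_congr_right fun _ => ⟨?_, ?_⟩
  · rintro ⟨φ, hφ⟩
    obtain ⟨ψ, hψ⟩ := h1 φ
    exact ⟨ψ, fun i => (hφ i).trans (hψ i)⟩
  · rintro ⟨ψ, hψ⟩
    obtain ⟨φ, hφ⟩ := h2 ψ
    exact ⟨φ, fun i => (hψ i).trans (hφ i).symm⟩

/-- the coordinate of vertex `5` is normalised to zero in `k33` -/
theorem isG33 {ι : Fin 9 → α} (hι : Function.Injective ι) : IsG (conc k33 ι) e33 ι :=
  isG_of hι (by decide +kernel) (by decide +kernel)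

theorem isG5 {ι : Fin 10 → α} (hι : Function.Injective ι) : IsG (conc k5 ι) e5 ι :=
  isG_of hι (by decide +kernel) (by decide +kernel)

end Pool.Agent.H87.Sey
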