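import Pool.Agent.H87.Sey.GraphBasic
import Pool.Agent.H63.Sey.Conc

/-!
# `K33`- and `K5`-minors of a graph as minor models (Seymour project, MP_dbe88a_co, job S87-22)
-/

set_option autoImplicit false

namespace Pool.Agent.H87.Sey

open Pool.Agent.H63.Sey

universe u

variable {α : Type u} [DecidableEq α]

/-- `N` is the cycle matroid of the graph on `Fin m` with edges `ι i`, ends `e i` -/
def IsG {k m : ℕ} (N : BM α) (e : Fin k → Fin m × Fin m) (ι : Fin k → α) : Prop :=
  ∀ x : α → ZMod 2, x ∈ N.D ↔ (∀ a, (∀ i, ι i ≠ a) → x a = 0) ∧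
    ∃ ψ : Fin m → ZMod 2, ∀ i, x (ι i) = ψ (e i).1 + ψ (e i).2

/-- the edge `i` is incident with `w` -/
def Inc {k m : ℕ} (e : Fin k → Fin m × Fin m) (w : Fin m) (i : Fin k) : Prop :=
  (e i).1 = w ∨ (e i).2 = w

instance {k m : ℕ} (e : Fin k → Fin m × Fin m) (w : Fin m) (i : Fin k) : Decidable (Inc e w i) := by
  unfold Inc; infer_instance

/-- rigid test graph: no loops, no parallel edges; (conn) the graph minus `w` is connected: a potential which is
constant along the edges not at `w` has the same difference on all edges at `w`; (nonsep) the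
cycle matroid of the graph minus `w` is connected: no nontrivial set `s` of edges not at `w` such
that cutting cocycles off outside `s` gives cocycles; (brid) no bridges -/
structure Rigid {k m : ℕ} (e : Fin k → Fin m × Fin m) : Prop where
  loop : ∀ i, (e i).1 ≠ (e i).2
  simple : ∀ i j, ((e i).1 = (e j).1 ∧ (e i).2 = (e j).2) ∨
    ((e i).1 = (e j).2 ∧ (e i).2 = (e j).1) → i = j
  conn : ∀ w, ∀ ψ : Fin m → ZMod 2, (∀ i, ¬ Inc e w i → ψ (e i).1 = ψ (e i).2) →
    ∀ i j, Inc e w i → Inc e w j → ψ (e i).1 + ψ (e i).2 = ψ (e j).1 + ψ (e j).2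
  nonsep : ∀ w, ∀ s : Fin k → Bool, (∀ ψ : Fin m → ZMod 2, ∃ ψ' : Fin m → ZMod 2, ∀ i,
      ¬ Inc e w i → ψ' (e i).1 + ψ' (e i).2 = if s i then ψ (e i).1 + ψ (e i).2 else 0) →
    (∀ i, ¬ Inc e w i → s i = true) ∨ (∀ i, ¬ Inc e w i → s i = false)
  brid : ∀ i, ∀ ψ : Fin m → ZMod 2, (∀ j, j ≠ i → ψ (e j).1 = ψ (e j).2) → ψ (e i).1 = ψ (e i).2
  inc : ∀ w, ∃ i, Inc e w i

namespace UniqAux

lemma z01 (c : ZMod 2) : c = 0 ∨ c = 1 := by
  revert c
  decide

/-- pick an element of a set of vertices (a default one if it is empty) -/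
noncomputable def pick {m : ℕ} (hm : 0 < m) (P : Fin m → Prop) : Fin m := by
  classical
  exact if h : ∃ w, P w then h.choose else ⟨0, hm⟩

lemma pick_eq {m : ℕ} (hm : 0 < m) {P : Fin m → Prop} {w : Fin m} (h : P w)
    (hu : ∀ w', P w' → w' = w) : pick hm P = w := by
  have h1 : ∃ w, P w := ⟨w, h⟩
  unfold pick
  rw [dif_pos h1]
  exact hu _ h1.choose_spec

/-- the abstract form: `A` is a set of potentials (constant along the edges of `C`), `F`, `G` the
ends of the edges `ι i` -/
theorem abs {n k m : ℕ} {e : Fin k → Fin m × Fin m} (he : Rigid e) (F G : Fin k → Fin n)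
    (A : (Fin n → ZMod 2) → Prop) (hmul : ∀ φ ψ, A φ → A ψ → A (fun x => φ x * ψ x))
    (hone : ∀ φ, A φ → A (fun x => 1 + φ x))
    (P1 : ∀ φ, A φ → ∃ ψ : Fin m → ZMod 2, ∀ i, φ (F i) + φ (G i) = ψ (e i).1 + ψ (e i).2)
    (P2 : ∀ ψ : Fin m → ZMod 2, ∃ φ, A φ ∧ ∀ i, φ (F i) + φ (G i) = ψ (e i).1 + ψ (e i).2) :
    ∃ u : Fin m → Fin n → ZMod 2, (∀ w, A (u w)) ∧
      (∀ w i, Inc e w i → u w (F i) + u w (G i) = 1) ∧
      (∀ w i, ¬ Inc e w i → u w (F i) = 0 ∧ u w (G i) = 0) ∧
      ∀ i, (u (e i).1 (F i) = 1 ∧ u (e i).1 (G i) = 0 ∧ u (e i).2 (F i) = 0 ∧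
          u (e i).2 (G i) = 1) ∨
        (u (e i).1 (F i) = 0 ∧ u (e i).1 (G i) = 1 ∧ u (e i).2 (F i) = 1 ∧
          u (e i).2 (G i) = 0) := by
  classical
  have hex : ∀ w : Fin m, ∃ φ, A φ ∧ (∀ i, Inc e w i → φ (F i) + φ (G i) = 1) ∧
      ∀ i, ¬ Inc e w i → φ (F i) = 0 ∧ φ (G i) = 0 := by
    intro w
    obtain ⟨φ, hA, hφ⟩ := P2 (fun v => if v = w then 1 else 0)
    have hinc : ∀ i, Inc e w i → φ (F i) + φ (G i) = 1 := by
      intro i hi
      rw [hφ]
      rcases hi with hi | hi
      · rw [if_pos hi, if_neg (fun h => he.loop i (hi.trans h.symm)), add_zero]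
      · rw [if_pos hi, if_neg (fun h => he.loop i (h.trans hi.symm)), zero_add]
    have hninc : ∀ i, ¬ Inc e w i → φ (F i) = φ (G i) := by
      intro i hi
      unfold Inc at hi
      rw [not_or] at hi
      have h1 := hφ i
      rw [if_neg hi.1, if_neg hi.2, add_zero] at h1
      exact CharTwo.add_eq_zero.1 h1
    rcases he.nonsep w (fun i => decide (φ (F i) = 1)) (by
      intro ψ
      obtain ⟨χ, hχA, hχ⟩ := P2 ψ
      obtain ⟨ψ', hψ'⟩ := P1 _ (hmul φ χ hA hχA)
      refine ⟨ψ', fun i hi => ?_⟩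
      rw [← hψ' i, ← hχ i]
      have h1 := hninc i hi
      rcases z01 (φ (F i)) with h2 | h2
      · rw [if_neg (by rw [decide_eq_true_eq, h2]; decide), ← h1, h2]
        ring
      · rw [if_pos (by rw [decide_eq_true_eq, h2]), ← h1, h2]
        ring) with h | h
    · refine ⟨fun x => 1 + φ x, hone φ hA, fun i hi => ?_, fun i hi => ?_⟩
      · have h1 := hinc i hi
        have h2 : ∀ a b : ZMod 2, a + b = 1 → 1 + a + (1 + b) = 1 := by decide
        exact h2 _ _ h1
      · have h1 := h i hi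
        rw [decide_eq_true_eq] at h1
        have h2 := hninc i hi
        constructor
        · show 1 + φ (F i) = 0
          rw [h1]
          decide
        · show 1 + φ (G i) = 0
          rw [← h2, h1]
          decide
    · refine ⟨φ, hA, hinc, fun i hi => ?_⟩
      have h1 := h i hi
      rw [decide_eq_false_iff_not] at h1
      have h2 := hninc i hi
      have h3 := (z01 (φ (F i))).resolve_right h1
      exact ⟨h3, by rw [← h2]; exact h3⟩
  choose u hA hinc hninc using hex
  refine ⟨u, hA, hinc, hninc, fun i => ?_⟩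
  have i1 : Inc e (e i).1 i := Or.inl rfl
  have i2 : Inc e (e i).2 i := Or.inr rfl
  have h1 := hinc _ i i1
  have h2 := hinc _ i i2
  -- not both on the same side
  have hkey : u (e i).1 (F i) * u (e i).2 (F i) + u (e i).1 (G i) * u (e i).2 (G i) = 0 := by
    obtain ⟨ψ, hψ⟩ := P1 _ (hmul _ _ (hA (e i).1) (hA (e i).2))
    rw [hψ i]
    have h3 := he.brid i ψ (by
      intro j hj
      have h4 := hψ j
      have hz : u (e i).1 (F j) * u (e i).2 (F j) + u (e i).1 (G j) * u (e i).2 (G j) = 0 := by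
        by_cases j1 : Inc e (e i).1 j
        · by_cases j2 : Inc e (e i).2 j
          · exfalso
            apply hj
            apply he.simple
            have hl := he.loop i
            have hl' := he.loop j
            rcases j1 with j1 | j1
            · rcases j2 with j2 | j2
              · exact absurd (j1.symm.trans j2) hl
              · exact Or.inl ⟨j1, j2⟩
            · rcases j2 with j2 | j2
              · exact Or.inr ⟨j2, j1⟩
              · exact absurd (j1.symm.trans j2) hl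
          · obtain ⟨h5, h6⟩ := hninc _ j j2
            rw [h5, h6, mul_zero, mul_zero, add_zero]
        · obtain ⟨h5, h6⟩ := hninc _ j j1
          rw [h5, h6, zero_mul, zero_mul, add_zero]
      rw [hz] at h4
      exact CharTwo.add_eq_zero.1 h4.symm)
    rw [h3]
    exact CharTwo.add_self_eq_zero _
  have hfin : ∀ a b c d : ZMod 2, a + b = 1 → c + d = 1 → a * c + b * d = 0 →
      (a = 1 ∧ b = 0 ∧ c = 0 ∧ d = 1) ∨ (a = 0 ∧ b = 1 ∧ c = 1 ∧ d = 0) := by decide
  exact hfin _ _ _ _ h1 h2 hkey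

end UniqAux

open UniqAux

/-- Uniqueness of the model. Let `N = (K.con C).del D`. For `w : Fin m` the star of `w` is a
cocycle of `N`, so it is the cut of a potential `φ_w : Fin n → ZMod 2` which is constant along the
edges of `C`. By `nonsep` one side of `φ_w` contains no edge `ι i`; normalise so that it is the
side `U_w = {φ_w = 1}`. An edge `ι i` with ends `w₁, w₂` has exactly one end in `U_{w₁}`, exactly
one in `U_{w₂}` and none in the other `U_w`. If both are the same vertex `x`, then all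
`ι`-edges at the `C`-class of `x` (contained in `U_{w₁}` and in `U_{w₂}`) have ends `w₁, w₂`, so
`ι i` is the only one (`simple`) and it is a bridge, contradiction to `brid`. So `σ x = w` iff
`x ∈ U_w` is well-defined for the vertices incident with some `ι i`; for the others choose some `w`
with `x ∈ U_w` if there is one (this depends only on the `C`-class). (c): let
`x, x'` be incident with `ι`-edges, `σ x = σ x' = w`, `χ` constant along `C`, `χ x ≠ χ x'`; the
potential `χ * φ_w` is constant along `C`, its cut is contained in the star of `w`, contains the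
`ι`-edges at one of the two vertices but not those at the other: contradiction to `conn`. -/
theorem uniq {K : BM α} {n : ℕ} {f g : α → Fin n} (hG : K = cyc K.E f g) {C D : Finset α}
    (hC : C ⊆ K.E) (hD : D ⊆ K.E) (hCD : Disjoint C D) {k m : ℕ} {e : Fin k → Fin m × Fin m}
    (he : Rigid e) {ι : Fin k → α} (hι : Function.Injective ι)
    (hE : ((K.con C).del D).E = Finset.univ.image ι) (hN : IsG ((K.con C).del D) e ι)
    (hm : 0 < m) :
    ∃ σ : Fin n → Fin m,
      (∀ i, (σ (f (ι i)) = (e i).1 ∧ σ (g (ι i)) = (e i).2) ∨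
        (σ (f (ι i)) = (e i).2 ∧ σ (g (ι i)) = (e i).1)) ∧
      (∀ a ∈ C, σ (f a) = σ (g a)) ∧
      (∀ x x', (∃ i, f (ι i) = x ∨ g (ι i) = x) → (∃ i, f (ι i) = x' ∨ g (ι i) = x') →
        σ x = σ x' → ∀ χ : Fin n → ZMod 2, (∀ a ∈ C, χ (f a) = χ (g a)) → χ x = χ x') := by
  classical
  have hK : ∀ x : α → ZMod 2, x ∈ K.D ↔
      ∃ φ : Fin n → ZMod 2, ∀ a, x a = if a ∈ K.E then φ (f a) + φ (g a) else 0 := by
    intro x
    conv_lhs => rw [hG]
    exact mem_cyc
  have hιE : ∀ i, ι i ∈ K.E ∧ ι i ∉ C ∧ ι i ∉ D := by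
    intro i
    have h1 : ι i ∈ ((K.con C).del D).E := by
      rw [hE]
      exact Finset.mem_image.2 ⟨i, Finset.mem_univ _, rfl⟩
    rw [LM.del_E, LM.con_E, Finset.mem_sdiff, Finset.mem_sdiff] at h1
    exact ⟨h1.1.1, h1.1.2, h1.2⟩
  let A : (Fin n → ZMod 2) → Prop := fun φ => ∀ a ∈ C, φ (f a) = φ (g a)
  have hmul : ∀ φ ψ, A φ → A ψ → A (fun x => φ x * ψ x) := by
    intro φ ψ h1 h2 a ha
    show φ (f a) * ψ (f a) = φ (g a) * ψ (g a)
    rw [h1 a ha, h2 a ha]
  have hone : ∀ φ, A φ → A (fun x => 1 + φ x) := by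
    intro φ h1 a ha
    show 1 + φ (f a) = 1 + φ (g a)
    rw [h1 a ha]
  have P1 : ∀ φ, A φ → ∃ ψ : Fin m → ZMod 2, ∀ i,
      φ (f (ι i)) + φ (g (ι i)) = ψ (e i).1 + ψ (e i).2 := by
    intro φ hφ
    let y : α → ZMod 2 := fun a => if a ∈ K.E then φ (f a) + φ (g a) else 0
    have hy : y ∈ K.D := (hK y).2 ⟨φ, fun a => rfl⟩
    have hy0 : ∀ a ∈ C, y a = 0 := by
      intro a ha
      show (if a ∈ K.E then φ (f a) + φ (g a) else 0) = 0
      rw [if_pos (hC ha), hφ a ha]
      exact CharTwo.add_self_eq_zero _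
    have hx : (fun a => if a ∈ D then 0 else y a) ∈ ((K.con C).del D).D :=
      (LM.mem_del _).2 ⟨fun a ha => if_pos ha, y, (LM.mem_con _).2 ⟨hy, hy0⟩,
        fun a ha => if_neg ha⟩
    obtain ⟨-, ψ, hψ⟩ := (hN _).1 hx
    refine ⟨ψ, fun i => ?_⟩
    obtain ⟨h1, h2, h3⟩ := hιE i
    rw [← hψ i, if_neg h3]
    show φ (f (ι i)) + φ (g (ι i)) = if ι i ∈ K.E then φ (f (ι i)) + φ (g (ι i)) else 0
    rw [if_pos h1]
  have P2 : ∀ ψ : Fin m → ZMod 2, ∃ φ, A φ ∧ ∀ i,
      φ (f (ι i)) + φ (g (ι i)) = ψ (e i).1 + ψ (e i).2 := by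
    intro ψ
    let x : α → ZMod 2 := fun a => if h : ∃ i, ι i = a then
      ψ (e h.choose).1 + ψ (e h.choose).2 else 0
    have hxi : ∀ i, x (ι i) = ψ (e i).1 + ψ (e i).2 := by
      intro i
      have h : ∃ j, ι j = ι i := ⟨i, rfl⟩
      show (if h : ∃ j, ι j = ι i then ψ (e h.choose).1 + ψ (e h.choose).2 else 0) = _
      rw [dif_pos h, hι h.choose_spec]
    have hx : x ∈ ((K.con C).del D).D := by
      refine (hN x).2 ⟨fun a ha => ?_, ψ, hxi⟩
      show (if h : ∃ j, ι j = a then ψ (e h.choose).1 + ψ (e h.choose).2 else 0) = 0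
      rw [dif_neg]
      rintro ⟨i, hi⟩
      exact ha i hi
    obtain ⟨-, y, hy, hxy⟩ := (LM.mem_del _).1 hx
    obtain ⟨hy, hy0⟩ := (LM.mem_con _).1 hy
    obtain ⟨φ, hφ⟩ := (hK y).1 hy
    refine ⟨φ, fun a ha => ?_, fun i => ?_⟩
    · have h1 := hφ a
      rw [hy0 a ha, if_pos (hC ha)] at h1
      exact CharTwo.add_eq_zero.1 h1.symm
    · obtain ⟨h1, h2, h3⟩ := hιE i
      rw [← hxi i, hxy _ h3, hφ, if_pos h1]
  obtain ⟨u, hA, hinc, hninc, hend⟩ := UniqAux.abs he (fun i => f (ι i)) (fun i => g (ι i)) A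
    hmul hone P1 P2
  -- which `u w` are one at an end of an edge
  have hat : ∀ i w, (u w (f (ι i)) = 1 ∨ u w (g (ι i)) = 1) → Inc e w i := by
    intro i w h
    by_contra hn
    obtain ⟨h1, h2⟩ := hninc w i hn
    rcases h with h | h
    · change u w (f (ι i)) = 0 at h1
      rw [h1] at h
      exact absurd h (by decide)
    · change u w (g (ι i)) = 0 at h2
      rw [h2] at h
      exact absurd h (by decide)
  have hne : ∀ {c : ZMod 2}, c = 0 → ¬ c = 1 := by
    intro c h h'
    rw [h] at h'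
    exact absurd h' (by decide)
  let σ : Fin n → Fin m := fun x => pick hm (fun w => u w x = 1)
  have hσ : ∀ i, (σ (f (ι i)) = (e i).1 ∧ σ (g (ι i)) = (e i).2 ∧ u (e i).1 (f (ι i)) = 1 ∧
        u (e i).2 (g (ι i)) = 1) ∨
      (σ (f (ι i)) = (e i).2 ∧ σ (g (ι i)) = (e i).1 ∧ u (e i).2 (f (ι i)) = 1 ∧
        u (e i).1 (g (ι i)) = 1) := by
    intro i
    rcases hend i with ⟨h1, h2, h3, h4⟩ | ⟨h1, h2, h3, h4⟩
    · refine Or.inl ⟨pick_eq hm h1 ?_, pick_eq hm h4 ?_, h1, h4⟩
      · intro w hw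
        rcases hat i w (Or.inl hw) with h | h
        · exact h.symm
        · rw [← h] at hw
          exact absurd hw (hne h3)
      · intro w hw
        rcases hat i w (Or.inr hw) with h | h
        · rw [← h] at hw
          exact absurd hw (hne h2)
        · exact h.symm
    · refine Or.inr ⟨pick_eq hm h3 ?_, pick_eq hm h2 ?_, h3, h2⟩
      · intro w hw
        rcases hat i w (Or.inl hw) with h | h
        · rw [← h] at hw
          exact absurd hw (hne h1)
        · exact h.symm
      · intro w hw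
        rcases hat i w (Or.inr hw) with h | h
        · exact h.symm
        · rw [← h] at hw
          exact absurd hw (hne h4)
  refine ⟨σ, fun i => ?_, fun a ha => ?_, ?_⟩
  · rcases hσ i with ⟨h1, h2, -, -⟩ | ⟨h1, h2, -, -⟩
    · exact Or.inl ⟨h1, h2⟩
    · exact Or.inr ⟨h1, h2⟩
  · show pick hm (fun w => u w (f a) = 1) = pick hm (fun w => u w (g a) = 1)
    congr 1
    funext w
    rw [hA w a ha]
  · intro x x' hx hx' hxx χ hχ
    set w := σ x with hw
    obtain ⟨ψ, hψ⟩ : ∃ ψ : Fin m → ZMod 2, ∀ i,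
        χ (f (ι i)) * u w (f (ι i)) + χ (g (ι i)) * u w (g (ι i)) = ψ (e i).1 + ψ (e i).2 :=
      P1 (fun z => χ z * u w z) (hmul χ (u w) hχ (hA w))
    have hψ0 : ∀ j, ¬ Inc e w j → ψ (e j).1 = ψ (e j).2 := by
      intro j hj
      have h1 := hψ j
      obtain ⟨h2, h3⟩ := hninc w j hj
      change u w (f (ι j)) = 0 at h2
      change u w (g (ι j)) = 0 at h3
      rw [h2, h3, mul_zero, mul_zero, add_zero] at h1
      exact CharTwo.add_eq_zero.1 h1.symm
    -- the value at an incident vertex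
    have hval : ∀ z, (∃ i, f (ι i) = z ∨ g (ι i) = z) → σ z = w →
        ∃ i, Inc e w i ∧ χ z = ψ (e i).1 + ψ (e i).2 := by
      rintro z ⟨i, hi⟩ hz
      refine ⟨i, ?_⟩
      have huz : u w z = 1 := by
        rcases hσ i with ⟨h1, h2, h3, h4⟩ | ⟨h1, h2, h3, h4⟩
        · rcases hi with hi | hi
          · rw [← hz, ← hi, h1]
            exact h3
          · rw [← hz, ← hi, h2]
            exact h4
        · rcases hi with hi | hi
          · rw [← hz, ← hi, h1]
            exact h3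
          · rw [← hz, ← hi, h2]
            exact h4
      have hI : Inc e w i := by
        rcases hi with hi | hi
        · exact hat i w (Or.inl (by rw [hi]; exact huz))
        · exact hat i w (Or.inr (by rw [hi]; exact huz))
      refine ⟨hI, ?_⟩
      have h1 := hψ i
      have h2 := hinc w i hI
      change u w (f (ι i)) + u w (g (ι i)) = 1 at h2
      rw [← h1]
      rcases hi with hi | hi
      · rw [hi] at h2 ⊢
        rw [huz] at h2 ⊢
        have h3 : u w (g (ι i)) = 0 := by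
          have h4 : ∀ c : ZMod 2, 1 + c = 1 → c = 0 := by decide
          exact h4 _ h2
        rw [h3, mul_one, mul_zero, add_zero]
      · rw [hi] at h2 ⊢
        rw [huz] at h2 ⊢
        have h3 : u w (f (ι i)) = 0 := by
          have h4 : ∀ c : ZMod 2, c + 1 = 1 → c = 0 := by decide
          exact h4 _ h2
        rw [h3, mul_one, mul_zero, zero_add]
    obtain ⟨i, hi, h1⟩ := hval x hx rfl
    obtain ⟨j, hj, h2⟩ := hval x' hx' hxx.symm
    rw [h1, h2]
    exact he.conn w ψ hψ0 i j hi hj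

end Pool.Agent.H87.Sey
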