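import Pool.Agent.H87.Sey.Model
import Pool.Agent.H87.Sey.Uniq
import Pool.Agent.H87.Sey.TestGraphs
import Pool.Agent.H87.Sey.FC
import Pool.Agent.H87.Sey.Cut

/-!
# Final step of the rooted lemma (Seymour project, MP_dbe88a_co, job S87-26)
-/

set_option autoImplicit false

namespace Pool.Agent.H87.Sey

open Pool.Agent.H63.Sey

universe u

variable {α : Type u} [DecidableEq α]

/-- the properties of the test graphs `K33`, `K5` which are used -/
structure TG {k m : ℕ} (e : Fin k → Fin m × Fin m) (adj : Fin m → Fin m → Bool) : Prop where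
  pos : 0 < m
  rigid : Rigid e
  adj_iff : ∀ u w, adj u w = true ↔ ∃ i, e i = (u, w) ∨ e i = (w, u)
  deg : ∀ w, 3 ≤ (Finset.univ.filter fun i => Inc e w i).card
  fc : ∀ (x : Fin 3 → Fin m) (k : Fin m → Fin 3 → Bool), FCHyp adj x k →
    ∃ h L, FCConcl adj x k h L
  sp : ∀ (w : Fin m) (x : Fin 3 → Fin m), (∀ r, adj w (x r) = true) →
    (∀ u, adj w u = true → ∃ r, u = x r) → ∃ h : Fin 2 → Fin m, h 0 ≠ h 1 ∧
      ∀ i, h i ≠ w ∧ ∀ r, h i ≠ x r ∧ adj (h i) (x r) = true

/-- the other two vertices of the class of a vertex of `K33` -/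
def hub33 : Fin 6 → Fin 2 → Fin 6 :=
  ![![1, 2], ![0, 2], ![0, 1], ![4, 5], ![3, 5], ![3, 4]]

lemma hub33_spec : ∀ w : Fin 6, hub33 w 0 ≠ hub33 w 1 ∧ ∀ i, hub33 w i ≠ w ∧
    ∀ u, adj33 w u = true → hub33 w i ≠ u ∧ adj33 (hub33 w i) u = true := by
  decide

theorem tg33 : TG e33 adj33 := by
  refine ⟨by decide, rigid33, by decide, by decide, fc33, ?_⟩
  intro w x hx _
  obtain ⟨h1, h2⟩ := hub33_spec w
  exact ⟨hub33 w, h1, fun i => ⟨(h2 i).1, fun r => (h2 i).2 _ (hx r)⟩⟩

theorem tg5 : TG e5 adj5 := by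
  refine ⟨by decide, rigid5, by decide, by decide, fc5, ?_⟩
  intro w x _ h
  exfalso
  have h1 : (Finset.univ.filter fun u => adj5 w u = true) ⊆ Finset.univ.image x := by
    intro u hu
    obtain ⟨r, hr⟩ := h u (Finset.mem_filter.1 hu).2
    exact Finset.mem_image.2 ⟨r, Finset.mem_univ _, hr.symm⟩
  have h2 := Finset.card_le_card h1
  have h3 : (Finset.univ.image x).card ≤ 3 := by
    refine Finset.card_image_le.trans ?_
    simp
  have h4 : ∀ w : Fin 5, (Finset.univ.filter fun u => adj5 w u = true).card = 4 := by decide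
  have h5 := h4 w
  omega

namespace FinalAux

/-- the ends of `a` are `z` and `w` -/
def Jn {n : ℕ} (f g : α → Fin n) (a : α) (z w : Fin n) : Prop :=
  (f a = z ∧ g a = w) ∨ (f a = w ∧ g a = z)

omit [DecidableEq α] in
lemma Jn.symm {n : ℕ} {f g : α → Fin n} {a : α} {z w : Fin n} (h : Jn f g a z w) :
    Jn f g a w z := Or.symm h

omit [DecidableEq α] in
lemma Jn.sum {n : ℕ} {f g : α → Fin n} {a : α} {z w : Fin n} (h : Jn f g a z w)
    (φ : Fin n → ZMod 2) : φ (f a) + φ (g a) = φ z + φ w := by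
  rcases h with ⟨h1, h2⟩ | ⟨h1, h2⟩
  · rw [h1, h2]
  · rw [h1, h2, add_comm]

/-- no parallel edges -/
lemma unique_edge {n : ℕ} {K : BM α} (hc : K.Conn3) (h9 : 9 ≤ K.E.card) {f g : α → Fin n}
    (hG : K = cyc K.E f g) {a b : α} (ha : a ∈ K.E) (hb : b ∈ K.E) {z w : Fin n}
    (h1 : Jn f g a z w) (h2 : Jn f g b z w) : a = b := by
  by_contra hne
  refine conn3_no_parallel hc (by omega) ha hb hne ?_
  intro x hx h0
  obtain ⟨φ, hφ⟩ := (RtAux.mem_iff hG).1 hx
  have h3 := h0 b (Finset.mem_singleton_self _)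
  rw [hφ, if_pos hb, h2.sum] at h3
  rw [hφ, if_pos ha, h1.sum, h3]

/-- no loops -/
lemma no_loop {n : ℕ} {K : BM α} (hc : K.Conn3) (h9 : 9 ≤ K.E.card) {f g : α → Fin n}
    (hG : K = cyc K.E f g) {a : α} (ha : a ∈ K.E) : f a ≠ g a := by
  intro h
  obtain ⟨x, hx, hx0⟩ := conn3_no_loop hc (by omega) ha
  obtain ⟨φ, hφ⟩ := (RtAux.mem_iff hG).1 hx
  apply hx0
  rw [hφ, if_pos ha, h]
  exact RtAux.add_self' _

end FinalAux

open FinalAux

/-- every neighbour `p r` of `v` has an edge to a vertex different from `v, p 0, p 1, p 2`: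
otherwise the edges at `v` and `p r` meet the others only in the two other `p`, contradicting
`Conn3` (`lam_le_of_cut`) -/
theorem exists_outer {n : ℕ} {K : BM α} (hc : K.Conn3) (h9 : 9 ≤ K.E.card)
    {f g : α → Fin n} {v : Fin n} {y : Fin 3 → α} {p : Fin 3 → Fin n} (h : Rt K f g v y p)
    (r : Fin 3) : ∃ a ∈ K.E, ∃ z, z ≠ v ∧ (∀ j, z ≠ p j) ∧
      ((f a = p r ∧ g a = z) ∨ (f a = z ∧ g a = p r)) := by
  classical
  by_contra hcon
  push Not at hcon
  -- the other end of an edge at `p r`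
  have hother : ∀ a ∈ K.E, ∀ z, Jn f g a (p r) z → z = v ∨ ∃ j, z = p j := by
    intro a ha z hz
    by_contra hn
    push Not at hn
    have h1 := hcon a ha z hn.1 hn.2
    rcases hz with hz | hz
    · exact h1.1 hz.1 hz.2
    · exact h1.2 hz.1 hz.2
  set X : Finset α := K.E.filter fun a => f a = v ∨ g a = v ∨ f a = p r ∨ g a = p r with hX
  have hXE : X ⊆ K.E := Finset.filter_subset _ _
  set W : Finset (Fin n) := (Finset.univ.erase r).image p with hW
  have hWc : W.card = 2 := by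
    rw [hW, Finset.card_image_of_injective _ h.pinj, Finset.card_erase_of_mem (Finset.mem_univ _)]
    simp
  have hWne : W.Nonempty := by
    rw [← Finset.card_pos]
    omega
  have hcut : ∀ w, (∃ a ∈ X, f a = w ∨ g a = w) → (∃ b ∈ K.E \ X, f b = w ∨ g b = w) → w ∈ W := by
    rintro w ⟨a, ha, haw⟩ ⟨b, hb, hbw⟩
    rw [Finset.mem_sdiff] at hb
    have hbX : ¬ (f b = v ∨ g b = v ∨ f b = p r ∨ g b = p r) := fun h1 =>
      hb.2 (Finset.mem_filter.2 ⟨hb.1, h1⟩)
    push Not at hbX
    have hwv : w ≠ v := by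
      rintro rfl
      rcases hbw with h1 | h1
      · exact hbX.1 h1
      · exact hbX.2.1 h1
    have hwp : w ≠ p r := by
      rintro rfl
      rcases hbw with h1 | h1
      · exact hbX.2.2.1 h1
      · exact hbX.2.2.2 h1
    obtain ⟨haE, haX⟩ := Finset.mem_filter.1 ha
    have hgoal : ∀ j, w = p j → w ∈ W := by
      intro j hj
      refine Finset.mem_image.2 ⟨j, Finset.mem_erase.2 ⟨?_, Finset.mem_univ _⟩, hj.symm⟩
      rintro rfl
      exact hwp hj
    by_cases hav : f a = v ∨ g a = v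
    · obtain ⟨i, rfl⟩ := h.star a haE hav
      refine hgoal i ?_
      rcases h.yend i with ⟨h1, h2⟩ | ⟨h1, h2⟩ <;> rcases haw with h3 | h3
      · exact absurd (h3.symm.trans h1) hwv
      · exact h3.symm.trans h2
      · exact h3.symm.trans h1
      · exact absurd (h3.symm.trans h2) hwv
    · have hap : f a = p r ∨ g a = p r := by tauto
      have hJ : Jn f g a (p r) w := by
        rcases hap with h1 | h1 <;> rcases haw with h3 | h3
        · exact absurd (h3.symm.trans h1) hwp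
        · exact Or.inl ⟨h1, h3⟩
        · exact Or.inr ⟨h3, h1⟩
        · exact absurd (h3.symm.trans h1) hwp
      rcases hother a haE w hJ with h1 | ⟨j, hj⟩
      · exact absurd h1 hwv
      · exact hgoal j hj
  have hlam := lam_le_of_cut h.rep hXE W hWne hcut
  have hX3 : 3 ≤ X.card := by
    have h1 : Finset.univ.image y ⊆ X := by
      intro a ha
      obtain ⟨i, -, rfl⟩ := Finset.mem_image.1 ha
      refine Finset.mem_filter.2 ⟨h.yE i, ?_⟩
      rcases h.yend i with h1 | h1
      · exact Or.inl h1.1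
      · exact Or.inr (Or.inl h1.2)
    have h2 := Finset.card_le_card h1
    rw [Finset.card_image_of_injective _ h.yinj] at h2
    simpa using h2
  have hX6 : X.card ≤ 6 := by
    set s : Fin 3 → Finset α := fun j => K.E.filter fun a => Jn f g a (p r) (p j) with hs
    have hs1 : ∀ j, (s j).card ≤ 1 := by
      intro j
      rw [Finset.card_le_one]
      intro a ha b hb
      obtain ⟨ha1, ha2⟩ := Finset.mem_filter.1 ha
      obtain ⟨hb1, hb2⟩ := Finset.mem_filter.1 hb
      exact unique_edge hc h9 h.rep ha1 hb1 ha2 hb2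
    have h1 : X ⊆ Finset.univ.image y ∪ Finset.univ.biUnion s := by
      intro a ha
      obtain ⟨haE, haX⟩ := Finset.mem_filter.1 ha
      rw [Finset.mem_union]
      by_cases hav : f a = v ∨ g a = v
      · obtain ⟨i, rfl⟩ := h.star a haE hav
        exact Or.inl (Finset.mem_image_of_mem _ (Finset.mem_univ _))
      · right
        have hap : f a = p r ∨ g a = p r := by tauto
        have hJ : ∃ w, w ≠ v ∧ Jn f g a (p r) w := by
          push Not at hav
          rcases hap with h1 | h1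
          · exact ⟨g a, hav.2, Or.inl ⟨h1, rfl⟩⟩
          · exact ⟨f a, hav.1, Or.inr ⟨rfl, h1⟩⟩
        obtain ⟨w, hwv, hJ⟩ := hJ
        rcases hother a haE w hJ with h1 | ⟨j, rfl⟩
        · exact absurd h1 hwv
        · exact Finset.mem_biUnion.2 ⟨j, Finset.mem_univ _, Finset.mem_filter.2 ⟨haE, hJ⟩⟩
    have h2 := Finset.card_le_card h1
    have h3 := Finset.card_union_le (Finset.univ.image y) (Finset.univ.biUnion s)
    have h4 : (Finset.univ.image y).card ≤ 3 := by
      refine Finset.card_image_le.trans ?_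
      simp
    have h5 : (Finset.univ.biUnion s).card ≤ 3 := by
      refine Finset.card_biUnion_le.trans ?_
      rw [Fin.sum_univ_three]
      have := hs1 0
      have := hs1 1
      have := hs1 2
      omega
    omega
  have hcard := Finset.card_sdiff_add_card_eq_card hXE
  have := hc.2 X hXE (by omega) (by omega)
  omega

/-- Let `(K.con C).del D` be a test graph, `C ∪ D` contained in the star `Y` of `v` and the edges
`F` joining two neighbours of `v`. Take `σ` from `uniq`, `x r = σ (p r)`. All edges outside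
`Y ∪ F` are `ι`-edges. A vertex `z ∉ {v, p 0, p 1, p 2}` is not touched by `C`, so by (c) it is the
only `ι`-incident vertex with its `σ`-value. If `v` is incident with an `ι`-edge and
`w = σ v` is not some `x r`: then no `y j` is in `C`, so `v` is the only `ι`-incident vertex with
`σ`-value `w`, all edges of the test graph at `w` are among `y 0, y 1, y 2` (so by `deg` exactly
these), use `sp`: hubs the preimages of `h i`, `N j = {p j}`. Otherwise every `o ∉ {x r}` has
exactly one `ι`-incident preimage `τ o`, and `τ o ∉ {v, p 0, p 1, p 2}`; put `k o r` = there is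
an edge of `K` between `τ o` and `p r`; `FCHyp` holds (h1, h2': such an edge is an `ι`-edge, by
`simple`; h2: the end of the edge at `x r` is some `p r'`; h3: `exists_outer`); take
`H i = {τ (h i)}`, `N r = {p r} ∪ τ (L r)` and `rooted_of_model`. -/
theorem final_rooted {n : ℕ} {K : BM α} (hc : K.Conn3) (h9 : 9 ≤ K.E.card)
    {f g : α → Fin n} {v : Fin n} {y : Fin 3 → α} {p : Fin 3 → Fin n} (h : Rt K f g v y p)
    {C D : Finset α} (hC : C ⊆ K.E) (hD : D ⊆ K.E) (hCD : Disjoint C D)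
    (hYF : ∀ a ∈ C ∪ D, (∃ i, a = y i) ∨ IsF f g p a) {k m : ℕ} {e : Fin k → Fin m × Fin m}
    {adj : Fin m → Fin m → Bool} (he : TG e adj) {ι : Fin k → α} (hι : Function.Injective ι)
    (hE : ((K.con C).del D).E = Finset.univ.image ι) (hN : IsG ((K.con C).del D) e ι) :
    Rooted33 K y := by
  classical
  obtain ⟨σ, hσ, hσC, hσu⟩ := uniq h.rep hC hD hCD he.rigid hι hE hN he.pos
  -- incidence with an `ι`-edge
  set In : Fin n → Prop := fun z => ∃ i, f (ι i) = z ∨ g (ι i) = z with hIn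
  have hιE : ∀ i, ι i ∈ K.E ∧ ι i ∉ C ∧ ι i ∉ D := by
    intro i
    have h1 : ι i ∈ ((K.con C).del D).E := by
      rw [hE]
      exact Finset.mem_image_of_mem _ (Finset.mem_univ _)
    rw [LM.del_E, LM.con_E, Finset.mem_sdiff, Finset.mem_sdiff] at h1
    exact ⟨h1.1.1, h1.1.2, h1.2⟩
  have hιof : ∀ a ∈ K.E, a ∉ C → a ∉ D → ∃ i, ι i = a := by
    intro a ha haC haD
    have h1 : a ∈ ((K.con C).del D).E := by
      rw [LM.del_E, LM.con_E, Finset.mem_sdiff, Finset.mem_sdiff]
      exact ⟨⟨ha, haC⟩, haD⟩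
    rw [hE] at h1
    obtain ⟨i, -, hi⟩ := Finset.mem_image.1 h1
    exact ⟨i, hi⟩
  have hInJ : ∀ i z w, Jn f g (ι i) z w → In z := by
    rintro i z w (h1 | h1)
    · exact ⟨i, Or.inl h1.1⟩
    · exact ⟨i, Or.inr h1.2⟩
  -- adjacency through `ι`-edges
  have hadj1 : ∀ i z w, Jn f g (ι i) z w → adj (σ z) (σ w) = true := by
    intro i z w hJ
    rw [he.adj_iff]
    refine ⟨i, ?_⟩
    rcases hσ i with ⟨h1, h2⟩ | ⟨h1, h2⟩ <;> rcases hJ with ⟨h3, h4⟩ | ⟨h3, h4⟩
    · left; rw [← h3, ← h4, h1, h2]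
    · right; rw [← h3, ← h4, h1, h2]
    · right; rw [← h3, ← h4, h1, h2]
    · left; rw [← h3, ← h4, h1, h2]
  have hadj2 : ∀ u w, adj u w = true → ∃ i z z', Jn f g (ι i) z z' ∧ σ z = u ∧ σ z' = w := by
    intro u w huw
    obtain ⟨i, hi⟩ := (he.adj_iff u w).1 huw
    rcases hσ i with ⟨h1, h2⟩ | ⟨h1, h2⟩ <;> rcases hi with hi | hi
    · exact ⟨i, f (ι i), g (ι i), Or.inl ⟨rfl, rfl⟩, by rw [h1, hi], by rw [h2, hi]⟩
    · exact ⟨i, g (ι i), f (ι i), Or.inr ⟨rfl, rfl⟩, by rw [h2, hi], by rw [h1, hi]⟩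
    · exact ⟨i, g (ι i), f (ι i), Or.inr ⟨rfl, rfl⟩, by rw [h2, hi], by rw [h1, hi]⟩
    · exact ⟨i, f (ι i), g (ι i), Or.inl ⟨rfl, rfl⟩, by rw [h1, hi], by rw [h2, hi]⟩
  -- parallel `ι`-edges in the test graph are equal
  have hpar : ∀ i j z z' w w', Jn f g (ι i) z w → Jn f g (ι j) z' w' → σ z = σ z' → σ w = σ w' →
      i = j := by
    intro i j z z' w w' h1 h2 hz hw
    apply he.rigid.simple i j
    rcases hσ i with ⟨a1, a2⟩ | ⟨a1, a2⟩ <;> rcases hσ j with ⟨b1, b2⟩ | ⟨b1, b2⟩ <;>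
      rcases h1 with ⟨c1, c2⟩ | ⟨c1, c2⟩ <;> rcases h2 with ⟨d1, d2⟩ | ⟨d1, d2⟩ <;>
      rw [← a1, ← a2, ← b1, ← b2, c1, c2, d1, d2, hz, hw] <;> simp
  have hnl : ∀ a ∈ K.E, f a ≠ g a := fun a ha => no_loop hc h9 h.rep ha
  -- outer vertices
  set Out : Fin n → Prop := fun z => z ≠ v ∧ ∀ j, z ≠ p j with hOut
  have hOutE : ∀ z, Out z → ∀ a ∈ K.E, (f a = z ∨ g a = z) → ∃ i, ι i = a := by
    intro z hz a ha haz
    have hnot : a ∉ C ∪ D := by
      intro h1
      rcases hYF a h1 with ⟨i, rfl⟩ | ⟨i, j, -, h2, h3⟩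
      · rcases h.yend i with ⟨h2, h3⟩ | ⟨h2, h3⟩ <;> rcases haz with h4 | h4
        · exact hz.1 (h4.symm.trans h2)
        · exact hz.2 i (h4.symm.trans h3)
        · exact hz.2 i (h4.symm.trans h2)
        · exact hz.1 (h4.symm.trans h3)
      · rcases haz with h4 | h4
        · exact hz.2 i (h4.symm.trans h2)
        · exact hz.2 j (h4.symm.trans h3)
    rw [Finset.mem_union, not_or] at hnot
    exact hιof a ha hnot.1 hnot.2
  -- outer vertices are the only `ι`-incident vertices with their `σ`-value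
  have hOutu : ∀ z, Out z → In z → ∀ z', In z' → σ z = σ z' → z' = z := by
    intro z hz hzI z' hz' hs
    have h1 := hσu z z' hzI hz' hs (fun w => if w = z then 1 else 0) ?_
    · by_contra hne
      simp [hne] at h1
    · intro a ha
      have h2 : ¬ (f a = z ∨ g a = z) := by
        intro h3
        obtain ⟨i, hi⟩ := hOutE z hz a (hC ha) h3
        exact (hιE i).2.1 (hi ▸ ha)
      rw [not_or] at h2
      simp [h2.1, h2.2]
  -- the vertices `p r` are `ι`-incident and have an outer neighbour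
  have hpout : ∀ r, ∃ i z, Out z ∧ Jn f g (ι i) (p r) z := by
    intro r
    obtain ⟨a, ha, z, hz1, hz2, hJ⟩ := exists_outer hc h9 h r
    have hJ' : Jn f g a (p r) z := hJ
    obtain ⟨i, hi⟩ := hOutE z ⟨hz1, hz2⟩ a ha (by
      rcases hJ with h1 | h1
      · exact Or.inr h1.2
      · exact Or.inl h1.1)
    exact ⟨i, z, ⟨hz1, hz2⟩, hi ▸ hJ'⟩
  have hpIn : ∀ r, In (p r) := by
    intro r
    obtain ⟨i, z, _, hJ⟩ := hpout r
    exact hInJ i _ _ hJ
  have hOutx : ∀ z, Out z → In z → ∀ r, σ z ≠ σ (p r) := by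
    intro z hz hzI r hs
    exact hz.2 r (hOutu z hz hzI (p r) (hpIn r) hs).symm
  have hyJ : ∀ i, Jn f g (y i) v (p i) := h.yend
  have hstar : ∀ i z w, Jn f g (ι i) z w → z = v → ∃ j, ι i = y j ∧ w = p j := by
    intro i z w hJ hz
    obtain ⟨j, hj⟩ := h.star (ι i) (hιE i).1 (by
      rcases hJ with h1 | h1
      · exact Or.inl (h1.1.trans hz)
      · exact Or.inr (h1.2.trans hz))
    refine ⟨j, hj, ?_⟩
    have h1 := hyJ j
    rw [← hj] at h1
    subst hz
    rcases h1 with ⟨h1, h2⟩ | ⟨h1, h2⟩ <;> rcases hJ with ⟨h3, h4⟩ | ⟨h3, h4⟩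
    · exact h4.symm.trans h2
    · exact absurd (h1.trans h4.symm) (hnl _ (hιE i).1)
    · exact absurd (h3.trans h2.symm) (hnl _ (hιE i).1)
    · exact h3.symm.trans h1
  have hsing : ∀ z : Fin n, ConnB K.E f g ({z} : Finset (Fin n)) := by
    intro z χ _ x hx x' hx'
    rw [Finset.mem_singleton] at hx hx'
    rw [hx, hx']
  by_cases hA : In v ∧ ∀ r, σ v ≠ σ (p r)
  · -- case A
    obtain ⟨hvI, hvx⟩ := hA
    have hyC : ∀ j, y j ∉ C := by
      intro j hj
      have h1 := hσC _ hj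
      rcases hyJ j with ⟨h2, h3⟩ | ⟨h2, h3⟩
      · rw [h2, h3] at h1
        exact hvx j h1
      · rw [h2, h3] at h1
        exact hvx j h1.symm
    have hvu : ∀ z', In z' → σ v = σ z' → z' = v := by
      intro z' hz' hs
      have h1 := hσu v z' hvI hz' hs (fun w => if w = v then 1 else 0) ?_
      · by_contra hne
        simp [hne] at h1
      · intro a ha
        have h2 : ¬ (f a = v ∨ g a = v) := by
          intro h3
          obtain ⟨i, hi⟩ := h.star a (hC ha) h3
          exact hyC i (hi ▸ ha)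
        rw [not_or] at h2
        simp [h2.1, h2.2]
    -- the edges of the test graph at `σ v`
    have hat : ∀ i, Inc e (σ v) i → ∃ j, ι i = y j := by
      intro i hi
      have h1 : ∃ z w, Jn f g (ι i) z w ∧ σ z = σ v := by
        rcases hσ i with ⟨h1, h2⟩ | ⟨h1, h2⟩ <;> rcases hi with hi | hi
        · exact ⟨f (ι i), g (ι i), Or.inl ⟨rfl, rfl⟩, h1.trans hi⟩
        · exact ⟨g (ι i), f (ι i), Or.inr ⟨rfl, rfl⟩, h2.trans hi⟩
        · exact ⟨g (ι i), f (ι i), Or.inr ⟨rfl, rfl⟩, h2.trans hi⟩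
        · exact ⟨f (ι i), g (ι i), Or.inl ⟨rfl, rfl⟩, h1.trans hi⟩
      obtain ⟨z, w, hJ, hz⟩ := h1
      obtain ⟨j, hj, _⟩ := hstar i z w hJ (hvu z (hInJ _ _ _ hJ) hz.symm)
      exact ⟨j, hj⟩
    have hall : ∀ j, ∃ i, ι i = y j := by
      have h1 : (Finset.univ.filter fun i => Inc e (σ v) i).image ι ⊆ Finset.univ.image y := by
        intro a ha
        obtain ⟨i, hi, rfl⟩ := Finset.mem_image.1 ha
        obtain ⟨j, hj⟩ := hat i (Finset.mem_filter.1 hi).2
        rw [hj]
        exact Finset.mem_image_of_mem _ (Finset.mem_univ _)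
      have h2 : (Finset.univ.image y).card ≤
          ((Finset.univ.filter fun i => Inc e (σ v) i).image ι).card := by
        rw [Finset.card_image_of_injective _ hι]
        refine (Finset.card_image_le).trans ?_
        simpa using he.deg (σ v)
      have h3 := Finset.eq_of_subset_of_card_le h1 h2
      intro j
      have h4 : y j ∈ (Finset.univ.filter fun i => Inc e (σ v) i).image ι := by
        rw [h3]
        exact Finset.mem_image_of_mem _ (Finset.mem_univ _)
      obtain ⟨i, _, hi⟩ := Finset.mem_image.1 h4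
      exact ⟨i, hi⟩
    -- the values `σ (p r)` are different
    have hxinj : ∀ r r', σ (p r) = σ (p r') → r = r' := by
      intro r r' hs
      obtain ⟨i, hi⟩ := hall r
      obtain ⟨j, hj⟩ := hall r'
      have h1 := hpar i j v v (p r) (p r') (hi ▸ hyJ r) (hj ▸ hyJ r') rfl hs
      subst h1
      exact h.yinj (hi.symm.trans hj)
    have hCe : ∀ a, a ∉ C := by
      intro a ha
      rcases hYF a (Finset.mem_union_left _ ha) with ⟨i, rfl⟩ | ⟨i, j, hij, h2, h3⟩
      · exact hyC i ha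
      · have h4 := hσC a ha
        rw [h2, h3] at h4
        exact hij (hxinj i j h4)
    have hinj : ∀ z z', In z → In z' → σ z = σ z' → z = z' := by
      intro z z' hz hz' hs
      have h1 := hσu z z' hz hz' hs (fun w => if w = z then 1 else 0) (fun a ha => absurd ha (hCe a))
      by_contra hne
      simp [Ne.symm hne] at h1
    obtain ⟨hb, hb01, hbp⟩ := he.sp (σ v) (fun r => σ (p r)) (fun r => by
      obtain ⟨i, hi⟩ := hall r
      exact hadj1 i _ _ (hi ▸ hyJ r)) (fun u hu => by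
      obtain ⟨i, z, z', hJ, hz, hz'⟩ := hadj2 _ _ hu
      obtain ⟨j, _, hj⟩ := hstar i z z' hJ (hvu z (hInJ _ _ _ hJ) hz.symm)
      exact ⟨j, by rw [← hz', hj]⟩)
    have hz : ∀ i, ∃ z, In z ∧ σ z = hb i := by
      intro i
      obtain ⟨i', z, z', hJ, hz, _⟩ := hadj2 _ _ ((hbp i).2 0).2
      exact ⟨z, hInJ _ _ _ hJ, hz⟩
    choose z hzI hzσ using hz
    have hzv : ∀ i, z i ≠ v := by
      intro i hi
      exact (hbp i).1 (by rw [← hzσ i, hi])
    have hzp : ∀ i j, z i ≠ p j := by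
      intro i j hi
      exact ((hbp i).2 j).1 (by rw [← hzσ i, hi])
    refine rooted_of_model h (fun i => {z i}) (fun j => {p j}) (fun i => hsing _) (fun j => hsing _)
      (fun j => Finset.mem_singleton_self _) ?_ ?_ ?_ ?_ ?_ ?_
    · intro i hi
      exact hzv i (Finset.mem_singleton.1 hi).symm
    · intro j hj
      exact h.pv j (Finset.mem_singleton.1 hj).symm
    · rw [Finset.disjoint_singleton]
      intro h1
      exact hb01 (by rw [← hzσ 0, ← hzσ 1, h1])
    · intro j j' hj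
      rw [Finset.disjoint_singleton]
      exact fun h1 => hj (h.pinj h1)
    · intro i j
      rw [Finset.disjoint_singleton]
      exact hzp i j
    · intro i j
      obtain ⟨i', w, w', hJ, hw, hw'⟩ := hadj2 _ _ ((hbp i).2 j).2
      have h1 : w = z i := hinj _ _ (hInJ _ _ _ hJ) (hzI i) (by rw [hw, hzσ])
      have h2 : w' = p j := hinj _ _ (hInJ _ _ _ hJ.symm) (hpIn j) hw'
      subst h1
      subst h2
      refine ⟨ι i', (hιE i').1, ?_⟩
      rcases hJ with h3 | h3
      · exact Or.inl ⟨Finset.mem_singleton.2 h3.1, Finset.mem_singleton.2 h3.2⟩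
      · exact Or.inr ⟨Finset.mem_singleton.2 h3.1, Finset.mem_singleton.2 h3.2⟩
  · -- case B
    have hpre : ∀ o : Fin m, ∃ z, (∀ r, o ≠ σ (p r)) → In z ∧ σ z = o ∧ Out z := by
      intro o
      by_cases ho : ∀ r, o ≠ σ (p r)
      · obtain ⟨i, hi⟩ := he.rigid.inc o
        have h1 : ∃ z, In z ∧ σ z = o := by
          rcases hσ i with ⟨h1, h2⟩ | ⟨h1, h2⟩ <;> rcases hi with hi | hi
          · exact ⟨f (ι i), ⟨i, Or.inl rfl⟩, h1.trans hi⟩
          · exact ⟨g (ι i), ⟨i, Or.inr rfl⟩, h2.trans hi⟩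
          · exact ⟨g (ι i), ⟨i, Or.inr rfl⟩, h2.trans hi⟩
          · exact ⟨f (ι i), ⟨i, Or.inl rfl⟩, h1.trans hi⟩
        obtain ⟨z, hzI, hz⟩ := h1
        refine ⟨z, fun _ => ⟨hzI, hz, ?_, ?_⟩⟩
        · rintro rfl
          exact hA ⟨hzI, fun r hr => ho r (hz.symm.trans hr)⟩
        · rintro j rfl
          exact ho j hz.symm
      · exact ⟨v, fun h1 => absurd h1 ho⟩
    choose τ hτ using hpre
    have hτu : ∀ o, (∀ r, o ≠ σ (p r)) → ∀ z, In z → σ z = o → z = τ o := by
      intro o ho z hz hs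
      obtain ⟨h1, h2, h3⟩ := hτ o ho
      exact hOutu _ h3 h1 z hz (h2.trans hs.symm)
    -- edges between outer vertices
    have hadj3 : ∀ o o', (∀ r, o ≠ σ (p r)) → (∀ r, o' ≠ σ (p r)) → adj o o' = true →
        ∃ a ∈ K.E, Jn f g a (τ o) (τ o') := by
      intro o o' ho ho' had
      obtain ⟨i, z, z', hJ, hz, hz'⟩ := hadj2 _ _ had
      have h1 := hτu o ho z (hInJ _ _ _ hJ) hz
      have h2 := hτu o' ho' z' (hInJ _ _ _ hJ.symm) hz'
      subst h1
      subst h2
      exact ⟨_, (hιE i).1, hJ⟩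
    set kk : Fin m → Fin 3 → Bool := fun o r => decide (∃ a ∈ K.E, Jn f g a (τ o) (p r)) with hkk
    have hkk' : ∀ o r, kk o r = true ↔ ∃ a ∈ K.E, Jn f g a (τ o) (p r) := by
      intro o r
      rw [hkk]
      exact decide_eq_true_iff
    have hkι : ∀ o, (∀ r, o ≠ σ (p r)) → ∀ r, kk o r = true → ∃ i, Jn f g (ι i) (τ o) (p r) := by
      intro o ho r hk
      obtain ⟨a, ha, hJ⟩ := (hkk' o r).1 hk
      obtain ⟨i, hi⟩ := hOutE _ (hτ o ho).2.2 a ha (by
        rcases hJ with h1 | h1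
        · exact Or.inl h1.1
        · exact Or.inr h1.2)
      exact ⟨i, hi ▸ hJ⟩
    have hFC : FCHyp adj (fun r => σ (p r)) kk := by
      refine ⟨?_, ?_, ?_, ?_⟩
      · intro o ho r hk
        obtain ⟨i, hJ⟩ := hkι o ho r hk
        have h1 := hadj1 _ _ _ hJ
        rwa [(hτ o ho).2.1] at h1
      · intro o ho r had
        obtain ⟨i, z, z', hJ, hz, hz'⟩ := hadj2 _ _ had
        have h1 := hτu o ho z (hInJ _ _ _ hJ) hz
        subst h1
        have hτo := hτ o ho
        have hz'v : z' ≠ v := by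
          intro h2
          obtain ⟨j, _, hj⟩ := hstar i z' _ hJ.symm h2
          exact hτo.2.2.2 j hj
        have hz'p : ∃ j, z' = p j := by
          by_contra hn
          push Not at hn
          exact hOutx z' ⟨hz'v, hn⟩ (hInJ _ _ _ hJ.symm) r hz'
        obtain ⟨j, rfl⟩ := hz'p
        exact ⟨j, hz', (hkk' _ _).2 ⟨_, (hιE i).1, hJ⟩⟩
      · intro o ho r r' hr hk hk'
        obtain ⟨i, hJ⟩ := hkι o ho r hk
        obtain ⟨j, hJ'⟩ := hkι o ho r' hk'
        have h1 := hpar i j _ _ _ _ hJ hJ' rfl hr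
        subst h1
        apply h.pinj
        have hne : τ o ≠ p r := (hτ o ho).2.2.2 r
        have hne' : τ o ≠ p r' := (hτ o ho).2.2.2 r'
        rcases hJ with ⟨h1, h2⟩ | ⟨h1, h2⟩ <;> rcases hJ' with ⟨h3, h4⟩ | ⟨h3, h4⟩
        · exact h2.symm.trans h4
        · exact absurd (h1.symm.trans h3) hne'
        · exact absurd (h3.symm.trans h1) hne
        · exact h1.symm.trans h3
      · intro r
        obtain ⟨i, z, hz, hJ⟩ := hpout r
        have hzI := hInJ _ _ _ hJ.symm
        have ho : ∀ r', σ z ≠ σ (p r') := hOutx z hz hzI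
        refine ⟨σ z, ho, (hkk' _ _).2 ⟨_, (hιE i).1, ?_⟩⟩
        rw [← hτu _ ho z hzI rfl]
        exact hJ.symm
    obtain ⟨hb, L, hL⟩ := he.fc _ _ hFC
    have hmem : ∀ r w, w ∈ insert (p r) ((L r).toFinset.image τ) ↔
        w = p r ∨ ∃ o ∈ L r, τ o = w := by
      intro r w
      rw [Finset.mem_insert, Finset.mem_image]
      simp only [List.mem_toFinset]
    refine rooted_of_model h (fun i => {τ (hb i)}) (fun r => insert (p r) ((L r).toFinset.image τ))
      (fun i => hsing _) ?_ (fun j => Finset.mem_insert_self _ _) ?_ ?_ ?_ ?_ ?_ ?_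
    · -- connected
      intro r χ hχ
      have hJχ : ∀ a ∈ K.E, ∀ z w, Jn f g a z w → z ∈ insert (p r) ((L r).toFinset.image τ) →
          w ∈ insert (p r) ((L r).toFinset.image τ) → χ z = χ w := by
        rintro a ha z w (⟨h1, h2⟩ | ⟨h1, h2⟩) hz hw
        · have h3 := hχ a ha (by rw [h1]; exact hz) (by rw [h2]; exact hw)
          rwa [h1, h2] at h3
        · have h3 := hχ a ha (by rw [h1]; exact hw) (by rw [h2]; exact hz)
          rw [h1, h2] at h3
          exact h3.symm
      have hconst : ∀ w ∈ insert (p r) ((L r).toFinset.image τ), χ w = χ (p r) := by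
        intro w hw
        rcases (hmem r w).1 hw with rfl | ⟨o, ho, rfl⟩
        · rfl
        · have hp0 : p r ∈ insert (p r) ((L r).toFinset.image τ) := Finset.mem_insert_self _ _
          rcases hL.path r with h1 | ⟨o1, h1, hk⟩ | ⟨o1, o2, h1, hk, had⟩
          · rw [h1] at ho
            simp at ho
          · rw [h1] at ho
            have ho' : o = o1 := by simpa using ho
            subst ho'
            obtain ⟨a, ha, hJ⟩ := (hkk' _ _).1 hk
            exact hJχ a ha _ _ hJ hw hp0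
          · have ho1 : o1 ∈ L r := by rw [h1]; simp
            have ho2 : o2 ∈ L r := by rw [h1]; simp
            have hw1 : τ o1 ∈ insert (p r) ((L r).toFinset.image τ) :=
              (hmem r _).2 (Or.inr ⟨o1, ho1, rfl⟩)
            have hw2 : τ o2 ∈ insert (p r) ((L r).toFinset.image τ) :=
              (hmem r _).2 (Or.inr ⟨o2, ho2, rfl⟩)
            obtain ⟨a, ha, hJ⟩ := (hkk' _ _).1 hk
            have h2 := hJχ a ha _ _ hJ hw1 hp0
            rw [h1] at ho
            have ho' : o = o1 ∨ o = o2 := by simpa using ho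
            rcases ho' with rfl | rfl
            · exact h2
            · obtain ⟨b, hb', hJ'⟩ := hadj3 o1 o (hL.Lx r _ ho1) (hL.Lx r _ ho2) had
              exact (hJχ b hb' _ _ hJ' hw1 hw2).symm.trans h2
      intro x hx x' hx'
      rw [hconst x hx, hconst x' hx']
    · intro i hi
      exact (hτ _ (hL.hx i)).2.2.1 (Finset.mem_singleton.1 hi).symm
    · intro j hj
      rcases (hmem j v).1 hj with h1 | ⟨o, ho, h1⟩
      · exact h.pv j h1.symm
      · exact (hτ _ (hL.Lx j o ho)).2.2.1 h1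
    · rw [Finset.disjoint_singleton]
      intro h1
      exact hL.hne (by rw [← (hτ _ (hL.hx 0)).2.1, ← (hτ _ (hL.hx 1)).2.1, h1])
    · intro j j' hj
      rw [Finset.disjoint_left]
      intro w hw hw'
      rcases (hmem j w).1 hw with h1 | ⟨o, ho, h1⟩ <;> rcases (hmem j' w).1 hw' with h2 | ⟨o', ho', h2⟩
      · exact hj (h.pinj (h1.symm.trans h2))
      · exact (hτ _ (hL.Lx j' o' ho')).2.2.2 j (h2.trans h1)
      · exact (hτ _ (hL.Lx j o ho)).2.2.2 j' (h1.trans h2)
      · have h3 : o = o' := by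
          rw [← (hτ _ (hL.Lx j o ho)).2.1, ← (hτ _ (hL.Lx j' o' ho')).2.1, h1, h2]
        subst h3
        exact hL.LL j j' hj o ho ho'
    · intro i j
      rw [Finset.disjoint_left]
      intro w hw hw'
      have hw1 := Finset.mem_singleton.1 hw
      rcases (hmem j w).1 hw' with h1 | ⟨o, ho, h1⟩
      · exact (hτ _ (hL.hx i)).2.2.2 j (hw1.symm.trans h1)
      · have h3 : hb i = o := by
          rw [← (hτ _ (hL.hx i)).2.1, ← (hτ _ (hL.Lx j o ho)).2.1, h1, hw1]
        exact hL.hL i j (h3 ▸ ho)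
    · intro i j
      have hJ : ∃ a ∈ K.E, ∃ w ∈ insert (p j) ((L j).toFinset.image τ), Jn f g a (τ (hb i)) w := by
        rcases hL.hub i j with h1 | ⟨o, ho, h1⟩
        · obtain ⟨a, ha, hJ⟩ := (hkk' _ _).1 h1
          exact ⟨a, ha, _, Finset.mem_insert_self _ _, hJ⟩
        · obtain ⟨a, ha, hJ⟩ := hadj3 _ _ (hL.hx i) (hL.Lx j o ho) h1
          exact ⟨a, ha, _, (hmem j _).2 (Or.inr ⟨o, ho, rfl⟩), hJ⟩
      obtain ⟨a, ha, w, hw, hJ⟩ := hJ
      refine ⟨a, ha, ?_⟩
      rcases hJ with h3 | h3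
      · exact Or.inl ⟨Finset.mem_singleton.2 h3.1, by rw [h3.2]; exact hw⟩
      · exact Or.inr ⟨by rw [h3.1]; exact hw, Finset.mem_singleton.2 h3.2⟩

end Pool.Agent.H87.Sey
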