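import Pool.Agent.H87.Sey.Parts
import Pool.Agent.H87.Sey.GraphBasic

/-!
# Graphic matroids are closed under 1- and 2-sums (Seymour project, MP_dbe88a_co, job S87-4)
-/

set_option autoImplicit false

namespace Pool.Agent.H87.Sey

open Pool.Agent.H63.Sey

universe u

variable {α : Type u} [DecidableEq α]

/-- `1`-sum: disjoint union of the two graphs (use `mem_iff_of_lam_zero`) -/
theorem glue0 {M : BM α} {A : Finset α} (hA : A ⊆ M.E) (h : M.lam A = 0)
    (h1 : Graphic (M.del A)) (h2 : Graphic (M.del (M.E \ A))) : Graphic M := by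
  obtain ⟨n1, f1, g1, e1⟩ := h1
  obtain ⟨n2, f2, g2, e2⟩ := h2
  have hE1 : (M.del A).E = M.E \ A := rfl
  have hE2 : (M.del (M.E \ A)).E = M.E \ (M.E \ A) := rfl
  have hin2 : ∀ a, a ∈ M.E \ (M.E \ A) ↔ a ∈ A := by
    intro a
    rw [Finset.mem_sdiff, Finset.mem_sdiff]
    constructor
    · rintro ⟨h3, h4⟩
      by_contra h5
      exact h4 ⟨h3, h5⟩
    · intro h3
      exact ⟨hA h3, fun h4 => h4.2 h3⟩
  refine graphic_of_fintype (V := Fin n1 ⊕ Fin n2)
    (f := fun a => if a ∈ A then Sum.inr (f2 a) else Sum.inl (f1 a))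
    (g := fun a => if a ∈ A then Sum.inr (g2 a) else Sum.inl (g1 a)) ?_
  intro y
  constructor
  · intro hy
    have m1 : res (ZMod 2) (M.E \ A) y ∈ (M.del A).D := ⟨y, hy, rfl⟩
    have m2 : res (ZMod 2) (M.E \ (M.E \ A)) y ∈ (M.del (M.E \ A)).D := ⟨y, hy, rfl⟩
    rw [e1] at m1
    rw [e2] at m2
    obtain ⟨φ1, hφ1⟩ := mem_cyc.1 m1
    obtain ⟨φ2, hφ2⟩ := mem_cyc.1 m2
    refine ⟨Sum.elim φ1 φ2, fun a => ?_⟩
    by_cases haE : a ∈ M.E
    · rw [if_pos haE]
      by_cases haA : a ∈ A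
      · have h3 := hφ2 a
        rw [res_apply, if_pos ((hin2 a).2 haA), hE2, if_pos ((hin2 a).2 haA)] at h3
        simp only [haA, if_true, Sum.elim_inr]
        exact h3
      · have hm : a ∈ M.E \ A := Finset.mem_sdiff.2 ⟨haE, haA⟩
        have h3 := hφ1 a
        rw [res_apply, if_pos hm, hE1, if_pos hm] at h3
        simp only [haA, if_false, Sum.elim_inl]
        exact h3
    · rw [if_neg haE]
      exact M.supp y hy a haE
  · rintro ⟨φ, hφ⟩
    rw [mem_iff_of_lam_zero hA h]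
    refine ⟨fun a ha => by rw [hφ a, if_neg ha], ?_, ?_⟩
    · have m2 : (fun a => if a ∈ (M.del (M.E \ A)).E then φ (Sum.inr (f2 a)) +
          φ (Sum.inr (g2 a)) else 0) ∈ (M.del (M.E \ A)).D := by
        rw [e2]
        exact mem_cyc.2 ⟨fun v => φ (Sum.inr v), fun a => rfl⟩
      obtain ⟨x, hx, hx'⟩ := m2
      refine ⟨x, hx, fun a ha => ?_⟩
      have h3 := congrFun hx' a
      rw [res_apply, if_pos ((hin2 a).2 ha)] at h3
      rw [h3, hφ a, if_pos (hA ha)]
      simp only [ha, if_true]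
      rw [hE2, if_pos ((hin2 a).2 ha)]
    · have m1 : (fun a => if a ∈ (M.del A).E then φ (Sum.inl (f1 a)) +
          φ (Sum.inl (g1 a)) else 0) ∈ (M.del A).D := by
        rw [e1]
        exact mem_cyc.2 ⟨fun v => φ (Sum.inl v), fun a => rfl⟩
      obtain ⟨x, hx, hx'⟩ := m1
      refine ⟨x, hx, fun a ha => ?_⟩
      have h3 := congrFun hx' a
      have ha' := Finset.mem_sdiff.1 ha
      rw [res_apply, if_pos ha] at h3
      rw [h3, hφ a, if_pos ha'.1]
      simp only [ha'.2, if_false]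
      rw [hE1, if_pos ha]

/-- `2`-sum: identify the ends of the two new edges (vertex set `V₁ ⊕ V₂`, the edges of the second
graph are redirected from the ends of `z' 0` to the ends of `z 0`); use `Guts.mem_iff` -/
theorem glue1 {M P Q : BM α} {A : Finset α} (hA : A ⊆ M.E) {R S : Fin 1 → Finset α}
    (h : Guts M A R S) {z z' : Fin 1 → α} (hP : IsPart M P A z R)
    (hQ : IsPart M Q (M.E \ A) z' S) (h1 : Graphic P) (h2 : Graphic Q) : Graphic M := by
  obtain ⟨n1, f1, g1, e1⟩ := h1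
  obtain ⟨n2, f2, g2, e2⟩ := h2
  have hzP : z 0 ∈ P.E := by
    rw [hP.E_eq]
    exact Finset.mem_union_right _ (Finset.mem_image_of_mem _ (Finset.mem_univ _))
  have hzQ : z' 0 ∈ Q.E := by
    rw [hQ.E_eq]
    exact Finset.mem_union_right _ (Finset.mem_image_of_mem _ (Finset.mem_univ _))
  have hAP : ∀ a ∈ A, a ∈ P.E := fun a ha => by
    rw [hP.E_eq]; exact Finset.mem_union_left _ ha
  have hAQ : ∀ a ∈ M.E \ A, a ∈ Q.E := fun a ha => by
    rw [hQ.E_eq]; exact Finset.mem_union_left _ ha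
  have hzA : z 0 ∉ A := hP.z_nmem 0
  have hzA' : z' 0 ∉ M.E \ A := hQ.z_nmem 0
  -- lifting cocycles of `M` to the parts
  have liftP : ∀ y ∈ M.D, (fun a => if a ∈ A then y a else if a = z 0 then
      ∑ b ∈ R 0, y b else 0) ∈ P.D := by
    intro y hy
    rw [hP.mem]
    refine ⟨fun a ha => ?_, y, hy, fun a ha => by simp [ha], fun i => ?_⟩
    · have h3 : a ∉ A := fun h4 => ha (hAP a h4)
      have h4 : a ≠ z 0 := fun h5 => ha (h5 ▸ hzP)
      simp [h3, h4]
    · have : i = 0 := Subsingleton.elim _ _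
      subst this
      simp [hzA]
  have liftQ : ∀ y ∈ M.D, (fun a => if a ∈ M.E \ A then y a else if a = z' 0 then
      ∑ b ∈ S 0, y b else 0) ∈ Q.D := by
    intro y hy
    rw [hQ.mem]
    refine ⟨fun a ha => ?_, y, hy, fun a ha => by rw [if_pos ha], fun i => ?_⟩
    · have h3 : a ∉ M.E \ A := fun h4 => ha (hAQ a h4)
      have h4 : a ≠ z' 0 := fun h5 => ha (h5 ▸ hzQ)
      simp only [h3, h4, if_false]
    · have : i = 0 := Subsingleton.elim _ _
      subst this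
      simp only [hzA', if_false, if_true]
  -- `z' 0` is not a loop
  have hne : f2 (z' 0) ≠ g2 (z' 0) := by
    intro he
    obtain ⟨y, hy, hy'⟩ := h.nz 0
    have h3 := liftQ y hy
    rw [e2] at h3
    obtain ⟨φ, hφ⟩ := mem_cyc.1 h3
    have h4 := hφ (z' 0)
    rw [if_neg hzA', if_pos rfl, if_pos hzQ, he, CharTwo.add_self_eq_zero] at h4
    exact hy' (by rw [h.eq 0 y hy, h4])
  set ι : Fin n2 → Fin n1 ⊕ Fin n2 := fun v => if v = f2 (z' 0) then Sum.inl (f1 (z 0)) else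
    if v = g2 (z' 0) then Sum.inl (g1 (z 0)) else Sum.inr v with hι
  have ιf : ι (f2 (z' 0)) = Sum.inl (f1 (z 0)) := by simp [hι]
  have ιg : ι (g2 (z' 0)) = Sum.inl (g1 (z 0)) := by simp [hι, hne.symm]
  refine graphic_of_fintype (V := Fin n1 ⊕ Fin n2)
    (f := fun a => if a ∈ A then Sum.inl (f1 a) else ι (f2 a))
    (g := fun a => if a ∈ A then Sum.inl (g1 a) else ι (g2 a)) ?_
  intro y
  constructor
  · intro hy
    have m1 := liftP y hy
    have m2 := liftQ y hy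
    rw [e1] at m1
    rw [e2] at m2
    obtain ⟨φ1, hφ1⟩ := mem_cyc.1 m1
    obtain ⟨φ2, hφ2⟩ := mem_cyc.1 m2
    have k1 : ∑ b ∈ R 0, y b = φ1 (f1 (z 0)) + φ1 (g1 (z 0)) := by
      have h3 := hφ1 (z 0)
      rw [if_neg hzA, if_pos rfl, if_pos hzP] at h3
      exact h3
    have k2 : ∑ b ∈ S 0, y b = φ2 (f2 (z' 0)) + φ2 (g2 (z' 0)) := by
      have h3 := hφ2 (z' 0)
      rw [if_neg hzA', if_pos rfl, if_pos hzQ] at h3
      exact h3
    have k3 : φ1 (f1 (z 0)) + φ1 (g1 (z 0)) = φ2 (f2 (z' 0)) + φ2 (g2 (z' 0)) := by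
      rw [← k1, ← k2]; exact h.eq 0 y hy
    set c := φ1 (f1 (z 0)) + φ2 (f2 (z' 0)) with hc
    have cc : c + c = 0 := CharTwo.add_self_eq_zero c
    have p1 : φ2 (f2 (z' 0)) + c = φ1 (f1 (z 0)) := by
      rw [hc]
      have : φ2 (f2 (z' 0)) + (φ1 (f1 (z 0)) + φ2 (f2 (z' 0))) =
        φ1 (f1 (z 0)) + (φ2 (f2 (z' 0)) + φ2 (f2 (z' 0))) := by ring
      rw [this, CharTwo.add_self_eq_zero, add_zero]
    have p2 : φ2 (g2 (z' 0)) + c = φ1 (g1 (z 0)) := by
      have e3 : φ2 (g2 (z' 0)) + c = (φ2 (f2 (z' 0)) + φ2 (g2 (z' 0))) + φ1 (f1 (z 0)) := by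
        rw [hc]; ring
      rw [e3, ← k3]
      have e4 : φ1 (f1 (z 0)) + φ1 (g1 (z 0)) + φ1 (f1 (z 0)) =
        (φ1 (f1 (z 0)) + φ1 (f1 (z 0))) + φ1 (g1 (z 0)) := by ring
      rw [e4, CharTwo.add_self_eq_zero, zero_add]
    have hel : ∀ v, Sum.elim φ1 (fun v => φ2 v + c) (ι v) = φ2 v + c := by
      intro v
      by_cases hv : v = f2 (z' 0)
      · subst hv
        rw [ιf, Sum.elim_inl, p1]
      · by_cases hv' : v = g2 (z' 0)
        · subst hv'
          rw [ιg, Sum.elim_inl, p2]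
        · simp only [hι, hv, hv', if_false, Sum.elim_inr]
    refine ⟨Sum.elim φ1 (fun v => φ2 v + c), fun a => ?_⟩
    by_cases haE : a ∈ M.E
    · rw [if_pos haE]
      by_cases haA : a ∈ A
      · have h3 := hφ1 a
        rw [if_pos haA, if_pos (hAP a haA)] at h3
        simp only [haA, if_true, Sum.elim_inl]
        exact h3
      · have hm : a ∈ M.E \ A := Finset.mem_sdiff.2 ⟨haE, haA⟩
        have h3 := hφ2 a
        rw [if_pos hm, if_pos (hAQ a hm)] at h3
        simp only [haA, if_false]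
        rw [hel, hel, h3]
        have e5 : φ2 (f2 a) + c + (φ2 (g2 a) + c) = φ2 (f2 a) + φ2 (g2 a) + (c + c) := by ring
        rw [e5, cc, add_zero]
    · rw [if_neg haE]
      exact M.supp y hy a haE
  · rintro ⟨φ, hφ⟩
    have m1 : (fun a => if a ∈ P.E then φ (Sum.inl (f1 a)) + φ (Sum.inl (g1 a)) else 0) ∈
        P.D := by
      rw [e1]
      exact mem_cyc.2 ⟨fun v => φ (Sum.inl v), fun a => rfl⟩
    have m2 : (fun a => if a ∈ Q.E then φ (ι (f2 a)) + φ (ι (g2 a)) else 0) ∈ Q.D := by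
      rw [e2]
      exact mem_cyc.2 ⟨fun v => φ (ι v), fun a => rfl⟩
    obtain ⟨-, y1, hy1, hy1A, hy1z⟩ := (hP.mem _).1 m1
    obtain ⟨-, y2, hy2, hy2A, hy2z⟩ := (hQ.mem _).1 m2
    have q1 : ∀ a ∈ A, y a = y1 a := by
      intro a ha
      rw [← hy1A a ha, if_pos (hAP a ha), hφ a, if_pos (hA ha)]
      simp only [ha, if_true]
    have q2 : ∀ a ∈ M.E \ A, y a = y2 a := by
      intro a ha
      have ha' := Finset.mem_sdiff.1 ha
      rw [← hy2A a ha, if_pos (hAQ a ha), hφ a, if_pos ha'.1]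
      simp only [ha'.2, if_false]
    rw [h.mem_iff hA]
    refine ⟨fun a ha => by rw [hφ a, if_neg ha], ⟨y1, hy1, q1⟩, ⟨y2, hy2, q2⟩, fun i => ?_⟩
    have hi : i = 0 := Subsingleton.elim _ _
    subst hi
    rw [Finset.sum_congr rfl fun a ha => q1 a (h.R_sub 0 ha),
      Finset.sum_congr rfl fun a ha => q2 a (h.S_sub 0 ha), ← hy1z 0, ← hy2z 0, if_pos hzP,
      if_pos hzQ, ιf, ιg]

end Pool.Agent.H87.Sey
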