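import Pool.Agent.H87.Sey.Rt

/-!
# Rooted `K33` models (Seymour project, MP_dbe88a_co, job S87-20)
-/

set_option autoImplicit false

namespace Pool.Agent.H87.Sey

open Pool.Agent.H63.Sey

universe u

variable {α : Type u} [DecidableEq α]

/-- the vertex set `B` is connected by the edges of `E` inside `B`: every `0/1`-function on the
vertices which is constant along these edges is constant on `B` -/
def ConnB {n : ℕ} (E : Finset α) (f g : α → Fin n) (B : Finset (Fin n)) : Prop :=
  ∀ χ : Fin n → ZMod 2, (∀ a ∈ E, f a ∈ B → g a ∈ B → χ (f a) = χ (g a)) →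
    ∀ x ∈ B, ∀ x' ∈ B, χ x = χ x'

/-- some edge of `E` joins `B` and `B'` -/
def AdjB {n : ℕ} (E : Finset α) (f g : α → Fin n) (B B' : Finset (Fin n)) : Prop :=
  ∃ a ∈ E, (f a ∈ B ∧ g a ∈ B') ∨ (f a ∈ B' ∧ g a ∈ B)

/-- nine edges between three + three disjoint connected sets -/
structure Mod33 {n : ℕ} (E : Finset α) (f g : α → Fin n) (A B : Fin 3 → Finset (Fin n))
    (e : Fin 3 → Fin 3 → α) : Prop where
  cA : ∀ i, ConnB E f g (A i)
  cB : ∀ i, ConnB E f g (B i)
  AA : ∀ i i', i ≠ i' → Disjoint (A i) (A i')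
  BB : ∀ i i', i ≠ i' → Disjoint (B i) (B i')
  AB : ∀ i j, Disjoint (A i) (B j)
  eE : ∀ i j, e i j ∈ E
  ed : ∀ i j, (f (e i j) ∈ A i ∧ g (e i j) ∈ B j) ∨ (f (e i j) ∈ B j ∧ g (e i j) ∈ A i)

/-- pairs -/
def pq : Fin 3 × Fin 3 ≃ Fin 9 := finProdFinEquiv

lemma k33_sum (φ : Fin 5 → ZMod 2) (i j : Fin 3) :
    ∑ k, φ k * k33 (pq (i, j)) k = ![φ 0, φ 1, φ 2] i + ![φ 3, φ 4, 0] j := by
  fin_cases i <;> fin_cases j <;> simp [k33, Fin.sum_univ_five, pq, finProdFinEquiv]

/-- the labelling -/
def iota (e : Fin 3 → Fin 3 → α) (m : Fin 9) : α := e (pq.symm m).1 (pq.symm m).2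

omit [DecidableEq α] in
lemma iota_mk (e : Fin 3 → Fin 3 → α) (i j : Fin 3) :
    iota e (pq (i, j)) = e i j := by
  unfold iota
  rw [Equiv.symm_apply_apply]

omit [DecidableEq α] in
lemma iota_all {P : Fin 9 → Prop} (h : ∀ i j : Fin 3, P (pq (i, j))) (m : Fin 9) :
    P m := by
  have := h (pq.symm m).1 (pq.symm m).2
  rwa [Prod.mk.eta, Equiv.apply_symm_apply] at this

namespace Mod33

variable {n : ℕ} {E : Finset α} {f g : α → Fin n} {A B : Fin 3 → Finset (Fin n)}
  {e : Fin 3 → Fin 3 → α}

omit [DecidableEq α] in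
lemma eqA (h : Mod33 E f g A B e) {i i' : Fin 3} {x : Fin n} (hx : x ∈ A i) (hx' : x ∈ A i') :
    i = i' := by
  by_contra hne
  exact Finset.disjoint_left.1 (h.AA i i' hne) hx hx'

omit [DecidableEq α] in
lemma eqB (h : Mod33 E f g A B e) {i i' : Fin 3} {x : Fin n} (hx : x ∈ B i) (hx' : x ∈ B i') :
    i = i' := by
  by_contra hne
  exact Finset.disjoint_left.1 (h.BB i i' hne) hx hx'

omit [DecidableEq α] in
lemma nAB (h : Mod33 E f g A B e) {i j : Fin 3} {x : Fin n} (hx : x ∈ A i) (hx' : x ∈ B j) :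
    False := Finset.disjoint_left.1 (h.AB i j) hx hx'

omit [DecidableEq α] in
lemma inj (h : Mod33 E f g A B e) : Function.Injective (iota e) := by
  have key : ∀ i j i' j', e i j = e i' j' → i = i' ∧ j = j' := by
    intro i j i' j' he
    have h1 := h.ed i j
    have h2 := h.ed i' j'
    rw [← he] at h2
    rcases h1 with ⟨h1, h1'⟩ | ⟨h1, h1'⟩ <;> rcases h2 with ⟨h2, h2'⟩ | ⟨h2, h2'⟩
    · exact ⟨h.eqA h1 h2, h.eqB h1' h2'⟩
    · exact (h.nAB h1 h2).elim
    · exact (h.nAB h2 h1).elim
    · exact ⟨h.eqA h1' h2', h.eqB h1 h2⟩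
  intro m m' hm
  have := key _ _ _ _ hm
  have h2 : pq.symm m = pq.symm m' := Prod.ext this.1 this.2
  exact pq.symm.injective h2

/-- the contracted edges -/
def C (E : Finset α) (f g : α → Fin n) (A B : Fin 3 → Finset (Fin n)) : Finset α :=
  E.filter fun a => (∃ i, f a ∈ A i ∧ g a ∈ A i) ∨ ∃ i, f a ∈ B i ∧ g a ∈ B i

omit [DecidableEq α] in
lemma notC (h : Mod33 E f g A B e) (i j : Fin 3) : e i j ∉ C E f g A B := by
  intro hC
  unfold C at hC
  rw [Finset.mem_filter] at hC
  have h1 := h.ed i j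
  rcases hC.2 with ⟨i', h2, h2'⟩ | ⟨i', h2, h2'⟩ <;> rcases h1 with ⟨h1, h1'⟩ | ⟨h1, h1'⟩
  · exact h.nAB h2' h1'
  · exact h.nAB h2 h1
  · exact h.nAB h1 h2
  · exact h.nAB h1' h2'

theorem main {K : BM α} (hK : K = cyc K.E f g) (h : Mod33 K.E f g A B e) :
    (K.con (C K.E f g A B)).del ((K.E \ C K.E f g A B) \ Finset.univ.image (iota e)) =
      conc k33 (iota e) := by
  have hmemE : ∀ a ∈ Finset.univ.image (iota e), a ∈ K.E ∧ a ∉ C K.E f g A B := by
    intro a ha
    obtain ⟨m, -, rfl⟩ := Finset.mem_image.1 ha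
    exact ⟨h.eE _ _, h.notC _ _⟩
  have hD : ∀ z, z ∈ K.D ↔ ∃ χ, cob K.E f g χ = z := by
    intro z
    have h1 : K.D = (cyc K.E f g).D := by rw [← hK]
    rw [h1]
    exact LinearMap.mem_range
  refine LM.D_ext _ ?_ fun x => ?_
  · show (K.E \ C K.E f g A B) \ ((K.E \ C K.E f g A B) \ Finset.univ.image (iota e)) = _
    ext a
    simp only [Finset.mem_sdiff, conc_E]
    constructor
    · rintro ⟨h1, h2⟩
      by_contra h3
      exact h2 ⟨h1, h3⟩
    · intro ha
      exact ⟨hmemE a ha, fun h' => h'.2 ha⟩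
  · rw [LM.mem_del, mem_conc h.inj]
    constructor
    · rintro ⟨h1, z, hz, h2⟩
      rw [LM.mem_con] at hz
      obtain ⟨hz1, hz2⟩ := hz
      obtain ⟨χ, rfl⟩ := (hD z).1 hz1
      have hc : ∀ a ∈ C K.E f g A B, χ (f a) = χ (g a) := by
        intro a ha
        have h3 := hz2 a ha
        rw [cob_apply, if_pos (Finset.mem_filter.1 ha).1] at h3
        exact CharTwo.add_eq_zero.1 h3
      have hcA : ∀ i, ∀ x ∈ A i, ∀ x' ∈ A i, χ x = χ x' := by
        intro i
        refine h.cA i χ fun a ha h3 h4 => hc a ?_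
        exact Finset.mem_filter.2 ⟨ha, Or.inl ⟨i, h3, h4⟩⟩
      have hcB : ∀ i, ∀ x ∈ B i, ∀ x' ∈ B i, χ x = χ x' := by
        intro i
        refine h.cB i χ fun a ha h3 h4 => hc a ?_
        exact Finset.mem_filter.2 ⟨ha, Or.inr ⟨i, h3, h4⟩⟩
      refine ⟨fun a ha => ?_, ?_⟩
      · by_cases haD : a ∈ (K.E \ C K.E f g A B) \ Finset.univ.image (iota e)
        · exact h1 a haD
        · rw [h2 a haD]
          by_cases haE : a ∈ K.E
          · have haC : a ∈ C K.E f g A B := by
              by_contra hc'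
              exact haD (Finset.mem_sdiff.2 ⟨Finset.mem_sdiff.2 ⟨haE, hc'⟩, ha⟩)
            exact hz2 a haC
          · rw [cob_apply, if_neg haE]
      · -- values
        have hA : ∀ i, ∃ a : ZMod 2, ∀ x ∈ A i, χ x = a := by
          intro i
          rcases h.ed i 0 with ⟨h3, -⟩ | ⟨-, h3⟩
          · exact ⟨_, fun x hx => hcA i x hx _ h3⟩
          · exact ⟨_, fun x hx => hcA i x hx _ h3⟩
        have hB : ∀ i, ∃ a : ZMod 2, ∀ x ∈ B i, χ x = a := by
          intro i
          rcases h.ed 0 i with ⟨-, h3⟩ | ⟨h3, -⟩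
          · exact ⟨_, fun x hx => hcB i x hx _ h3⟩
          · exact ⟨_, fun x hx => hcB i x hx _ h3⟩
        choose u hu using hA
        choose w hw using hB
        refine ⟨![u 0 + w 2, u 1 + w 2, u 2 + w 2, w 0 + w 2, w 1 + w 2], ?_⟩
        refine iota_all fun i j => ?_
        rw [k33_sum, iota_mk]
        have h3 : e i j ∉ (K.E \ C K.E f g A B) \ Finset.univ.image (iota e) := by
          rw [Finset.mem_sdiff, not_and, not_not]
          intro _
          exact Finset.mem_image.2 ⟨pq (i, j), Finset.mem_univ _, iota_mk e i j⟩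
        rw [h2 _ h3, cob_apply, if_pos (h.eE i j)]
        have h4 : χ (f (e i j)) + χ (g (e i j)) = u i + w j := by
          rcases h.ed i j with ⟨h5, h6⟩ | ⟨h5, h6⟩
          · rw [hu i _ h5, hw j _ h6]
          · rw [hw j _ h5, hu i _ h6, add_comm]
        rw [h4]
        have key : ∀ a b c : ZMod 2, a + b = (a + c) + (b + c) := by decide
        have key2 : ∀ a c : ZMod 2, a + c = (a + c) + 0 := by decide
        fin_cases i <;> fin_cases j <;> first
          | exact key _ _ _
          | exact key2 _ _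
    · rintro ⟨h1, φ, h2⟩
      set u : Fin 3 → ZMod 2 := ![φ 0, φ 1, φ 2] with hu
      set w : Fin 3 → ZMod 2 := ![φ 3, φ 4, 0] with hw
      set χ : Fin n → ZMod 2 := fun x => (∑ i, if x ∈ A i then u i else 0) +
        ∑ i, if x ∈ B i then w i else 0 with hχ
      have hA : ∀ i, ∀ x ∈ A i, χ x = u i := by
        intro i x hx
        rw [hχ]
        simp only
        rw [Finset.sum_eq_single i, if_pos hx, Finset.sum_eq_zero, add_zero]
        · intro j _
          rw [if_neg]
          exact fun h' => h.nAB hx h'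
        · intro j _ hj
          rw [if_neg]
          exact fun h' => hj (h.eqA h' hx)
        · intro h'
          exact absurd (Finset.mem_univ _) h'
      have hB : ∀ i, ∀ x ∈ B i, χ x = w i := by
        intro i x hx
        rw [hχ]
        simp only
        rw [Finset.sum_eq_zero, zero_add, Finset.sum_eq_single i, if_pos hx]
        · intro j _ hj
          rw [if_neg]
          exact fun h' => hj (h.eqB h' hx)
        · intro h'
          exact absurd (Finset.mem_univ _) h'
        · intro j _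
          rw [if_neg]
          exact fun h' => h.nAB h' hx
      have hCz : ∀ a ∈ C K.E f g A B, cob K.E f g χ a = 0 := by
        intro a ha
        have h3 := Finset.mem_filter.1 ha
        rw [cob_apply, if_pos h3.1]
        rcases h3.2 with ⟨i, h4, h5⟩ | ⟨i, h4, h5⟩
        · rw [hA i _ h4, hA i _ h5, CharTwo.add_self_eq_zero]
        · rw [hB i _ h4, hB i _ h5, CharTwo.add_self_eq_zero]
      refine ⟨fun a ha => h1 a (Finset.mem_sdiff.1 ha).2, cob K.E f g χ, ?_, ?_⟩
      · rw [LM.mem_con]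
        exact ⟨(hD _).2 ⟨χ, rfl⟩, hCz⟩
      · intro a ha
        by_cases ha' : a ∈ Finset.univ.image (iota e)
        · obtain ⟨m, -, rfl⟩ := Finset.mem_image.1 ha'
          clear ha ha'
          revert m
          refine iota_all fun i j => ?_
          rw [h2, k33_sum, iota_mk, cob_apply, if_pos (h.eE i j)]
          rcases h.ed i j with ⟨h5, h6⟩ | ⟨h5, h6⟩
          · rw [hA i _ h5, hB j _ h6]
          · rw [hB j _ h5, hA i _ h6, add_comm]
        · rw [h1 a ha']
          by_cases haE : a ∈ K.E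
          · have haC : a ∈ C K.E f g A B := by
              by_contra hc'
              exact ha (Finset.mem_sdiff.2 ⟨Finset.mem_sdiff.2 ⟨haE, hc'⟩, ha'⟩)
            rw [hCz a haC]
          · rw [cob_apply, if_neg haE]

end Mod33

/-- two hubs `H 0, H 1` and three sets `N j` containing the neighbours `p j` of `v`, everything
connected and disjoint and not containing `v`, each hub joined to each `N j`: rooted `K33`-minor.
Contract the edges inside the sets, delete everything else except `y j` and one edge between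
`H i` and `N j` for all `i, j`. In `conc k33 ι`: `ι (3 * 0 + j) = y j` (`a_0 = v`, `b_j = N j`),
`ι (3 * (i + 1) + j)` is the edge between `H i` and `N j`. -/
theorem rooted_of_model {n : ℕ} {K : BM α} {f g : α → Fin n} {v : Fin n} {y : Fin 3 → α}
    {p : Fin 3 → Fin n} (h : Rt K f g v y p) (H : Fin 2 → Finset (Fin n))
    (N : Fin 3 → Finset (Fin n)) (hH : ∀ i, ConnB K.E f g (H i)) (hN : ∀ j, ConnB K.E f g (N j))
    (hp : ∀ j, p j ∈ N j) (hvH : ∀ i, v ∉ H i) (hvN : ∀ j, v ∉ N j) (hHH : Disjoint (H 0) (H 1))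
    (hNN : ∀ j j', j ≠ j' → Disjoint (N j) (N j')) (hHN : ∀ i j, Disjoint (H i) (N j))
    (hadj : ∀ i j, AdjB K.E f g (H i) (N j)) : Rooted33 K y := by
  choose e he hee using hadj
  set A : Fin 3 → Finset (Fin n) := ![{v}, H 0, H 1] with hA
  set e' : Fin 3 → Fin 3 → α := ![y, e 0, e 1] with he'
  have hv0 : ConnB K.E f g ({v} : Finset (Fin n)) := by
    intro χ _ x hx x' hx'
    rw [Finset.mem_singleton] at hx hx'
    rw [hx, hx']
  have hvH' : ∀ i, Disjoint ({v} : Finset (Fin n)) (H i) := fun i =>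
    Finset.disjoint_singleton_left.2 (hvH i)
  have hvN' : ∀ i, Disjoint ({v} : Finset (Fin n)) (N i) := fun i =>
    Finset.disjoint_singleton_left.2 (hvN i)
  have hM : Mod33 K.E f g A N e' := by
    refine ⟨?_, hN, ?_, hNN, ?_, ?_, ?_⟩
    · intro i
      fin_cases i
      · exact hv0
      · exact hH 0
      · exact hH 1
    · intro i i' hne
      fin_cases i <;> fin_cases i' <;> first
        | exact absurd rfl hne
        | exact hvH' 0
        | exact hvH' 1
        | exact (hvH' 0).symm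
        | exact (hvH' 1).symm
        | exact hHH
        | exact hHH.symm
    · intro i j
      fin_cases i
      · exact hvN' j
      · exact hHN 0 j
      · exact hHN 1 j
    · intro i j
      fin_cases i
      · exact h.yE j
      · exact he 0 j
      · exact he 1 j
    · intro i j
      fin_cases i
      · rcases h.yend j with ⟨h1, h2⟩ | ⟨h1, h2⟩
        · left
          exact ⟨by rw [← Finset.mem_singleton] at h1; exact h1, by
            change g (y j) ∈ N j
            rw [h2]; exact hp j⟩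
        · right
          exact ⟨by
            change f (y j) ∈ N j
            rw [h1]; exact hp j, by rw [← Finset.mem_singleton] at h2; exact h2⟩
      · exact hee 0 j
      · exact hee 1 j
  have hroot : ∀ i, iota e' (row0 i) = y i := by
    intro i
    have h1 : row0 i = pq (0, i) := by
      revert i
      decide
    rw [h1, iota_mk]
    rfl
  have hyim : ∀ i, y i ∈ Finset.univ.image (iota e') := fun i =>
    Finset.mem_image.2 ⟨row0 i, Finset.mem_univ _, hroot i⟩
  refine ⟨Mod33.C K.E f g A N, (K.E \ Mod33.C K.E f g A N) \ Finset.univ.image (iota e'),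
    ?_, ?_, ?_, iota e', hM.inj, Mod33.main h.rep hM, hroot⟩
  · intro a ha
    rw [Finset.mem_sdiff]
    refine ⟨(Finset.mem_filter.1 ha).1, fun h' => ?_⟩
    obtain ⟨i, -, rfl⟩ := Finset.mem_image.1 h'
    exact hM.notC 0 i ha
  · intro a ha
    rw [Finset.mem_sdiff, Finset.mem_sdiff] at ha
    rw [Finset.mem_sdiff]
    refine ⟨ha.1.1, fun h' => ?_⟩
    obtain ⟨i, -, rfl⟩ := Finset.mem_image.1 h'
    exact ha.2 (hyim i)
  · rw [Finset.disjoint_left]
    intro a ha ha'
    rw [Finset.mem_sdiff, Finset.mem_sdiff] at ha'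
    exact ha'.1.2 ha

end Pool.Agent.H87.Sey
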