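import Pool.Agent.H87.Sey.Parts

/-!
# More on guts and parts (Seymour project, MP_dbe88a_co, job S87-7)
-/

set_option autoImplicit false

namespace Pool.Agent.H87.Sey

open Pool.Agent.H63.Sey

universe u

variable {α : Type u} [DecidableEq α]

/-! ### auxiliary lemmas -/

namespace Parts2Aux

open PartsAux

lemma ev_ne_zero {M : BM α} {R : Finset α} (h : ∃ y ∈ M.D, ∑ a ∈ R, y a ≠ 0) : ev M R ≠ 0 := by
  intro hcon
  obtain ⟨y, hy, h1⟩ := h
  exact h1 ((ev_eq_zero M).1 hcon y hy)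

lemma tri_ev {M : BM α} {R : Fin 3 → Finset α} (ht : Tri M R) :
    ev M (R 0) + ev M (R 1) + ev M (R 2) = 0 := by
  apply LinearMap.ext
  intro y
  rw [LinearMap.add_apply, LinearMap.add_apply, ev_apply, ev_apply, ev_apply]
  exact ht y.1 y.2

/-- three nonzero vectors with sum zero are different -/
lemma tri_inj {M : BM α} {R : Fin 3 → Finset α} (ht : Tri M R) (hn : ∀ i, ev M (R i) ≠ 0) :
    Function.Injective fun i => ev M (R i) := by
  have h := tri_ev ht
  have h01 : ev M (R 0) ≠ ev M (R 1) := by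
    intro e
    rw [e, add_self_dual, zero_add] at h
    exact hn 2 h
  have h02 : ev M (R 0) ≠ ev M (R 2) := by
    intro e
    rw [e, add_right_comm, add_self_dual, zero_add] at h
    exact hn 1 h
  have h12 : ev M (R 1) ≠ ev M (R 2) := by
    intro e
    rw [e, add_assoc, add_self_dual, add_zero] at h
    exact hn 0 h
  intro i j hij
  fin_cases i <;> fin_cases j
  · rfl
  · exact absurd hij h01
  · exact absurd hij h02
  · exact absurd hij.symm h01
  · rfl
  · exact absurd hij h12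
  · exact absurd hij.symm h02
  · exact absurd hij.symm h12
  · rfl

/-- the map from `M.D` to the row space of the part -/
noncomputable def toP {k : ℕ} (A : Finset α) (z : Fin k → α) (R : Fin k → Finset α) :
    (α → ZMod 2) →ₗ[ZMod 2] (α → ZMod 2) where
  toFun y := fun a => if a ∈ A then y a else ∑ i, if z i = a then ∑ b ∈ R i, y b else 0
  map_add' x y := by
    funext a
    by_cases h : a ∈ A
    · simp [h]
    · simp only [h, if_false, Pi.add_apply]
      rw [← Finset.sum_add_distrib]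
      apply Finset.sum_congr rfl
      intro i _
      by_cases hi : z i = a
      · simp only [hi, if_true]
        rw [Finset.sum_add_distrib]
      · simp [hi]
  map_smul' c x := by
    funext a
    by_cases h : a ∈ A
    · simp [h]
    · simp only [h, if_false, Pi.smul_apply, smul_eq_mul, RingHom.id_apply]
      rw [Finset.mul_sum]
      apply Finset.sum_congr rfl
      intro i _
      by_cases hi : z i = a
      · simp only [hi, if_true]
        rw [Finset.mul_sum]
      · simp [hi]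

lemma toP_A {k : ℕ} {A : Finset α} {z : Fin k → α} {R : Fin k → Finset α} (y : α → ZMod 2)
    {a : α} (h : a ∈ A) : toP A z R y a = y a := by
  show (if a ∈ A then y a else ∑ i, if z i = a then ∑ b ∈ R i, y b else 0) = y a
  rw [if_pos h]

lemma toP_z {k : ℕ} {A : Finset α} {z : Fin k → α} {R : Fin k → Finset α}
    (hz : Function.Injective z) (hzA : ∀ i, z i ∉ A) (y : α → ZMod 2) (i : Fin k) :
    toP A z R y (z i) = ∑ b ∈ R i, y b := by
  show (if z i ∈ A then y (z i) else ∑ j, if z j = z i then ∑ b ∈ R j, y b else 0) = _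
  rw [if_neg (hzA i), Finset.sum_eq_single i]
  · rw [if_pos rfl]
  · intro j _ hj
    rw [if_neg fun e => hj (hz e)]
  · intro h
    exact absurd (Finset.mem_univ i) h

lemma toP_off {k : ℕ} {A : Finset α} {z : Fin k → α} {R : Fin k → Finset α} (y : α → ZMod 2)
    {a : α} (h : a ∉ A ∪ Finset.univ.image z) : toP A z R y a = 0 := by
  rw [Finset.mem_union, not_or] at h
  show (if a ∈ A then y a else ∑ i, if z i = a then ∑ b ∈ R i, y b else 0) = 0
  rw [if_neg h.1]
  apply Finset.sum_eq_zero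
  intro i _
  rw [if_neg]
  intro e
  exact h.2 (Finset.mem_image.2 ⟨i, Finset.mem_univ i, e⟩)

lemma eq_toP {k : ℕ} {A : Finset α} {z : Fin k → α} {R : Fin k → Finset α}
    (hz : Function.Injective z) (hzA : ∀ i, z i ∉ A) {w y : α → ZMod 2}
    (h1 : ∀ a, a ∉ A ∪ Finset.univ.image z → w a = 0) (h2 : ∀ a ∈ A, w a = y a)
    (h3 : ∀ i, w (z i) = ∑ a ∈ R i, y a) : w = toP A z R y := by
  funext a
  by_cases ha : a ∈ A
  · rw [toP_A y ha, h2 a ha]
  · by_cases ha' : a ∈ Finset.univ.image z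
    · obtain ⟨i, _, rfl⟩ := Finset.mem_image.1 ha'
      rw [toP_z hz hzA, h3 i]
    · have hu : a ∉ A ∪ Finset.univ.image z := by
        rw [Finset.mem_union, not_or]
        exact ⟨ha, ha'⟩
      rw [toP_off y hu, h1 a hu]

lemma IsPart_D {k : ℕ} {M P : BM α} {A : Finset α} {R : Fin k → Finset α} {z : Fin k → α}
    (hP : IsPart M P A z R) : P.D = M.D.map (toP A z R) := by
  ext w
  rw [hP.mem, Submodule.mem_map, hP.E_eq]
  constructor
  · rintro ⟨h1, y, hy, h2, h3⟩
    exact ⟨y, hy, (eq_toP hP.inj hP.z_nmem h1 h2 h3).symm⟩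
  · rintro ⟨y, hy, rfl⟩
    exact ⟨fun a ha => toP_off y ha, y, hy, fun a ha => toP_A y ha,
      fun i => toP_z hP.inj hP.z_nmem y i⟩

/-- the surjection `M.D → P.D` -/
noncomputable def toPD {k : ℕ} {M P : BM α} {A : Finset α} {R : Fin k → Finset α} {z : Fin k → α}
    (hP : IsPart M P A z R) : M.D →ₗ[ZMod 2] P.D :=
  ((toP A z R).comp M.D.subtype).codRestrict P.D (by
    intro y
    rw [IsPart_D hP]
    exact ⟨y.1, y.2, rfl⟩)

lemma toPD_apply {k : ℕ} {M P : BM α} {A : Finset α} {R : Fin k → Finset α} {z : Fin k → α}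
    (hP : IsPart M P A z R) (y : M.D) : (toPD hP y).1 = toP A z R y.1 := rfl

lemma toPD_surj {k : ℕ} {M P : BM α} {A : Finset α} {R : Fin k → Finset α} {z : Fin k → α}
    (hP : IsPart M P A z R) : Function.Surjective (toPD hP) := by
  rintro ⟨w, hw⟩
  have h := hw
  rw [IsPart_D hP] at h
  obtain ⟨y, hy, h1⟩ := h
  exact ⟨⟨y, hy⟩, Subtype.ext h1⟩

lemma toPD_dual_inj {k : ℕ} {M P : BM α} {A : Finset α} {R : Fin k → Finset α} {z : Fin k → α}
    (hP : IsPart M P A z R) : Function.Injective (toPD hP).dualMap :=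
  LinearMap.dualMap_injective_of_surjective (toPD_surj hP)

lemma dual_evec_A {k : ℕ} {M P : BM α} {A : Finset α} {R : Fin k → Finset α} {z : Fin k → α}
    (hP : IsPart M P A z R) {a : α} (ha : a ∈ A) :
    (toPD hP).dualMap (P.evec a) = M.evec a := by
  apply LinearMap.ext
  intro y
  rw [LinearMap.dualMap_apply, LM.evec_apply, LM.evec_apply, toPD_apply, toP_A _ ha]

lemma dual_evec_z {k : ℕ} {M P : BM α} {A : Finset α} {R : Fin k → Finset α} {z : Fin k → α}
    (hP : IsPart M P A z R) (i : Fin k) :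
    (toPD hP).dualMap (P.evec (z i)) = ev M (R i) := by
  apply LinearMap.ext
  intro y
  rw [LinearMap.dualMap_apply, LM.evec_apply, toPD_apply, toP_z hP.inj hP.z_nmem, ev_apply]

lemma span_gs {k : ℕ} {M : BM α} {A : Finset α} {R S : Fin k → Finset α} (h : Guts M A R S) :
    Submodule.span (ZMod 2) (Set.range fun i => ev M (R i)) = gs M A := by
  apply le_antisymm
  · rw [Submodule.span_le]
    rintro _ ⟨i, rfl⟩
    exact gs_mem h i
  · intro ψ hψ
    rcases gs_cases h hψ with h1 | ⟨i, h1⟩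
    · rw [h1]
      exact Submodule.zero_mem _
    · rw [h1]
      exact Submodule.subset_span ⟨i, rfl⟩

/-- rank of a part, via the guts -/
lemma rk_part {k : ℕ} {M P : BM α} {A : Finset α} {R S : Fin k → Finset α} {z : Fin k → α}
    (h : Guts M A R S) (hP : IsPart M P A z R) {Y : Finset α} (hY : Y ⊆ A) :
    P.rk (Y ∪ Finset.univ.image z) =
      Module.finrank (ZMod 2)
        ((Submodule.span (ZMod 2) (M.evec '' (Y : Set α)) ⊔ gs M A : Submodule (ZMod 2) _)) := by
  rw [P.rk_eq_span, ← span_gs h, ← Submodule.span_union]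
  have e : (Submodule.span (ZMod 2) (P.evec '' ((Y ∪ Finset.univ.image z : Finset α) :
      Set α))).map (toPD hP).dualMap = Submodule.span (ZMod 2) (M.evec '' (Y : Set α) ∪
        Set.range fun i => ev M (R i)) := by
    rw [Submodule.map_span]
    congr 1
    rw [Finset.coe_union, Set.image_union, Set.image_union]
    congr 1
    · rw [Set.image_image]
      apply Set.image_congr
      intro a ha
      exact dual_evec_A hP (hY ha)
    · ext φ
      constructor
      · rintro ⟨_, ⟨a, ha, rfl⟩, rfl⟩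
        obtain ⟨i, _, rfl⟩ := Finset.mem_image.1 (Finset.mem_coe.1 ha)
        exact ⟨i, (dual_evec_z hP i).symm⟩
      · rintro ⟨i, rfl⟩
        refine ⟨P.evec (z i), ⟨z i, ?_, rfl⟩, dual_evec_z hP i⟩
        exact Finset.mem_coe.2 (Finset.mem_image.2 ⟨i, Finset.mem_univ i, rfl⟩)
  rw [← e]
  exact (LinearEquiv.finrank_eq (Submodule.equivMapOfInjective (toPD hP).dualMap
    (toPD_dual_inj hP) _))

lemma rk_part_add {k : ℕ} {M P : BM α} {A : Finset α} (hA : A ⊆ M.E) {R S : Fin k → Finset α}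
    {z : Fin k → α} (h : Guts M A R S) (hP : IsPart M P A z R) {Y : Finset α} (hY : Y ⊆ A) :
    P.rk (Y ∪ Finset.univ.image z) + M.rk (M.E \ A) = M.rk (Y ∪ (M.E \ A)) + M.lam A := by
  have h1 := Submodule.finrank_sup_add_finrank_inf_eq
    (Submodule.span (ZMod 2) (M.evec '' (Y : Set α)) ⊔ gs M A : Submodule (ZMod 2) _)
    (Submodule.span (ZMod 2) (M.evec '' ((M.E \ A : Finset α) : Set α)))
  have hg : gs M A ≤ Submodule.span (ZMod 2) (M.evec '' ((M.E \ A : Finset α) : Set α)) :=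
    inf_le_right
  have hg' : gs M A ≤ Submodule.span (ZMod 2) (M.evec '' (A : Set α)) := inf_le_left
  have hY' : Submodule.span (ZMod 2) (M.evec '' (Y : Set α)) ≤
      Submodule.span (ZMod 2) (M.evec '' (A : Set α)) :=
    Submodule.span_mono (Set.image_mono (Finset.coe_subset.2 hY))
  have e1 : (Submodule.span (ZMod 2) (M.evec '' (Y : Set α)) ⊔ gs M A) ⊔
      Submodule.span (ZMod 2) (M.evec '' ((M.E \ A : Finset α) : Set α)) =
      Submodule.span (ZMod 2) (M.evec '' ((Y ∪ (M.E \ A) : Finset α) : Set α)) := by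
    rw [sup_assoc, sup_eq_right.2 hg, ← Submodule.span_union, ← Set.image_union,
      ← Finset.coe_union]
  have e2 : (Submodule.span (ZMod 2) (M.evec '' (Y : Set α)) ⊔ gs M A) ⊓
      Submodule.span (ZMod 2) (M.evec '' ((M.E \ A : Finset α) : Set α)) = gs M A := by
    apply le_antisymm
    · exact inf_le_inf_right _ (sup_le hY' hg')
    · exact le_inf le_sup_right hg
  rw [e1, e2, ← M.rk_eq_span, ← M.rk_eq_span, finrank_gs M hA, ← rk_part h hP hY] at h1
  exact h1.symm

lemma rk_eq_aux {k : ℕ} {M P : BM α} {A : Finset α} {R : Fin k → Finset α} {z : Fin k → α}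
    (hP : IsPart M P A z R) {X : Finset α} (hX : X ⊆ A) : P.rk X = M.rk X := by
  rw [P.rk_eq_span, M.rk_eq_span]
  have e : (Submodule.span (ZMod 2) (P.evec '' (X : Set α))).map (toPD hP).dualMap =
      Submodule.span (ZMod 2) (M.evec '' (X : Set α)) := by
    rw [Submodule.map_span]
    congr 1
    rw [Set.image_image]
    apply Set.image_congr
    intro a ha
    exact dual_evec_A hP (hX ha)
  rw [← e]
  exact (LinearEquiv.finrank_eq (Submodule.equivMapOfInjective (toPD hP).dualMap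
    (toPD_dual_inj hP) _))

lemma lam_eq_aux {k : ℕ} {M P : BM α} {A : Finset α} (hA : A ⊆ M.E) {R S : Fin k → Finset α}
    {z : Fin k → α} (h : Guts M A R S) (hP : IsPart M P A z R)
    {X : Finset α} (hX : X ⊆ A) : P.lam X = M.lam X := by
  have h1 := P.lam_add X
  have h2 := M.lam_add X
  have h3 := rk_eq_aux hP hX
  have h4 := rk_part_add hA h hP (Y := A \ X) Finset.sdiff_subset
  have h5 := rk_part_add hA h hP (Y := A) (Finset.Subset.refl _)
  have e1 : P.E \ X = (A \ X) ∪ Finset.univ.image z := by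
    rw [hP.E_eq, Finset.union_sdiff_distrib]
    congr 1
    apply Finset.sdiff_eq_self_of_disjoint
    rw [Finset.disjoint_left]
    intro a ha ha'
    obtain ⟨i, _, rfl⟩ := Finset.mem_image.1 ha
    exact hP.z_nmem i (hX ha')
  have e2 : (A \ X) ∪ (M.E \ A) = M.E \ X := by
    ext a
    simp only [Finset.mem_union, Finset.mem_sdiff]
    constructor
    · rintro (⟨h6, h7⟩ | ⟨h6, h7⟩)
      · exact ⟨hA h6, h7⟩
      · exact ⟨h6, fun h8 => h7 (hX h8)⟩
    · rintro ⟨h6, h7⟩
      by_cases h8 : a ∈ A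
      · exact Or.inl ⟨h8, h7⟩
      · exact Or.inr ⟨h6, h8⟩
  rw [e2, ← e1] at h4
  rw [Finset.union_sdiff_of_subset hA, ← hP.E_eq] at h5
  omega

end Parts2Aux

open PartsAux Parts2Aux

/-! ### guts: `full` is automatic -/

theorem guts1_of {M : BM α} {A : Finset α} (hA : A ⊆ M.E) (hl : M.lam A = 1)
    {R S : Fin 1 → Finset α} (hR : ∀ i, R i ⊆ A) (hS : ∀ i, S i ⊆ M.E \ A)
    (he : ∀ i, ∀ y ∈ M.D, ∑ a ∈ R i, y a = ∑ a ∈ S i, y a)
    (hn : ∀ i, ∃ y ∈ M.D, ∑ a ∈ R i, y a ≠ 0) : Guts M A R S := by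
  refine ⟨hR, hS, he, hn, ?_⟩
  intro R₀ hR₀ S₀ hS₀ h
  have h1 := finrank_gs M hA
  rw [hl] at h1
  have h2 : ev M (R 0) ∈ gs M A := gs_ev M (hR 0) (hS 0) (he 0)
  have h3 : ev M R₀ ∈ gs M A := gs_ev M hR₀ hS₀ h
  have h4 : (⟨ev M (R 0), h2⟩ : gs M A) ≠ 0 := by
    intro e
    exact ev_ne_zero (hn 0) (congrArg Subtype.val e)
  obtain ⟨c, hc⟩ := (finrank_eq_one_iff_of_nonzero' _ h4).1 h1 ⟨ev M R₀, h3⟩
  have hc' : c • ev M (R 0) = ev M R₀ := congrArg Subtype.val hc
  rcases zmod_cases c with h5 | h5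
  · left
    rw [h5, zero_smul] at hc'
    exact (ev_eq_zero M).1 hc'.symm
  · right
    refine ⟨0, ?_⟩
    rw [h5, one_smul] at hc'
    intro y hy
    exact (ev_congr M hc' hy).symm

/-- compare with the guts `R', S'` of `exists_guts3`: each `R i` is some `R' j` on `M.D` by
`full`, the three `R i` are different on `M.D`, so all `R' j` occur -/
theorem guts3_of {M : BM α} {A : Finset α} (hA : A ⊆ M.E) (hl : M.lam A = 2)
    {R S : Fin 3 → Finset α} (hR : ∀ i, R i ⊆ A) (hS : ∀ i, S i ⊆ M.E \ A)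
    (he : ∀ i, ∀ y ∈ M.D, ∑ a ∈ R i, y a = ∑ a ∈ S i, y a)
    (hn : ∀ i, ∃ y ∈ M.D, ∑ a ∈ R i, y a ≠ 0) (ht : Tri M R) : Guts M A R S := by
  refine ⟨hR, hS, he, hn, ?_⟩
  intro R₀ hR₀ S₀ hS₀ h
  obtain ⟨R', S', hg, ht'⟩ := exists_guts3 M hA hl
  have h1 : ∀ i, ∃ j, ev M (R i) = ev M (R' j) := by
    intro i
    rcases gs_cases hg (gs_ev M (hR i) (hS i) (he i)) with h2 | h2
    · exact absurd h2 (ev_ne_zero (hn i))
    · exact h2
  choose f hf using h1
  have hinj : Function.Injective f := by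
    intro i j hij
    apply tri_inj ht (fun i => ev_ne_zero (hn i))
    show ev M (R i) = ev M (R j)
    rw [hf i, hf j, hij]
  have hsurj : Function.Surjective f := Finite.injective_iff_surjective.1 hinj
  rcases gs_cases hg (gs_ev M hR₀ hS₀ h) with h2 | ⟨j, h2⟩
  · exact Or.inl ((ev_eq_zero M).1 h2)
  · right
    obtain ⟨i, rfl⟩ := hsurj j
    refine ⟨i, fun y hy => ev_congr M (h2.trans (hf i).symm) hy⟩

/-- uniqueness up to a permutation -/
theorem guts3_perm {M : BM α} {A : Finset α} {R S R' S' : Fin 3 → Finset α}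
    (h : Guts M A R S) (ht : Tri M R) (h' : Guts M A R' S') (ht' : Tri M R') :
    ∃ σ : Equiv.Perm (Fin 3), ∀ i, ∀ y ∈ M.D, ∑ a ∈ R' i, y a = ∑ a ∈ R (σ i), y a := by
  have h1 : ∀ i, ∃ j, ev M (R' i) = ev M (R j) := by
    intro i
    rcases gs_cases h (gs_mem h' i) with h2 | h2
    · exact absurd h2 (ev_ne h' i)
    · exact h2
  choose f hf using h1
  have hinj : Function.Injective f := by
    intro i j hij
    apply tri_inj ht' (fun i => ev_ne h' i)
    show ev M (R' i) = ev M (R' j)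
    rw [hf i, hf j, hij]
  refine ⟨Equiv.ofBijective f (Finite.injective_iff_bijective.1 hinj), ?_⟩
  intro i y hy
  exact ev_congr M (hf i) hy

theorem two_le_lam {M : BM α} {A : Finset α} (hA : A ⊆ M.E)
    {R S : Fin 3 → Finset α} (hR : ∀ i, R i ⊆ A) (hS : ∀ i, S i ⊆ M.E \ A)
    (he : ∀ i, ∀ y ∈ M.D, ∑ a ∈ R i, y a = ∑ a ∈ S i, y a)
    (hn : ∀ i, ∃ y ∈ M.D, ∑ a ∈ R i, y a ≠ 0) (ht : Tri M R) : 2 ≤ M.lam A := by
  rw [← finrank_gs M hA]
  have hg : ∀ i, ev M (R i) ∈ gs M A := fun i => gs_ev M (hR i) (hS i) (he i)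
  have hinj := tri_inj ht (fun i => ev_ne_zero (hn i))
  have hli : LinearIndependent (ZMod 2)
      ![(⟨ev M (R 0), hg 0⟩ : gs M A), (⟨ev M (R 1), hg 1⟩ : gs M A)] := by
    rw [LinearIndependent.pair_iff]
    intro s t hst
    have hst' : s • ev M (R 0) + t • ev M (R 1) = 0 := congrArg Subtype.val hst
    rcases zmod_cases s with hs | hs <;> rcases zmod_cases t with ht0 | ht0 <;>
      rw [hs, ht0] at hst'
    · exact ⟨hs, ht0⟩
    · rw [zero_smul, zero_add, one_smul] at hst'
      exact absurd hst' (ev_ne_zero (hn 1))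
    · rw [zero_smul, add_zero, one_smul] at hst'
      exact absurd hst' (ev_ne_zero (hn 0))
    · rw [one_smul, one_smul] at hst'
      have := hinj (eq_of_add_dual M hst')
      exact absurd this (by decide)
  have := hli.fintype_card_le_finrank
  simpa using this

theorem one_le_lam {M : BM α} {A R S : Finset α} (hA : A ⊆ M.E) (hR : R ⊆ A)
    (hS : S ⊆ M.E \ A) (he : ∀ y ∈ M.D, ∑ a ∈ R, y a = ∑ a ∈ S, y a)
    (hn : ∃ y ∈ M.D, ∑ a ∈ R, y a ≠ 0) : 1 ≤ M.lam A := by
  rw [← finrank_gs M hA]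
  have h2 : ev M R ∈ gs M A := gs_ev M hR hS he
  have h4 : (⟨ev M R, h2⟩ : gs M A) ≠ 0 := by
    intro e
    exact ev_ne_zero hn (congrArg Subtype.val e)
  exact Nat.succ_le_of_lt (Module.finrank_pos_iff_exists_ne_zero.2 ⟨_, h4⟩)

/-! ### parts -/

/-- parts exist for any choice of labels -/
theorem exists_isPart {k : ℕ} (M : BM α) (A : Finset α) (R : Fin k → Finset α) {z : Fin k → α}
    (hz : Function.Injective z) (hzA : ∀ i, z i ∉ A) : ∃ P, IsPart M P A z R := by
  refine ⟨⟨A ∪ Finset.univ.image z, M.D.map (toP A z R), ?_⟩, hz, hzA, rfl, ?_⟩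
  · rintro x ⟨y, hy, rfl⟩ a ha
    exact toP_off y ha
  · intro w
    show w ∈ M.D.map (toP A z R) ↔ (∀ a, a ∉ A ∪ Finset.univ.image z → w a = 0) ∧ _
    constructor
    · rintro ⟨y, hy, rfl⟩
      exact ⟨fun a ha => toP_off y ha, y, hy, fun a ha => toP_A y ha, fun i => toP_z hz hzA y i⟩
    · rintro ⟨h1, y, hy, h2, h3⟩
      exact ⟨y, hy, (eq_toP hz hzA h1 h2 h3).symm⟩

theorem IsPart.rk_eq {k : ℕ} {M P : BM α} {A : Finset α} {R : Fin k → Finset α} {z : Fin k → α}
    (hP : IsPart M P A z R) {X : Finset α} (hX : X ⊆ A) : P.rk X = M.rk X :=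
  rk_eq_aux hP hX

/-- connectivity of a part: `P.rk ((A \ X) ∪ Z) + M.rk (M.E \ A) = M.rk (M.E \ X) + 2` and
`P.rk P.E + M.rk (M.E \ A) = M.rk M.E + 2` by the dimension formula for the spans -/
theorem IsPart.lam_eq3 {M P : BM α} {A : Finset α} (hA : A ⊆ M.E) {R S : Fin 3 → Finset α}
    {z : Fin 3 → α} (h : Guts M A R S) (ht : Tri M R) (hP : IsPart M P A z R)
    {X : Finset α} (hX : X ⊆ A) : P.lam X = M.lam X :=
  lam_eq_aux hA h hP hX

theorem IsPart.lam_eq1 {M P : BM α} {A : Finset α} (hA : A ⊆ M.E) {R S : Fin 1 → Finset α}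
    {z : Fin 1 → α} (h : Guts M A R S) (hP : IsPart M P A z R)
    {X : Finset α} (hX : X ⊆ A) : P.lam X = M.lam X :=
  lam_eq_aux hA h hP hX

end Pool.Agent.H87.Sey
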