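import Pool.Agent.H87.Sey.P4Defs
import Pool.Agent.H87.Sey.GraphBasic
import Pool.Agent.H87.Sey.C3

/-!
# Graphs with a cubic vertex (Seymour project, MP_dbe88a_co, job S87-19)
-/

set_option autoImplicit false

namespace Pool.Agent.H87.Sey

open Pool.Agent.H63.Sey

universe u

variable {α : Type u} [DecidableEq α]

/-- `K` is the cycle matroid of the graph with ends `f, g`; `v` is a cubic vertex with edges
`y 0, y 1, y 2` to three different neighbours `p 0, p 1, p 2` -/
structure Rt {n : ℕ} (K : BM α) (f g : α → Fin n) (v : Fin n) (y : Fin 3 → α)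
    (p : Fin 3 → Fin n) : Prop where
  rep : K = cyc K.E f g
  yE : ∀ i, y i ∈ K.E
  yinj : Function.Injective y
  yend : ∀ i, (f (y i) = v ∧ g (y i) = p i) ∨ (f (y i) = p i ∧ g (y i) = v)
  pinj : Function.Injective p
  pv : ∀ i, p i ≠ v
  star : ∀ a ∈ K.E, f a = v ∨ g a = v → ∃ i, a = y i

/-- the edges joining two of the neighbours of `v` -/
def IsF {n : ℕ} (f g : α → Fin n) (p : Fin 3 → Fin n) (a : α) : Prop :=
  ∃ i j, i ≠ j ∧ f a = p i ∧ g a = p j

namespace RtAux

lemma add_self' (t : ZMod 2) : t + t = 0 := CharTwo.add_self_eq_zero t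

lemma mem_iff {n : ℕ} {K : BM α} {f g : α → Fin n} (h : K = cyc K.E f g) {x : α → ZMod 2} :
    x ∈ K.D ↔ ∃ φ : Fin n → ZMod 2, ∀ a, x a = if a ∈ K.E then φ (f a) + φ (g a) else 0 := by
  conv_lhs => rw [h]
  exact mem_cyc

/-- the cocycle of a potential -/
lemma pot_mem {n : ℕ} {K : BM α} {f g : α → Fin n} (h : K = cyc K.E f g) (φ : Fin n → ZMod 2) :
    (fun a => if a ∈ K.E then φ (f a) + φ (g a) else 0) ∈ K.D :=
  (mem_iff h).2 ⟨φ, fun _ => rfl⟩

lemma rep_del {n : ℕ} {K : BM α} {f g : α → Fin n} (h : K = cyc K.E f g) (X : Finset α) :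
    K.del X = cyc (K.del X).E f g := by
  refine LM_ext' rfl fun x => ?_
  rw [LM.mem_del, mem_cyc]
  constructor
  · rintro ⟨h0, y, hy, hxy⟩
    obtain ⟨φ, hφ⟩ := (mem_iff h).1 hy
    refine ⟨φ, fun a => ?_⟩
    by_cases ha : a ∈ X
    · simp [ha, h0 a ha]
    · rw [hxy a ha, hφ a]
      simp [ha]
  · rintro ⟨φ, hφ⟩
    refine ⟨fun a ha => ?_, _, pot_mem h φ, fun a ha => ?_⟩
    · rw [hφ a]
      simp [ha]
    · rw [hφ a]
      simp [ha]

/-- a single element cocycle is a coloop -/
lemma lam_coloop {M : BM α} {a : α}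
    (h : (fun c => if c = a then (1 : ZMod 2) else 0) ∈ M.D) : M.lam {a} = 0 := by
  have h1 := M.finrank_con (M.E \ {a})
  have h2 : 1 ≤ Module.finrank (ZMod 2) (M.con (M.E \ {a})).D := by
    have hne : (M.con (M.E \ {a})).D ≠ ⊥ := by
      intro hb
      have h3 : (fun c => if c = a then (1 : ZMod 2) else 0) ∈ (M.con (M.E \ {a})).D := by
        rw [LM.mem_con]
        refine ⟨h, fun b hb => ?_⟩
        rw [Finset.mem_sdiff, Finset.mem_singleton] at hb
        simp [hb.2]
      rw [hb, Submodule.mem_bot] at h3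
      have h4 := congrFun h3 a
      simp at h4
    exact Submodule.one_le_finrank_iff.2 hne
  have h3 := M.rk_E
  have h4 := M.lam_add {a}
  have h5 := M.rk_le_card {a}
  rw [Finset.card_singleton] at h5
  omega

end RtAux

open RtAux

/-- from the star hypothesis of `rooted33`; the neighbours are different because there are no
parallel elements -/
lemma Rt.of_star {K : BM α} (hc : K.Conn3) (h4 : 4 ≤ K.E.card) {n : ℕ} {f g : α → Fin n}
    (hG : K = cyc K.E f g) {v : Fin n} {y : Fin 3 → α} (hy : Function.Injective y)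
    (hyE : ∀ i, y i ∈ K.E) (hv : ∀ a ∈ K.E, (f a = v ∨ g a = v) ↔ a ∈ Finset.univ.image y) :
    ∃ p : Fin 3 → Fin n, Rt K f g v y p := by
  let p : Fin 3 → Fin n := fun i => if f (y i) = v then g (y i) else f (y i)
  have hend : ∀ i, (f (y i) = v ∧ g (y i) = p i) ∨ (f (y i) = p i ∧ g (y i) = v) := by
    intro i
    by_cases h : f (y i) = v
    · exact Or.inl ⟨h, by simp [p, h]⟩
    · have h1 := (hv (y i) (hyE i)).2 (Finset.mem_image_of_mem _ (Finset.mem_univ i))
      rcases h1 with h1 | h1
      · exact absurd h1 h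
      · exact Or.inr ⟨by simp [p, h], h1⟩
  have hval : ∀ i, ∀ φ : Fin n → ZMod 2, φ (f (y i)) + φ (g (y i)) = φ v + φ (p i) := by
    intro i φ
    rcases hend i with ⟨h1, h2⟩ | ⟨h1, h2⟩
    · rw [h1, h2]
    · rw [h1, h2, add_comm]
  refine ⟨p, hG, hyE, hy, hend, ?_, ?_, ?_⟩
  · intro i j hij
    by_contra hne
    refine conn3_no_parallel hc h4 (hyE i) (hyE j) (fun h => hne (hy h)) ?_
    intro x hx h0
    obtain ⟨φ, hφ⟩ := (mem_iff hG).1 hx
    have h1 := h0 (y j) (Finset.mem_singleton_self _)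
    rw [hφ, if_pos (hyE j), hval j φ] at h1
    rw [hφ, if_pos (hyE i), hval i φ, hij, h1]
  · intro i hpi
    obtain ⟨x, hx, hx0⟩ := conn3_no_loop hc (by omega) (hyE i)
    obtain ⟨φ, hφ⟩ := (mem_iff hG).1 hx
    apply hx0
    rw [hφ, if_pos (hyE i), hval i φ, hpi]
    exact add_self' _
  · intro a ha h
    obtain ⟨i, _, hi⟩ := Finset.mem_image.1 ((hv a ha).1 h)
    exact ⟨i, hi.symm⟩

/-- deletion of an element outside the star -/
lemma Rt.del {n : ℕ} {K : BM α} {f g : α → Fin n} {v : Fin n} {y : Fin 3 → α}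
    {p : Fin 3 → Fin n} (h : Rt K f g v y p) {a : α} (ha : ∀ i, a ≠ y i) :
    Rt (K.del {a}) f g v y p := by
  refine ⟨rep_del h.rep {a}, ?_, h.yinj, h.yend, h.pinj, h.pv, ?_⟩
  · intro i
    rw [LM.del_E, Finset.mem_sdiff, Finset.mem_singleton]
    exact ⟨h.yE i, (ha i).symm⟩
  · intro b hb hv
    rw [LM.del_E, Finset.mem_sdiff] at hb
    exact h.star b hb.1 hv

/-- contraction of an element outside the star which does not join two neighbours of `v`:
identify `g a` with `f a` (or `f a` with `g a` if `g a` is a neighbour of `v`) -/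
lemma Rt.con {n : ℕ} {K : BM α} {f g : α → Fin n} {v : Fin n} {y : Fin 3 → α}
    {p : Fin 3 → Fin n} (h : Rt K f g v y p) {a : α} (haE : a ∈ K.E) (ha : ∀ i, a ≠ y i)
    (hF : ¬ IsF f g p a) : ∃ (f' g' : α → Fin n) (p' : Fin 3 → Fin n),
      Rt (K.con {a}) f' g' v y p' := by
  have hfv : f a ≠ v := fun h1 => by
    obtain ⟨i, hi⟩ := h.star a haE (Or.inl h1)
    exact ha i hi
  have hgv : g a ≠ v := fun h1 => by
    obtain ⟨i, hi⟩ := h.star a haE (Or.inr h1)
    exact ha i hi
  let π : Fin n → Fin n := fun w => if w = g a then f a else w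
  have hπg : π (g a) = f a := by simp [π]
  have hπf : π (f a) = f a := by
    by_cases h1 : f a = g a <;> simp [π, h1]
  have hπv : π v = v := by simp [π, hgv.symm]
  have hπv' : ∀ w, π w = v → w = v := by
    intro w hw
    by_cases h1 : w = g a
    · rw [h1, hπg] at hw
      exact absurd hw hfv
    · simpa [π, h1] using hw
  refine ⟨fun b => π (f b), fun b => π (g b), fun i => π (p i), ?_, ?_, h.yinj, ?_, ?_, ?_, ?_⟩
  · refine LM_ext' rfl fun x => ?_
    rw [LM.mem_con, mem_cyc]
    constructor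
    · rintro ⟨hx, h0⟩
      obtain ⟨φ, hφ⟩ := (mem_iff h.rep).1 hx
      have h1 := h0 a (Finset.mem_singleton_self _)
      rw [hφ a, if_pos haE] at h1
      have h2 : φ (f a) = φ (g a) := CharTwo.add_eq_zero.1 h1
      have h3 : ∀ w, φ (π w) = φ w := by
        intro w
        by_cases h4 : w = g a
        · rw [h4, hπg, h2]
        · simp [π, h4]
      refine ⟨φ, fun b => ?_⟩
      by_cases hb : b = a
      · subst hb
        rw [h0 b (Finset.mem_singleton_self _)]
        simp
      · rw [hφ b, h3, h3]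
        simp [hb]
    · rintro ⟨φ, hφ⟩
      have h0 : ∀ b ∈ ({a} : Finset α), x b = 0 := by
        intro b hb
        rw [hφ b, LM.con_E, if_neg]
        intro h1
        exact (Finset.mem_sdiff.1 h1).2 hb
      refine ⟨(mem_iff h.rep).2 ⟨fun w => φ (π w), fun b => ?_⟩, h0⟩
      by_cases hb : b = a
      · subst hb
        rw [h0 b (Finset.mem_singleton_self _), if_pos haE]
        show 0 = φ (π (f b)) + φ (π (g b))
        rw [hπf, hπg]
        exact (add_self' _).symm
      · rw [hφ b]
        simp [hb]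
  · intro i
    rw [LM.con_E, Finset.mem_sdiff, Finset.mem_singleton]
    exact ⟨h.yE i, (ha i).symm⟩
  · intro i
    rcases h.yend i with ⟨h1, h2⟩ | ⟨h1, h2⟩
    · exact Or.inl ⟨by simp only [h1, hπv], by simp only [h2]⟩
    · exact Or.inr ⟨by simp only [h1], by simp only [h2, hπv]⟩
  · intro i j hij
    by_contra hne
    have hp : p i ≠ p j := fun h1 => hne (h.pinj h1)
    have hij' : π (p i) = π (p j) := hij
    by_cases h1 : p i = g a
    · by_cases h2 : p j = g a
      · exact hp (h1.trans h2.symm)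
      · have h3 : π (p j) = p j := by simp [π, h2]
        rw [h1, hπg, h3] at hij'
        exact hF ⟨j, i, fun h4 => hne h4.symm, hij', h1.symm⟩
    · have h3 : π (p i) = p i := by simp [π, h1]
      by_cases h2 : p j = g a
      · rw [h2, hπg, h3] at hij'
        exact hF ⟨i, j, hne, hij'.symm, h2.symm⟩
      · have h4 : π (p j) = p j := by simp [π, h2]
        rw [h3, h4] at hij'
        exact hp hij'
  · intro i hi
    exact h.pv i (hπv' _ hi)
  · intro b hb hv
    rw [LM.con_E, Finset.mem_sdiff] at hb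
    refine h.star b hb.1 ?_
    rcases hv with hv | hv
    · exact Or.inl (hπv' _ hv)
    · exact Or.inr (hπv' _ hv)

lemma Rooted33.of_del {K : BM α} {y : Fin 3 → α} {a : α} (ha : ∀ i, a ≠ y i) (haE : a ∈ K.E)
    (h : Rooted33 (K.del {a}) y) : Rooted33 K y := by
  obtain ⟨C, D, hC, hD, hCD, ι, hι, he, hy⟩ := h
  have haY : a ∉ Finset.univ.image y := by
    intro h1
    obtain ⟨i, _, hi⟩ := Finset.mem_image.1 h1
    exact ha i hi.symm
  have haC : a ∉ C := fun h1 => by
    have := hC h1
    simp at this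
  refine ⟨C, {a} ∪ D, ?_, ?_, ?_, ι, hι, ?_, hy⟩
  · intro b hb
    have := hC hb
    simp only [LM.del_E, Finset.mem_sdiff] at this ⊢
    exact ⟨this.1.1, this.2⟩
  · intro b hb
    rw [Finset.mem_union, Finset.mem_singleton] at hb
    rcases hb with rfl | hb
    · exact Finset.mem_sdiff.2 ⟨haE, haY⟩
    · have := hD hb
      simp only [LM.del_E, Finset.mem_sdiff] at this ⊢
      exact ⟨this.1.1, this.2⟩
  · rw [Finset.disjoint_union_right]
    exact ⟨Finset.disjoint_singleton_right.2 haC, hCD⟩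
  · rw [← he, ← LM.del_del, LM.con_del _ (Finset.disjoint_singleton_right.2 haC)]

lemma Rooted33.of_con {K : BM α} {y : Fin 3 → α} {a : α} (ha : ∀ i, a ≠ y i) (haE : a ∈ K.E)
    (h : Rooted33 (K.con {a}) y) : Rooted33 K y := by
  obtain ⟨C, D, hC, hD, hCD, ι, hι, he, hy⟩ := h
  have haY : a ∉ Finset.univ.image y := by
    intro h1
    obtain ⟨i, _, hi⟩ := Finset.mem_image.1 h1
    exact ha i hi.symm
  have haD : a ∉ D := fun h1 => by
    have := hD h1
    simp at this
  refine ⟨{a} ∪ C, D, ?_, ?_, ?_, ι, hι, ?_, hy⟩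
  · intro b hb
    rw [Finset.mem_union, Finset.mem_singleton] at hb
    rcases hb with rfl | hb
    · exact Finset.mem_sdiff.2 ⟨haE, haY⟩
    · have := hC hb
      simp only [LM.con_E, Finset.mem_sdiff] at this ⊢
      exact ⟨this.1.1, this.2⟩
  · intro b hb
    have := hD hb
    simp only [LM.con_E, Finset.mem_sdiff] at this ⊢
    exact ⟨this.1.1, this.2⟩
  · rw [Finset.disjoint_union_left]
    exact ⟨Finset.disjoint_singleton_left.2 haD, hCD⟩
  · rw [← he, LM.con_con]

/-- `y i`, `y j` are not parallel -/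
lemma Rt.not_parallel {n : ℕ} {K : BM α} {f g : α → Fin n} {v : Fin n} {y : Fin 3 → α}
    {p : Fin 3 → Fin n} (h : Rt K f g v y p) {i j : Fin 3} (hij : i ≠ j) :
    ¬ ∀ x ∈ K.D, x (y i) = x (y j) := by
  intro hall
  have h1 := hall _ (pot_mem h.rep (fun w => if w = p i then 1 else 0))
  have hval : ∀ l, ∀ φ : Fin n → ZMod 2, φ (f (y l)) + φ (g (y l)) = φ v + φ (p l) := by
    intro i φ
    rcases h.yend i with ⟨h1, h2⟩ | ⟨h1, h2⟩
    · rw [h1, h2]
    · rw [h1, h2, add_comm]
  have hv : v ≠ p i := (h.pv i).symm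
  have hp : p j ≠ p i := fun h2 => hij (h.pinj h2).symm
  simp only [h.yE, if_true] at h1
  rw [hval i (fun w => if w = p i then 1 else 0), hval j (fun w => if w = p i then 1 else 0)] at h1
  simp [hv, hp] at h1

/-- `y i`, `y j` are not in series (the third edge would be a coloop) -/
lemma Rt.not_series {n : ℕ} {K : BM α} {f g : α → Fin n} {v : Fin n} {y : Fin 3 → α}
    {p : Fin 3 → Fin n} (h : Rt K f g v y p) (hc : C3 K) (h4 : 4 ≤ K.E.card) {i j : Fin 3}
    (hij : i ≠ j) : (fun c => if c = y i ∨ c = y j then (1 : ZMod 2) else 0) ∉ K.D := by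
  intro hs
  have h3rd : ∀ i j : Fin 3, i ≠ j → ∃ k : Fin 3, k ≠ i ∧ k ≠ j ∧ ∀ l, l = i ∨ l = j ∨ l = k := by
    decide
  obtain ⟨k, hki, hkj, hk⟩ := h3rd i j hij
  have hstar := pot_mem h.rep (fun w => if w = v then 1 else 0)
  have hsum := K.D.add_mem hstar hs
  have hval : ∀ l, ∀ φ : Fin n → ZMod 2, φ (f (y l)) + φ (g (y l)) = φ v + φ (p l) := by
    intro i φ
    rcases h.yend i with ⟨h1, h2⟩ | ⟨h1, h2⟩
    · rw [h1, h2]
    · rw [h1, h2, add_comm]
  have hyv : ∀ l, (if f (y l) = v then (1 : ZMod 2) else 0) + (if g (y l) = v then 1 else 0) = 1 := by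
    intro l
    have := hval l (fun w => if w = v then 1 else 0)
    simp only at this
    rw [this]
    simp [h.pv l]
  have hcol : (fun c => if c = y k then (1 : ZMod 2) else 0) ∈ K.D := by
    convert hsum using 1
    funext c
    rw [Pi.add_apply]
    by_cases hcE : c ∈ K.E
    · by_cases hcv : f c = v ∨ g c = v
      · obtain ⟨l, rfl⟩ := h.star c hcE hcv
        rw [if_pos hcE, hyv l]
        rcases hk l with rfl | rfl | rfl
        · rw [if_neg (fun h1 => hki (h.yinj h1).symm), if_pos (Or.inl rfl)]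
          exact (add_self' _).symm
        · rw [if_neg (fun h1 => hkj (h.yinj h1).symm), if_pos (Or.inr rfl)]
          exact (add_self' _).symm
        · rw [if_pos rfl, if_neg, add_zero]
          rintro (h1 | h1)
          · exact hki (h.yinj h1)
          · exact hkj (h.yinj h1)
      · have hcy : ∀ l, c ≠ y l := by
          rintro l rfl
          apply hcv
          rcases h.yend l with h1 | h1
          · exact Or.inl h1.1
          · exact Or.inr h1.2
        rw [not_or] at hcv
        rw [if_neg (hcy k), if_pos hcE, if_neg hcv.1, if_neg hcv.2, if_neg, add_zero, add_zero]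
        rintro (h1 | h1)
        · exact hcy _ h1
        · exact hcy _ h1
    · have hcy : ∀ l, c ≠ y l := by
        rintro l rfl
        exact hcE (h.yE l)
      rw [if_neg (hcy k), if_neg hcE, if_neg, add_zero]
      rintro (h1 | h1)
      · exact hcy _ h1
      · exact hcy _ h1
  have h1 := lam_coloop hcol
  have h2 := hc.1 {y k} (Finset.singleton_subset_iff.2 (h.yE k)) ⟨_, Finset.mem_singleton_self _⟩
    ⟨y i, Finset.mem_sdiff.2 ⟨h.yE i, fun h3 => hki (h.yinj (Finset.mem_singleton.1 h3)).symm⟩⟩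
  omega

/-- an element in series with another one does not join two neighbours of `v`: otherwise
`{a, y i, y j}` is a triangle containing a series pair, hence a `2`-separating set with three
elements -/
lemma Rt.series_not_F {n : ℕ} {K : BM α} {f g : α → Fin n} {v : Fin n} {y : Fin 3 → α}
    {p : Fin 3 → Fin n} (h : Rt K f g v y p) (hc : C3 K) (h6 : 6 ≤ K.E.card) {a b : α}
    (ha : a ∈ K.E) (hb : b ∈ K.E) (hab : a ≠ b)
    (hs : (fun c => if c = a ∨ c = b then (1 : ZMod 2) else 0) ∈ K.D) (hay : ∀ i, a ≠ y i) :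
    ¬ IsF f g p a := by
  rintro ⟨i, j, hij, hfi, hgj⟩
  have hval : ∀ l, ∀ φ : Fin n → ZMod 2, φ (f (y l)) + φ (g (y l)) = φ v + φ (p l) := by
    intro i φ
    rcases h.yend i with ⟨h1, h2⟩ | ⟨h1, h2⟩
    · rw [h1, h2]
    · rw [h1, h2, add_comm]
  -- the triangle
  have htri : ∀ x ∈ K.D, x a = x (y i) + x (y j) := by
    intro x hx
    obtain ⟨φ, hφ⟩ := (mem_iff h.rep).1 hx
    rw [hφ a, hφ (y i), hφ (y j), if_pos ha, if_pos (h.yE i), if_pos (h.yE j), hval i φ, hval j φ,
      hfi, hgj]
    have := add_self' (φ v)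
    linear_combination -this
  have hyij : y i ≠ y j := fun h1 => hij (h.yinj h1)
  -- `b` is `y i` or `y j`
  have hbij : b = y i ∨ b = y j := by
    have h1 := htri _ hs
    by_contra hne
    rw [not_or] at hne
    simp [(hay i).symm, (hay j).symm, Ne.symm hne.1, Ne.symm hne.2] at h1
  set X : Finset α := {a, y i, y j} with hX
  have hXE : X ⊆ K.E := by
    intro c hc
    simp only [hX, Finset.mem_insert, Finset.mem_singleton] at hc
    rcases hc with rfl | rfl | rfl
    · exact ha
    · exact h.yE i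
    · exact h.yE j
  have hXc : X.card = 3 := by
    rw [hX, Finset.card_insert_of_notMem, Finset.card_pair hyij]
    simp only [Finset.mem_insert, Finset.mem_singleton]
    rintro (h1 | h1)
    · exact hay i h1
    · exact hay j h1
  have hXr : K.rk X ≤ 2 := by
    have h1 : K.InCl {y i, y j} a := by
      intro x hx h0
      rw [htri x hx, h0 (y i) (by simp), h0 (y j) (by simp), add_zero]
    rw [LM.inCl_iff_rk] at h1
    rw [hX, h1]
    exact (K.rk_le_card _).trans (Finset.card_pair hyij).le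
  have hr2 : K.rk (K.E \ X) + 1 ≤ K.rk K.E := by
    have h1 := K.finrank_con (K.E \ X)
    have h2 : 1 ≤ Module.finrank (ZMod 2) (K.con (K.E \ X)).D := by
      have hne : (K.con (K.E \ X)).D ≠ ⊥ := by
        intro hb0
        have h3 : (fun c => if c = a ∨ c = b then (1 : ZMod 2) else 0) ∈ (K.con (K.E \ X)).D := by
          rw [LM.mem_con]
          refine ⟨hs, fun c hc => ?_⟩
          rw [Finset.mem_sdiff] at hc
          rw [if_neg]
          rintro (h1 | h1)
          · exact hc.2 (by rw [h1, hX]; simp)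
          · refine hc.2 ?_
            rw [h1, hX]
            rcases hbij with h2 | h2 <;> simp [h2]
        rw [hb0, Submodule.mem_bot] at h3
        have h4 := congrFun h3 a
        simp at h4
      exact Submodule.one_le_finrank_iff.2 hne
    have h3 := K.rk_E
    omega
  have hl : K.lam X ≤ 1 := by
    have := K.lam_add X
    omega
  have hcard := Finset.card_sdiff_add_card_eq_card hXE
  rcases hc.2 X hXE hl with h1 | h1 <;> omega

end Pool.Agent.H87.Sey
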