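import Pool.Agent.H87.Sey.Parts2
import Pool.Agent.H87.Sey.Glue1

/-!
# Classes closed under minors and 2-sums (Seymour project, MP_dbe88a_co, job S87-15)
-/

set_option autoImplicit false

namespace Pool.Agent.H87.Sey

open Pool.Agent.H63.Sey

universe u

variable {α : Type u} [DecidableEq α]

/-- closed under minors and `2`-sums -/
def SumClosed (𝒳 : BM α → Prop) : Prop :=
  (∀ M N : BM α, N.IsMinor M → 𝒳 M → 𝒳 N) ∧
  ∀ (M P Q : BM α) (A : Finset α) (R S : Fin 1 → Finset α) (z z' : Fin 1 → α), A ⊆ M.E →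
    Guts M A R S → IsPart M P A z R → IsPart M Q (M.E \ A) z' S → 𝒳 P → 𝒳 Q → 𝒳 M

namespace SumClosedAux

open PartsAux

lemma half {M : BM α} {A : Finset α} (hA : A ⊆ M.E) {R S : Fin 1 → Finset α}
    (h : Guts M A R S) {x : α → ZMod 2} (hx : x ∈ M.dual.D) :
    ∃ c : ZMod 2, ∀ y ∈ M.D, ∑ a ∈ A, y a * x a = c * ∑ a ∈ R 0, y a := by
  have hf : ∀ (X : Finset α) (y : α → ZMod 2),
      ∑ a ∈ X.filter (fun a => x a = 1), y a = ∑ a ∈ X, y a * x a := by
    intro X y
    rw [Finset.sum_filter]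
    refine Finset.sum_congr rfl fun a _ => ?_
    rcases zmod_cases (x a) with h0 | h1
    · rw [h0, mul_zero, if_neg (by decide)]
    · rw [h1, mul_one, if_pos rfl]
  have heq : ∀ y ∈ M.D, ∑ a ∈ A.filter (fun a => x a = 1), y a =
      ∑ a ∈ (M.E \ A).filter (fun a => x a = 1), y a := by
    intro y hy
    apply zmod_eq_of_add
    rw [hf, hf, add_comm, Finset.sum_sdiff hA]
    exact ((LM.mem_dual M).1 hx).2 y hy
  rcases h.full _ (Finset.filter_subset _ _) _ (Finset.filter_subset _ _) heq with h1 | ⟨i, h1⟩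
  · refine ⟨0, fun y hy => ?_⟩
    rw [← hf, h1 y hy, zero_mul]
  · refine ⟨1, fun y hy => ?_⟩
    rw [← hf, h1 y hy, one_mul, Subsingleton.elim i 0]

lemma bil_ne {M : BM α} {A : Finset α} (hA : A ⊆ M.E) {R S : Fin 1 → Finset α}
    (h : Guts M A R S) : ∃ y ∈ M.D, ∃ x ∈ M.dual.D, ∑ a ∈ A, y a * x a ≠ 0 := by
  by_contra hcon
  push Not at hcon
  obtain ⟨y, hy, hy'⟩ := h.nz 0
  have hu : (fun a => if a ∈ A then y a else 0) ∈ M.D := by
    rw [← M.dual_dual, LM.mem_dual]
    constructor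
    · intro a ha
      have : a ∉ A := fun h' => ha (hA h')
      simp [this]
    · intro x hx
      refine Eq.trans ?_ (hcon y hy x hx)
      rw [LM.dual_E]
      rw [← Finset.sum_subset hA]
      · refine Finset.sum_congr rfl fun a ha => ?_
        rw [if_pos ha, mul_comm]
      · intro a _ ha
        rw [if_neg ha, mul_zero]
  have h1 := h.eq 0 _ hu
  apply hy'
  have h2 : ∑ a ∈ R 0, (fun a => if a ∈ A then y a else 0) a = ∑ a ∈ R 0, y a :=
    Finset.sum_congr rfl fun a ha => if_pos (h.R_sub 0 ha)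
  have h3 : ∑ a ∈ S 0, (fun a => if a ∈ A then y a else 0) a = 0 :=
    Finset.sum_eq_zero fun a ha => if_neg (Finset.mem_sdiff.1 (h.S_sub 0 ha)).2
  exact h2.symm.trans (h1.trans h3)

lemma bil {M : BM α} {A : Finset α} (hA : A ⊆ M.E) {R S R' S' : Fin 1 → Finset α}
    (h : Guts M A R S) (h' : Guts M.dual A R' S') {y x : α → ZMod 2} (hy : y ∈ M.D)
    (hx : x ∈ M.dual.D) :
    ∑ a ∈ A, y a * x a = (∑ a ∈ R 0, y a) * (∑ a ∈ R' 0, x a) := by
  have hh : ∀ y ∈ M.D, ∃ c : ZMod 2, ∀ x ∈ M.dual.D, ∑ a ∈ A, y a * x a =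
      c * ∑ a ∈ R' 0, x a := by
    intro y hy
    obtain ⟨c, hc⟩ := half (M := M.dual) hA h' (x := y) (by rw [M.dual_dual]; exact hy)
    refine ⟨c, fun x hx => ?_⟩
    rw [← hc x hx]
    exact Finset.sum_congr rfl fun a _ => mul_comm _ _
  obtain ⟨y0, hy0, x0, hx0, hne⟩ := bil_ne hA h
  obtain ⟨c0, hc0⟩ := half hA h hx0
  obtain ⟨c, hc⟩ := half hA h hx
  obtain ⟨d0, hd0⟩ := hh y0 hy0
  obtain ⟨d, hd⟩ := hh y hy
  have e1 := hc0 y0 hy0
  have e2 := hd0 x0 hx0
  have e3 := hc0 y hy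
  have e4 := hd x0 hx0
  have e5 := hc y hy
  have e6 := hd x hx
  rw [e6]
  rw [e1] at e2 hne
  rw [e3] at e4
  rw [e5] at e6
  have fin : ∀ c0 g0 d0 g0' g d c g' : ZMod 2, c0 * g0 ≠ 0 → c0 * g0 = d0 * g0' →
      c0 * g = d * g0' → c * g = d * g' → d * g' = g * g' := by decide
  exact fin _ _ _ _ _ _ _ _ hne e2 e4 e6

lemma extend1 {M P : BM α} {A : Finset α} {R : Fin 1 → Finset α} {z : Fin 1 → α}
    (hP : IsPart M P A z R) {y : α → ZMod 2} (hy : y ∈ M.D) :
    ∃ w ∈ P.D, (∀ a ∈ A, w a = y a) ∧ w (z 0) = ∑ a ∈ R 0, y a := by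
  have hzA : z 0 ∉ A := hP.z_nmem 0
  have h1 : (fun a => if a ∈ A then y a else if a = z 0 then ∑ b ∈ R 0, y b else 0) ∈ P.D := by
    rw [hP.mem]
    refine ⟨fun a ha => ?_, y, hy, fun a ha => by simp [ha], fun i => ?_⟩
    · rw [hP.E_eq, Finset.mem_union, not_or] at ha
      have h4 : a ≠ z 0 := fun h5 => ha.2 (Finset.mem_image.2 ⟨0, Finset.mem_univ _, h5.symm⟩)
      simp [ha.1, h4]
    · have : i = 0 := Subsingleton.elim _ _
      subst this
      simp [hzA]
  exact ⟨_, h1, fun a ha => by simp [ha], by simp [hzA]⟩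

end SumClosedAux

open SumClosedAux PartsAux

/-- the dual of the part is the part of the dual: a cycle `X` of `M` has `∑ X ∩ A` zero or the
guts point -/
theorem isPart1_dual {M P : BM α} {A : Finset α} (hA : A ⊆ M.E) {R S R' S' : Fin 1 → Finset α}
    {z : Fin 1 → α} (h : Guts M A R S) (h' : Guts M.dual A R' S') (hP : IsPart M P A z R) :
    IsPart M.dual P.dual A z R' := by
  have hzA : z 0 ∉ A := hP.z_nmem 0
  have hPE : P.E = insert (z 0) A := by
    rw [hP.E_eq]
    ext a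
    simp only [Finset.mem_union, Finset.mem_image, Finset.mem_univ, true_and,
      Finset.mem_insert]
    constructor
    · rintro (h1 | ⟨j, hj⟩)
      · exact Or.inr h1
      · left
        rw [← hj, Subsingleton.elim j 0]
    · rintro (h1 | h1)
      · exact Or.inr ⟨0, h1.symm⟩
      · exact Or.inl h1
  have hsum : ∀ f : α → ZMod 2, ∑ a ∈ P.E, f a = f (z 0) + ∑ a ∈ A, f a := fun f => by
    rw [hPE, Finset.sum_insert hzA]
  refine ⟨hP.inj, hP.z_nmem, hP.E_eq, fun w => ?_⟩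
  rw [LM.mem_dual]
  refine and_congr_right fun hw0 => ?_
  constructor
  · intro hw
    have h0 : ∀ y ∈ M.D, (∑ a ∈ R 0, y a) * w (z 0) + ∑ a ∈ A, y a * w a = 0 := by
      intro y hy
      obtain ⟨x, hx, hx1, hx2⟩ := extend1 hP hy
      have := hw x hx
      rw [hsum, hx2] at this
      rw [← this]
      congr 1
      exact Finset.sum_congr rfl fun a ha => by rw [hx1 a ha]
    have hSA : ∀ a ∈ S 0, a ∈ M.E ∧ a ∉ A := fun a ha => Finset.mem_sdiff.1 (h.S_sub 0 ha)
    have hx : (fun a => if a ∈ A then w a else if a ∈ S 0 then w (z 0) else 0) ∈ M.dual.D := by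
      rw [LM.mem_dual]
      constructor
      · intro a ha
        have h1 : a ∉ A := fun h1 => ha (hA h1)
        have h2 : a ∉ S 0 := fun h2 => ha (hSA a h2).1
        simp [h1, h2]
      · intro y hy
        refine Eq.trans ?_ (h0 y hy)
        rw [← Finset.sum_sdiff hA]
        congr 1
        · rw [h.eq 0 y hy, Finset.sum_mul]
          rw [← Finset.sum_subset (h.S_sub 0)]
          · refine Finset.sum_congr rfl fun a ha => ?_
            rw [if_neg (hSA a ha).2, if_pos ha]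
          · intro a ha ha'
            rw [if_neg (Finset.mem_sdiff.1 ha).2, if_neg ha', mul_zero]
        · exact Finset.sum_congr rfl fun a ha => by rw [if_pos ha]
    refine ⟨_, hx, fun a ha => (if_pos ha).symm, fun i => ?_⟩
    rw [Subsingleton.elim i 0]
    obtain ⟨y, hy, hy'⟩ := h.nz 0
    have h1 := bil hA h h' hy hx
    have h2 := h0 y hy
    have h3 : ∑ a ∈ A, y a * (fun a => if a ∈ A then w a else if a ∈ S 0 then w (z 0) else 0) a =
        ∑ a ∈ A, y a * w a := Finset.sum_congr rfl fun a ha => by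
      simp only [ha, if_true]
    rw [h3] at h1
    rw [h1] at h2
    have fin : ∀ g v g' : ZMod 2, g ≠ 0 → g * v + g * g' = 0 → v = g' := by decide
    exact fin _ _ _ hy' h2
  · rintro ⟨x, hx, hx1, hx2⟩ v hv
    obtain ⟨-, y, hy, hy1, hy2⟩ := (hP.mem v).1 hv
    rw [hsum, hx2 0, hy2 0]
    have h1 := bil hA h h' hy hx
    have h2 : ∑ a ∈ A, v a * w a = ∑ a ∈ A, y a * x a :=
      Finset.sum_congr rfl fun a ha => by rw [hx1 a ha, hy1 a ha]
    rw [h2, h1]
    exact zmod_add_self _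

theorem sumClosed_graphic : SumClosed (fun M : BM α => Graphic M) :=
  ⟨fun _ _ hN hM => graphic_minor hM hN,
    fun _ _ _ _ _ _ _ _ hA h hP hQ h1 h2 => glue1 hA h hP hQ h1 h2⟩

/-- use `exists_guts1` for `M.dual` (`lam_dual`), `isPart1_dual` for `A` and for `M.E \ A`
(`Guts.symm`) -/
theorem sumClosed_cographic : SumClosed (fun M : BM α => Cographic M) := by
  refine ⟨fun _ _ hN hM => cographic_minor hM hN, ?_⟩
  intro M P Q A R S z z' hA h hP hQ h1 h2
  obtain ⟨R', S', h'⟩ := exists_guts1 M.dual (A := A) hA (by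
    rw [M.lam_dual A hA]
    exact h.lam1 hA)
  have hP' := isPart1_dual hA h h' hP
  have hQ' := isPart1_dual (A := M.E \ A) Finset.sdiff_subset (h.symm hA)
    (Guts.symm (M := M.dual) hA h') hQ
  exact glue1 (M := M.dual) hA h' hP' hQ' h1 h2

end Pool.Agent.H87.Sey
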