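import Pool.Agent.H87.Sey.Glue1
import Pool.Agent.H87.Sey.Glue3
import Pool.Agent.H87.Sey.Stars
import Pool.Agent.H87.Sey.PartsMinor

/-!
# Tutte's theorem, part A: minimal nongraphic matroids are internally 4-connected
(Seymour project, MP_dbe88a_co, job S87-30)
-/

set_option autoImplicit false

namespace Pool.Agent.H87.Sey

open Pool.Agent.H63.Sey

universe u

variable {α : Type u} [DecidableEq α]

/-- minimal nongraphic regular matroids -/
structure Min0 (M : BM α) : Prop where
  reg : Regular M
  ng : ¬ Graphic M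
  del : ∀ x ∈ M.E, Graphic (M.del {x})
  con : ∀ x ∈ M.E, Graphic (M.con {x})

/-- a minor on a proper subset is a minor of `M.del {x}` or of `M.con {x}` -/
lemma Min0.minor {M : BM α} (h : Min0 M) {N : BM α} (hN : N.IsMinor M) (hE : N.E ≠ M.E) :
    Graphic N := by
  have hsub : N.E ⊆ M.E := hN.E_subset
  obtain ⟨x, hxM, hxN⟩ : ∃ x ∈ M.E, x ∉ N.E := by
    by_contra hcon
    push Not at hcon
    exact hE (Finset.Subset.antisymm hsub hcon)
  obtain ⟨C, D, hCD, rfl⟩ := hN
  by_cases hxC : x ∈ C
  · refine graphic_minor (h.con x hxM) ⟨C \ {x}, D, ?_, ?_⟩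
    · exact Finset.disjoint_of_subset_left Finset.sdiff_subset hCD
    · rw [M.con_con]
      congr 2
      ext a
      simp only [Finset.mem_union, Finset.mem_singleton, Finset.mem_sdiff]
      by_cases ha : a = x
      · simp [ha, hxC]
      · simp [ha]
  · have hxD : x ∈ D := by
      by_contra hcon
      exact hxN (by
        show x ∈ (M.E \ C) \ D
        rw [Finset.mem_sdiff, Finset.mem_sdiff]
        exact ⟨⟨hxM, hxC⟩, hcon⟩)
    refine graphic_minor (h.del x hxM) ⟨C, D \ {x}, ?_, ?_⟩
    · exact Finset.disjoint_of_subset_right Finset.sdiff_subset hCD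
    · rw [← M.con_del (Finset.disjoint_singleton_right.2 hxC), LM.del_del]
      congr 1
      ext a
      simp only [Finset.mem_union, Finset.mem_singleton, Finset.mem_sdiff]
      by_cases ha : a = x
      · simp [ha, hxD]
      · simp [ha]

lemma Min0.no_loop {M : BM α} (h : Min0 M) {a : α} (ha : a ∈ M.E) : ∃ x ∈ M.D, x a ≠ 0 := by
  by_contra hcon
  push Not at hcon
  exact h.ng (graphic_of_loop hcon (h.del a ha))

lemma Min0.no_parallel {M : BM α} (h : Min0 M) {a b : α} (ha : a ∈ M.E) (hb : b ∈ M.E)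
    (hab : a ≠ b) : ∃ x ∈ M.D, x a ≠ x b := by
  by_contra hcon
  push Not at hcon
  exact h.ng (graphic_of_parallel hab hb hcon (h.del a ha))

/-- a cocycle with one element is a coloop, with two elements a series pair
(`graphic_of_coloop`, `graphic_of_series`) -/
lemma Min0.no_coloop {M : BM α} (h : Min0 M) {a : α} (ha : a ∈ M.E) :
    (fun c => if c = a then (1 : ZMod 2) else 0) ∉ M.D := fun hcon =>
  h.ng (graphic_of_coloop ha hcon (h.con a ha))

lemma Min0.no_series {M : BM α} (h : Min0 M) {a b : α} (ha : a ∈ M.E) (hb : b ∈ M.E)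
    (hab : a ≠ b) : (fun c => if c = a ∨ c = b then (1 : ZMod 2) else 0) ∉ M.D := fun hcon =>
  h.ng (graphic_of_series hab ha hb hcon (h.con a ha))

/-- a part which is a minor is graphic if the other side is larger than the number of guts points -/
lemma Min0.part_graphic {M : BM α} (h : Min0 M) {k : ℕ} {P : BM α} {A : Finset α} (hA : A ⊆ M.E)
    {z : Fin k → α} {R : Fin k → Finset α} (hP : IsPart M P A z R) (hm : P.IsMinor M)
    (hc : k < (M.E \ A).card) : Graphic P := by
  refine h.minor hm fun hE => ?_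
  have h1 : P.E.card ≤ A.card + k := by
    rw [hP.E_eq]
    refine (Finset.card_union_le _ _).trans ?_
    have : (Finset.univ.image z).card ≤ k := Finset.card_image_le.trans (by simp)
    omega
  have h2 : (M.E \ A).card + A.card = M.E.card := Finset.card_sdiff_add_card_eq_card hA
  rw [hE] at h1
  omega

/-- `lam X = 0`: `glue0` (both restrictions are proper minors). `lam X = 1`, both sides with at
least two elements: `exists_guts1`, `parts1` for both sides, `glue1`; the parts have ground sets
`X ∪ {z}`, proper subsets of `M.E`. `lam X = 2`, both sides with at least four elements: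
`exists_guts3`, `parts3` for both sides (`Guts.symm`), `glue3`. -/
theorem Min0.i4c {M : BM α} (h : Min0 M) : M.I4c := by
  have hcc : ∀ X ⊆ M.E, M.E \ (M.E \ X) = X := fun X hX => Finset.sdiff_sdiff_eq_self hX
  have c1 : ∀ X ⊆ M.E, X.Nonempty → (M.E \ X).Nonempty → 1 ≤ M.lam X := by
    intro X hX h1 h2
    by_contra hcon
    have h0 : M.lam X = 0 := by omega
    refine h.ng (glue0 hX h0 (h.minor (M.isMinor_del X) ?_) (h.minor (M.isMinor_del _) ?_))
    · intro hE
      obtain ⟨x, hx⟩ := h1
      have h3 : x ∈ M.E \ X := by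
        have : x ∈ M.E := hX hx
        rw [← hE] at this
        exact this
      exact (Finset.mem_sdiff.1 h3).2 hx
    · intro hE
      obtain ⟨x, hx⟩ := h2
      have h3 : x ∈ M.E \ (M.E \ X) := by
        have : x ∈ M.E := (Finset.mem_sdiff.1 hx).1
        rw [← hE] at this
        exact this
      exact (Finset.mem_sdiff.1 h3).2 hx
  have c2 : ∀ X ⊆ M.E, 2 ≤ X.card → 2 ≤ (M.E \ X).card → 2 ≤ M.lam X := by
    intro X hX h1 h2
    have h3 := c1 X hX (Finset.card_pos.1 (by omega)) (Finset.card_pos.1 (by omega))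
    by_contra hcon
    have hl : M.lam X = 1 := by omega
    obtain ⟨R, S, hG⟩ := exists_guts1 M hX hl
    have hG' := hG.symm hX
    obtain ⟨P, z, hP, hPm, -⟩ := parts1 hX hG
    obtain ⟨Q, z', hQ, hQm, -⟩ := parts1 Finset.sdiff_subset hG'
    refine h.ng (glue1 hX hG hP hQ (h.part_graphic hX hP hPm (by omega))
      (h.part_graphic Finset.sdiff_subset hQ hQm ?_))
    rw [hcc X hX]
    omega
  have c3 : M.Conn3 := ⟨c1, c2⟩
  refine ⟨c3, ?_⟩
  intro X hX h1 h2
  have h3 := c2 X hX (by omega) (by omega)
  by_contra hcon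
  have hl : M.lam X = 2 := by omega
  obtain ⟨R, S, hG, hT⟩ := exists_guts3 M hX hl
  have hG' := hG.symm hX
  have hT' : Tri M S := by
    intro y hy
    rw [← hG.eq 0 y hy, ← hG.eq 1 y hy, ← hG.eq 2 y hy]
    exact hT y hy
  obtain ⟨P, z, hP, hPm, -⟩ := parts3 c3 hX hG hT h2
  obtain ⟨Q, z', hQ, hQm, -⟩ := parts3 c3 Finset.sdiff_subset hG' hT' (by
    rw [hcc X hX]
    exact h1)
  refine h.ng (glue3 hX hG hT hP hQ (h.part_graphic hX hP hPm (by omega))
    (h.part_graphic Finset.sdiff_subset hQ hQm ?_))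
  rw [hcc X hX]
  omega

end Pool.Agent.H87.Sey
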