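import Pool.Agent.H87.Sey.TutA
import Pool.Agent.H63.Sey.Conc

/-!
# Tutte's theorem, part B: matroids of small rank (Seymour project, MP_dbe88a_co, job S87-31)
-/

set_option autoImplicit false

namespace Pool.Agent.H87.Sey

open Pool.Agent.H63.Sey

universe u

variable {α : Type u} [DecidableEq α]

private def tbP : Fin 7 → Fin 4 → Fin 3 → ZMod 2 :=
  ![![![1, 0, 0], ![1, 1, 0], ![1, 0, 1], ![1, 1, 1]],
    ![![0, 1, 0], ![1, 1, 0], ![0, 1, 1], ![1, 1, 1]],
    ![![1, 0, 0], ![0, 1, 0], ![1, 0, 1], ![0, 1, 1]],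
    ![![0, 0, 1], ![1, 0, 1], ![0, 1, 1], ![1, 1, 1]],
    ![![1, 0, 0], ![0, 0, 1], ![1, 1, 0], ![0, 1, 1]],
    ![![0, 1, 0], ![0, 0, 1], ![1, 1, 0], ![1, 0, 1]],
    ![![1, 0, 0], ![0, 1, 0], ![0, 0, 1], ![1, 1, 1]]]

set_option maxRecDepth 100000 in
private theorem tbP_star : ∀ i j : Fin 7, i ≠ j → ∃ p q : Fin 4, p ≠ q ∧ ∀ k,
    ∑ l, tbP i k l * fano j l = if k = p ∨ k = q then 1 else 0 := by decide

set_option maxRecDepth 100000 in
private theorem tbP_span : ∀ i : Fin 7, ∀ a b c : ZMod 2, ∃ p q r s : ZMod 2, ∀ l,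
    ![a, b, c] l = p * tbP i 0 l + q * tbP i 1 l + r * tbP i 2 l + s * tbP i 3 l := by decide

set_option maxRecDepth 100000 in
private theorem tb_fano_ex : ∀ a b c : ZMod 2, (a = 0 ∧ b = 0 ∧ c = 0) ∨
    ∃ j : Fin 7, ![a, b, c] = fano j := by decide

set_option maxRecDepth 100000 in
private theorem tb_fano_inj : Function.Injective fano := by decide

/-- three spanning cocycles -/
private lemma tb_coord {M : BM α} (h3 : Module.finrank (ZMod 2) M.D ≤ 3) :
    ∃ y : Fin 3 → α → ZMod 2, (∀ l, y l ∈ M.D) ∧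
      ∀ x ∈ M.D, ∃ c : Fin 3 → ZMod 2, x = ∑ l, c l • y l := by
  set d := Module.finrank (ZMod 2) M.D with hd
  let b := Module.finBasisOfFinrankEq (ZMod 2) M.D hd.symm
  refine ⟨fun l => if h : (l : ℕ) < d then (b ⟨l, h⟩ : M.D).1 else 0, ?_, ?_⟩
  · intro l
    dsimp only
    split_ifs
    · exact Subtype.property _
    · exact M.D.zero_mem
  · intro x hx
    refine ⟨fun l => if h : (l : ℕ) < d then b.repr ⟨x, hx⟩ ⟨l, h⟩ else 0, ?_⟩
    have h1 : x = ∑ i : Fin d, b.repr ⟨x, hx⟩ i • (b i : M.D).1 := by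
      have h2 := b.sum_repr ⟨x, hx⟩
      have h4 := congrArg (Submodule.subtype M.D) h2
      rw [map_sum] at h4
      simpa using h4.symm
    have h5 : ∑ l : Fin 3, (if h : (l : ℕ) < d then b.repr ⟨x, hx⟩ ⟨l, h⟩ else 0) •
        (if h : (l : ℕ) < d then (b ⟨l, h⟩ : M.D).1 else (0 : α → ZMod 2)) =
        ∑ i : Fin d, b.repr ⟨x, hx⟩ i • (b i : M.D).1 := by
      have h6 : ∀ i : Fin d, b.repr ⟨x, hx⟩ i • (b i : M.D).1 =
          (fun l : Fin 3 => (if h : (l : ℕ) < d then b.repr ⟨x, hx⟩ ⟨l, h⟩ else 0) •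
            (if h : (l : ℕ) < d then (b ⟨l, h⟩ : M.D).1 else (0 : α → ZMod 2)))
            (Fin.castLEEmb h3 i) := by
        intro i
        simp
      rw [Finset.sum_congr rfl fun i _ => h6 i, ← Finset.sum_map Finset.univ (Fin.castLEEmb h3)
        (fun l : Fin 3 => (if h : (l : ℕ) < d then b.repr ⟨x, hx⟩ ⟨l, h⟩ else 0) •
            (if h : (l : ℕ) < d then (b ⟨l, h⟩ : M.D).1 else (0 : α → ZMod 2)))]
      symm
      apply Finset.sum_subset (Finset.subset_univ _)
      intro l _ hl
      have h7 : ¬ (l : ℕ) < d := by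
        intro h7
        apply hl
        rw [Finset.mem_map]
        exact ⟨⟨l, h7⟩, Finset.mem_univ _, by ext; simp⟩
      rw [dif_neg h7, zero_smul]
    exact h1.trans h5.symm

private lemma tb_index {M : BM α} (hl : ∀ a ∈ M.E, ∃ x ∈ M.D, x a ≠ 0)
    (hp : ∀ a ∈ M.E, ∀ b ∈ M.E, a ≠ b → ∃ x ∈ M.D, x a ≠ x b)
    {y : Fin 3 → α → ZMod 2} (hspan : ∀ x ∈ M.D, ∃ c : Fin 3 → ZMod 2, x = ∑ l, c l • y l) :
    ∃ j : α → Fin 7, (∀ a ∈ M.E, ∀ l, y l a = fano (j a) l) ∧ Set.InjOn j (M.E : Set α) := by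
  have h1 : ∀ a, ∃ j : Fin 7, a ∈ M.E → ∀ l, y l a = fano j l := by
    intro a
    by_cases ha : a ∈ M.E
    · rcases tb_fano_ex (y 0 a) (y 1 a) (y 2 a) with ⟨h0, h1, h2⟩ | ⟨j, hj⟩
      · exfalso
        obtain ⟨x, hx, hxa⟩ := hl a ha
        obtain ⟨c, rfl⟩ := hspan x hx
        apply hxa
        rw [Fin.sum_univ_three]
        simp [h0, h1, h2]
      · refine ⟨j, fun _ l => ?_⟩
        rw [← hj]
        fin_cases l <;> rfl
    · exact ⟨0, fun h => absurd h ha⟩
  choose j hj using h1
  refine ⟨j, hj, ?_⟩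
  intro a ha b hb hab
  by_contra hne
  obtain ⟨x, hx, hxab⟩ := hp a ha b hb hne
  obtain ⟨c, rfl⟩ := hspan x hx
  apply hxab
  simp only [Finset.sum_apply, Pi.smul_apply]
  apply Finset.sum_congr rfl
  intro l _
  rw [hj a ha l, hj b hb l, hab]

/-- a simple regular matroid of rank at most three has at most six elements: the elements are
different nonzero functionals on `M.D`; if there are seven, the matroid is `conc fano ι`
(`fano_not_regular`) -/
theorem card_le_six {M : BM α} (hreg : Regular M) (hl : ∀ a ∈ M.E, ∃ x ∈ M.D, x a ≠ 0)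
    (hp : ∀ a ∈ M.E, ∀ b ∈ M.E, a ≠ b → ∃ x ∈ M.D, x a ≠ x b)
    (h3 : Module.finrank (ZMod 2) M.D ≤ 3) : M.E.card ≤ 6 := by
  obtain ⟨y, hy, hspan⟩ := tb_coord h3
  obtain ⟨j, hj, hinj⟩ := tb_index hl hp hspan
  by_contra hcon
  push Not at hcon
  have h1 : M.E.image j = Finset.univ := by
    apply Finset.eq_univ_of_card
    rw [Finset.card_image_of_injOn hinj, Fintype.card_fin]
    have h2 := Finset.card_le_univ (M.E.image j)
    rw [Finset.card_image_of_injOn hinj, Fintype.card_fin] at h2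
    omega
  have h2 : ∀ i : Fin 7, ∃ a ∈ M.E, j a = i := by
    intro i
    have : i ∈ M.E.image j := by rw [h1]; exact Finset.mem_univ i
    exact Finset.mem_image.1 this
  choose ι hι hji using h2
  have hιinj : Function.Injective ι := by
    intro i k h
    rw [← hji i, ← hji k, h]
  have hE : M.E = Finset.univ.image ι := by
    ext a
    rw [Finset.mem_image]
    constructor
    · intro ha
      refine ⟨j a, Finset.mem_univ _, ?_⟩
      exact hinj (hι _) ha (hji _)
    · rintro ⟨i, _, rfl⟩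
      exact hι i
  have hM : M = conc fano ι := by
    refine LM.D_ext _ hE fun x => ?_
    rw [mem_conc hιinj]
    constructor
    · intro hx
      refine ⟨fun a ha => M.supp x hx a (by rw [hE]; exact ha), ?_⟩
      obtain ⟨c, rfl⟩ := hspan x hx
      refine ⟨c, fun i => ?_⟩
      simp only [Finset.sum_apply, Pi.smul_apply, smul_eq_mul]
      apply Finset.sum_congr rfl
      intro l _
      rw [hj _ (hι i) l, hji]
    · rintro ⟨h0, φ, hφ⟩
      have : x = ∑ l, φ l • y l := by
        ext a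
        by_cases ha : a ∈ M.E
        · obtain ⟨i, _, rfl⟩ := Finset.mem_image.1 (hE ▸ ha)
          rw [hφ i]
          simp only [Finset.sum_apply, Pi.smul_apply, smul_eq_mul]
          apply Finset.sum_congr rfl
          intro l _
          rw [hj _ (hι i) l, hji]
        · rw [h0 a (by rw [← hE]; exact ha)]
          simp only [Finset.sum_apply, Pi.smul_apply, smul_eq_mul]
          symm
          apply Finset.sum_eq_zero
          intro l _
          rw [M.supp _ (hy l) a ha, mul_zero]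
      rw [this]
      exact Submodule.sum_mem _ fun l _ => Submodule.smul_mem _ _ (hy l)
  rw [hM] at hreg
  exact fano_not_regular hιinj hreg

/-- Rank three: by `card_le_six` there is a nonzero functional `m` on `M.D` which is not an element
of `M.E`; the four cocycles `y` with `m y = 1` are a star family (`graphic_of_stars`): for
`a ∈ M.E` the functionals `a` and `m` are independent, so two of them have `y a = 1`; they span.
Rank two: the three nonzero cocycles; rank one: twice the nonzero cocycle; rank zero: `M.E = ∅`. -/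
theorem graphic_of_finrank_le_three {M : BM α} (hreg : Regular M)
    (hl : ∀ a ∈ M.E, ∃ x ∈ M.D, x a ≠ 0)
    (hp : ∀ a ∈ M.E, ∀ b ∈ M.E, a ≠ b → ∃ x ∈ M.D, x a ≠ x b)
    (h3 : Module.finrank (ZMod 2) M.D ≤ 3) : Graphic M := by
  obtain ⟨y, hy, hspan⟩ := tb_coord h3
  obtain ⟨j, hj, hinj⟩ := tb_index hl hp hspan
  have h6 := card_le_six hreg hl hp h3
  obtain ⟨i, hi⟩ : ∃ i : Fin 7, ∀ a ∈ M.E, j a ≠ i := by
    by_contra hcon
    push Not at hcon
    have h1 : M.E.image j = Finset.univ := by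
      ext i
      simp only [Finset.mem_univ, iff_true, Finset.mem_image]
      exact hcon i
    have h2 := congrArg Finset.card h1
    rw [Finset.card_image_of_injOn hinj, Finset.card_univ, Fintype.card_fin] at h2
    omega
  refine graphic_of_stars (n := 4) (fun k => ∑ l, tbP i k l • y l) ?_ ?_ ?_
  · intro k
    exact Submodule.sum_mem _ fun l _ => Submodule.smul_mem _ _ (hy l)
  · intro x hx
    obtain ⟨c, rfl⟩ := hspan x hx
    obtain ⟨p, q, r, s, h⟩ := tbP_span i (c 0) (c 1) (c 2)
    have hc : ∀ l, c l = p * tbP i 0 l + q * tbP i 1 l + r * tbP i 2 l + s * tbP i 3 l := by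
      intro l
      rw [← h l]
      fin_cases l <;> rfl
    have h4 : ∑ l, c l • y l = p • (∑ l, tbP i 0 l • y l) + q • (∑ l, tbP i 1 l • y l) +
        r • (∑ l, tbP i 2 l • y l) + s • (∑ l, tbP i 3 l • y l) := by
      rw [Finset.smul_sum, Finset.smul_sum, Finset.smul_sum, Finset.smul_sum,
        ← Finset.sum_add_distrib, ← Finset.sum_add_distrib, ← Finset.sum_add_distrib]
      apply Finset.sum_congr rfl
      intro l _
      rw [hc l]
      module
    rw [h4]
    have hm : ∀ k : Fin 4, (∑ l, tbP i k l • y l) ∈ Submodule.span (ZMod 2)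
        (Set.range fun k : Fin 4 => ∑ l, tbP i k l • y l) :=
      fun k => Submodule.subset_span ⟨k, rfl⟩
    exact Submodule.add_mem _ (Submodule.add_mem _ (Submodule.add_mem _
      (Submodule.smul_mem _ _ (hm 0)) (Submodule.smul_mem _ _ (hm 1)))
      (Submodule.smul_mem _ _ (hm 2))) (Submodule.smul_mem _ _ (hm 3))
  · intro a ha
    obtain ⟨p, q, hpq, h⟩ := tbP_star i (j a) (hi a ha).symm
    refine ⟨p, q, hpq, fun k => ?_⟩
    rw [← h k, Finset.sum_apply]
    apply Finset.sum_congr rfl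
    intro l _
    rw [Pi.smul_apply, smul_eq_mul, hj a ha l]

private lemma tb_card_lt {M : BM α} (hl : ∀ a ∈ M.E, ∃ x ∈ M.D, x a ≠ 0)
    (hp : ∀ a ∈ M.E, ∀ b ∈ M.E, a ≠ b → ∃ x ∈ M.D, x a ≠ x b) :
    M.E.card < 2 ^ Module.finrank (ZMod 2) M.D := by
  classical
  have hfin : Finite (Module.Dual (ZMod 2) M.D) := Module.finite_of_finite (ZMod 2)
  have : Fintype (Module.Dual (ZMod 2) M.D) := Fintype.ofFinite _
  have h1 : Fintype.card (Module.Dual (ZMod 2) M.D) = 2 ^ Module.finrank (ZMod 2) M.D := by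
    rw [Module.card_eq_pow_finrank (K := ZMod 2), ZMod.card, Subspace.dual_finrank_eq]
  rw [← h1]
  have h2 : M.E.image M.evec ⊂ Finset.univ := by
    rw [Finset.ssubset_univ_iff]
    intro h
    have h0 : (0 : Module.Dual (ZMod 2) M.D) ∈ M.E.image M.evec := by
      rw [h]; exact Finset.mem_univ _
    obtain ⟨a, ha, h0⟩ := Finset.mem_image.1 h0
    obtain ⟨x, hx, hxa⟩ := hl a ha
    apply hxa
    have := LinearMap.congr_fun h0 ⟨x, hx⟩
    exact this
  have h3 : (M.E.image M.evec).card = M.E.card := by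
    apply Finset.card_image_of_injOn
    intro a ha b hb hab
    by_contra hne
    obtain ⟨x, hx, hxab⟩ := hp a ha b hb hne
    apply hxab
    exact LinearMap.congr_fun hab ⟨x, hx⟩
  rw [← h3, ← Finset.card_univ]
  exact Finset.card_lt_card h2

/-- `M` and `M.dual` are regular and simple (`Min0.no_series`, ...). If `dim M.D ≤ 3`, `M` is
graphic. If `dim M.dual.D ≤ 3` then `|M.E| ≤ 6` by `card_le_six`, so either `dim M.D ≤ 3` or
`dim M.dual.D ≤ 2`; in the latter case `|M.E| ≤ 3` and again `dim M.D ≤ 3`. So both dimensions are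
at least four. -/
theorem Min0.card {M : BM α} (h : Min0 M) : 8 ≤ M.E.card := by
  have hsum := M.finrank_dual
  have h1 : 4 ≤ Module.finrank (ZMod 2) M.D := by
    by_contra hcon
    exact h.ng (graphic_of_finrank_le_three h.reg (fun a ha => h.no_loop ha)
      (fun a ha b hb hab => h.no_parallel ha hb hab) (by omega))
  have hl : ∀ a ∈ M.dual.E, ∃ x ∈ M.dual.D, x a ≠ 0 := by
    intro a ha
    by_contra hcon
    push Not at hcon
    apply h.no_coloop (a := a) ha
    rw [← M.dual_dual, LM.mem_dual]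
    refine ⟨fun b hb => if_neg ?_, fun x hx => ?_⟩
    · rintro rfl
      exact hb ha
    · apply Finset.sum_eq_zero
      intro b _
      by_cases hba : b = a
      · rw [hba, hcon x hx, zero_mul]
      · rw [if_neg hba, mul_zero]
  have hp : ∀ a ∈ M.dual.E, ∀ b ∈ M.dual.E, a ≠ b → ∃ x ∈ M.dual.D, x a ≠ x b := by
    intro a ha b hb hab
    by_contra hcon
    push Not at hcon
    apply h.no_series (a := a) (b := b) ha hb hab
    rw [← M.dual_dual, LM.mem_dual]
    refine ⟨fun c hc => if_neg ?_, fun x hx => ?_⟩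
    · rintro (rfl | rfl)
      · exact hc ha
      · exact hc hb
    · have e1 : ∀ c ∈ M.dual.E, x c * (if c = a ∨ c = b then (1 : ZMod 2) else 0) =
          (if c = a then x a else 0) + (if c = b then x b else 0) := by
        intro c _
        by_cases h1 : c = a
        · subst h1; simp [hab]
        · by_cases h2 : c = b
          · subst h2; simp [h1]
          · simp [h1, h2]
      rw [Finset.sum_congr rfl e1, Finset.sum_add_distrib, Finset.sum_ite_eq', Finset.sum_ite_eq',
        if_pos ha, if_pos hb, hcon x hx]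
      exact CharTwo.add_self_eq_zero _
  have h2 : 4 ≤ Module.finrank (ZMod 2) M.dual.D := by
    by_contra hcon
    have h3 : Module.finrank (ZMod 2) M.dual.D ≤ 3 := by omega
    have h4 := card_le_six h.reg.dual hl hp h3
    have h5 : M.dual.E.card = M.E.card := rfl
    have h6 : Module.finrank (ZMod 2) M.dual.D ≤ 2 := by omega
    have h7 := tb_card_lt hl hp
    have h8 : 2 ^ Module.finrank (ZMod 2) M.dual.D ≤ 2 ^ 2 :=
      Nat.pow_le_pow_right (by norm_num) h6
    omega
  omega

end Pool.Agent.H87.Sey
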