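import Pool.Agent.H53.Sey.Gr
import Pool.Agent.H63.Sey.Conc

/-!
# Tutte's theorem, part C1: recognising `M*(K5)` (Seymour project, MP_dbe88a_co, job S87-32a)
-/

set_option autoImplicit false

namespace Pool.Agent.H87.Sey.TutC1

open Pool.Agent.H63.Sey Pool.Agent.H53.Sey

universe u v

variable {α : Type u} [DecidableEq α] {V : Type v} [DecidableEq V]

/-- a graft with numbered vertices and elements as a concrete matroid -/
lemma conc_of_gRep {M : BM α} {e : α} {G : Gr α V} {T : Finset V} (h : GRep M e G T) {n k : ℕ}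
    (u : Fin n → V) (hu : Function.Injective u) (ι : Fin k → α) (hι : Function.Injective ι)
    (hE : M.E = Finset.univ.image ι) (w : Fin k → Fin n → ZMod 2)
    (hw : ∀ i, ∀ φ : V → ZMod 2, G.vec M.E e T φ (ι i) = ∑ j, φ (u j) * w i j) :
    M = conc w ι := by
  classical
  refine LM.D_ext _ hE fun x => ?_
  rw [h.mem, mem_conc hι]
  constructor
  · rintro ⟨φ, rfl⟩
    refine ⟨fun a ha => ?_, fun j => φ (u j), fun i => hw i φ⟩
    rw [← hE] at ha
    have hae : a ≠ e := fun h2 => ha (h2 ▸ h.he)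
    rw [Gr.vec, if_neg hae, if_neg ha]
  · rintro ⟨h0, ψ, hψ⟩
    obtain ⟨φ, hφ⟩ : ∃ φ : V → ZMod 2, ∀ j, φ (u j) = ψ j := by
      refine ⟨fun v => if hv : ∃ j, u j = v then ψ hv.choose else 0, fun j => ?_⟩
      have hv : ∃ j', u j' = u j := ⟨j, rfl⟩
      simp only
      rw [dif_pos hv, hu hv.choose_spec]
    refine ⟨φ, ?_⟩
    funext a
    by_cases ha : a ∈ M.E
    · rw [hE] at ha
      obtain ⟨i, -, rfl⟩ := Finset.mem_image.1 ha
      rw [hψ, hw]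
      exact Finset.sum_congr rfl fun j _ => by rw [hφ]
    · have hae : a ≠ e := fun h2 => ha (h2 ▸ h.he)
      rw [h0 a (by rwa [← hE]), Gr.vec, if_neg hae, if_neg ha]

omit [DecidableEq V] in
lemma vec_edge {G : Gr α V} {E : Finset α} {e a : α} {T : Finset V} {φ : V → ZMod 2} {x y : V}
    (h : G.Jn a x y) (hae : a ≠ e) (ha : a ∈ E) : G.vec E e T φ a = φ x + φ y := by
  rw [Gr.vec, if_neg hae, if_pos ha]
  rcases h with ⟨h1, h2⟩ | ⟨h1, h2⟩
  · rw [h1, h2]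
  · rw [h1, h2, add_comm]

/-- vertices `w₁, w₂, w₃, p, q, r, o`, elements numbered by the edges of `K5`, `T' = {r}` -/
def mA : Fin 10 → Fin 7 → ZMod 2 :=
  ![![1, 1, 1, 0, 0, 1, 0], ![1, 0, 0, 1, 0, 0, 0], ![0, 1, 0, 0, 0, 1, 0],
    ![0, 0, 1, 1, 0, 0, 0], ![1, 0, 0, 0, 1, 0, 0], ![0, 1, 0, 0, 1, 0, 0],
    ![0, 0, 1, 0, 0, 1, 0], ![0, 0, 0, 0, 1, 0, 1], ![0, 0, 0, 1, 0, 0, 1],
    ![0, 0, 0, 0, 0, 1, 1]]

/-- the same for `T' = {p, q, r}` -/
def mB : Fin 10 → Fin 7 → ZMod 2 :=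
  ![![1, 1, 1, 1, 1, 1, 0], ![1, 0, 0, 1, 0, 0, 0], ![0, 1, 0, 0, 1, 0, 0],
    ![0, 0, 1, 0, 0, 1, 0], ![1, 0, 0, 0, 1, 0, 0], ![0, 1, 0, 0, 0, 1, 0],
    ![0, 0, 1, 1, 0, 0, 0], ![0, 0, 0, 0, 1, 0, 1], ![0, 0, 0, 1, 0, 0, 1],
    ![0, 0, 0, 0, 0, 1, 1]]

lemma dualA {ι : Fin 10 → α} (hι : Function.Injective ι) : (conc k5 ι).dual = conc mA ι := by
  refine conc_dual hι (by decide) ?_
  intro y hy
  have h0 := hy 0
  have h1 := hy 1
  have h2 := hy 2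
  have h3 := hy 3
  simp only [k5, Fin.sum_univ_succ] at h0 h1 h2 h3
  have key : ∀ y0 y1 y2 y3 y4 y5 y6 y7 y8 y9 : ZMod 2, y0 + (y1 + (y2 + y3)) = 0 →
      y0 + (y4 + (y5 + y6)) = 0 → y1 + (y4 + (y7 + y8)) = 0 → y2 + (y5 + (y7 + y9)) = 0 →
      y0 = (y1 + y8) + (y2 + y9) + (y3 + y8) + y9 ∧ y1 = (y1 + y8) + y8 ∧
      y2 = (y2 + y9) + y9 ∧ y3 = (y3 + y8) + y8 ∧ y4 = (y1 + y8) + y7 ∧
      y5 = (y2 + y9) + y7 ∧ y6 = (y3 + y8) + y9 := by decide
  obtain ⟨e0, e1, e2, e3, e4, e5, e6⟩ := key (y 0) (y 1) (y 2) (y 3) (y 4) (y 5) (y 6) (y 7)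
    (y 8) (y 9) (by simpa [add_assoc] using h0) (by simpa [add_assoc] using h1)
    (by simpa [add_assoc] using h2) (by simpa [add_assoc] using h3)
  refine ⟨![y 1 + y 8, y 2 + y 9, y 3 + y 8, y 8, y 7, y 9, 0], ?_⟩
  intro i
  fin_cases i
  · exact e0.trans (by simp [mA, Fin.sum_univ_succ, add_assoc])
  · exact e1.trans (by simp [mA, Fin.sum_univ_succ, add_assoc])
  · exact e2.trans (by simp [mA, Fin.sum_univ_succ, add_assoc])
  · exact e3.trans (by simp [mA, Fin.sum_univ_succ, add_assoc])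
  · exact e4.trans (by simp [mA, Fin.sum_univ_succ, add_assoc])
  · exact e5.trans (by simp [mA, Fin.sum_univ_succ, add_assoc])
  · exact e6.trans (by simp [mA, Fin.sum_univ_succ, add_assoc])
  · simp [mA, Fin.sum_univ_succ]
  · simp [mA, Fin.sum_univ_succ]
  · simp [mA, Fin.sum_univ_succ]

lemma dualB {ι : Fin 10 → α} (hι : Function.Injective ι) : (conc k5 ι).dual = conc mB ι := by
  refine conc_dual hι (by decide) ?_
  intro y hy
  have h0 := hy 0
  have h1 := hy 1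
  have h2 := hy 2
  have h3 := hy 3
  simp only [k5, Fin.sum_univ_succ] at h0 h1 h2 h3
  have key : ∀ y0 y1 y2 y3 y4 y5 y6 y7 y8 y9 : ZMod 2, y0 + (y1 + (y2 + y3)) = 0 →
      y0 + (y4 + (y5 + y6)) = 0 → y1 + (y4 + (y7 + y8)) = 0 → y2 + (y5 + (y7 + y9)) = 0 →
      y0 = (y1 + y8) + (y2 + y7) + (y3 + y9) + y8 + y7 + y9 ∧ y1 = (y1 + y8) + y8 ∧
      y2 = (y2 + y7) + y7 ∧ y3 = (y3 + y9) + y9 ∧ y4 = (y1 + y8) + y7 ∧
      y5 = (y2 + y7) + y9 ∧ y6 = (y3 + y9) + y8 := by decide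
  obtain ⟨e0, e1, e2, e3, e4, e5, e6⟩ := key (y 0) (y 1) (y 2) (y 3) (y 4) (y 5) (y 6) (y 7)
    (y 8) (y 9) (by simpa [add_assoc] using h0) (by simpa [add_assoc] using h1)
    (by simpa [add_assoc] using h2) (by simpa [add_assoc] using h3)
  refine ⟨![y 1 + y 8, y 2 + y 7, y 3 + y 9, y 8, y 7, y 9, 0], ?_⟩
  intro i
  fin_cases i
  · exact e0.trans (by simp [mB, Fin.sum_univ_succ, add_assoc])
  · exact e1.trans (by simp [mB, Fin.sum_univ_succ, add_assoc])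
  · exact e2.trans (by simp [mB, Fin.sum_univ_succ, add_assoc])
  · exact e3.trans (by simp [mB, Fin.sum_univ_succ, add_assoc])
  · exact e4.trans (by simp [mB, Fin.sum_univ_succ, add_assoc])
  · exact e5.trans (by simp [mB, Fin.sum_univ_succ, add_assoc])
  · exact e6.trans (by simp [mB, Fin.sum_univ_succ, add_assoc])
  · simp [mB, Fin.sum_univ_succ]
  · simp [mB, Fin.sum_univ_succ]
  · simp [mB, Fin.sum_univ_succ]

lemma inj_of_card {β : Type*} [DecidableEq β] {n : ℕ} {s : Finset β} {ι : Fin n → β}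
    (hs : s = Finset.univ.image ι) (hc : s.card = n) : Function.Injective ι := by
  have h1 : (Finset.univ.image ι).card = (Finset.univ : Finset (Fin n)).card := by
    rw [← hs, hc, Finset.card_univ, Fintype.card_fin]
  exact fun a b hab => Finset.card_image_iff.1 h1 (Finset.mem_coe.2 (Finset.mem_univ a))
    (Finset.mem_coe.2 (Finset.mem_univ b)) hab

lemma setE {β : Type*} [DecidableEq β] (x0 x1 x2 x3 x4 x5 x6 x7 x8 x9 : β) :
    ({x0, x1, x2, x3, x4, x5, x6, x7, x8, x9} : Finset β) =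
      Finset.univ.image ![x0, x1, x2, x3, x4, x5, x6, x7, x8, x9] := by
  ext a
  simp only [Finset.mem_insert, Finset.mem_singleton, Finset.mem_image, Finset.mem_univ,
    true_and, Fin.exists_fin_succ, Matrix.cons_val_zero, Matrix.cons_val_succ,
    IsEmpty.exists_iff, or_false]
  tauto

lemma setU {β : Type*} [DecidableEq β] (x0 x1 x2 x3 x4 x5 x6 : β) :
    ({x0, x1, x2, x3, x4, x5, x6} : Finset β) =
      Finset.univ.image ![x0, x1, x2, x3, x4, x5, x6] := by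
  ext a
  simp only [Finset.mem_insert, Finset.mem_singleton, Finset.mem_image, Finset.mem_univ,
    true_and, Fin.exists_fin_succ, Matrix.cons_val_zero, Matrix.cons_val_succ,
    IsEmpty.exists_iff, or_false]
  tauto


/-- the case `T' = {r}` -/
lemma caseA {M : BM α} {e : α} {G : Gr α V} {T : Finset V} (h : GRep M e G T)
    {w₁ w₂ w₃ p q r o : V} {a₁ b₁ a₂ b₂ a₃ b₃ c d g : α}
    (hU : G.U = {w₁, w₂, w₃, p, q, r, o}) (hcard : G.U.card = 7)
    (hE : M.E = {e, a₁, b₁, a₂, b₂, a₃, b₃, c, d, g}) (hE10 : M.E.card = 10)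
    (ja₁ : G.Jn a₁ w₁ p) (jb₁ : G.Jn b₁ w₁ q) (ja₂ : G.Jn a₂ w₂ q) (jb₂ : G.Jn b₂ w₂ r)
    (ja₃ : G.Jn a₃ w₃ r) (jb₃ : G.Jn b₃ w₃ p) (jc : G.Jn c o p) (jd : G.Jn d o q)
    (jg : G.Jn g o r) (hT : T = {w₁, w₂, w₃, r}) :
    ∃ ι : Fin 10 → α, Function.Injective ι ∧ M = (conc k5 ι).dual := by
  have hU' : G.U = Finset.univ.image ![w₁, w₂, w₃, p, q, r, o] := by rw [hU, setU]
  have hu := inj_of_card hU' hcard
  have hE' : M.E = Finset.univ.image ![e, a₁, b₂, b₃, b₁, a₂, a₃, d, c, g] := by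
    rw [hE, ← setE]
    ext a
    simp only [Finset.mem_insert, Finset.mem_singleton]
    tauto
  have hι := inj_of_card hE' hE10
  refine ⟨![e, a₁, b₂, b₃, b₁, a₂, a₃, d, c, g], hι, ?_⟩
  rw [dualA hι]
  have hmem : ∀ i, ![e, a₁, b₂, b₃, b₁, a₂, a₃, d, c, g] i ∈ M.E := fun i =>
    hE' ▸ Finset.mem_image.2 ⟨i, Finset.mem_univ _, rfl⟩
  have hne : ∀ i, i ≠ 0 → ![e, a₁, b₂, b₃, b₁, a₂, a₃, d, c, g] i ≠ e :=
    fun i hi h1 => hi (hι (h1.trans (by rfl : e = ![e, a₁, b₂, b₃, b₁, a₂, a₃, d, c, g] 0)))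
  have d01 : w₁ ≠ w₂ := fun h => absurd (@hu 0 1 h) (by decide)
  have d02 : w₁ ≠ w₃ := fun h => absurd (@hu 0 2 h) (by decide)
  have d12 : w₂ ≠ w₃ := fun h => absurd (@hu 1 2 h) (by decide)
  have d05 : w₁ ≠ r := fun h => absurd (@hu 0 5 h) (by decide)
  have d15 : w₂ ≠ r := fun h => absurd (@hu 1 5 h) (by decide)
  have d25 : w₃ ≠ r := fun h => absurd (@hu 2 5 h) (by decide)
  refine conc_of_gRep h _ hu _ hι hE' mA ?_
  intro i φ
  fin_cases i
  · show G.vec M.E e T φ e = _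
    rw [Gr.vec, if_pos rfl, hT, Finset.sum_insert (by simp [d01, d02, d05]),
      Finset.sum_insert (by simp [d12, d15]), Finset.sum_insert (by simp [d25]),
      Finset.sum_singleton]
    simp [mA, Fin.sum_univ_succ, add_assoc]
  · exact (vec_edge ja₁ (hne 1 (by decide)) (hmem 1)).trans (by simp [mA, Fin.sum_univ_succ])
  · exact (vec_edge jb₂ (hne 2 (by decide)) (hmem 2)).trans (by simp [mA, Fin.sum_univ_succ])
  · exact (vec_edge jb₃ (hne 3 (by decide)) (hmem 3)).trans (by simp [mA, Fin.sum_univ_succ])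
  · exact (vec_edge jb₁ (hne 4 (by decide)) (hmem 4)).trans (by simp [mA, Fin.sum_univ_succ])
  · exact (vec_edge ja₂ (hne 5 (by decide)) (hmem 5)).trans (by simp [mA, Fin.sum_univ_succ])
  · exact (vec_edge ja₃ (hne 6 (by decide)) (hmem 6)).trans (by simp [mA, Fin.sum_univ_succ])
  · exact (vec_edge jd (hne 7 (by decide)) (hmem 7)).trans
      (by simp [mA, Fin.sum_univ_succ, add_comm])
  · exact (vec_edge jc (hne 8 (by decide)) (hmem 8)).trans
      (by simp [mA, Fin.sum_univ_succ, add_comm])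
  · exact (vec_edge jg (hne 9 (by decide)) (hmem 9)).trans
      (by simp [mA, Fin.sum_univ_succ, add_comm])

/-- the case `T' = {p, q, r}` -/
lemma caseB {M : BM α} {e : α} {G : Gr α V} {T : Finset V} (h : GRep M e G T)
    {w₁ w₂ w₃ p q r o : V} {a₁ b₁ a₂ b₂ a₃ b₃ c d g : α}
    (hU : G.U = {w₁, w₂, w₃, p, q, r, o}) (hcard : G.U.card = 7)
    (hE : M.E = {e, a₁, b₁, a₂, b₂, a₃, b₃, c, d, g}) (hE10 : M.E.card = 10)
    (ja₁ : G.Jn a₁ w₁ p) (jb₁ : G.Jn b₁ w₁ q) (ja₂ : G.Jn a₂ w₂ q) (jb₂ : G.Jn b₂ w₂ r)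
    (ja₃ : G.Jn a₃ w₃ r) (jb₃ : G.Jn b₃ w₃ p) (jc : G.Jn c o p) (jd : G.Jn d o q)
    (jg : G.Jn g o r) (hT : T = {w₁, w₂, w₃, p, q, r}) :
    ∃ ι : Fin 10 → α, Function.Injective ι ∧ M = (conc k5 ι).dual := by
  have hU' : G.U = Finset.univ.image ![w₁, w₂, w₃, p, q, r, o] := by rw [hU, setU]
  have hu := inj_of_card hU' hcard
  have hE' : M.E = Finset.univ.image ![e, a₁, a₂, a₃, b₁, b₂, b₃, d, c, g] := by
    rw [hE, ← setE]
    ext a
    simp only [Finset.mem_insert, Finset.mem_singleton]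
    tauto
  have hι := inj_of_card hE' hE10
  refine ⟨![e, a₁, a₂, a₃, b₁, b₂, b₃, d, c, g], hι, ?_⟩
  rw [dualB hι]
  have hmem : ∀ i, ![e, a₁, a₂, a₃, b₁, b₂, b₃, d, c, g] i ∈ M.E := fun i =>
    hE' ▸ Finset.mem_image.2 ⟨i, Finset.mem_univ _, rfl⟩
  have hne : ∀ i, i ≠ 0 → ![e, a₁, a₂, a₃, b₁, b₂, b₃, d, c, g] i ≠ e :=
    fun i hi h1 => hi (hι (h1.trans (by rfl : e = ![e, a₁, a₂, a₃, b₁, b₂, b₃, d, c, g] 0)))
  have hd : ∀ i j : Fin 7, i ≠ j → ![w₁, w₂, w₃, p, q, r, o] i ≠ ![w₁, w₂, w₃, p, q, r, o] j :=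
    fun i j hij h => hij (hu h)
  have d01 : w₁ ≠ w₂ := hd 0 1 (by decide)
  have d02 : w₁ ≠ w₃ := hd 0 2 (by decide)
  have d03 : w₁ ≠ p := hd 0 3 (by decide)
  have d04 : w₁ ≠ q := hd 0 4 (by decide)
  have d05 : w₁ ≠ r := hd 0 5 (by decide)
  have d12 : w₂ ≠ w₃ := hd 1 2 (by decide)
  have d13 : w₂ ≠ p := hd 1 3 (by decide)
  have d14 : w₂ ≠ q := hd 1 4 (by decide)
  have d15 : w₂ ≠ r := hd 1 5 (by decide)
  have d23 : w₃ ≠ p := hd 2 3 (by decide)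
  have d24 : w₃ ≠ q := hd 2 4 (by decide)
  have d25 : w₃ ≠ r := hd 2 5 (by decide)
  have d34 : p ≠ q := hd 3 4 (by decide)
  have d35 : p ≠ r := hd 3 5 (by decide)
  have d45 : q ≠ r := hd 4 5 (by decide)
  refine conc_of_gRep h _ hu _ hι hE' mB ?_
  intro i φ
  fin_cases i
  · show G.vec M.E e T φ e = _
    rw [Gr.vec, if_pos rfl, hT, Finset.sum_insert (by simp [d01, d02, d03, d04, d05]),
      Finset.sum_insert (by simp [d12, d13, d14, d15]),
      Finset.sum_insert (by simp [d23, d24, d25]), Finset.sum_insert (by simp [d34, d35]),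
      Finset.sum_insert (by simp [d45]), Finset.sum_singleton]
    simp [mB, Fin.sum_univ_succ, add_assoc]
  · exact (vec_edge ja₁ (hne 1 (by decide)) (hmem 1)).trans (by simp [mB, Fin.sum_univ_succ])
  · exact (vec_edge ja₂ (hne 2 (by decide)) (hmem 2)).trans (by simp [mB, Fin.sum_univ_succ])
  · exact (vec_edge ja₃ (hne 3 (by decide)) (hmem 3)).trans (by simp [mB, Fin.sum_univ_succ])
  · exact (vec_edge jb₁ (hne 4 (by decide)) (hmem 4)).trans (by simp [mB, Fin.sum_univ_succ])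
  · exact (vec_edge jb₂ (hne 5 (by decide)) (hmem 5)).trans (by simp [mB, Fin.sum_univ_succ])
  · exact (vec_edge jb₃ (hne 6 (by decide)) (hmem 6)).trans (by simp [mB, Fin.sum_univ_succ])
  · exact (vec_edge jd (hne 7 (by decide)) (hmem 7)).trans
      (by simp [mB, Fin.sum_univ_succ, add_comm])
  · exact (vec_edge jc (hne 8 (by decide)) (hmem 8)).trans
      (by simp [mB, Fin.sum_univ_succ, add_comm])
  · exact (vec_edge jg (hne 9 (by decide)) (hmem 9)).trans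
      (by simp [mB, Fin.sum_univ_succ, add_comm])

/-- odd subsets of a set with three elements -/
lemma odd_sub {β : Type*} [DecidableEq β] {p q r : β} {T' : Finset β} (hT' : T' ⊆ {p, q, r})
    (hodd : Odd T'.card) (hpq : p ≠ q) (hpr : p ≠ r) (hqr : q ≠ r) :
    T' = {p} ∨ T' = {q} ∨ T' = {r} ∨ T' = {p, q, r} := by
  have h3 : ({p, q, r} : Finset β).card = 3 := by
    rw [Finset.card_insert_of_notMem (by simp [hpq, hpr]),
      Finset.card_insert_of_notMem (by simp [hqr]), Finset.card_singleton]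
  have hle := Finset.card_le_card hT'
  rw [h3] at hle
  have hc : T'.card = 1 ∨ T'.card = 3 := by
    obtain ⟨k, hk⟩ := hodd
    omega
  rcases hc with hc | hc
  · obtain ⟨a, ha⟩ := Finset.card_eq_one.1 hc
    have : a ∈ ({p, q, r} : Finset β) := hT' (by rw [ha]; simp)
    simp only [Finset.mem_insert, Finset.mem_singleton] at this
    rcases this with rfl | rfl | rfl
    · exact Or.inl ha
    · exact Or.inr (Or.inl ha)
    · exact Or.inr (Or.inr (Or.inl ha))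
  · exact Or.inr (Or.inr (Or.inr (Finset.eq_of_subset_of_card_le hT' (by rw [h3, hc]))))

/-- Recognising `M*(K5)`: the graph of `M \ e` consists of three vertices `w₁, w₂, w₃` of degree
two with neighbours `p q`, `q r`, `r p` and of a vertex `o` joined to `p, q, r`;
`T = {w₁, w₂, w₃} ∪ T'` with `T' ⊆ {p, q, r}` of odd size. -/
theorem k5s_of_graph {M : BM α} {e : α} {G : Gr α V} {T : Finset V} (h : GRep M e G T)
    {w₁ w₂ w₃ p q r o : V} {a₁ b₁ a₂ b₂ a₃ b₃ c d g : α}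
    (hU : G.U = {w₁, w₂, w₃, p, q, r, o}) (hcard : G.U.card = 7)
    (hE : M.E = {e, a₁, b₁, a₂, b₂, a₃, b₃, c, d, g}) (hE10 : M.E.card = 10)
    (ja₁ : G.Jn a₁ w₁ p) (jb₁ : G.Jn b₁ w₁ q) (ja₂ : G.Jn a₂ w₂ q) (jb₂ : G.Jn b₂ w₂ r)
    (ja₃ : G.Jn a₃ w₃ r) (jb₃ : G.Jn b₃ w₃ p) (jc : G.Jn c o p) (jd : G.Jn d o q)
    (jg : G.Jn g o r) {T' : Finset V} (hT : T = {w₁, w₂, w₃} ∪ T') (hT' : T' ⊆ {p, q, r})
    (hodd : Odd T'.card) : ∃ ι : Fin 10 → α, Function.Injective ι ∧ M = (conc k5 ι).dual := by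
  have hU' : G.U = Finset.univ.image ![w₁, w₂, w₃, p, q, r, o] := by rw [hU, setU]
  have hu := inj_of_card hU' hcard
  have hd : ∀ i j : Fin 7, i ≠ j → ![w₁, w₂, w₃, p, q, r, o] i ≠ ![w₁, w₂, w₃, p, q, r, o] j :=
    fun i j hij h => hij (hu h)
  have d34 : p ≠ q := hd 3 4 (by decide)
  have d35 : p ≠ r := hd 3 5 (by decide)
  have d45 : q ≠ r := hd 4 5 (by decide)
  rcases odd_sub hT' hodd d34 d35 d45 with rfl | rfl | rfl | rfl
  · -- `T' = {p}`
    refine caseA h (w₁ := w₂) (w₂ := w₃) (w₃ := w₁) (p := q) (q := r) (r := p) (o := o)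
      (a₁ := a₂) (b₁ := b₂) (a₂ := a₃) (b₂ := b₃) (a₃ := a₁) (b₃ := b₁) (c := d) (d := g) (g := c)
      ?_ hcard ?_ hE10 ja₂ jb₂ ja₃ jb₃ ja₁ jb₁ jd jg jc ?_
    · rw [hU]; ext a; simp only [Finset.mem_insert, Finset.mem_singleton]; tauto
    · rw [hE]; ext a; simp only [Finset.mem_insert, Finset.mem_singleton]; tauto
    · rw [hT]; ext a
      simp only [Finset.mem_union, Finset.mem_insert, Finset.mem_singleton]; tauto
  · -- `T' = {q}`
    refine caseA h (w₁ := w₃) (w₂ := w₁) (w₃ := w₂) (p := r) (q := p) (r := q) (o := o)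
      (a₁ := a₃) (b₁ := b₃) (a₂ := a₁) (b₂ := b₁) (a₃ := a₂) (b₃ := b₂) (c := g) (d := c) (g := d)
      ?_ hcard ?_ hE10 ja₃ jb₃ ja₁ jb₁ ja₂ jb₂ jg jc jd ?_
    · rw [hU]; ext a; simp only [Finset.mem_insert, Finset.mem_singleton]; tauto
    · rw [hE]; ext a; simp only [Finset.mem_insert, Finset.mem_singleton]; tauto
    · rw [hT]; ext a
      simp only [Finset.mem_union, Finset.mem_insert, Finset.mem_singleton]; tauto
  · exact caseA h hU hcard hE hE10 ja₁ jb₁ ja₂ jb₂ ja₃ jb₃ jc jd jg (by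
      rw [hT]; ext a
      simp only [Finset.mem_union, Finset.mem_insert, Finset.mem_singleton]; tauto)
  · exact caseB h hU hcard hE hE10 ja₁ jb₁ ja₂ jb₂ ja₃ jb₃ jc jd jg (by
      rw [hT]; ext a
      simp only [Finset.mem_union, Finset.mem_insert, Finset.mem_singleton]; tauto)

end Pool.Agent.H87.Sey.TutC1
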