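import Pool.Agent.H87.Sey.TutB
import Pool.Agent.H87.Sey.Bixby
import Pool.Agent.H53.Sey.Coset
import Pool.Agent.H53.Sey.FinCoset
import Pool.Agent.H53.Sey.S1b1
import Pool.Agent.H87.Sey.TutC1

/-!
# Tutte's theorem, part C: vertices of degree two (Seymour project, MP_dbe88a_co, job S87-32)
-/

set_option autoImplicit false

namespace Pool.Agent.H87.Sey

open Pool.Agent.H63.Sey Pool.Agent.H53.Sey
open scoped symmDiff

universe u v

variable {α : Type u} [DecidableEq α] {V : Type v} [DecidableEq V]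

/-- Recognising `M*(K5)`: the graph of `M \ e` consists of three vertices `w₁, w₂, w₃` of degree
two with neighbours `p q`, `q r`, `r p` and of a vertex `o` joined to `p, q, r`;
`T = {w₁, w₂, w₃} ∪ T'` with `T' ⊆ {p, q, r}` of odd size. After exchanging `a₃, b₃`
(`GRep.swap_two` at `w₃`) in the case `T' = {p, q, r}` and by the cyclic symmetry one may assume
`T' = {r}`. In `K5` with vertices `x, y, z₁, z₂, z₃` (`x = 0, y = 1, z_i = 1 + i`): `e = xy`,
`w₁p = xz₁`, `w₁q = yz₁`, `w₂q = yz₂`, `w₂r = xz₂`, `w₃r = yz₃`, `w₃p = xz₃`, `op = z₁z₃`,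
`oq = z₁z₂`, `or = z₂z₃`; the cocycles of `M` (spanned by the cocycles at the vertices: `w_i`:
triangles `x y z_i`; `p`: triangle `x z₁ z₃`; `q`: triangle `y z₁ z₂`; `r`: the 4-cycle
`x z₂ z₃ y`; `o`: triangle `z₁ z₂ z₃`) are the cycles of `K5`. -/
theorem k5s_of_graph {M : BM α} {e : α} {G : Gr α V} {T : Finset V} (h : GRep M e G T)
    {w₁ w₂ w₃ p q r o : V} {a₁ b₁ a₂ b₂ a₃ b₃ c d g : α}
    (hU : G.U = {w₁, w₂, w₃, p, q, r, o}) (hcard : G.U.card = 7)
    (hE : M.E = {e, a₁, b₁, a₂, b₂, a₃, b₃, c, d, g}) (hE10 : M.E.card = 10)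
    (ja₁ : G.Jn a₁ w₁ p) (jb₁ : G.Jn b₁ w₁ q) (ja₂ : G.Jn a₂ w₂ q) (jb₂ : G.Jn b₂ w₂ r)
    (ja₃ : G.Jn a₃ w₃ r) (jb₃ : G.Jn b₃ w₃ p) (jc : G.Jn c o p) (jd : G.Jn d o q)
    (jg : G.Jn g o r) {T' : Finset V} (hT : T = {w₁, w₂, w₃} ∪ T') (hT' : T' ⊆ {p, q, r})
    (hodd : Odd T'.card) : ∃ ι : Fin 10 → α, Function.Injective ι ∧ M = (conc k5 ι).dual :=
  TutC1.k5s_of_graph h hU hcard hE hE10 ja₁ jb₁ ja₂ jb₂ ja₃ jb₃ jc jd jg hT hT' hodd

namespace TutCAux

open scoped symmDiff

/-! ### odd images -/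

/-- the set of points with an odd number of preimages in `S` -/
def oi (S : Finset V) (ν : V → V) : Finset V :=
  (S.image ν).filter fun x => Odd (S.filter fun t => ν t = x).card

lemma mem_oi {S : Finset V} {ν : V → V} {x : V} :
    x ∈ oi S ν ↔ Odd (S.filter fun t => ν t = x).card := by
  unfold oi
  rw [Finset.mem_filter]
  refine ⟨fun h => h.2, fun h => ⟨?_, h⟩⟩
  have h1 : (S.filter fun t => ν t = x).Nonempty := by
    rw [← Finset.card_pos]
    exact h.pos
  obtain ⟨t, ht⟩ := h1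
  rw [Finset.mem_filter] at ht
  exact Finset.mem_image.2 ⟨t, ht.1, ht.2⟩

lemma oi_erase {S : Finset V} {ν : V → V} {a : V} (ha : a ∈ S) :
    oi S ν = oi (S.erase a) ν ∆ {ν a} := by
  ext x
  rw [Finset.mem_symmDiff, mem_oi, mem_oi, Finset.mem_singleton]
  by_cases hx : ν a = x
  · have e : (S.filter fun t => ν t = x) = insert a ((S.erase a).filter fun t => ν t = x) := by
      ext t
      simp only [Finset.mem_filter, Finset.mem_insert, Finset.mem_erase]
      constructor
      · rintro ⟨h1, h2⟩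
        by_cases h3 : t = a
        · exact Or.inl h3
        · exact Or.inr ⟨⟨h3, h1⟩, h2⟩
      · rintro (h1 | ⟨⟨_, h2⟩, h3⟩)
        · rw [h1]
          exact ⟨ha, hx⟩
        · exact ⟨h2, h3⟩
    have hn : a ∉ (S.erase a).filter fun t => ν t = x := by
      intro h
      exact (Finset.mem_erase.1 (Finset.mem_filter.1 h).1).1 rfl
    rw [e, Finset.card_insert_of_notMem hn, Nat.odd_add_one]
    constructor
    · intro h
      exact Or.inr ⟨hx.symm, h⟩
    · rintro (⟨_, h⟩ | ⟨_, h⟩)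
      · exact absurd hx.symm h
      · exact h
  · have e : (S.filter fun t => ν t = x) = (S.erase a).filter fun t => ν t = x := by
      ext t
      simp only [Finset.mem_filter, Finset.mem_erase]
      constructor
      · rintro ⟨h1, h2⟩
        refine ⟨⟨?_, h1⟩, h2⟩
        rintro rfl
        exact hx h2
      · rintro ⟨⟨_, h1⟩, h2⟩
        exact ⟨h1, h2⟩
    rw [e]
    constructor
    · intro h
      exact Or.inl ⟨h, fun h' => hx h'.symm⟩
    · rintro (⟨h, _⟩ | ⟨h, _⟩)
      · exact h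
      · exact absurd h.symm hx

lemma oi_congr {S : Finset V} {ν ν' : V → V} (h : ∀ t ∈ S, ν t = ν' t) : oi S ν = oi S ν' := by
  ext x
  rw [mem_oi, mem_oi]
  have e : (S.filter fun t => ν t = x) = S.filter fun t => ν' t = x := by
    apply Finset.filter_congr
    intro t ht
    rw [h t ht]
  rw [e]

lemma oi_id {S : Finset V} {ν : V → V} (h : ∀ t ∈ S, ν t = t) : oi S ν = S := by
  ext x
  rw [mem_oi]
  by_cases hx : x ∈ S
  · have e : (S.filter fun t => ν t = x) = {x} := by
      ext t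
      simp only [Finset.mem_filter, Finset.mem_singleton]
      constructor
      · rintro ⟨h1, h2⟩
        rw [← h2, h t h1]
      · rintro rfl
        exact ⟨hx, h t hx⟩
    rw [e, Finset.card_singleton]
    exact ⟨fun _ => hx, fun _ => odd_one⟩
  · have e : (S.filter fun t => ν t = x) = ∅ := by
      rw [Finset.filter_eq_empty_iff]
      intro t ht h2
      apply hx
      rw [← h2, h t ht]
      exact ht
    rw [e, Finset.card_empty]
    exact ⟨fun h' => absurd h' (by decide), fun h' => absurd h' hx⟩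

lemma odd_card_symmDiff_singleton (X : Finset V) (a : V) :
    Odd (X ∆ {a}).card ↔ ¬ Odd X.card := by
  by_cases ha : a ∈ X
  · have e : X ∆ {a} = X.erase a := by
      ext t
      rw [Finset.mem_symmDiff, Finset.mem_erase, Finset.mem_singleton]
      constructor
      · rintro (⟨h1, h2⟩ | ⟨h1, h2⟩)
        · exact ⟨h2, h1⟩
        · exact absurd ha (h1 ▸ h2)
      · rintro ⟨h1, h2⟩
        exact Or.inl ⟨h2, h1⟩
    have h1 := Finset.card_erase_add_one ha
    rw [e, ← h1, Nat.odd_add_one, not_not]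
  · have e : X ∆ {a} = insert a X := by
      ext t
      rw [Finset.mem_symmDiff, Finset.mem_insert, Finset.mem_singleton]
      constructor
      · rintro (⟨h1, h2⟩ | ⟨h1, h2⟩)
        · exact Or.inr h1
        · exact Or.inl h1
      · rintro (h1 | h1)
        · exact Or.inr ⟨h1, h1 ▸ ha⟩
        · refine Or.inl ⟨h1, ?_⟩
          rintro rfl
          exact ha h1
    rw [e, Finset.card_insert_of_notMem ha, Nat.odd_add_one]

lemma odd_card_oi (S : Finset V) (ν : V → V) : Odd (oi S ν).card ↔ Odd S.card := by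
  induction S using Finset.induction_on with
  | empty => simp [oi]
  | insert a S ha ih =>
    rw [oi_erase (Finset.mem_insert_self a S), Finset.erase_insert ha,
      odd_card_symmDiff_singleton, Finset.card_insert_of_notMem ha, Nat.odd_add_one, ih]

/-! ### vertices of degree two -/

section deg2

variable {G : Gr α V} {E : Finset α} {W : Finset V} {k₀ k₁ : V → α} {n₀ n₁ : V → V}

lemma k_mem (hd : Deg2 G E W k₀ k₁ n₀ n₁) {w : V} (hw : w ∈ W) : k₀ w ∈ E ∧ k₁ w ∈ E := by
  have h := hd.star w hw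
  constructor
  · have h1 : k₀ w ∈ G.star E w := by
      rw [h]
      exact Finset.mem_insert_self _ _
    exact (Gr.mem_star.1 h1).1
  · have h1 : k₁ w ∈ G.star E w := by
      rw [h]
      exact Finset.mem_insert_of_mem (Finset.mem_singleton_self _)
    exact (Gr.mem_star.1 h1).1

lemma n_U (hon : G.On E) (hd : Deg2 G E W k₀ k₁ n₀ n₁) {w : V} (hw : w ∈ W) :
    n₀ w ∈ G.U ∧ n₁ w ∈ G.U := by
  have h := k_mem hd hw
  exact ⟨(hon.jn_mem h.1 (hd.jn₀ w hw)).2.1, (hon.jn_mem h.2 (hd.jn₁ w hw)).2.1⟩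

/-- ends of an edge at `w` -/
lemma ends (hd : Deg2 G E W k₀ k₁ n₀ n₁) {w : V} (hw : w ∈ W) {c : α} (hc : c ∈ G.star E w) :
    ∃ n, n ∉ W ∧ G.Jn c w n ∧ (n = n₀ w ∨ n = n₁ w) := by
  rw [hd.star w hw, Finset.mem_insert, Finset.mem_singleton] at hc
  rcases hc with rfl | rfl
  · exact ⟨n₀ w, hd.nW₀ w hw, hd.jn₀ w hw, Or.inl rfl⟩
  · exact ⟨n₁ w, hd.nW₁ w hw, hd.jn₁ w hw, Or.inr rfl⟩

lemma star_notMem (hd : Deg2 G E W k₀ k₁ n₀ n₁) {w w' : V} (hw : w ∈ W) (hw' : w' ∈ W)
    (hne : w ≠ w') {c : α} (hc : c ∈ G.star E w) : c ∉ G.star E w' := by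
  intro hc'
  obtain ⟨n, hn, hj, -⟩ := ends hd hw hc
  have h1 := (Gr.mem_star.1 hc').2
  rcases hj with ⟨h2, h3⟩ | ⟨h2, h3⟩
  · rcases h1 with h1 | h1
    · exact hne (h2.symm.trans h1)
    · exact hn (h3.symm.trans h1 ▸ hw')
  · rcases h1 with h1 | h1
    · exact hn (h2.symm.trans h1 ▸ hw')
    · exact hne (h3.symm.trans h1)

lemma retT_eq (hon : G.On E) (hd : Deg2 G E W k₀ k₁ n₀ n₁) (c : V → Bool) {T : Finset V}
    (hT : T ⊆ G.U) : retT G.U W n₀ n₁ c T = oi T (ret W n₀ n₁ c) := by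
  ext x
  unfold retT
  rw [Finset.mem_filter, mem_oi]
  refine ⟨fun h => h.2, fun h => ⟨?_, h⟩⟩
  have h1 : (T.filter fun t => ret W n₀ n₁ c t = x).Nonempty := by
    rw [← Finset.card_pos]
    exact h.pos
  obtain ⟨t, ht⟩ := h1
  rw [Finset.mem_filter] at ht
  obtain ⟨ht, rfl⟩ := ht
  rw [Finset.mem_sdiff]
  unfold ret
  by_cases htW : t ∈ W
  · rw [if_pos htW]
    by_cases hc : c t
    · rw [if_pos hc]
      exact ⟨(n_U hon hd htW).2, hd.nW₁ t htW⟩
    · rw [if_neg hc]
      exact ⟨(n_U hon hd htW).1, hd.nW₀ t htW⟩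
  · rw [if_neg htW]
    exact ⟨hT ht, htW⟩

end deg2

/-! ### graft representations of minimal matroids -/

section rep

variable {M : BM α} {e : α} {G : Gr α V} {T : Finset V}

lemma simple_aux (h3 : M.Conn3) (hcard : 4 ≤ M.E.card) (hG : GRep M e G T) :
    G.Simple (M.E \ {e}) := by
  intro a ha b hb x y hax hbx
  by_contra hab
  have haE := (Finset.mem_sdiff.1 ha).1
  have hbE := (Finset.mem_sdiff.1 hb).1
  have hae : a ≠ e := fun h => (Finset.mem_sdiff.1 ha).2 (Finset.mem_singleton.2 h)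
  have hbe : b ≠ e := fun h => (Finset.mem_sdiff.1 hb).2 (Finset.mem_singleton.2 h)
  have hsub : ({a, b} : Finset α) ⊆ M.E := by
    intro c hc
    rw [Finset.mem_insert, Finset.mem_singleton] at hc
    rcases hc with rfl | rfl
    · exact haE
    · exact hbE
  have hmem : ind ({a, b} : Finset α) ∈ M.dual.D := by
    rw [LM.mem_dual]
    constructor
    · intro c hc
      rw [ind_apply, if_neg fun h => hc (hsub h)]
    · intro z hz
      obtain ⟨φ, rfl⟩ := (hG.mem z).1 hz
      have e1 : ∑ c ∈ M.E, G.vec M.E e T φ c * ind ({a, b} : Finset α) c =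
          ∑ c ∈ ({a, b} : Finset α), G.vec M.E e T φ c := by
        rw [← Finset.sum_subset hsub]
        · apply Finset.sum_congr rfl
          intro c hc
          rw [ind_apply, if_pos hc, mul_one]
        · intro c _ hc
          rw [ind_apply, if_neg hc, mul_zero]
      rw [e1, Finset.sum_pair hab]
      unfold Gr.vec
      simp only [hae, hbe, haE, hbE, if_false, if_true]
      have key : ∀ c, G.Jn c x y → φ (G.f c) + φ (G.g c) = φ x + φ y := by
        rintro c (⟨h1, h2⟩ | ⟨h1, h2⟩)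
        · rw [h1, h2]
        · rw [h1, h2, add_comm]
      rw [key a hax, key b hbx]
      exact CharTwo.add_self_eq_zero _
  have h1 := cycle_card_of_conn3 h3 hcard hsub ⟨a, Finset.mem_insert_self _ _⟩ hmem
  rw [Finset.card_pair hab] at h1
  omega

lemma star_sub (x : V) : G.star (M.E \ {e}) x ⊆ M.E \ {e} := by
  intro c hc
  exact (Gr.mem_star.1 hc).1

lemma deg_aux (h3 : M.Conn3) (hcard : 4 ≤ M.E.card) (hG : GRep M e G T) {x : V}
    (hne : (G.star (M.E \ {e}) x).Nonempty) :
    2 ≤ (G.star (M.E \ {e}) x).card ∧ ((G.star (M.E \ {e}) x).card = 2 → x ∈ T) := by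
  have hmem := hG.star_mem x
  have hsub : (G.star (M.E \ {e}) x ∪ if x ∈ T then {e} else ∅) ⊆ M.E := by
    intro c hc
    rcases Finset.mem_union.1 hc with hc | hc
    · exact (Finset.mem_sdiff.1 (star_sub x hc)).1
    · by_cases hx : x ∈ T
      · rw [if_pos hx, Finset.mem_singleton] at hc
        rw [hc]
        exact hG.he
      · rw [if_neg hx] at hc
        exact absurd hc (Finset.notMem_empty _)
  have h1 := cocycle_card_of_conn3 h3 hcard hsub
    (hne.mono Finset.subset_union_left) hmem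
  by_cases hx : x ∈ T
  · rw [if_pos hx] at h1
    have h2 := Finset.card_union_le (G.star (M.E \ {e}) x) {e}
    rw [Finset.card_singleton] at h2
    exact ⟨by omega, fun _ => hx⟩
  · rw [if_neg hx, Finset.union_empty] at h1
    exact ⟨by omega, fun h => by omega⟩

/-- another edge at a vertex of degree 2 -/
lemma other_edge {E : Finset α} {w : V} (hw : (G.star E w).card = 2) {a : α}
    (ha : a ∈ G.star E w) : ∃ b n, b ≠ a ∧ G.star E w = {a, b} ∧ G.Jn b w n ∧ b ∈ E := by
  obtain ⟨p, q, hpq, hst⟩ := Finset.card_eq_two.1 hw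
  have hp : p ∈ G.star E w := by rw [hst]; exact Finset.mem_insert_self _ _
  have hq : q ∈ G.star E w := by
    rw [hst]; exact Finset.mem_insert_of_mem (Finset.mem_singleton_self _)
  rw [hst, Finset.mem_insert, Finset.mem_singleton] at ha
  rcases ha with rfl | rfl
  · obtain ⟨h1, n, h2⟩ := Gr.mem_star_iff_jn.1 hq
    exact ⟨q, n, hpq.symm, hst, h2, h1⟩
  · obtain ⟨h1, n, h2⟩ := Gr.mem_star_iff_jn.1 hp
    exact ⟨p, n, hpq, hst.trans (Finset.pair_comm _ _), h2, h1⟩

lemma nonadj {N : BM α} (hR : Rp N G) (hgood : Good N) (hs : G.Simple N.E)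
    (hcard : 7 ≤ N.E.card) {w w' : V} (hw : (G.star N.E w).card = 2)
    (hw' : (G.star N.E w').card = 2) : ¬ G.Adj N.E w w' := by
  rintro ⟨a, ha, hj⟩
  have hon := hR.on
  obtain ⟨hwU, hwU', hne⟩ := hon.jn_mem ha hj
  have haw : a ∈ G.star N.E w := Gr.mem_star_iff_jn.2 ⟨ha, w', hj⟩
  have haw' : a ∈ G.star N.E w' := Gr.mem_star_iff_jn.2 ⟨ha, w, hj.symm⟩
  obtain ⟨b, n, hba, hst, hjb, hb⟩ := other_edge hw haw
  obtain ⟨b', n', hba', hst', hjb', hb'⟩ := other_edge hw' haw'
  obtain ⟨-, hnU, -⟩ := hon.jn_mem hb hjb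
  obtain ⟨-, hnU', -⟩ := hon.jn_mem hb' hjb'
  have hbb : b ≠ b' := by
    rintro rfl
    rcases hjb.ends hjb' with ⟨h1, h2⟩ | ⟨h1, h2⟩
    · exact hne h1
    · rw [h2] at hjb
      exact hba (hs b hb a ha w w' hjb hj)
  have h3 : ({a, b, b'} : Finset α).card = 3 := Finset.card_eq_three.2
    ⟨a, b, b', hba.symm, hba'.symm, hbb, rfl⟩
  have hsub : ({a, b, b'} : Finset α) ⊆ N.E := by
    intro c hc
    simp only [Finset.mem_insert, Finset.mem_singleton] at hc
    rcases hc with rfl | rfl | rfl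
    · exact ha
    · exact hb
    · exact hb'
  have hlam : N.lam {a, b, b'} ≤ 1 := by
    have h4 := Rp.lam_le hR hsub (P := {w, w', n, n'}) (Q := G.U \ {w, w'}) (by
      ext x
      simp only [Finset.mem_union, Finset.mem_insert, Finset.mem_singleton, Finset.mem_sdiff,
        not_or]
      constructor
      · rintro ((rfl | rfl | rfl | rfl) | h)
        · exact hwU
        · exact hwU'
        · exact hnU
        · exact hnU'
        · exact h.1
      · intro hx
        by_cases h1 : x = w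
        · exact Or.inl (Or.inl h1)
        · by_cases h2 : x = w'
          · exact Or.inl (Or.inr (Or.inl h2))
          · exact Or.inr ⟨hx, h1, h2⟩) (by
      intro c hc
      simp only [Finset.mem_insert, Finset.mem_singleton] at hc
      rcases hc with rfl | rfl | rfl
      · rcases hj with ⟨h1, h2⟩ | ⟨h1, h2⟩ <;> rw [h1, h2] <;> simp
      · rcases hjb with ⟨h1, h2⟩ | ⟨h1, h2⟩ <;> rw [h1, h2] <;> simp
      · rcases hjb' with ⟨h1, h2⟩ | ⟨h1, h2⟩ <;> rw [h1, h2] <;> simp) (by
      intro c hc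
      obtain ⟨hcE, hc'⟩ := Finset.mem_sdiff.1 hc
      obtain ⟨hf, hg, -⟩ := hon c hcE
      simp only [Finset.mem_insert, Finset.mem_singleton, not_or] at hc'
      have n1 : c ∉ G.star N.E w := by
        rw [hst]
        simp only [Finset.mem_insert, Finset.mem_singleton, not_or]
        exact ⟨hc'.1, hc'.2.1⟩
      have n2 : c ∉ G.star N.E w' := by
        rw [hst']
        simp only [Finset.mem_insert, Finset.mem_singleton, not_or]
        exact ⟨hc'.1, hc'.2.2⟩
      rw [Gr.mem_star] at n1 n2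
      push Not at n1 n2
      simp only [Finset.mem_sdiff, Finset.mem_insert, Finset.mem_singleton, not_or]
      exact ⟨⟨hf, (n1 hcE).1, (n2 hcE).1⟩, hg, (n1 hcE).2, (n2 hcE).2⟩)
    have h5 : (({w, w', n, n'} : Finset V) ∩ (G.U \ {w, w'})).card ≤ 2 := by
      refine (Finset.card_le_card (t := {n, n'}) ?_).trans Finset.card_le_two
      intro x hx
      simp only [Finset.mem_inter, Finset.mem_insert, Finset.mem_singleton, Finset.mem_sdiff,
        not_or] at hx ⊢
      tauto
    omega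
  have h6 := hgood _ hsub hlam
  have h7 := Finset.le_card_sdiff {a, b, b'} N.E
  omega

lemma nbh_ne {N : BM α} (hR : Rp N G) (hgood : Good N) (hcard : 7 ≤ N.E.card) {W : Finset V}
    {k₀ k₁ : V → α} {n₀ n₁ : V → V} (hd : Deg2 G N.E W k₀ k₁ n₀ n₁) {w w' : V} (hw : w ∈ W)
    (hw' : w' ∈ W) (hne : w ≠ w') : ({n₀ w, n₁ w} : Finset V) ≠ {n₀ w', n₁ w'} := by
  intro heq
  have hon := hR.on
  have km := k_mem hd hw
  have km' := k_mem hd hw'
  have nU := n_U hon hd hw
  have nU' := n_U hon hd hw'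
  have hs := hd.star w hw
  have hs' := hd.star w' hw'
  have hsub : ({k₀ w, k₁ w, k₀ w', k₁ w'} : Finset α) ⊆ N.E := by
    intro c hc
    simp only [Finset.mem_insert, Finset.mem_singleton] at hc
    rcases hc with rfl | rfl | rfl | rfl
    · exact km.1
    · exact km.2
    · exact km'.1
    · exact km'.2
  have hm0 : n₀ w' ∈ ({n₀ w, n₁ w} : Finset V) := by
    rw [heq]; exact Finset.mem_insert_self _ _
  have hm1 : n₁ w' ∈ ({n₀ w, n₁ w} : Finset V) := by
    rw [heq]; exact Finset.mem_insert_of_mem (Finset.mem_singleton_self _)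
  rw [Finset.mem_insert, Finset.mem_singleton] at hm0 hm1
  have hlam : N.lam {k₀ w, k₁ w, k₀ w', k₁ w'} ≤ 1 := by
    have h4 := Rp.lam_le hR hsub (P := {w, w', n₀ w, n₁ w}) (Q := G.U \ {w, w'}) (by
      ext x
      simp only [Finset.mem_union, Finset.mem_insert, Finset.mem_singleton, Finset.mem_sdiff,
        not_or]
      constructor
      · rintro ((rfl | rfl | rfl | rfl) | h)
        · exact hd.WU hw
        · exact hd.WU hw'
        · exact nU.1
        · exact nU.2
        · exact h.1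
      · intro hx
        by_cases h1 : x = w
        · exact Or.inl (Or.inl h1)
        · by_cases h2 : x = w'
          · exact Or.inl (Or.inr (Or.inl h2))
          · exact Or.inr ⟨hx, h1, h2⟩) (by
      intro c hc
      simp only [Finset.mem_insert, Finset.mem_singleton] at hc
      rcases hc with rfl | rfl | rfl | rfl
      · rcases hd.jn₀ w hw with ⟨h1, h2⟩ | ⟨h1, h2⟩ <;> rw [h1, h2] <;> simp
      · rcases hd.jn₁ w hw with ⟨h1, h2⟩ | ⟨h1, h2⟩ <;> rw [h1, h2] <;> simp
      · rcases hd.jn₀ w' hw' with ⟨h1, h2⟩ | ⟨h1, h2⟩ <;> rw [h1, h2] <;>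
          rcases hm0 with h3 | h3 <;> rw [h3] <;> simp
      · rcases hd.jn₁ w' hw' with ⟨h1, h2⟩ | ⟨h1, h2⟩ <;> rw [h1, h2] <;>
          rcases hm1 with h3 | h3 <;> rw [h3] <;> simp) (by
      intro c hc
      obtain ⟨hcE, hc'⟩ := Finset.mem_sdiff.1 hc
      obtain ⟨hf, hg, -⟩ := hon c hcE
      simp only [Finset.mem_insert, Finset.mem_singleton, not_or] at hc'
      have n1 : c ∉ G.star N.E w := by
        rw [hs]
        simp only [Finset.mem_insert, Finset.mem_singleton, not_or]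
        exact ⟨hc'.1, hc'.2.1⟩
      have n2 : c ∉ G.star N.E w' := by
        rw [hs']
        simp only [Finset.mem_insert, Finset.mem_singleton, not_or]
        exact ⟨hc'.2.2.1, hc'.2.2.2⟩
      rw [Gr.mem_star] at n1 n2
      push Not at n1 n2
      simp only [Finset.mem_sdiff, Finset.mem_insert, Finset.mem_singleton, not_or]
      exact ⟨⟨hf, (n1 hcE).1, (n2 hcE).1⟩, hg, (n1 hcE).2, (n2 hcE).2⟩)
    have h5 : (({w, w', n₀ w, n₁ w} : Finset V) ∩ (G.U \ {w, w'})).card ≤ 2 := by
      refine (Finset.card_le_card (t := {n₀ w, n₁ w}) ?_).trans Finset.card_le_two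
      intro x hx
      simp only [Finset.mem_inter, Finset.mem_insert, Finset.mem_singleton, Finset.mem_sdiff,
        not_or] at hx ⊢
      tauto
    omega
  have h6 := hgood _ hsub hlam
  have h7 := Finset.le_card_sdiff {k₀ w, k₁ w, k₀ w', k₁ w'} N.E
  have h8 : ({k₀ w, k₁ w, k₀ w', k₁ w'} : Finset α).card ≤ 4 := Finset.card_le_four
  have h9 : 3 ≤ ({k₀ w, k₁ w, k₀ w', k₁ w'} : Finset α).card := by
    have hk : k₀ w' ∉ G.star N.E w := by
      apply star_notMem hd hw' hw hne.symm
      rw [hs']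
      exact Finset.mem_insert_self _ _
    rw [hs] at hk
    simp only [Finset.mem_insert, Finset.mem_singleton, not_or] at hk
    have h10 : ({k₀ w, k₁ w, k₀ w'} : Finset α).card = 3 := Finset.card_eq_three.2
      ⟨k₀ w, k₁ w, k₀ w', hd.ne w hw, fun h => hk.1 h.symm, fun h => hk.2 h.symm, rfl⟩
    rw [← h10]
    apply Finset.card_le_card
    intro c hc
    simp only [Finset.mem_insert, Finset.mem_singleton] at hc ⊢
    tauto
  omega

/-- exchange at one vertex -/
lemma swap_once (hG : GRep M e G T) {W : Finset V} {k₀ k₁ : V → α} {n₀ n₁ : V → V}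
    (hd : Deg2 G (M.E \ {e}) W k₀ k₁ n₀ n₁) {w : V} (hw : w ∈ W) (hwT : w ∈ T) :
    ∃ G' : Gr α V, GRep M e G' (T ∆ {n₀ w, n₁ w}) := by
  obtain ⟨G', h1, -⟩ := hG.swap_two (hd.ne w hw) (hd.star w hw) (hd.jn₀ w hw) (hd.jn₁ w hw)
    (hd.nn w hw) hwT
  exact ⟨G', h1⟩

/-- exchange at two vertices -/
lemma swap_twice (hG : GRep M e G T) {W : Finset V} {k₀ k₁ : V → α} {n₀ n₁ : V → V}
    (hd : Deg2 G (M.E \ {e}) W k₀ k₁ n₀ n₁) {w w' : V} (hw : w ∈ W) (hw' : w' ∈ W)
    (hne : w ≠ w') (hwT : w ∈ T) (hwT' : w' ∈ T) :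
    ∃ G' : Gr α V, GRep M e G' (T ∆ {n₀ w, n₁ w} ∆ {n₀ w', n₁ w'}) := by
  obtain ⟨G', h1, hU, ha, hb, hoth⟩ := hG.swap_two (hd.ne w hw) (hd.star w hw) (hd.jn₀ w hw)
    (hd.jn₁ w hw) (hd.nn w hw) hwT
  have hw0 : k₀ w ∈ G.star (M.E \ {e}) w := by
    rw [hd.star w hw]; exact Finset.mem_insert_self _ _
  have hw1 : k₁ w ∈ G.star (M.E \ {e}) w := by
    rw [hd.star w hw]; exact Finset.mem_insert_of_mem (Finset.mem_singleton_self _)
  have hw0' : k₀ w' ∈ G.star (M.E \ {e}) w' := by
    rw [hd.star w' hw']; exact Finset.mem_insert_self _ _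
  have hw1' : k₁ w' ∈ G.star (M.E \ {e}) w' := by
    rw [hd.star w' hw']; exact Finset.mem_insert_of_mem (Finset.mem_singleton_self _)
  have key : ∀ c ∈ G.star (M.E \ {e}) w', c ≠ k₀ w ∧ c ≠ k₁ w := by
    intro c hc
    have h2 := star_notMem hd hw' hw hne.symm hc
    rw [hd.star w hw] at h2
    simp only [Finset.mem_insert, Finset.mem_singleton, not_or] at h2
    exact h2
  have hjn : ∀ c ∈ G.star (M.E \ {e}) w', ∀ n, G.Jn c w' n → G'.Jn c w' n := by
    intro c hc n hj
    obtain ⟨h2, h3⟩ := hoth c (key c hc).1 (key c hc).2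
    unfold Gr.Jn
    rw [h2, h3]
    exact hj
  have hst : G'.star (M.E \ {e}) w' = {k₀ w', k₁ w'} := by
    rw [← hd.star w' hw']
    ext c
    rw [Gr.mem_star, Gr.mem_star]
    refine and_congr_right fun hcE => ?_
    by_cases hc0 : c = k₀ w
    · rw [hc0]
      constructor
      · intro h2
        exfalso
        rcases ha with ⟨h3, h4⟩ | ⟨h3, h4⟩
        · rcases h2 with h2 | h2
          · exact hne (h3.symm.trans h2)
          · exact hd.nW₁ w hw (h4.symm.trans h2 ▸ hw')
        · rcases h2 with h2 | h2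
          · exact hd.nW₁ w hw (h3.symm.trans h2 ▸ hw')
          · exact hne (h4.symm.trans h2)
      · intro h2
        exact absurd (Gr.mem_star.2 ⟨(Gr.mem_star.1 hw0).1, h2⟩) (star_notMem hd hw hw' hne hw0)
    · by_cases hc1 : c = k₁ w
      · rw [hc1]
        constructor
        · intro h2
          exfalso
          rcases hb with ⟨h3, h4⟩ | ⟨h3, h4⟩
          · rcases h2 with h2 | h2
            · exact hne (h3.symm.trans h2)
            · exact hd.nW₀ w hw (h4.symm.trans h2 ▸ hw')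
          · rcases h2 with h2 | h2
            · exact hd.nW₀ w hw (h3.symm.trans h2 ▸ hw')
            · exact hne (h4.symm.trans h2)
        · intro h2
          exact absurd (Gr.mem_star.2 ⟨(Gr.mem_star.1 hw1).1, h2⟩)
            (star_notMem hd hw hw' hne hw1)
      · rw [(hoth c hc0 hc1).1, (hoth c hc0 hc1).2]
  have hwT'' : w' ∈ T ∆ {n₀ w, n₁ w} := by
    rw [Finset.mem_symmDiff]
    left
    refine ⟨hwT', ?_⟩
    rw [Finset.mem_insert, Finset.mem_singleton, not_or]
    exact ⟨fun h => hd.nW₀ w hw (h ▸ hw'), fun h => hd.nW₁ w hw (h ▸ hw')⟩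
  obtain ⟨G'', h2, -⟩ := h1.swap_two (hd.ne w' hw') hst (hjn _ hw0' _ (hd.jn₀ w' hw'))
    (hjn _ hw1' _ (hd.jn₁ w' hw')) (hd.nn w' hw') hwT''
  exact ⟨G'', h2⟩

end rep

/-! ### choices at some vertices -/

section choice

variable {W : Finset V} {n₀ n₁ : V → V} {T : Finset V}

/-- the choice `false` everywhere -/
abbrev c0 : V → Bool := fun _ => false

lemma exists_bool {x y c : V} (h : c ∈ ({x, y} : Finset V)) :
    ∃ b : Bool, (if b then y else x) = c := by
  rw [Finset.mem_insert, Finset.mem_singleton] at h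
  rcases h with rfl | rfl
  · exact ⟨false, rfl⟩
  · exact ⟨true, rfl⟩

lemma ret_of_mem {w : V} (hw : w ∈ W) (c : V → Bool) :
    ret W n₀ n₁ c w = if c w then n₁ w else n₀ w := by
  unfold ret
  rw [if_pos hw]

lemma ret_congr {c c' : V → Bool} {w : V} (h : c w = c' w) :
    ret W n₀ n₁ c w = ret W n₀ n₁ c' w := by
  unfold ret
  rw [h]

lemma oi_one {w : V} (hw : w ∈ W) (hwT : w ∈ T) (b : Bool) :
    oi T (ret W n₀ n₁ fun v => if v = w then b else false) =
      oi (T.erase w) (ret W n₀ n₁ c0) ∆ {if b then n₁ w else n₀ w} := by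
  rw [oi_erase hwT, ret_of_mem hw, if_pos rfl]
  congr 1
  apply oi_congr
  intro t ht
  apply ret_congr
  exact if_neg (Finset.mem_erase.1 ht).1

lemma oi_two {w w' : V} (hw : w ∈ W) (hw' : w' ∈ W) (hne : w ≠ w') (hwT : w ∈ T)
    (hwT' : w' ∈ T) (b b' : Bool) :
    oi T (ret W n₀ n₁ fun v => if v = w then b else if v = w' then b' else false) =
      oi ((T.erase w').erase w) (ret W n₀ n₁ c0) ∆ {if b then n₁ w else n₀ w} ∆
        {if b' then n₁ w' else n₀ w'} := by
  rw [oi_erase hwT', ret_of_mem hw', if_neg hne.symm, if_pos rfl,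
    oi_erase (Finset.mem_erase.2 ⟨hne, hwT⟩), ret_of_mem hw, if_pos rfl]
  congr 2
  apply oi_congr
  intro t ht
  have h1 := Finset.mem_erase.1 ht
  have h2 := Finset.mem_erase.1 h1.2
  apply ret_congr
  show (if t = w then b else if t = w' then b' else false) = false
  rw [if_neg h1.1, if_neg h2.1]

lemma oi_three {w w' w'' : V} (hw : w ∈ W) (hw' : w' ∈ W) (hw'' : w'' ∈ W) (hne : w ≠ w')
    (hne' : w ≠ w'') (hne'' : w' ≠ w'') (hwT : w ∈ T) (hwT' : w' ∈ T) (hwT'' : w'' ∈ T)
    (b b' b'' : Bool) :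
    oi T (ret W n₀ n₁ fun v => if v = w then b else if v = w' then b' else
        if v = w'' then b'' else false) =
      oi (((T.erase w'').erase w').erase w) (ret W n₀ n₁ c0) ∆ {if b then n₁ w else n₀ w} ∆
        {if b' then n₁ w' else n₀ w'} ∆ {if b'' then n₁ w'' else n₀ w''} := by
  rw [oi_erase hwT'', ret_of_mem hw'', if_neg hne'.symm, if_neg hne''.symm, if_pos rfl,
    oi_erase (Finset.mem_erase.2 ⟨hne'', hwT'⟩), ret_of_mem hw', if_neg hne.symm, if_pos rfl,
    oi_erase (Finset.mem_erase.2 ⟨hne, Finset.mem_erase.2 ⟨hne', hwT⟩⟩), ret_of_mem hw,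
    if_pos rfl]
  congr 3
  apply oi_congr
  intro t ht
  have h1 := Finset.mem_erase.1 ht
  have h2 := Finset.mem_erase.1 h1.2
  have h3 := Finset.mem_erase.1 h2.2
  apply ret_congr
  show (if t = w then b else if t = w' then b' else if t = w'' then b'' else false) = false
  rw [if_neg h1.1, if_neg h2.1, if_neg h3.1]

end choice

/-- two different pairs in a set of three elements fill it -/
lemma pair_union {p q r x y x' y' : V} (hpq : p ≠ q) (hpr : p ≠ r) (hqr : q ≠ r) (hxy : x ≠ y)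
    (hxy' : x' ≠ y') (hN : ({x, y} : Finset V) ≠ {x', y'})
    (h : ({x, y} : Finset V) ⊆ {p, q, r}) (h' : ({x', y'} : Finset V) ⊆ {p, q, r}) :
    ({x, y} : Finset V) ∪ {x', y'} = {p, q, r} := by
  apply Finset.eq_of_subset_of_card_le (Finset.union_subset h h')
  rw [Finset.card_eq_three.2 ⟨p, q, r, hpq, hpr, hqr, rfl⟩]
  by_contra hcon
  push Not at hcon
  have h1 : ({x, y} : Finset V).card = 2 := Finset.card_pair hxy
  have h2 : ({x', y'} : Finset V).card = 2 := Finset.card_pair hxy'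
  have h3 : ({x, y} : Finset V) = {x, y} ∪ {x', y'} :=
    Finset.eq_of_subset_of_card_le Finset.subset_union_left (by omega)
  have h4 : ({x', y'} : Finset V) = {x, y} ∪ {x', y'} :=
    Finset.eq_of_subset_of_card_le Finset.subset_union_right (by omega)
  exact hN (h3.trans h4.symm)

/-- at most three different pairs in a set of three elements -/
lemma pair_four {p q r : V} (hpq : p ≠ q) (hpr : p ≠ r) (hqr : q ≠ r) {x : Fin 4 → V}
    {y : Fin 4 → V} (hxy : ∀ i, x i ≠ y i) (h : ∀ i, ({x i, y i} : Finset V) ⊆ {p, q, r})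
    (hN : ∀ i j, i ≠ j → ({x i, y i} : Finset V) ≠ {x j, y j}) : False := by
  have hc : ({p, q, r} : Finset V).card = 3 := Finset.card_eq_three.2 ⟨p, q, r, hpq, hpr, hqr, rfl⟩
  have h1 : (Finset.univ.image fun i => ({x i, y i} : Finset V)) ⊆
      ({p, q, r} : Finset V).powersetCard 2 := by
    intro S hS
    obtain ⟨i, -, rfl⟩ := Finset.mem_image.1 hS
    exact Finset.mem_powersetCard.2 ⟨h i, Finset.card_pair (hxy i)⟩
  have h2 := Finset.card_le_card h1
  rw [Finset.card_powersetCard, hc, Finset.card_image_of_injective] at h2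
  · simp [Nat.choose] at h2
  · intro i j hij
    by_contra hne
    exact hN i j hne hij

end TutCAux

namespace TutCAux

lemma two_of_three {x y p q r : V} (hxy : x ≠ y) (h : ({x, y} : Finset V) ⊆ {p, q, r}) :
    ({x, y} : Finset V) = {p, q} ∨ ({x, y} : Finset V) = {q, r} ∨
      ({x, y} : Finset V) = {r, p} := by
  have hx : x ∈ ({p, q, r} : Finset V) := h (by simp)
  have hy : y ∈ ({p, q, r} : Finset V) := h (by simp)
  simp only [Finset.mem_insert, Finset.mem_singleton] at hx hy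
  rcases hx with rfl | rfl | rfl <;> rcases hy with rfl | rfl | rfl
  · exact absurd rfl hxy
  · exact Or.inl rfl
  · exact Or.inr (Or.inr (Finset.pair_comm _ _))
  · exact Or.inl (Finset.pair_comm _ _)
  · exact absurd rfl hxy
  · exact Or.inr (Or.inl rfl)
  · exact Or.inr (Or.inr rfl)
  · exact Or.inr (Or.inl (Finset.pair_comm _ _))
  · exact absurd rfl hxy

/-- three different pairs in a set of three elements: a triangle -/
lemma triangle {S₁ S₂ S₃ : Finset V} {p q r : V} (hpq : p ≠ q) (hpr : p ≠ r) (hqr : q ≠ r)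
    (h₁ : S₁ = {p, q} ∨ S₁ = {q, r} ∨ S₁ = {r, p})
    (h₂ : S₂ = {p, q} ∨ S₂ = {q, r} ∨ S₂ = {r, p})
    (h₃ : S₃ = {p, q} ∨ S₃ = {q, r} ∨ S₃ = {r, p})
    (h12 : S₁ ≠ S₂) (h13 : S₁ ≠ S₃) (h23 : S₂ ≠ S₃) :
    ∃ p' q' r' : V, p' ≠ q' ∧ p' ≠ r' ∧ q' ≠ r' ∧ ({p', q', r'} : Finset V) = {p, q, r} ∧
      S₁ = {p', q'} ∧ S₂ = {q', r'} ∧ S₃ = {r', p'} := by
  rcases h₁ with h₁ | h₁ | h₁ <;> rcases h₂ with h₂ | h₂ | h₂ <;> rcases h₃ with h₃ | h₃ | h₃
  all_goals first
    | exact absurd (h₁.trans h₂.symm) h12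
    | exact absurd (h₁.trans h₃.symm) h13
    | exact absurd (h₂.trans h₃.symm) h23
    | exact ⟨p, q, r, hpq, hpr, hqr, rfl, h₁, h₂, h₃⟩
    | exact ⟨q, p, r, hpq.symm, hqr, hpr, by ext x; simp only [Finset.mem_insert, Finset.mem_singleton]; tauto,
        h₁.trans (Finset.pair_comm _ _), h₂.trans (Finset.pair_comm _ _),
        h₃.trans (Finset.pair_comm _ _)⟩
    | exact ⟨r, q, p, hqr.symm, hpr.symm, hpq.symm, by ext x; simp only [Finset.mem_insert, Finset.mem_singleton]; tauto,
        h₁.trans (Finset.pair_comm _ _), h₂.trans (Finset.pair_comm _ _),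
        h₃.trans (Finset.pair_comm _ _)⟩
    | exact ⟨q, r, p, hqr, hpq.symm, hpr.symm, by ext x; simp only [Finset.mem_insert, Finset.mem_singleton]; tauto,
        h₁, h₂, h₃⟩
    | exact ⟨r, p, q, hpr.symm, hqr.symm, hpq, by ext x; simp only [Finset.mem_insert, Finset.mem_singleton]; tauto,
        h₁, h₂, h₃⟩
    | exact ⟨p, r, q, hpr, hpq, hqr.symm, by ext x; simp only [Finset.mem_insert, Finset.mem_singleton]; tauto,
        h₁.trans (Finset.pair_comm _ _), h₂.trans (Finset.pair_comm _ _),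
        h₃.trans (Finset.pair_comm _ _)⟩

/-- the edges at a vertex of degree two, labelled by the neighbours -/
lemma pick {G : Gr α V} {E : Finset α} {W : Finset V} {k₀ k₁ : V → α} {n₀ n₁ : V → V}
    (hd : Deg2 G E W k₀ k₁ n₀ n₁) {w : V} (hw : w ∈ W) {x y : V} (hxy : x ≠ y)
    (h : ({n₀ w, n₁ w} : Finset V) = {x, y}) :
    ∃ a b, G.star E w = {a, b} ∧ a ≠ b ∧ G.Jn a w x ∧ G.Jn b w y := by
  have hx : x ∈ ({n₀ w, n₁ w} : Finset V) := by rw [h]; simp
  have hy : y ∈ ({n₀ w, n₁ w} : Finset V) := by rw [h]; simp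
  simp only [Finset.mem_insert, Finset.mem_singleton] at hx hy
  rcases hx with rfl | rfl
  · rcases hy with rfl | rfl
    · exact absurd rfl hxy
    · exact ⟨k₀ w, k₁ w, hd.star w hw, hd.ne w hw, hd.jn₀ w hw, hd.jn₁ w hw⟩
  · rcases hy with rfl | rfl
    · exact ⟨k₁ w, k₀ w, (hd.star w hw).trans (Finset.pair_comm _ _), (hd.ne w hw).symm,
        hd.jn₁ w hw, hd.jn₀ w hw⟩
    · exact absurd rfl hxy

/-- no edge joins the two neighbours of a vertex of degree two in `T` -/
lemma no_tri {M : BM α} (hi4 : M.I4c) (h8 : 8 ≤ M.E.card) {e : α} {G : Gr α V}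
    {T : Finset V} (hG : GRep M e G T) {w x y : V} {a b c : α} (hwT : w ∈ T)
    (hst : G.star (M.E \ {e}) w = {a, b}) (hab : a ≠ b) (ha : G.Jn a w x) (hb : G.Jn b w y)
    (hc : c ∈ M.E \ {e}) (hca : c ≠ a) (hcb : c ≠ b) (hj : G.Jn c x y) : False := by
  have haE : a ∈ M.E \ {e} := by
    have : a ∈ G.star (M.E \ {e}) w := by rw [hst]; simp
    exact (Gr.mem_star.1 this).1
  have hbE : b ∈ M.E \ {e} := by
    have : b ∈ G.star (M.E \ {e}) w := by rw [hst]; simp
    exact (Gr.mem_star.1 this).1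
  rw [Finset.mem_sdiff, Finset.mem_singleton] at haE hbE hc
  set X : Finset α := {e, c, a, b} with hX
  have hXE : X ⊆ M.E := by
    intro z hz
    simp only [hX, Finset.mem_insert, Finset.mem_singleton] at hz
    rcases hz with rfl | rfl | rfl | rfl
    · exact hG.he
    · exact hc.1
    · exact haE.1
    · exact hbE.1
  have hX4 : X.card = 4 := by
    rw [hX, Finset.card_insert_of_notMem, Finset.card_insert_of_notMem, Finset.card_pair hab]
    · simp [hca, hcb]
    · simp [Ne.symm hc.2, Ne.symm haE.2, Ne.symm hbE.2]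
  have hval : ∀ (φ : V → ZMod 2) {d : α} {u v : V}, d ∈ M.E → d ≠ e → G.Jn d u v →
      G.vec M.E e T φ d = φ u + φ v := by
    intro φ d u v hd hde hj
    unfold Gr.vec
    rw [if_neg hde, if_pos hd]
    rcases hj with ⟨h1, h2⟩ | ⟨h1, h2⟩
    · rw [h1, h2]
    · rw [h1, h2, add_comm]
  have hcl : M.InCl {a, b} c := by
    intro z hz h0
    obtain ⟨φ, rfl⟩ := (hG.mem z).1 hz
    have h1 := h0 a (by simp)
    have h2 := h0 b (by simp)
    rw [hval φ haE.1 haE.2 ha] at h1
    rw [hval φ hbE.1 hbE.2 hb] at h2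
    rw [hval φ hc.1 hc.2 hj]
    have h3 := CharTwo.add_eq_zero.1 h1
    have h4 := CharTwo.add_eq_zero.1 h2
    rw [← h3, ← h4]
    exact CharTwo.add_self_eq_zero _
  have hrX : M.rk X ≤ 3 := by
    have h1 := M.inCl_iff_rk.1 hcl
    have h2 := M.rk_le_card {a, b}
    rw [Finset.card_pair hab] at h2
    have h3 := M.rk_insert_le (insert c {a, b}) e
    rw [hX]
    omega
  have hcoc := hG.star_mem w
  rw [if_pos hwT, hst] at hcoc
  have hrc : M.rk (M.E \ X) + 1 ≤ M.rk M.E := by
    have h1 := M.finrank_con (M.E \ X)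
    have h2 : 1 ≤ Module.finrank (ZMod 2) (M.con (M.E \ X)).D := by
      have hne : (M.con (M.E \ X)).D ≠ ⊥ := by
        intro hb0
        have h3 : ind (({a, b} : Finset α) ∪ {e}) ∈ (M.con (M.E \ X)).D := by
          rw [LM.mem_con]
          refine ⟨hcoc, fun d hd => ?_⟩
          rw [Finset.mem_sdiff] at hd
          rw [ind_apply, if_neg]
          intro h4
          apply hd.2
          rw [hX]
          simp only [Finset.mem_union, Finset.mem_insert, Finset.mem_singleton] at h4 ⊢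
          tauto
        rw [hb0, Submodule.mem_bot] at h3
        have h4 := congrFun h3 a
        simp at h4
      exact Submodule.one_le_finrank_iff.2 hne
    have h3 := M.rk_E
    omega
  have hl := M.lam_add X
  have hcard := Finset.card_sdiff_add_card_eq_card hXE
  have h9 := hi4.2 X hXE (by omega) (by omega)
  omega

/-- the case of three vertices of degree two -/
lemma three_case {M : BM α} (hi4 : M.I4c) (h8 : 8 ≤ M.E.card) {e : α} (he : e ∈ M.E)
    {G : Gr α V} {T : Finset V} (hG : GRep M e G T) (hs : G.Simple (M.E \ {e}))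
    {W : Finset V} {k₀ k₁ : V → α} {n₀ n₁ : V → V} (hd : Deg2 G (M.E \ {e}) W k₀ k₁ n₀ n₁)
    (hWT : ∀ w ∈ W, w ∈ T) (hdeg : ∀ x ∈ G.U, x ∉ W → 3 ≤ (G.star (M.E \ {e}) x).card)
    {w₁ w₂ w₃ p q r : V} {a₁ b₁ a₂ b₂ a₃ b₃ : α} (hW : W = {w₁, w₂, w₃}) (h12 : w₁ ≠ w₂)
    (h13 : w₁ ≠ w₃) (h23 : w₂ ≠ w₃) (hpq : p ≠ q) (hpr : p ≠ r) (hqr : q ≠ r)
    (hpU : p ∈ G.U ∧ p ∉ W) (hqU : q ∈ G.U ∧ q ∉ W) (hrU : r ∈ G.U ∧ r ∉ W)
    (st₁ : G.star (M.E \ {e}) w₁ = {a₁, b₁}) (ab₁ : a₁ ≠ b₁) (ja₁ : G.Jn a₁ w₁ p)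
    (jb₁ : G.Jn b₁ w₁ q)
    (st₂ : G.star (M.E \ {e}) w₂ = {a₂, b₂}) (ab₂ : a₂ ≠ b₂) (ja₂ : G.Jn a₂ w₂ q)
    (jb₂ : G.Jn b₂ w₂ r)
    (st₃ : G.star (M.E \ {e}) w₃ = {a₃, b₃}) (ab₃ : a₃ ≠ b₃) (ja₃ : G.Jn a₃ w₃ r)
    (jb₃ : G.Jn b₃ w₃ p)
    (hT : T \ W ⊆ {p, q, r}) : HasK5s M := by
  have hon := hG.on
  have hw₁ : w₁ ∈ W := by rw [hW]; simp
  have hw₂ : w₂ ∈ W := by rw [hW]; simp
  have hw₃ : w₃ ∈ W := by rw [hW]; simp
  have hW3 : W.card = 3 := Finset.card_eq_three.2 ⟨w₁, w₂, w₃, h12, h13, h23, hW⟩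
  have hWU : W ⊆ G.U := hd.WU
  have hpqrU : ({p, q, r} : Finset V) ⊆ G.U := by
    intro x hx
    simp only [Finset.mem_insert, Finset.mem_singleton] at hx
    rcases hx with rfl | rfl | rfl
    · exact hpU.1
    · exact hqU.1
    · exact hrU.1
  -- the seven elements
  set B : Finset α := W.biUnion fun x => G.star (M.E \ {e}) x with hB
  have hB6 : B.card = 6 := by
    have h5 : B.card = ∑ x ∈ W, (G.star (M.E \ {e}) x).card := by
      apply Finset.card_biUnion
      intro x hx y hy hxy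
      show Disjoint (G.star (M.E \ {e}) x) (G.star (M.E \ {e}) y)
      rw [Finset.disjoint_left]
      intro a ha
      exact star_notMem hd hx hy hxy ha
    have h6 : ∑ x ∈ W, (G.star (M.E \ {e}) x).card = ∑ x ∈ W, 2 :=
      Finset.sum_congr rfl fun x hx => by
        rw [hd.star x hx, Finset.card_pair (hd.ne x hx)]
    rw [h5, h6, Finset.sum_const, hW3]
    rfl
  have hBE : B ⊆ M.E \ {e} := by
    intro a ha
    obtain ⟨x, -, hx⟩ := Finset.mem_biUnion.1 ha
    exact star_sub x hx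
  have heB : e ∉ B := fun h => (Finset.mem_sdiff.1 (hBE h)).2 (Finset.mem_singleton_self _)
  have hBs : B = {a₁, b₁, a₂, b₂, a₃, b₃} := by
    rw [hB, hW, Finset.biUnion_insert, Finset.biUnion_insert, Finset.singleton_biUnion, st₁, st₂,
      st₃]
    simp only [Finset.insert_union, Finset.singleton_union]
  set A : Finset α := insert e B with hA
  have hA7 : A.card = 7 := by
    rw [hA, Finset.card_insert_of_notMem heB, hB6]
  have hAE : A ⊆ M.E := by
    intro a ha
    rcases Finset.mem_insert.1 ha with rfl | ha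
    · exact he
    · exact (Finset.mem_sdiff.1 (hBE ha)).1
  -- the ends of the elements of `B`
  have hBends : ∀ a ∈ B, ∃ x ∈ W, ∃ n ∈ ({p, q, r} : Finset V), G.Jn a x n := by
    intro a ha
    rw [hBs] at ha
    simp only [Finset.mem_insert, Finset.mem_singleton] at ha
    rcases ha with rfl | rfl | rfl | rfl | rfl | rfl
    · exact ⟨w₁, hw₁, p, by simp, ja₁⟩
    · exact ⟨w₁, hw₁, q, by simp, jb₁⟩
    · exact ⟨w₂, hw₂, q, by simp, ja₂⟩
    · exact ⟨w₂, hw₂, r, by simp, jb₂⟩
    · exact ⟨w₃, hw₃, r, by simp, ja₃⟩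
    · exact ⟨w₃, hw₃, p, by simp, jb₃⟩
  have hAc_mem : ∀ a ∈ M.E \ A, a ∈ M.E \ {e} ∧ a ∉ B := by
    intro a ha
    obtain ⟨haE, haA⟩ := Finset.mem_sdiff.1 ha
    rw [hA, Finset.mem_insert, not_or] at haA
    exact ⟨Finset.mem_sdiff.2 ⟨haE, fun h6 => haA.1 (Finset.mem_singleton.1 h6)⟩, haA.2⟩
  have hAc_ends : ∀ a ∈ M.E \ A, G.f a ∈ G.U ∧ G.g a ∈ G.U ∧ G.f a ≠ G.g a ∧ G.f a ∉ W ∧
      G.g a ∉ W := by
    intro a ha
    obtain ⟨haE', haB⟩ := hAc_mem a ha
    obtain ⟨hf, hg, hfg⟩ := hon a haE'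
    refine ⟨hf, hg, hfg, fun h6 => haB ?_, fun h6 => haB ?_⟩
    · exact Finset.mem_biUnion.2 ⟨_, h6, Gr.mem_star.2 ⟨haE', Or.inl rfl⟩⟩
    · exact Finset.mem_biUnion.2 ⟨_, h6, Gr.mem_star.2 ⟨haE', Or.inr rfl⟩⟩
  have hlam : M.lam A ≤ 2 := by
    have h5 := GRep.lam_le hG hAE (Finset.mem_insert_self _ _) (P := W ∪ {p, q, r})
      (Q := G.U \ W) (by
        ext x
        simp only [Finset.mem_union, Finset.mem_sdiff]
        constructor
        · rintro ((h6 | h6) | h6)
          · exact hWU h6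
          · exact hpqrU h6
          · exact h6.1
        · intro h6
          by_cases h7 : x ∈ W
          · exact Or.inl (Or.inl h7)
          · exact Or.inr ⟨h6, h7⟩) (by
        intro t ht
        by_cases htW : t ∈ W
        · exact Finset.mem_union_left _ htW
        · exact Finset.mem_union_right _ (hT (Finset.mem_sdiff.2 ⟨ht, htW⟩))) (by
        intro a ha hae
        rcases Finset.mem_insert.1 ha with h6 | ha
        · exact absurd h6 hae
        · obtain ⟨x, hx, n, hn', hj⟩ := hBends a ha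
          rcases hj with ⟨h6, h7⟩ | ⟨h6, h7⟩
          · rw [h6, h7]
            exact ⟨Finset.mem_union_left _ hx, Finset.mem_union_right _ hn'⟩
          · rw [h6, h7]
            exact ⟨Finset.mem_union_right _ hn', Finset.mem_union_left _ hx⟩) (by
        intro a ha
        obtain ⟨h6, h7, -, h9, h10⟩ := hAc_ends a ha
        exact ⟨Finset.mem_sdiff.2 ⟨h6, h9⟩, Finset.mem_sdiff.2 ⟨h7, h10⟩⟩)
    have h6 : ((W ∪ {p, q, r}) ∩ (G.U \ W)).card ≤ 3 := by
      refine (Finset.card_le_card (t := {p, q, r}) ?_).trans Finset.card_le_three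
      intro x hx
      obtain ⟨hx1, hx2⟩ := Finset.mem_inter.1 hx
      exact (Finset.mem_union.1 hx1).resolve_left (Finset.mem_sdiff.1 hx2).2
    omega
  have hAc : (M.E \ A).card ≤ 3 := by
    by_contra h5
    push Not at h5
    have := hi4.2 A hAE (by omega) h5
    omega
  have hAcard := Finset.card_sdiff_add_card_eq_card hAE
  -- no edge outside `A` joins two of `p, q, r`
  have hno : ∀ c ∈ M.E \ A, ∀ x ∈ ({p, q, r} : Finset V), ∀ y ∈ ({p, q, r} : Finset V),
      ¬ G.Jn c x y := by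
    intro c hc x hx y hy hj
    obtain ⟨hcE, hcB⟩ := hAc_mem c hc
    have hxy : x ≠ y := (hon.jn_mem hcE hj).2.2
    rw [hBs] at hcB
    simp only [Finset.mem_insert, Finset.mem_singleton, not_or] at hcB
    obtain ⟨c1, c2, c3, c4, c5, c6⟩ := hcB
    simp only [Finset.mem_insert, Finset.mem_singleton] at hx hy
    rcases hx with rfl | rfl | rfl <;> rcases hy with rfl | rfl | rfl
    · exact hxy rfl
    · exact no_tri hi4 h8 hG (hWT _ hw₁) st₁ ab₁ ja₁ jb₁ hcE c1 c2 hj
    · exact no_tri hi4 h8 hG (hWT _ hw₃) st₃ ab₃ ja₃ jb₃ hcE c5 c6 hj.symm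
    · exact no_tri hi4 h8 hG (hWT _ hw₁) st₁ ab₁ ja₁ jb₁ hcE c1 c2 hj.symm
    · exact hxy rfl
    · exact no_tri hi4 h8 hG (hWT _ hw₂) st₂ ab₂ ja₂ jb₂ hcE c3 c4 hj
    · exact no_tri hi4 h8 hG (hWT _ hw₃) st₃ ab₃ ja₃ jb₃ hcE c5 c6 hj
    · exact no_tri hi4 h8 hG (hWT _ hw₂) st₂ ab₂ ja₂ jb₂ hcE c3 c4 hj.symm
    · exact hxy rfl
  -- the stars of the other vertices
  have hstar : ∀ o ∈ G.U, o ∉ W → o ∉ ({p, q, r} : Finset V) →
      G.star (M.E \ {e}) o = M.E \ A ∧ (M.E \ A).card = 3 := by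
    intro o hoU hoW hopqr
    have hsub : G.star (M.E \ {e}) o ⊆ M.E \ A := by
      intro c hc
      obtain ⟨hcE, hco⟩ := Gr.mem_star.1 hc
      have hcE2 := Finset.mem_sdiff.1 hcE
      refine Finset.mem_sdiff.2 ⟨hcE2.1, fun hcA => ?_⟩
      rcases Finset.mem_insert.1 hcA with rfl | hcB
      · exact hcE2.2 (Finset.mem_singleton_self _)
      · obtain ⟨x, hx, n, hn', hj⟩ := hBends c hcB
        rcases hj with ⟨h6, h7⟩ | ⟨h6, h7⟩ <;> rw [h6, h7] at hco <;> rcases hco with h9 | h9
        · exact hoW (h9 ▸ hx)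
        · exact hopqr (h9 ▸ hn')
        · exact hopqr (h9 ▸ hn')
        · exact hoW (h9 ▸ hx)
    have h3 := hdeg o hoU hoW
    have h4 := Finset.card_le_card hsub
    exact ⟨Finset.eq_of_subset_of_card_le hsub (by omega), by omega⟩
  -- the vertex `o`
  obtain ⟨c₀, hc₀⟩ : (M.E \ A).Nonempty := by
    rw [← Finset.card_pos]
    omega
  obtain ⟨o, hoU, hoW, hopqr⟩ : ∃ o ∈ G.U, o ∉ W ∧ o ∉ ({p, q, r} : Finset V) := by
    obtain ⟨h1, h2, h3, h4, h5⟩ := hAc_ends c₀ hc₀
    by_cases h6 : G.f c₀ ∈ ({p, q, r} : Finset V)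
    · refine ⟨G.g c₀, h2, h5, fun h7 => ?_⟩
      exact hno c₀ hc₀ _ h6 _ h7 (Gr.jn_self c₀)
    · exact ⟨G.f c₀, h1, h4, h6⟩
  obtain ⟨hso, hAc3⟩ := hstar o hoU hoW hopqr
  have huniq : ∀ x ∈ G.U, x ∉ W → x ∉ ({p, q, r} : Finset V) → x = o := by
    intro x hxU hxW hxpqr
    by_contra hne
    obtain ⟨hsx, -⟩ := hstar x hxU hxW hxpqr
    have hjn : ∀ c ∈ M.E \ A, G.Jn c o x := by
      intro c hc
      have h1 := (Gr.mem_star.1 (hso.symm ▸ hc)).2
      have h2 := (Gr.mem_star.1 (hsx.symm ▸ hc)).2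
      rcases h1 with h1 | h1 <;> rcases h2 with h2 | h2
      · exact absurd (h2.symm.trans h1) hne
      · exact Or.inl ⟨h1, h2⟩
      · exact Or.inr ⟨h2, h1⟩
      · exact absurd (h2.symm.trans h1) hne
    obtain ⟨c, hc, d, hd', hcd⟩ := Finset.one_lt_card.1 (show 1 < (M.E \ A).card by omega)
    exact hcd (hs c (hAc_mem c hc).1 d (hAc_mem d hd').1 o x (hjn c hc) (hjn d hd'))
  -- the other end of the edges at `o`
  let ν : α → V := fun c => if G.f c = o then G.g c else G.f c
  have hν : ∀ c ∈ M.E \ A, G.Jn c o (ν c) := by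
    intro c hc
    have h1 := (Gr.mem_star.1 (hso.symm ▸ hc)).2
    by_cases h2 : G.f c = o
    · exact Or.inl ⟨h2, by simp [ν, h2]⟩
    · exact Or.inr ⟨by simp [ν, h2], h1.resolve_left h2⟩
  have hνm : ∀ c ∈ M.E \ A, ν c ∈ ({p, q, r} : Finset V) := by
    intro c hc
    have h1 := hon.jn_mem (hAc_mem c hc).1 (hν c hc)
    by_contra h2
    have h3 : ν c ∉ W := by
      obtain ⟨-, -, -, h6, h7⟩ := hAc_ends c hc
      rcases hν c hc with ⟨h8, h9⟩ | ⟨h8, h9⟩
      · rw [← h9]; exact h7
      · rw [← h8]; exact h6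
    exact h1.2.2 (huniq _ h1.2.1 h3 h2).symm
  have hνi : Set.InjOn ν (M.E \ A : Finset α) := by
    intro c hc d hd' hcd
    have h1 := hν c hc
    have h2 := hν d hd'
    rw [← hcd] at h2
    exact hs c (hAc_mem c hc).1 d (hAc_mem d hd').1 o (ν c) h1 h2
  have hpqr3 : ({p, q, r} : Finset V).card = 3 :=
    Finset.card_eq_three.2 ⟨p, q, r, hpq, hpr, hqr, rfl⟩
  have hsurj : ∀ t ∈ ({p, q, r} : Finset V), ∃ c ∈ M.E \ A, G.Jn c o t := by
    have himg : (M.E \ A).image ν = {p, q, r} := by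
      apply Finset.eq_of_subset_of_card_le
      · intro t ht
        obtain ⟨c, hc, rfl⟩ := Finset.mem_image.1 ht
        exact hνm c hc
      · rw [Finset.card_image_of_injOn hνi, hpqr3]
        omega
    intro t ht
    rw [← himg] at ht
    obtain ⟨c, hc, rfl⟩ := Finset.mem_image.1 ht
    exact ⟨c, hc, hν c hc⟩
  obtain ⟨c, hc, jc⟩ := hsurj p (by simp)
  obtain ⟨d, hd', jd⟩ := hsurj q (by simp)
  obtain ⟨g, hg, jg⟩ := hsurj r (by simp)
  have hdist : ∀ {c d : α} {x y : V}, G.Jn c o x → G.Jn d o y → x ≠ y → x ≠ o → c ≠ d := by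
    intro c d x y h1 h2 hxy hxo hcd
    subst hcd
    rcases h1.ends h2 with ⟨-, h3⟩ | ⟨-, h3⟩
    · exact hxy h3
    · exact hxo h3
  have hpo : p ≠ o := fun h => hopqr (by rw [← h]; simp)
  have hqo : q ≠ o := fun h => hopqr (by rw [← h]; simp)
  have hro : r ≠ o := fun h => hopqr (by rw [← h]; simp)
  have hcd : c ≠ d := hdist jc jd hpq hpo
  have hcg : c ≠ g := hdist jc jg hpr hpo
  have hdg : d ≠ g := hdist jd jg hqr hqo
  have hAcs : M.E \ A = {c, d, g} := by
    refine (Finset.eq_of_subset_of_card_le ?_ ?_).symm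
    · intro z hz
      simp only [Finset.mem_insert, Finset.mem_singleton] at hz
      rcases hz with rfl | rfl | rfl
      · exact hc
      · exact hd'
      · exact hg
    · rw [Finset.card_eq_three.2 ⟨c, d, g, hcd, hcg, hdg, rfl⟩]
      exact hAc3.le
  have hE : M.E = {e, a₁, b₁, a₂, b₂, a₃, b₃, c, d, g} := by
    rw [← Finset.union_sdiff_of_subset hAE, hAcs, hA, hBs]
    simp only [Finset.insert_union, Finset.singleton_union]
  have hU : G.U = {w₁, w₂, w₃, p, q, r, o} := by
    ext x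
    constructor
    · intro hx
      by_cases h1 : x ∈ W
      · rw [hW] at h1
        simp only [Finset.mem_insert, Finset.mem_singleton] at h1
        rcases h1 with h1 | h1 | h1 <;> simp [h1]
      · by_cases h2 : x ∈ ({p, q, r} : Finset V)
        · simp only [Finset.mem_insert, Finset.mem_singleton] at h2
          rcases h2 with h2 | h2 | h2 <;> simp [h2]
        · rw [huniq x hx h1 h2]
          simp
    · intro hx
      simp only [Finset.mem_insert, Finset.mem_singleton] at hx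
      rcases hx with rfl | rfl | rfl | rfl | rfl | rfl | rfl
      · exact hWU hw₁
      · exact hWU hw₂
      · exact hWU hw₃
      · exact hpU.1
      · exact hqU.1
      · exact hrU.1
      · exact hoU
  have hU7 : G.U.card = 7 := by
    have hnW : ∀ {x : V}, x ∉ W → x ≠ w₁ ∧ x ≠ w₂ ∧ x ≠ w₃ := by
      intro x hx
      refine ⟨?_, ?_, ?_⟩
      · rintro rfl; exact hx hw₁
      · rintro rfl; exact hx hw₂
      · rintro rfl; exact hx hw₃
    obtain ⟨p1, p2, p3⟩ := hnW hpU.2
    obtain ⟨q1, q2, q3⟩ := hnW hqU.2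
    obtain ⟨r1, r2, r3⟩ := hnW hrU.2
    obtain ⟨o1, o2, o3⟩ := hnW hoW
    rw [hU]
    simp [Finset.card_insert_of_notMem, h12, h13, h23, hpq, hpr, hqr, hpo, hqo, hro,
      p1.symm, p2.symm, p3.symm, q1.symm, q2.symm, q3.symm, r1.symm, r2.symm, r3.symm,
      o1.symm, o2.symm, o3.symm]
  have hWT' : W ⊆ T := hWT
  have hTc := Finset.card_sdiff_add_card_eq_card hWT'
  obtain ⟨ι, hι, hM⟩ := k5s_of_graph hG hU hU7 hE (by omega) ja₁ jb₁ ja₂ jb₂ ja₃ jb₃ jc jd jg
    (T' := T \ W) (by rw [← hW, Finset.union_sdiff_of_subset hWT']) hT (by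
      obtain ⟨k, hk⟩ := hG.even
      rw [Nat.odd_iff]
      omega)
  exact ⟨ι, hι, by rw [← hM]; exact LM.IsMinor.refl M⟩

end TutCAux

open TutCAux

/-- No vertices of degree two, or `M*(K5)`. As in `Pool/Agent/H53/Sey/S1b2.lean`
(`Min1.deg_ge_three`), with `8 ≤ |M.E|` only. `N = M.del {e}` is good (`good_del_of_i4c` of
`Bixby.lean`, `Min0.card`, `Min0.i4c`); no loops, coloops, parallel elements; every vertex has
degree at least two (a vertex of degree one gives a cocycle of `M` of size at most two). Let `W` be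
the set of vertices of degree two; `W ⊆ T` (otherwise a cocycle of size two). Two vertices of
`W` are not adjacent (the three edges `X` have `lam_N X ≤ 1`, the complement has at least four
elements). `VC _ W` by `vc_of_good`; the contractions `M.con (cset ..)` are graphic
(`Min0.minor`), `coset` applies.
`|W| = 1, 2`: `M` is graphic (see `S1b2.lean`; different vertices of `W` have different
neighbourhoods because otherwise four edges with `lam_N ≤ 1` and at least three other elements).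
`|W| ≥ 4` impossible. `|W| = 3`: the neighbourhoods are `{p, q}, {q, r}, {r, p}`,
`T \ W ⊆ {p, q, r}`, `A = {e} ∪` the six edges at `W` has `M.lam A ≤ 2` (`GRep.lam_le`), so
`|M.E \ A| ≤ 3` by `I4c` (`|A| = 7`). No edge `c` joins two of `p, q, r`: with the two edges `a, b`
at the vertex of `W` with the same neighbours, `{a, b, c}` is a triangle and `{a, b, e}` a cocycle,
so `{a, b, c, e}` has `lam ≤ 2` and four elements, the complement has at least four. So every
edge outside `A` has an end outside `W ∪ {p, q, r}`, and such a vertex `o` has at least three edges,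
all outside `A`; so there is at most one such `o`; there is one since `p` has degree at least
three. Then `k5s_of_graph`. -/
theorem Min0.deg_or {M : BM α} (h : Min0 M) {e : α} (he : e ∈ M.E) {G : Gr α V} {T : Finset V}
    (hG : GRep M e G T) (hne : ∀ x ∈ G.U, (G.star (M.E \ {e}) x).Nonempty) :
    (∀ x ∈ G.U, 3 ≤ (G.star (M.E \ {e}) x).card) ∨ HasK5s M := by
  have hcard := h.card
  have h3 : M.Conn3 := h.i4c.1
  have hgood : Good (M.del {e}) := good_del_of_i4c h.i4c h.card he
  have hR : Rp (M.del {e}) G := hG.del_rp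
  have hNE : (M.del {e}).E = M.E \ {e} := rfl
  have hcardN : 7 ≤ (M.E \ {e}).card := by
    rw [Finset.card_sdiff_of_subset (Finset.singleton_subset_iff.2 he), Finset.card_singleton]
    omega
  have hon := hG.on
  have hs : G.Simple (M.E \ {e}) := simple_aux h3 (by omega) hG
  have hdeg : ∀ x ∈ G.U, 2 ≤ (G.star (M.E \ {e}) x).card ∧
      ((G.star (M.E \ {e}) x).card = 2 → x ∈ T) :=
    fun x hx => deg_aux h3 (by omega) hG (hne x hx)
  have hadj : ∀ w w', (G.star (M.E \ {e}) w).card = 2 → (G.star (M.E \ {e}) w').card = 2 →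
      ¬ G.Adj (M.E \ {e}) w w' := fun w w' hw hw' => nonadj hR hgood hs hcardN hw hw'
  haveI : Nonempty α := ⟨e⟩
  set W : Finset V := G.U.filter fun x => (G.star (M.E \ {e}) x).card = 2 with hW
  have hWm : ∀ w ∈ W, w ∈ G.U ∧ (G.star (M.E \ {e}) w).card = 2 := fun w hw => by
    rw [hW] at hw
    exact Finset.mem_filter.1 hw
  obtain ⟨k₀, k₁, n₀, n₁, hd⟩ := exists_deg2 hon hs (W := W) (fun w hw => (hWm w hw).1)
    (fun w hw => (hWm w hw).2) (fun w hw w' hw' => hadj w w' (hWm w hw).2 (hWm w' hw').2)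
  have hWT : ∀ w ∈ W, w ∈ T := fun w hw => (hdeg w (hWm w hw).1).2 (hWm w hw).2
  have hvc : G.VC (M.E \ {e}) W := vc_of_good hR hgood W (fun x hx hxW => by
    have h1 := (hdeg x hx).1
    have h2 : (G.star (M.E \ {e}) x).card ≠ 2 := fun h2 => hxW (by
      rw [hW]
      exact Finset.mem_filter.2 ⟨hx, h2⟩)
    rw [hNE]
    omega)
  by_cases hcon : ∀ x ∈ G.U, 3 ≤ (G.star (M.E \ {e}) x).card
  · exact Or.inl hcon
  right
  push Not at hcon
  obtain ⟨w₀, hw₀U, hw₀⟩ := hcon
  have hw₀W : w₀ ∈ W := by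
    rw [hW]
    refine Finset.mem_filter.2 ⟨hw₀U, ?_⟩
    have := (hdeg w₀ hw₀U).1
    omega
  have hng := h.ng
  -- the contractions
  have hcs : ∀ c : V → Bool, cset W k₀ k₁ c ⊆ M.E \ {e} := by
    intro c a ha
    obtain ⟨w, hw, rfl⟩ := Finset.mem_image.1 ha
    by_cases hc : c w
    · rw [if_pos hc]
      exact (k_mem hd hw).2
    · rw [if_neg hc]
      exact (k_mem hd hw).1
  have hgr : ∀ c : V → Bool, Graphic (M.con (cset W k₀ k₁ c)) := by
    intro c
    have h1 : (M.con (cset W k₀ k₁ c)).E ≠ M.E := by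
      rw [LM.con_E]
      intro h2
      have h3 : (if c w₀ then k₁ w₀ else k₀ w₀) ∈ cset W k₀ k₁ c :=
        Finset.mem_image.2 ⟨w₀, hw₀W, rfl⟩
      have h4 := (Finset.mem_sdiff.1 (hcs c h3)).1
      rw [← h2] at h4
      exact (Finset.mem_sdiff.1 h4).2 h3
    exact h.minor (M.isMinor_con _) h1
  have hT2 : ∀ c : V → Bool, (oi T (ret W n₀ n₁ c)).card ≤ 2 := by
    intro c
    rw [← retT_eq hon hd c hG.TU]
    exact coset hG hd hvc (fun x hx => hne x (Finset.mem_sdiff.1 hx).1) c (hgr c)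
  have hev : ¬ Odd T.card := Nat.not_odd_iff_even.2 hG.even
  have hid : ∀ S : Finset V, (∀ t ∈ S, t ∉ W) → oi S (ret W n₀ n₁ c0) = S := by
    intro S hS
    apply oi_id
    intro t ht
    unfold ret
    rw [if_neg (hS t ht)]
  have hnbh : ∀ w ∈ W, ∀ w' ∈ W, w ≠ w' → ({n₀ w, n₁ w} : Finset V) ≠ {n₀ w', n₁ w'} :=
    fun w hw w' hw' hww => nbh_ne hR hgood hcardN hd hw hw' hww
  -- three vertices
  have three : ∀ w ∈ W, ∀ w' ∈ W, ∀ w'' ∈ W, w ≠ w' → w ≠ w'' → w' ≠ w'' →
      ∃ p q r, p ≠ q ∧ p ≠ r ∧ q ≠ r ∧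
        ({n₀ w, n₁ w} : Finset V) ∪ {n₀ w', n₁ w'} ∪ {n₀ w'', n₁ w''} = {p, q, r} ∧
        oi (((T.erase w'').erase w').erase w) (ret W n₀ n₁ c0) ⊆ {p, q, r} := by
    intro w hw w' hw' w'' hw'' h1 h2 h4
    have hm'' := hWT w'' hw''
    have hm' : w' ∈ T.erase w'' := Finset.mem_erase.2 ⟨h4, hWT w' hw'⟩
    have hm : w ∈ (T.erase w'').erase w' :=
      Finset.mem_erase.2 ⟨h1, Finset.mem_erase.2 ⟨h2, hWT w hw⟩⟩
    apply finset_coset_three (hd.nn w hw) (hd.nn w' hw') (hd.nn w'' hw'') (hnbh w hw w' hw' h1)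
      (hnbh w hw w'' hw'' h2) (hnbh w' hw' w'' hw'' h4)
    · rw [odd_card_oi]
      have c1 := Finset.card_erase_add_one hm''
      have c2 := Finset.card_erase_add_one hm'
      have c3 := Finset.card_erase_add_one hm
      rw [← c1, ← c2, ← c3] at hev
      rw [Nat.odd_add_one, Nat.odd_add_one, Nat.odd_add_one, not_not, not_not] at hev
      exact hev
    · intro c hc c' hc' c'' hc''
      obtain ⟨b, rfl⟩ := exists_bool hc
      obtain ⟨b', rfl⟩ := exists_bool hc'
      obtain ⟨b'', rfl⟩ := exists_bool hc''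
      rw [← oi_three hw hw' hw'' h1 h2 h4 (hWT w hw) (hWT w' hw') hm'' b b' b'']
      exact hT2 _
  by_cases hWc : 3 ≤ W.card
  · -- at least three vertices of degree two
    by_cases hW4 : 4 ≤ W.card
    · -- four vertices
      exfalso
      obtain ⟨S, hSW, hS4⟩ := Finset.exists_subset_card_eq hW4
      let i4 := (Finset.equivFinOfCardEq hS4).symm
      have hi : Function.Injective fun i => (i4 i).1 := fun i j hij =>
        i4.injective (Subtype.ext hij)
      have hiW : ∀ i, (i4 i).1 ∈ W := fun i => hSW (i4 i).2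
      obtain ⟨p, q, r, hpq, hpr, hqr, hu, -⟩ := three _ (hiW 0) _ (hiW 1) _ (hiW 2)
        (fun h1 => absurd (hi h1) (by decide)) (fun h1 => absurd (hi h1) (by decide))
        (fun h1 => absurd (hi h1) (by decide))
      obtain ⟨p', q', r', hpq', hpr', hqr', hu', -⟩ := three _ (hiW 0) _ (hiW 1) _ (hiW 3)
        (fun h1 => absurd (hi h1) (by decide)) (fun h1 => absurd (hi h1) (by decide))
        (fun h1 => absurd (hi h1) (by decide))
      have hne01 := hnbh _ (hiW 0) _ (hiW 1) (fun h1 => absurd (hi h1) (by decide))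
      have s0 : ({n₀ (i4 0).1, n₁ (i4 0).1} : Finset V) ⊆ {p, q, r} := by
        rw [← hu]
        exact Finset.subset_union_left.trans Finset.subset_union_left
      have s1 : ({n₀ (i4 1).1, n₁ (i4 1).1} : Finset V) ⊆ {p, q, r} := by
        rw [← hu]
        exact Finset.subset_union_right.trans Finset.subset_union_left
      have s2 : ({n₀ (i4 2).1, n₁ (i4 2).1} : Finset V) ⊆ {p, q, r} := by
        rw [← hu]
        exact Finset.subset_union_right
      have s0' : ({n₀ (i4 0).1, n₁ (i4 0).1} : Finset V) ⊆ {p', q', r'} := by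
        rw [← hu']
        exact Finset.subset_union_left.trans Finset.subset_union_left
      have s1' : ({n₀ (i4 1).1, n₁ (i4 1).1} : Finset V) ⊆ {p', q', r'} := by
        rw [← hu']
        exact Finset.subset_union_right.trans Finset.subset_union_left
      have s3' : ({n₀ (i4 3).1, n₁ (i4 3).1} : Finset V) ⊆ {p', q', r'} := by
        rw [← hu']
        exact Finset.subset_union_right
      have e1 := pair_union hpq hpr hqr (hd.nn _ (hiW 0)) (hd.nn _ (hiW 1)) hne01 s0 s1
      have e2 := pair_union hpq' hpr' hqr' (hd.nn _ (hiW 0)) (hd.nn _ (hiW 1)) hne01 s0' s1'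
      rw [← e2, e1] at s3'
      refine pair_four hpq hpr hqr (x := fun i => n₀ (i4 i).1) (y := fun i => n₁ (i4 i).1)
        (fun i => hd.nn _ (hiW i)) ?_ ?_
      · intro i
        fin_cases i
        · exact s0
        · exact s1
        · exact s2
        · exact s3'
      · intro i j hij
        exact hnbh _ (hiW i) _ (hiW j) fun h1 => hij (hi h1)
    · -- exactly three vertices
      have hW3 : W.card = 3 := by omega
      obtain ⟨w, w', w'', h1, h2, h4, hWe⟩ := Finset.card_eq_three.1 hW3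
      have hw : w ∈ W := by rw [hWe]; simp
      have hw' : w' ∈ W := by rw [hWe]; simp
      have hw'' : w'' ∈ W := by rw [hWe]; simp
      obtain ⟨p, q, r, hpq, hpr, hqr, hu, hsub⟩ := three w hw w' hw' w'' hw'' h1 h2 h4
      rw [hid _ (by
        intro t ht htW
        simp only [Finset.mem_erase] at ht
        rw [hWe] at htW
        simp only [Finset.mem_insert, Finset.mem_singleton] at htW
        tauto)] at hsub
      have hnb : ∀ x ∈ W, n₀ x ∈ ({p, q, r} : Finset V) ∧ n₁ x ∈ ({p, q, r} : Finset V) := by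
        intro x hx
        rw [hWe] at hx
        simp only [Finset.mem_insert, Finset.mem_singleton] at hx
        rw [← hu]
        rcases hx with rfl | rfl | rfl <;> simp
      have hsubs : ∀ x ∈ W, ({n₀ x, n₁ x} : Finset V) ⊆ {p, q, r} := by
        intro x hx y hy
        simp only [Finset.mem_insert, Finset.mem_singleton] at hy
        rcases hy with rfl | rfl
        · exact (hnb x hx).1
        · exact (hnb x hx).2
      obtain ⟨p', q', r', g1, g2, g3, g4, g5, g6, g7⟩ := triangle hpq hpr hqr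
        (two_of_three (hd.nn w hw) (hsubs w hw)) (two_of_three (hd.nn w' hw') (hsubs w' hw'))
        (two_of_three (hd.nn w'' hw'') (hsubs w'' hw'')) (hnbh w hw w' hw' h1)
        (hnbh w hw w'' hw'' h2) (hnbh w' hw' w'' hw'' h4)
      have hUW : ∀ x ∈ ({p', q', r'} : Finset V), x ∈ G.U ∧ x ∉ W := by
        intro x hx
        rw [g4, ← hu] at hx
        simp only [Finset.mem_union, Finset.mem_insert, Finset.mem_singleton] at hx
        have u1 := n_U hon hd hw
        have u2 := n_U hon hd hw'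
        have u3 := n_U hon hd hw''
        rcases hx with ((rfl | rfl) | (rfl | rfl)) | (rfl | rfl)
        · exact ⟨u1.1, hd.nW₀ _ hw⟩
        · exact ⟨u1.2, hd.nW₁ _ hw⟩
        · exact ⟨u2.1, hd.nW₀ _ hw'⟩
        · exact ⟨u2.2, hd.nW₁ _ hw'⟩
        · exact ⟨u3.1, hd.nW₀ _ hw''⟩
        · exact ⟨u3.2, hd.nW₁ _ hw''⟩
      obtain ⟨a₁, b₁, st₁, ab₁, ja₁, jb₁⟩ := pick hd hw g1 g5
      obtain ⟨a₂, b₂, st₂, ab₂, ja₂, jb₂⟩ := pick hd hw' g3 g6
      obtain ⟨a₃, b₃, st₃, ab₃, ja₃, jb₃⟩ := pick hd hw'' g2.symm g7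
      refine three_case h.i4c h.card he hG hs hd hWT (fun x hx hxW => ?_) hWe h1 h2 h4 g1 g2 g3
        (hUW p' (by simp)) (hUW q' (by simp)) (hUW r' (by simp)) st₁ ab₁ ja₁ jb₁ st₂ ab₂ ja₂ jb₂
        st₃ ab₃ ja₃ jb₃ ?_
      · have h5 := (hdeg x hx).1
        have h6 : (G.star (M.E \ {e}) x).card ≠ 2 := fun h2 => hxW (by
          rw [hW]
          exact Finset.mem_filter.2 ⟨hx, h2⟩)
        omega
      · rw [g4]
        refine subset_trans ?_ hsub
        intro t ht
        rw [Finset.mem_sdiff, hWe] at ht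
        simp only [Finset.mem_insert, Finset.mem_singleton, not_or] at ht
        simp only [Finset.mem_erase]
        tauto
  · exfalso
    by_cases hWc2 : 2 ≤ W.card
    · -- two vertices
      have hW2 : W.card = 2 := by omega
      obtain ⟨w, w', h1, hWe⟩ := Finset.card_eq_two.1 hW2
      have hw : w ∈ W := by rw [hWe]; simp
      have hw' : w' ∈ W := by rw [hWe]; simp
      have hm' := hWT w' hw'
      have hm : w ∈ T.erase w' := Finset.mem_erase.2 ⟨h1, hWT w hw⟩
      have hT0 : oi ((T.erase w').erase w) (ret W n₀ n₁ c0) = (T.erase w').erase w := hid _ (by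
        intro t ht htW
        simp only [Finset.mem_erase] at ht
        rw [hWe] at htW
        simp only [Finset.mem_insert, Finset.mem_singleton] at htW
        tauto)
      have hodd : Even ((T.erase w').erase w).card := by
        have c1 := Finset.card_erase_add_one hm'
        have c2 := Finset.card_erase_add_one hm
        rw [← c1, ← c2, Nat.odd_add_one, Nat.odd_add_one, not_not] at hev
        exact Nat.not_odd_iff_even.1 hev
      have hTe : T = {w, w'} ∆ ((T.erase w').erase w) := by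
        have hwT := hWT w hw
        ext x
        rw [Finset.mem_symmDiff]
        simp only [Finset.mem_insert, Finset.mem_singleton, Finset.mem_erase]
        by_cases hx : x = w
        · rw [hx]; simp [hwT]
        · by_cases hx' : x = w'
          · rw [hx']; simp [hm']
          · simp [hx, hx']
      have hch : ∀ b b' : Bool, ((T.erase w').erase w ∆ {if b then n₁ w else n₀ w} ∆
          {if b' then n₁ w' else n₀ w'}).card ≤ 2 := by
        intro b b'
        rw [← hT0, ← oi_two hw hw' h1 (hWT w hw) hm' b b']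
        exact hT2 _
      have key := finset_coset_two (hd.nn w hw) (hd.nn w' hw') (hnbh w hw w' hw' h1) hodd
        (hch false false) (hch false true) (hch true false) (hch true true)
      have fin2 : ∀ G' : Gr α V, GRep M e G' {w, w'} → False := by
        intro G' hG'
        exact hng (hG'.graphic_of_card_le_two Finset.card_le_two)
      rcases key with h5 | h5 | h5 | h5
      · rw [h5] at hTe
        rw [hTe] at hG
        apply fin2 G
        rw [← Finset.bot_eq_empty, symmDiff_bot] at hG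
        exact hG
      · obtain ⟨G', hG'⟩ := swap_once hG hd hw (hWT w hw)
        apply fin2 G'
        rw [hTe, h5, symmDiff_symmDiff_cancel_right] at hG'
        exact hG'
      · obtain ⟨G', hG'⟩ := swap_once hG hd hw' hm'
        apply fin2 G'
        rw [hTe, h5, symmDiff_symmDiff_cancel_right] at hG'
        exact hG'
      · obtain ⟨G', hG'⟩ := swap_twice hG hd hw hw' h1 (hWT w hw) hm'
        apply fin2 G'
        rw [hTe, h5, symmDiff_assoc, symmDiff_symmDiff_cancel_right] at hG'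
        exact hG'
    · -- one vertex
      have hW1 : W.card = 1 := by
        have := Finset.card_pos.2 ⟨w₀, hw₀W⟩
        omega
      obtain ⟨w, hWe⟩ := Finset.card_eq_one.1 hW1
      have hw : w ∈ W := by rw [hWe]; simp
      have hm := hWT w hw
      have hT0 : oi (T.erase w) (ret W n₀ n₁ c0) = T.erase w := hid _ (by
        intro t ht htW
        rw [hWe, Finset.mem_singleton] at htW
        exact (Finset.mem_erase.1 ht).1 htW)
      have hc1 := Finset.card_erase_add_one hm
      have hodd : Odd (T.erase w).card := by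
        rw [← hc1, Nat.odd_add_one, not_not] at hev
        exact hev
      have hch : ∀ b : Bool, (T.erase w ∆ {if b then n₁ w else n₀ w}).card ≤ 2 := by
        intro b
        rw [← hT0, ← oi_one hw hm b]
        exact hT2 _
      rcases finset_coset_one (hd.nn w hw) hodd (hch false) (hch true) with h5 | ⟨z, hz0, hz1, h5⟩
      · exact hng (hG.graphic_of_card_le_two (by omega))
      · obtain ⟨G', hG'⟩ := swap_once hG hd hw hm
        apply hng (hG'.graphic_of_card_le_two _)
        have hTe : T ∆ {n₀ w, n₁ w} = {w, z} := by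
          have h6 : T = insert w (T.erase w) := (Finset.insert_erase hm).symm
          have hn0 : n₀ w ≠ w := fun h7 => hd.nW₀ w hw (h7.symm ▸ hw)
          have hn1 : n₁ w ≠ w := fun h7 => hd.nW₁ w hw (h7.symm ▸ hw)
          rw [h6, h5]
          ext x
          rw [Finset.mem_symmDiff]
          simp only [Finset.mem_insert, Finset.mem_singleton]
          constructor
          · rintro (⟨h7, h8⟩ | ⟨h7, h8⟩)
            · tauto
            · tauto
          · rintro (rfl | rfl)
            · left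
              exact ⟨Or.inl rfl, fun h7 => by
                rcases h7 with h7 | h7
                · exact hn0 h7.symm
                · exact hn1 h7.symm⟩
            · left
              exact ⟨by tauto, fun h7 => by
                rcases h7 with h7 | h7
                · exact hz0 h7
                · exact hz1 h7⟩
        rw [hTe]
        exact Finset.card_le_two


end Pool.Agent.H87.Sey
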