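import Pool.Agent.H87.Sey.TutC

/-!
# Tutte's theorem, part C: 3-connected graft representations
(Seymour project, MP_dbe88a_co, job S87-32c)
-/

set_option autoImplicit false

namespace Pool.Agent.H87.Sey

open Pool.Agent.H63.Sey Pool.Agent.H53.Sey

universe u v

variable {α : Type u} [DecidableEq α] {V : Type v} [DecidableEq V]

namespace TutC3

/-- the value of a cocycle at an edge -/
lemma vec_edge {M : BM α} {e : α} {G : Gr α V} {T : Finset V} {φ : V → ZMod 2} {a : α}
    (ha : a ∈ M.E \ {e}) {x y : V} (hJ : G.Jn a x y) : G.vec M.E e T φ a = φ x + φ y := by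
  rw [Finset.mem_sdiff, Finset.mem_singleton] at ha
  rw [Gr.vec, if_neg ha.2, if_pos ha.1]
  rcases hJ with ⟨h1, h2⟩ | ⟨h1, h2⟩
  · rw [h1, h2]
  · rw [h1, h2, add_comm]

/-- no parallel elements: the graph is simple -/
lemma simple_of_min0 {M : BM α} (h : Min0 M) {e : α} {G : Gr α V} {T : Finset V}
    (hG : GRep M e G T) : G.Simple (M.E \ {e}) := by
  intro a ha b hb x y hJa hJb
  by_contra hab
  obtain ⟨z, hz, hzab⟩ := h.no_parallel (Finset.mem_sdiff.1 ha).1 (Finset.mem_sdiff.1 hb).1 hab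
  obtain ⟨φ, rfl⟩ := (hG.mem z).1 hz
  exact hzab ((vec_edge ha hJa).trans (vec_edge hb hJb).symm)

/-- cycles of the deletion have at least three elements -/
lemma cycle_three {M : BM α} (h : Min0 M) {e : α} {A : Finset α} (hA : A ⊆ (M.del {e}).E)
    (hne : A.Nonempty) (hx : ind A ∈ (M.del {e}).dual.D) : 3 ≤ A.card := by
  by_contra hcon
  rw [LM.mem_dual] at hx
  have hsum : ∀ x ∈ M.D, ∑ a ∈ A, x a = 0 := by
    intro x hxD
    have h1 := hx.2 (res (ZMod 2) (M.E \ {e}) x) (Submodule.mem_map_of_mem hxD)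
    rw [← h1]
    have h2 : ∑ a ∈ (M.del {e}).E, res (ZMod 2) (M.E \ {e}) x a * ind A a =
        ∑ a ∈ A, res (ZMod 2) (M.E \ {e}) x a * ind A a := by
      symm
      refine Finset.sum_subset hA fun a _ ha => ?_
      simp [ha]
    rw [h2]
    refine Finset.sum_congr rfl fun a ha => ?_
    have h3 : a ∈ M.E \ {e} := hA ha
    rw [res_apply, if_pos h3, ind_apply, if_pos ha, mul_one]
  have hpos := hne.card_pos
  have hcases : A.card = 1 ∨ A.card = 2 := by omega
  rcases hcases with h1 | h1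
  · obtain ⟨a, rfl⟩ := Finset.card_eq_one.1 h1
    have haE : a ∈ M.E \ {e} := hA (Finset.mem_singleton_self _)
    obtain ⟨x, hxD, hxa⟩ := h.no_loop (Finset.mem_sdiff.1 haE).1
    have h2 := hsum x hxD
    rw [Finset.sum_singleton] at h2
    exact hxa h2
  · obtain ⟨a, b, hab, rfl⟩ := Finset.card_eq_two.1 h1
    have haE : a ∈ M.E \ {e} := hA (by simp)
    have hbE : b ∈ M.E \ {e} := hA (by simp)
    obtain ⟨x, hxD, hxa⟩ := h.no_parallel (Finset.mem_sdiff.1 haE).1 (Finset.mem_sdiff.1 hbE).1 hab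
    have h2 := hsum x hxD
    rw [Finset.sum_pair hab] at h2
    exact hxa (CharTwo.add_eq_zero.1 h2)

/-- a 3-connected graft representation with `|T| ≥ 4` (`exists_gRep`, `vc_of_good`, simple because
`M` has no parallel elements; `GRep.graphic_of_card_le_two`) -/
theorem exists_g3 {M : BM α} (h : Min0 M) {e : α} (he : e ∈ M.E) (hk : ¬ HasK5s M) :
    (M.del {e}).Conn3 ∧ ∃ (n : ℕ) (G : Gr α (Fin n)) (T : Finset (Fin n)), G3 M e G T ∧
      4 ≤ T.card := by
  have hc : ind {e} ∉ M.D := by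
    intro h1
    refine h.no_coloop he ?_
    convert h1 using 1
    funext c
    simp [ind_apply]
  obtain ⟨n, G, T, hG, hne⟩ := exists_gRep (h.del e he) he hc
    (fun a ha => h.no_loop (Finset.mem_sdiff.1 ha).1)
  have hdeg : ∀ x ∈ G.U, 3 ≤ (G.star (M.E \ {e}) x).card := by
    rcases h.deg_or he hG hne with h1 | h1
    · exact h1
    · exact absurd h1 hk
  have hrp : Rp (M.del {e}) G := hG.del_rp
  have hgood : Pool.Agent.H53.Sey.Good (M.del {e}) :=
    Pool.Agent.H87.Sey.good_del_of_i4c h.i4c h.card he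
  have hsimple : G.Simple (M.E \ {e}) := simple_of_min0 h hG
  refine ⟨conn3_of_good hgood (fun A hA hAne hx => cocycle_two_of_deg hrp hgood hdeg hsimple hA hAne hx)
    (fun A hA hAne hx => cycle_three h hA hAne hx), n, G, T,
    ⟨hG, vc_of_good hrp hgood ∅ (fun x hx _ => hdeg x hx), hdeg, hsimple⟩, ?_⟩
  by_contra hT
  have h2 : T.card ≤ 2 := by
    obtain ⟨k, hk⟩ := hG.even
    omega
  exact h.ng (hG.graphic_of_card_le_two h2)

end TutC3

end Pool.Agent.H87.Sey
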